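import Pool.Agent.MP_9ab903_nt.AN.A8
import Pool.Agent.MP_9ab903_nt.A3.A3

set_option autoImplicit false

open NumberField CM27
open scoped ComplexConjugate Classical

namespace R3S

/-! ## [RS-D0] the square class of the discriminant (file D0.lean) -/

theorem d0_conj_w : conj w = -1 - w := by
  apply Complex.ext
  · rw [Complex.conj_re, Complex.sub_re, Complex.neg_re, Complex.one_re, w_re]; norm_num
  · rw [Complex.conj_im, Complex.sub_im, Complex.neg_im, Complex.one_im]; ring

/-- The permutation of the embeddings induced by an automorphism of `ℂ`. -/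
noncomputable def d0_perm (L : Type) [Field L] [NumberField L] (τ : ℂ ≃+* ℂ) :
    Equiv.Perm (L →+* ℂ) where
  toFun := fun g => (τ : ℂ →+* ℂ).comp g
  invFun := fun g => (τ.symm : ℂ →+* ℂ).comp g
  left_inv := fun g => by ext x; simp
  right_inv := fun g => by ext x; simp

theorem d0_perm_apply (L : Type) [Field L] [NumberField L] (τ : ℂ ≃+* ℂ) (g : L →+* ℂ) (x : L) :
    d0_perm L τ g x = τ (g x) := rfl

theorem d0_perm_pow (L : Type) [Field L] [NumberField L] (τ : ℂ ≃+* ℂ) (k : ℕ) (g : L →+* ℂ)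
    (x : L) : ((d0_perm L τ) ^ k) g x = (⇑τ)^[k] (g x) := by
  induction k generalizing g with
  | zero => simp
  | succ k ih =>
    rw [pow_succ, Equiv.Perm.mul_apply, ih, Function.iterate_succ_apply, d0_perm_apply]

theorem d0_sign {G : Type} [Fintype G] [DecidableEq G] (π : Equiv.Perm G) (k : ℕ) (hk : Odd k)
    (h : π ^ k = 1) : Equiv.Perm.sign π = 1 := by
  have h3 : Equiv.Perm.sign π ^ k = 1 := by
    rw [← map_pow, h, map_one]
  rcases Int.units_eq_one_or (Equiv.Perm.sign π) with h4 | h4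
  · exact h4
  · rw [h4, hk.neg_one_pow] at h3
    exact absurd h3 (by decide)

/-- Let `D` be the determinant of the matrix `(σ (bᵢ))`, `σ : L →+* ℂ`, `bᵢ` an integral basis
(`Algebra.discr_eq_det_embeddingsMatrixReindex_pow_two`, `NumberField.coe_discr`): `D² = discr L`. An automorphism `τ` of
`ℂ` permutes the `σ` (`σ ↦ τ ∘ σ`), so `τ D = sign · D` with the sign of this permutation. If `τ w = w` the `k`-th
power of the permutation is trivial by `h`, so the sign is `1` (`k` odd) and `τ D = D`. See `SB3.discr_sq_of_odd`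
(T3/T9.lean) for this kind of argument. Let `D' = conj D`. If `τ w = conj w` then `τ ∘ conj` fixes `w` (`conj` as a
`ℂ ≃+* ℂ`, see `gal_XX` in A3/A3.lean), so `τ D' = D`, and also `τ D = D'`: (`conj ∘ τ` fixes `w`, so `conj (τ D) = D`).
Every `τ` satisfies `τ w = w` or `τ w = conj w`. Now `D'² = conj (discr L) = D²`. If `D' = D` then `D` is fixed by all `τ`, so
rational (`fixed_rat` in AN/A8.lean; `D` is algebraic) and integral over `ℤ`, so `D = a`, `discr L = a²`. If `D' = -D`
then `(2 w + 1) D` is fixed by all `τ` (`τ (2 w + 1) = ± (2 w + 1)`, `conj w = -1 - w`), so it is a rational number `q`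
and `-3 discr L = q²`; `q` is integral, so `3 ∣ q`, `q = 3 a`, `discr L = -3 a²`. -/
theorem discr_of_odd (L : Type) [Field L] [NumberField L] (k : ℕ) (hk : Odd k)
    (h : ∀ τ : ℂ ≃+* ℂ, τ w = w → ∀ (σ : L →+* ℂ) (x : L), (⇑τ)^[k] (σ x) = σ x) :
    ∃ a : ℤ, discr L = a ^ 2 ∨ discr L = -3 * a ^ 2 := by
  have hc2 : Fintype.card (Module.Free.ChooseBasisIndex ℤ (𝓞 L)) = Fintype.card (L →+* ℂ) := by
    rw [NumberField.Embeddings.card, ← RingOfIntegers.rank L,
      Module.finrank_eq_card_chooseBasisIndex]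
  let e : Module.Free.ChooseBasisIndex ℤ (𝓞 L) ≃ (L →+* ℂ) := Fintype.equivOfCardEq hc2
  let e2 : (L →+* ℂ) ≃ (L →ₐ[ℚ] ℂ) := RingHom.equivRatAlgHom L ℂ
  let ω : (L →+* ℂ) → L := (integralBasis L) ∘ e.symm
  have hd : ((discr L : ℤ) : ℚ) = Algebra.discr ℚ ω := by
    rw [coe_discr]
    exact (Algebra.discr_reindex (A := ℚ) (b := integralBasis L) e).symm
  set M : Matrix (L →+* ℂ) (L →+* ℂ) ℂ := Matrix.of fun i σ => σ (ω i) with hM
  have hMM : ((discr L : ℤ) : ℂ) = M.det ^ 2 := by
    have h1 := Algebra.discr_eq_det_embeddingsMatrixReindex_pow_two ℚ ℂ ω e2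
    rw [← hd] at h1
    have h2 : Algebra.embeddingsMatrixReindex ℚ ℂ ω e2 = M := by
      ext i j
      rfl
    rw [h2] at h1
    simpa using h1
  have hfix : ∀ τ : ℂ ≃+* ℂ, τ w = w → τ M.det = M.det := by
    intro τ hτ
    have h1 : τ M.det = (M.submatrix id (d0_perm L τ)).det := by
      change (τ : ℂ →+* ℂ) M.det = _
      rw [RingHom.map_det]
      congr 1
    have h2 : (d0_perm L τ) ^ k = 1 := by
      ext g x
      rw [d0_perm_pow, h τ hτ]
      rfl
    rw [h1, Matrix.det_permute', d0_sign _ k hk h2]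
    simp
  have hcases : ∀ τ : ℂ ≃+* ℂ, τ w = w ∨ τ w = conj w := by
    intro τ
    have hx : τ w * τ w = -1 - τ w := by
      rw [← map_mul, w_sq, map_sub, map_neg, map_one]
    exact a7_w_cases (τ w) hx
  have hfix2 : ∀ τ : ℂ ≃+* ℂ, τ w = conj w → τ (conj M.det) = M.det := by
    intro τ hτ
    set τ' : ℂ ≃+* ℂ := (starRingAut : ℂ ≃+* ℂ).trans τ with hτ'
    have hτa : ∀ x, τ' x = τ (conj x) := fun x => rfl
    have hτw : τ' w = w := by
      rw [hτa, d0_conj_w, map_sub, map_neg, map_one, hτ, d0_conj_w]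
      ring
    have := hfix τ' hτw
    rwa [hτa] at this
  have hcc : conj M.det ^ 2 = M.det ^ 2 := by
    rw [← map_pow, ← hMM]
    simp
  have hrat : ∀ (z : ℂ) (m : ℤ), z ^ 2 = m → (∀ τ : ℂ ≃+* ℂ, τ z = z) → ∃ a : ℤ, (a : ℂ) = z := by
    intro z m hz hτ
    have hint : IsIntegral ℤ z := by
      apply IsIntegral.of_pow (n := 2) (by norm_num)
      rw [hz]
      exact isIntegral_algebraMap (R := ℤ) (A := ℂ) (x := m)
    have halg : IsAlgebraic ℚ z := (hint.tower_top (A := ℚ)).isAlgebraic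
    obtain ⟨q, hq⟩ := fixed_rat z halg hτ
    have hqi : IsIntegral ℤ q := by
      rw [← hq] at hint
      have : IsIntegral ℤ (algebraMap ℚ ℂ q) := by simpa using hint
      exact (isIntegral_algebraMap_iff (FaithfulSMul.algebraMap_injective ℚ ℂ)).1 this
    obtain ⟨m', hm'⟩ := IsIntegrallyClosed.isIntegral_iff.1 hqi
    refine ⟨m', ?_⟩
    rw [← hq, ← hm']
    simp
  rcases sq_eq_sq_iff_eq_or_eq_neg.1 hcc with hc | hc
  · obtain ⟨a, ha⟩ := hrat M.det (discr L) hMM.symm (fun τ => by
      rcases hcases τ with h1 | h1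
      · exact hfix τ h1
      · have := hfix2 τ h1
        rwa [hc] at this)
    refine ⟨a, Or.inl ?_⟩
    have : ((discr L : ℤ) : ℂ) = ((a ^ 2 : ℤ) : ℂ) := by
      rw [hMM, ← ha]; push_cast; rfl
    exact_mod_cast this
  · have h3 : (2 * w + 1) ^ 2 = (-3 : ℂ) := by
      have := w_sq
      linear_combination 4 * this
    have hz : ((2 * w + 1) * M.det) ^ 2 = ((-3 * discr L : ℤ) : ℂ) := by
      rw [mul_pow, h3, ← hMM]; push_cast; rfl
    obtain ⟨a, ha⟩ := hrat ((2 * w + 1) * M.det) (-3 * discr L) hz (fun τ => by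
      rcases hcases τ with h1 | h1
      · rw [map_mul, map_add, map_mul, h1, hfix τ h1, map_ofNat, map_one]
      · have h5 := hfix2 τ h1
        rw [hc, map_neg] at h5
        have h6 : τ M.det = -M.det := by linear_combination -h5
        rw [map_mul, map_add, map_mul, h1, h6, map_ofNat, map_one, d0_conj_w]
        ring)
    have h7 : a ^ 2 = -3 * discr L := by
      have : ((a ^ 2 : ℤ) : ℂ) = ((-3 * discr L : ℤ) : ℂ) := by
        rw [← hz, ← ha]; push_cast; rfl
      exact_mod_cast this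
    have h8 : (3 : ℤ) ∣ a := by
      apply Int.prime_three.dvd_of_dvd_pow (n := 2)
      rw [h7]
      exact ⟨-discr L, by ring⟩
    obtain ⟨b, rfl⟩ := h8
    refine ⟨b, Or.inr ?_⟩
    have : 3 * (discr L + 3 * b ^ 2) = 0 := by linear_combination h7
    have := (mul_eq_zero.1 this).resolve_left (by norm_num)
    linear_combination this

end R3S
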