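import Pool.Agent.MP_9ab903_nt.RS.TDefs

set_option autoImplicit false

open NumberField IsDedekindDomain
open CM27 CMT CF BS3 RF
open scoped Classical

namespace R3S

/-! ## [RS-D1] the 3-part of the discriminant of `F ∋ ω` (file D1.lean) -/

/-- `|D_F| = N(𝔇_{F/K}) |D_K|^{[F : K]}` (`NumberField.natAbs_discr_eq_absNorm_differentIdeal_mul_natAbs_discr_pow`),
`|D_K| = 3` (`CMT.abs_discr` in MP_dfae13_nt/T/J6.lean). `3` does not divide `N(𝔇)`: otherwise a prime `P` of
`F` above `3` divides `𝔇` (`Ideal.absNorm` is multiplicative and `N P` is a power of the prime below `P`; or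
`Ideal.exists_isMaximal_dvd_of_dvd_absNorm`), but `P` is unramified over `K` (`B.unr`, `3 ∤ m`: the primes dividing
`m` are not in a place above `3`, see `RF.exists_three`), so `Algebra.IsUnramifiedAt (𝓞 K) P`
(residue field extensions are separable, ramification index `1`) and `not_dvd_differentIdeal_iff`. -/
theorem Base.discr_three {K F : Type} [Field K] [NumberField K] [IsCyclotomicExtension {3} ℚ K]
    [Field F] [NumberField F] [Algebra K F] {m n : ℕ} (B : Base m n K F) :
    padicValNat 3 (discr F).natAbs = 3 ^ n := by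
  have : Fact (Nat.Prime 3) := ⟨Nat.prime_three⟩
  have hK : (NumberField.discr K).natAbs = 3 := by
    have h1 : (NumberField.discr K).natAbs = 3 ^ Nat.totient 3 / ∏ p ∈ Nat.primeFactors 3,
        p ^ (Nat.totient 3 / (p - 1)) := IsCyclotomicExtension.Rat.natAbs_discr 3 K
    rw [Nat.Prime.primeFactors Nat.prime_three, Finset.prod_singleton,
      Nat.totient_prime Nat.prime_three] at h1
    norm_num at h1
    exact h1
  have hmain := NumberField.natAbs_discr_eq_absNorm_differentIdeal_mul_natAbs_discr_pow K (𝓞 K)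
    F (𝓞 F)
  rw [hK, B.deg] at hmain
  have hD : ¬ 3 ∣ Ideal.absNorm (differentIdeal (𝓞 K) (𝓞 F)) := by
    intro h
    obtain ⟨P, hPm, hPu, hPd⟩ := Ideal.exists_isMaximal_dvd_of_dvd_absNorm' Nat.prime_three _ h
    have h3P : (3 : 𝓞 F) ∈ P := by
      have h1 : (3 : ℤ) ∈ P.under ℤ := by
        rw [hPu]
        exact Ideal.mem_span_singleton_self _
      rw [Ideal.under_def, Ideal.mem_comap] at h1
      simpa using h1
    have hP0 : P ≠ ⊥ := by
      rintro rfl
      rw [Ideal.mem_bot] at h3P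
      have h4 : ((3 : ℕ) : 𝓞 F) ≠ 0 := Nat.cast_ne_zero.2 (by norm_num)
      exact h4 (by exact_mod_cast h3P)
    let PP : HeightOneSpectrum (𝓞 F) := ⟨P, hPm.isPrime, hP0⟩
    have hv0 : P.under (𝓞 K) ≠ ⊥ := mt Ideal.eq_bot_of_comap_eq_bot hP0
    let v : HeightOneSpectrum (𝓞 K) := ⟨P.under (𝓞 K), inferInstance, hv0⟩
    have hlo : PP.asIdeal.LiesOver v.asIdeal := ⟨rfl⟩
    have hv3 : (3 : 𝓞 K) ∈ v.asIdeal := by
      change (3 : 𝓞 K) ∈ P.under (𝓞 K)
      rw [Ideal.under_def, Ideal.mem_comap, map_ofNat]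
      exact h3P
    have he : P.ramificationIdx (𝓞 K) = 1 := by
      refine B.unr v PP hlo fun p hp hpm hpv => ?_
      have hcop : Nat.Coprime p 3 := by
        rw [Nat.coprime_primes hp Nat.prime_three]
        rintro rfl
        have := B.good.2 3 hp hpm
        norm_num at this
      have h1 : IsCoprime (p : ℤ) (3 : ℤ) := by
        exact_mod_cast Nat.isCoprime_iff_coprime.2 hcop
      obtain ⟨a, b, hab⟩ := h1
      apply v.isPrime.ne_top
      rw [Ideal.eq_top_iff_one]
      have h2 : (1 : 𝓞 K) = (a : 𝓞 K) * (p : 𝓞 K) + (b : 𝓞 K) * 3 := by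
        exact_mod_cast congrArg (Int.cast : ℤ → 𝓞 K) hab.symm
      rw [h2]
      exact v.asIdeal.add_mem (v.asIdeal.mul_mem_left _ hpv) (v.asIdeal.mul_mem_left _ hv3)
    have hfin : Finite (𝓞 K ⧸ P.under (𝓞 K)) :=
      Ring.HasFiniteQuotients.finiteQuotient hv0
    have hun : Algebra.IsUnramifiedAt (𝓞 K) P := by
      rwa [← Ideal.ramificationIdx_eq_one_iff]
    exact (not_dvd_differentIdeal_iff.2 hun) hPd
  have h0 : Ideal.absNorm (differentIdeal (𝓞 K) (𝓞 F)) ≠ 0 := by
    intro h
    rw [h] at hD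
    exact hD (dvd_zero _)
  rw [hmain, padicValNat.mul h0 (by positivity), padicValNat.eq_zero_of_not_dvd hD,
    padicValNat.prime_pow, zero_add]

end R3S
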