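import Pool.Agent.MP_9ab903_nt.RS.TDefs

set_option autoImplicit false

open NumberField IsDedekindDomain
open CM27 CMT CF BS3 RF
open scoped Classical

namespace R3S

/-! ## [RS-D2] automorphisms of `ℂ` and embeddings of `F` (file D2.lean) -/

theorem d2_orbit {K F : Type} [Field K] [Field F] [Algebra K F] [FiniteDimensional K F]
    (hgal : IsGalois K F) (τ : ℂ ≃+* ℂ) (σ : F →+* ℂ)
    (hτ : ∀ κ : K, τ (σ (algebraMap K F κ)) = σ (algebraMap K F κ)) (x : F) :
    (⇑τ)^[Module.finrank K F] (σ x) = σ x := by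
  let _ : Algebra F ℂ := σ.toAlgebra
  let _ : Algebra K ℂ := (σ.comp (algebraMap K F)).toAlgebra
  have : IsScalarTower K F ℂ := IsScalarTower.of_algebraMap_eq fun _ => rfl
  let φ : ℂ →ₐ[K] ℂ := { (τ : ℂ →+* ℂ) with commutes' := fun κ => hτ κ }
  let g : F ≃ₐ[K] F := AlgHom.restrictNormal' φ F
  have hg : ∀ y : F, τ (σ y) = σ (g y) := by
    intro y
    exact (AlgHom.restrictNormal_commutes φ F y).symm
  have hit : ∀ (j : ℕ) (y : F), (⇑τ)^[j] (σ y) = σ ((g ^ j) y) := by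
    intro j
    induction j with
    | zero =>
      intro y
      rfl
    | succ j ih =>
      intro y
      rw [Function.iterate_succ_apply, hg, ih, pow_succ, AlgEquiv.mul_apply]
  have hcard : g ^ Module.finrank K F = 1 := by
    rw [← IsGalois.card_aut_eq_finrank K F]
    exact pow_card_eq_one'
  rw [hit, hcard]
  rfl

theorem d2_fix {K : Type} [Field K] [NumberField K] [IsCyclotomicExtension {3} ℚ K] (τ : ℂ ≃+* ℂ)
    (hτ : τ w = w) (σ : K →+* ℂ) (κ : K) : τ (σ κ) = σ κ := by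
  let ζ : K := IsCyclotomicExtension.zeta 3 ℚ K
  have hζ : IsPrimitiveRoot ζ 3 := IsCyclotomicExtension.zeta_spec 3 ℚ K
  have h1 : ζ ^ 2 + ζ + 1 = 0 := by
    have h2 := hζ.geom_sum_eq_zero (by norm_num)
    rw [Finset.sum_range_succ, Finset.sum_range_succ, Finset.sum_range_one] at h2
    linear_combination h2
  have h2 : σ ζ = w ∨ σ ζ = -1 - w := by
    have h3 : σ ζ ^ 2 + σ ζ + 1 = 0 := by
      rw [← map_pow, ← map_add, ← map_one σ, ← map_add, h1, map_zero]
    have h4 : (σ ζ - w) * (σ ζ - (-1 - w)) = 0 := by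
      linear_combination h3 - w_sq
    rcases mul_eq_zero.1 h4 with h5 | h5
    · exact Or.inl (sub_eq_zero.1 h5)
    · exact Or.inr (sub_eq_zero.1 h5)
  have h3 : τ (σ ζ) = σ ζ := by
    rcases h2 with h | h
    · rw [h, hτ]
    · rw [h, map_sub, map_neg, map_one, hτ]
  have hadj : Algebra.adjoin ℚ {ζ} = ⊤ :=
    IsCyclotomicExtension.adjoin_primitive_root_eq_top hζ
  have h4 : (((τ : ℂ →+* ℂ).comp σ).toRatAlgHom) = σ.toRatAlgHom := by
    refine AlgHom.ext_of_adjoin_eq_top hadj ?_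
    intro y hy
    rw [Set.mem_singleton_iff] at hy
    subst hy
    exact h3
  exact congrArg (fun f : K →ₐ[ℚ] ℂ => f κ) h4

/-- Let `ω ∈ K` be a primitive cube root of unity, `σ ω = w` or `conj w = -1 - w`, so `τ (σ κ) = σ κ` for all
`κ ∈ K = ℚ(ω)`. Regard `ℂ` as a `K`-algebra by `σ ∘ algebraMap K F` and as an `F`-algebra by `σ`; then
`τ ∘ σ : F →ₐ[K] ℂ`, and since `F/K` is normal there is `g ∈ Gal(F/K)` with `τ (σ x) = σ (g x)`
(`Normal.algHomEquivAut`, or `AlgHom.restrictNormal`). By induction `τ^j (σ x) = σ (g^j x)`, and `g^(3^n) = 1`. -/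
theorem Base.orbit {K F : Type} [Field K] [NumberField K] [IsCyclotomicExtension {3} ℚ K]
    [Field F] [NumberField F] [Algebra K F] {m n : ℕ} (B : Base m n K F) (τ : ℂ ≃+* ℂ)
    (hτ : τ w = w) (σ : F →+* ℂ) (x : F) : (⇑τ)^[3 ^ n] (σ x) = σ x := by
  have hfin : FiniteDimensional K F := FiniteDimensional.of_finrank_pos (by rw [B.deg]; positivity)
  have h := d2_orbit B.gal τ σ (fun κ => d2_fix τ hτ (σ.comp (algebraMap K F)) κ) x
  rw [B.deg] at h
  exact h

/-- An embedding of the subfield `F₀` extends to `F` (`IsAlgClosed.lift`, `F` is algebraic over `F₀`). -/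
theorem orbit_sub {F₀ F : Type} [Field F₀] [NumberField F₀] [Field F] [NumberField F]
    [Algebra F₀ F] (k : ℕ) (τ : ℂ ≃+* ℂ)
    (h : ∀ (σ : F →+* ℂ) (x : F), (⇑τ)^[k] (σ x) = σ x)
    (σ : F₀ →+* ℂ) (x : F₀) : (⇑τ)^[k] (σ x) = σ x := by
  let _ : Algebra F₀ ℂ := σ.toAlgebra
  have : Algebra.IsAlgebraic F₀ F := Algebra.IsAlgebraic.tower_top (K := ℚ) F₀
  let f : F →ₐ[F₀] ℂ := IsAlgClosed.lift
  have h1 : f.toRingHom (algebraMap F₀ F x) = σ x := f.commutes x
  have h2 := h f.toRingHom (algebraMap F₀ F x)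
  rw [h1] at h2
  exact h2

end R3S
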