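import Pool.Agent.MP_9ab903_nt.RS.TDefs

set_option autoImplicit false

open NumberField IsDedekindDomain
open CM27 CMT CF BS3 RF
open scoped Classical

namespace R3S

/-! ## [RS-D3a] `F / ℚ` is Galois (file D3a.lean) -/


theorem d3a_zp {G : Type} [Group G] (t g : G) (ht2 : t * t = 1)
    (h : g ∈ Subgroup.zpowers t) : g = 1 ∨ g = t := by
  rw [Subgroup.mem_zpowers_iff] at h
  obtain ⟨k, rfl⟩ := h
  rcases Int.even_or_odd' k with ⟨c, hc | hc⟩
  · left
    rw [hc, zpow_mul, zpow_two, ht2, one_zpow]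
  · right
    rw [hc, zpow_add, zpow_mul, zpow_two, ht2, one_zpow, one_mul, zpow_one]

theorem inv_conj {G : Type} [Group G] [Finite G] (n : ℕ) (hG : Nat.card G = 2 * 3 ^ n) (s t : G)
    (hs : s ≠ 1) (hs2 : s * s = 1) (ht : t ≠ 1) (ht2 : t * t = 1) : ∃ g : G, g * s * g⁻¹ = t := by
  have : Fact (Nat.Prime 2) := ⟨Nat.prime_two⟩
  have hcard : ∀ x : G, x ≠ 1 → x * x = 1 → Nat.card (Subgroup.zpowers x) = 2 := by
    intro x hx hx2
    rw [Nat.card_zpowers]
    exact orderOf_eq_prime (by rw [pow_two]; exact hx2) hx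
  have hidx : ∀ x : G, x ≠ 1 → x * x = 1 → ¬ 2 ∣ (Subgroup.zpowers x).index := by
    intro x hx hx2 h
    have h1 := (Subgroup.zpowers x).card_mul_index
    rw [hcard x hx hx2, hG] at h1
    have h2 : (Subgroup.zpowers x).index = 3 ^ n := Nat.eq_of_mul_eq_mul_left (by norm_num) h1
    rw [h2] at h
    have h3 := Nat.prime_two.dvd_of_dvd_pow h
    omega
  have hp : ∀ x : G, x ≠ 1 → x * x = 1 → IsPGroup 2 (Subgroup.zpowers x) := fun x hx hx2 =>
    IsPGroup.of_card (n := 1) (by rw [hcard x hx hx2, pow_one])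
  let P : Sylow 2 G := (hp s hs hs2).toSylow (hidx s hs hs2)
  let Q : Sylow 2 G := (hp t ht ht2).toSylow (hidx t ht ht2)
  obtain ⟨g, hg⟩ := MulAction.exists_smul_eq G P Q
  refine ⟨g, ?_⟩
  have h1 : s ∈ P := by
    rw [IsPGroup.mem_toSylow]
    exact Subgroup.mem_zpowers s
  have h2 : g * s * g⁻¹ ∈ Q := by
    rw [← hg]
    have h3 : g * s * g⁻¹ = MulAut.conj g • s := rfl
    rw [h3]
    exact Subgroup.smul_mem_pointwise_smul _ _ _ h1
  rw [IsPGroup.mem_toSylow] at h2
  rcases d3a_zp t _ ht2 h2 with h3 | h3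
  · exfalso
    apply hs
    calc s = g⁻¹ * (g * s * g⁻¹) * g := by group
      _ = 1 := by rw [h3]; group
  · exact h3

/-- a group with at most two elements -/
theorem d3a_two {G : Type} [Group G] [Finite G] (h : Nat.card G ≤ 2) (t : G) (ht : t ≠ 1) :
    t * t = 1 ∧ Nat.card G = 2 ∧ ∀ g : G, g = 1 ∨ g = t := by
  have key : ∀ g : G, g = 1 ∨ g = t := by
    intro g
    by_contra hcon
    push Not at hcon
    have : Fintype G := Fintype.ofFinite G
    have h1 : ({1, t, g} : Finset G).card = 3 := by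
      rw [Finset.card_insert_of_notMem, Finset.card_pair hcon.2.symm]
      simp only [Finset.mem_insert, Finset.mem_singleton, not_or]
      exact ⟨ht.symm, hcon.1.symm⟩
    have h2 := Finset.card_le_univ ({1, t, g} : Finset G)
    rw [h1, ← Nat.card_eq_fintype_card] at h2
    omega
  refine ⟨?_, ?_, key⟩
  · rcases key (t * t) with h1 | h1
    · exact h1
    · exact absurd (mul_eq_left.1 h1) ht
  · have : Nontrivial G := ⟨t, 1, ht⟩
    have := Finite.one_lt_card (α := G)
    omega

/-- tower -/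
theorem d3a_gal {K F : Type} [Field K] [NumberField K] [Field F] [NumberField F] [Algebra K F]
    (N : ℕ) (hK : Module.finrank ℚ K = 2) (hF : Module.finrank K F = N) (hg : IsGalois K F)
    (o : K) (t : F ≃ₐ[ℚ] F) (ht : t (algebraMap K F o) ≠ algebraMap K F o) :
    Module.finrank ℚ F = 2 * N ∧ IsGalois ℚ F := by
  have hfin : Module.finrank ℚ F = 2 * N := by
    rw [← Module.finrank_mul_finrank ℚ K F, hK, hF]
  refine ⟨hfin, ?_⟩
  apply IsGalois.of_card_aut_eq_finrank
  apply le_antisymm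
  · rw [Nat.card_eq_fintype_card]
    exact AlgEquiv.card_le
  · rw [hfin]
    have h1 : Nat.card (F ≃ₐ[K] F) = N := by rw [IsGalois.card_aut_eq_finrank, hF]
    let ι : (F ≃ₐ[K] F) ⊕ (F ≃ₐ[K] F) → (F ≃ₐ[ℚ] F) :=
      Sum.elim (fun g => g.restrictScalars ℚ) (fun g => t * g.restrictScalars ℚ)
    have hι : Function.Injective ι := by
      rintro (g | g) (g' | g') h
      · congr 1
        exact AlgEquiv.restrictScalars_injective ℚ h
      · exfalso
        have h2 : g (algebraMap K F o) = t (g' (algebraMap K F o)) :=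
          congrArg (fun f : F ≃ₐ[ℚ] F => f (algebraMap K F o)) h
        rw [AlgEquiv.commutes, AlgEquiv.commutes] at h2
        exact ht h2.symm
      · exfalso
        have h2 : t (g (algebraMap K F o)) = g' (algebraMap K F o) :=
          congrArg (fun f : F ≃ₐ[ℚ] F => f (algebraMap K F o)) h
        rw [AlgEquiv.commutes, AlgEquiv.commutes] at h2
        exact ht h2
      · congr 1
        have h2 : t * g.restrictScalars ℚ = t * g'.restrictScalars ℚ := h
        exact AlgEquiv.restrictScalars_injective ℚ (mul_left_cancel h2)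
    have h2 := Nat.card_le_card_of_injective ι hι
    rw [Nat.card_sum, h1] at h2
    omega

/-- fixed field -/
theorem d3a_fix {F₀ F : Type} [Field F₀] [NumberField F₀] [Field F] [NumberField F] [Algebra F₀ F]
    (h2 : Module.finrank F₀ F = 2) (t : F ≃ₐ[F₀] F) (ht : t ≠ 1) :
    t * t = 1 ∧ ∀ x : F, t x = x ↔ ∃ y : F₀, algebraMap F₀ F y = x := by
  have h3 : Nat.card (F ≃ₐ[F₀] F) ≤ 2 := by
    rw [← h2, Nat.card_eq_fintype_card]
    exact AlgEquiv.card_le
  obtain ⟨h4, h5, h6⟩ := d3a_two h3 t ht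
  refine ⟨h4, fun x => ⟨fun hx => ?_, ?_⟩⟩
  · have : IsGalois F₀ F := IsGalois.of_card_aut_eq_finrank F₀ F (by rw [h5, h2])
    have h7 := (IsGalois.mem_range_algebraMap_iff_fixed (F := F₀) x).2 (by
      intro g
      rcases h6 g with rfl | rfl
      · rfl
      · exact hx)
    exact h7
  · rintro ⟨y, rfl⟩
    exact t.commutes y

theorem Base.tow {K F₀ F : Type} [Field K] [NumberField K] [IsCyclotomicExtension {3} ℚ K]
    [Field F₀] [NumberField F₀] [Field F] [NumberField F] [Algebra K F] [Algebra F₀ F] {m n : ℕ}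
    (B : Base m n K F) (om : F) (hom : om ^ 2 + om + 1 = 0) (τ : F ≃+* F) (hτ : τ om = -1 - om)
    (hfix : ∀ y : F₀, τ (algebraMap F₀ F y) = algebraMap F₀ F y)
    (h2 : Module.finrank F₀ F = 2) :
    ∃ t : F ≃ₐ[ℚ] F, (∀ x, t x = τ x) ∧ Tow n F₀ F om t := by
  have hne : -1 - om ≠ om := by
    intro h
    have h3 : (3 : F) = 0 := by linear_combination 4 * hom + (1 + 2 * om) * h
    norm_num at h3
  obtain ⟨o, ho⟩ := r1_om K
  have ho' : (algebraMap K F o) ^ 2 + algebraMap K F o + 1 = 0 := by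
    have h6 := congrArg (algebraMap K F) ho
    simpa only [map_add, map_pow, map_one, map_zero] using h6
  have hcase : om = algebraMap K F o ∨ om = -1 - algebraMap K F o := by
    have h7 : (om - algebraMap K F o) * (om + 1 + algebraMap K F o) = 0 := by
      linear_combination hom - ho'
    rcases mul_eq_zero.1 h7 with h | h
    · left
      exact sub_eq_zero.1 h
    · right
      linear_combination h
  have hτ2 : τ (algebraMap K F o) ≠ algebraMap K F o := by
    rcases hcase with h | h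
    · rw [← h, hτ]
      exact hne
    · have h8 : algebraMap K F o = -1 - om := by
        rw [h]
        ring
      rw [h8, map_sub, map_neg, map_one, hτ]
      intro h9
      apply hne
      linear_combination -h9
  let t : F ≃ₐ[ℚ] F := AlgEquiv.ofRingEquiv (f := τ) (fun r => by simp)
  have ht : ∀ x, t x = τ x := fun x => rfl
  let t₀ : F ≃ₐ[F₀] F := AlgEquiv.ofRingEquiv (f := τ) hfix
  have ht₀ : ∀ x, t₀ x = τ x := fun x => rfl
  obtain ⟨hdeg, hgal⟩ := d3a_gal (3 ^ n) (r1_finrank K) B.deg B.gal o t hτ2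
  have ht₀ne : t₀ ≠ 1 := by
    intro h
    apply hτ2
    have h10 := congrArg (fun f : F ≃ₐ[F₀] F => f (algebraMap K F o)) h
    exact h10
  obtain ⟨hsq, hf⟩ := d3a_fix h2 t₀ ht₀ne
  refine ⟨t, ht, hgal, hdeg, hom, ?_, ?_, ?_, hτ, hf⟩
  · intro P hP
    have h3m : ¬ 3 ∣ m := by
      intro hd
      have h11 := B.good.2 3 Nat.prime_three hd
      norm_num at h11
    have h1 := val_three m B.unr h3m o ho P hP
    have h2 : (3 : F) = -(2 * algebraMap K F o + 1) ^ 2 := by
      linear_combination 4 * ho'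
    rw [h2, Valuation.map_neg, map_pow, h1, ← WithZero.exp_nsmul]
    norm_num
  · intro h
    apply hτ2
    have h10 := congrArg (fun f : F ≃ₐ[ℚ] F => f (algebraMap K F o)) h
    exact h10
  · ext x
    have h12 := congrArg (fun f : F ≃ₐ[F₀] F => f x) hsq
    exact h12

end R3S
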