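import Pool.Agent.MP_9ab903_nt.RS.D3a

set_option autoImplicit false

open NumberField IsDedekindDomain
open CM27 CMT CF BS3 RF
open scoped Classical

namespace R3S

/-! ## [RS-D3b] the number of real places of `F₀` (file D3b.lean) -/

/-- any two embeddings differ by an automorphism -/
theorem d3b_trans {F : Type} [Field F] [NumberField F] [IsGalois ℚ F] (φ ψ : F →+* ℂ) :
    ∃ c : F ≃ₐ[ℚ] F, ∀ x, ψ x = φ (c x) := by
  obtain ⟨σ, hσ⟩ := NumberField.ComplexEmbedding.exists_comp_symm_eq_of_comp_eq (k := ℚ) φ ψ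
    (Subsingleton.elim _ _)
  refine ⟨σ.symm, fun x => ?_⟩
  rw [← hσ]
  rfl

/-- complex conjugation -/
theorem d3b_conj {F : Type} [Field F] [NumberField F] [IsGalois ℚ F] (om : F)
    (hom : om ^ 2 + om + 1 = 0) (φ : F →+* ℂ) :
    ∃ c : F ≃ₐ[ℚ] F, c ∈ Inv2 F ∧ ∀ x, (starRingEnd ℂ) (φ x) = φ (c x) := by
  obtain ⟨c, hc⟩ := d3b_trans φ ((starRingEnd ℂ).comp φ)
  have hc' : ∀ x, (starRingEnd ℂ) (φ x) = φ (c x) := hc
  refine ⟨c, ⟨?_, ?_⟩, hc'⟩
  · rintro rfl
    have h1 := hc' om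
    have h2 : (φ om) ^ 2 + φ om + 1 = 0 := by
      rw [← map_pow, ← map_add, ← map_one φ, ← map_add, hom, map_zero]
    have h3 : (φ om).im = 0 := Complex.conj_eq_iff_im.1 h1
    obtain ⟨r, hr⟩ : ∃ r : ℝ, φ om = r := ⟨(φ om).re, by
      apply Complex.ext
      · simp
      · simp [h3]⟩
    rw [hr] at h2
    have h4 : r ^ 2 + r + 1 = 0 := by exact_mod_cast h2
    nlinarith [sq_nonneg (r + 1 / 2)]
  · ext x
    apply φ.injective
    change φ (c (c x)) = φ x
    rw [← hc', ← hc', Complex.conj_conj]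

/-- the embeddings for which complex conjugation is `s` -/
def d3bE {F : Type} [Field F] [NumberField F] (s : F ≃ₐ[ℚ] F) : Type :=
  {φ : F →+* ℂ // ∀ x, (starRingEnd ℂ) (φ x) = φ (s x)}

instance d3b_fin {F : Type} [Field F] [NumberField F] (s : F ≃ₐ[ℚ] F) : Finite (d3bE s) :=
  Subtype.finite

theorem d3b_sum {F : Type} [Field F] [NumberField F] [IsGalois ℚ F] (om : F)
    (hom : om ^ 2 + om + 1 = 0) (k : ℕ) (hk : ∀ s ∈ Inv2 F, Nat.card (d3bE s) = k) :
    Module.finrank ℚ F = Nat.card (Inv2 F) * k := by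
  have h1 : Nat.card (F →+* ℂ) = Module.finrank ℚ F := by
    rw [Nat.card_eq_fintype_card, NumberField.Embeddings.card F ℂ]
  rw [← h1]
  choose c hc1 hc2 using d3b_conj om hom
  have huniq : ∀ (φ : F →+* ℂ) (s : F ≃ₐ[ℚ] F), (∀ x, (starRingEnd ℂ) (φ x) = φ (s x)) →
      c φ = s := by
    intro φ s h
    ext x
    apply φ.injective
    rw [← hc2 φ, h]
  let e : (F →+* ℂ) ≃ (Σ s : Inv2 F, d3bE s.1) :=
    { toFun := fun φ => ⟨⟨c φ, hc1 φ⟩, ⟨φ, hc2 φ⟩⟩
      invFun := fun p => p.2.1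
      left_inv := fun φ => rfl
      right_inv := by
        rintro ⟨⟨s, hs⟩, ⟨φ, hφ⟩⟩
        have h2 := huniq φ s hφ
        subst h2
        rfl }
  rw [Nat.card_congr e]
  have : Fintype (Inv2 F) := Fintype.ofFinite _
  rw [Nat.card_sigma, Finset.sum_congr rfl (fun s _ => hk s.1 s.2), Finset.sum_const,
    Finset.card_univ, Nat.card_eq_fintype_card, smul_eq_mul]

/-- conjugate involutions have fibres of the same size -/
theorem d3b_fiber {F : Type} [Field F] [NumberField F] (s t g : F ≃ₐ[ℚ] F)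
    (hg : g * s * g⁻¹ = t) : Nat.card (d3bE s) = Nat.card (d3bE t) := by
  have h1 : ∀ x, t x = g (s (g.symm x)) := by
    intro x
    rw [← hg]
    rfl
  refine Nat.card_congr
    { toFun := fun φ => ⟨φ.1.comp (g.symm : F →+* F), fun x => ?_⟩
      invFun := fun φ => ⟨φ.1.comp (g : F →+* F), fun x => ?_⟩
      left_inv := fun φ => ?_
      right_inv := fun φ => ?_ }
  · change (starRingEnd ℂ) (φ.1 (g.symm x)) = φ.1 (g.symm (t x))
    rw [φ.2, h1, AlgEquiv.symm_apply_apply]
  · change (starRingEnd ℂ) (φ.1 (g x)) = φ.1 (g (s x))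
    rw [φ.2, h1, AlgEquiv.symm_apply_apply]
  · apply Subtype.ext
    ext x
    change φ.1 (g.symm (g x)) = φ.1 x
    rw [AlgEquiv.symm_apply_apply]
  · apply Subtype.ext
    ext x
    change φ.1 (g (g.symm x)) = φ.1 x
    rw [AlgEquiv.apply_symm_apply]

/-- the automorphisms over the fixed field of `t` -/
theorem d3b_gfix {F₀ F : Type} [Field F₀] [NumberField F₀] [Field F] [NumberField F]
    [Algebra F₀ F] (t : F ≃ₐ[ℚ] F) (ht2 : t * t = 1)
    (fix : ∀ x : F, t x = x → ∃ y : F₀, algebraMap F₀ F y = x) (g : F ≃ₐ[ℚ] F)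
    (hg : ∀ y : F₀, g (algebraMap F₀ F y) = algebraMap F₀ F y) : g = 1 ∨ g = t := by
  apply d3a_zp t g ht2
  rw [← IntermediateField.fixingSubgroup_fixedField (Subgroup.zpowers t),
    IntermediateField.mem_fixingSubgroup_iff]
  intro x hx
  rw [IntermediateField.mem_fixedField_iff] at hx
  obtain ⟨y, rfl⟩ := fix x (hx t (Subgroup.mem_zpowers t))
  exact hg y

/-- the embeddings of `F` over a real embedding of `F₀` -/
theorem d3b_two {F₀ F : Type} [Field F₀] [NumberField F₀] [Field F] [NumberField F]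
    [Algebra F₀ F] [IsGalois ℚ F] (om : F) (hom : om ^ 2 + om + 1 = 0) (t : F ≃ₐ[ℚ] F)
    (ht : t ≠ 1) (ht2 : t * t = 1)
    (fix : ∀ x : F, t x = x ↔ ∃ y : F₀, algebraMap F₀ F y = x) :
    Nat.card (d3bE t) = 2 * InfinitePlace.nrRealPlaces F₀ := by
  have hfixy : ∀ y : F₀, t (algebraMap F₀ F y) = algebraMap F₀ F y := fun y =>
    (fix _).2 ⟨y, rfl⟩
  have hlift : ∀ ψ : F₀ →+* ℂ, ∃ φ : F →+* ℂ, ∀ y, φ (algebraMap F₀ F y) = ψ y := by
    intro ψ
    let _ := ψ.toAlgebra
    let φ : F →ₐ[F₀] ℂ := IsAlgClosed.lift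
    exact ⟨φ.toRingHom, fun y => φ.commutes y⟩
  choose L hL using hlift
  have hreal : ∀ φ : F →+* ℂ, (∀ x, (starRingEnd ℂ) (φ x) = φ (t x)) ↔
      ComplexEmbedding.IsReal (φ.comp (algebraMap F₀ F)) := by
    intro φ
    rw [ComplexEmbedding.isReal_iff]
    constructor
    · intro h
      ext y
      rw [ComplexEmbedding.conjugate_coe_eq]
      change (starRingEnd ℂ) (φ (algebraMap F₀ F y)) = φ (algebraMap F₀ F y)
      rw [h, hfixy]
    · intro h
      obtain ⟨c, hc1, hc2⟩ := d3b_conj om hom φ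
      have h1 : ∀ y : F₀, c (algebraMap F₀ F y) = algebraMap F₀ F y := by
        intro y
        apply φ.injective
        rw [← hc2]
        have h2 := RingHom.congr_fun h y
        rw [ComplexEmbedding.conjugate_coe_eq] at h2
        exact h2
      rcases d3b_gfix t ht2 (fun x => (fix x).1) c h1 with h2 | h2
      · exact absurd h2 hc1.1
      · rw [← h2]
        exact hc2
  have hLt : ∀ ψ : F₀ →+* ℂ, ∀ y, ((L ψ).comp (t : F →+* F)) (algebraMap F₀ F y) = ψ y := by
    intro ψ y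
    change L ψ (t (algebraMap F₀ F y)) = ψ y
    rw [hfixy, hL]
  let f : {ψ : F₀ →+* ℂ // ComplexEmbedding.IsReal ψ} × Bool → d3bE t := fun p =>
    if p.2 then ⟨L p.1.1, (hreal _).2 (by
        have h1 : (L p.1.1).comp (algebraMap F₀ F) = p.1.1 := by
          ext y
          exact hL _ y
        rw [h1]
        exact p.1.2)⟩
    else ⟨(L p.1.1).comp (t : F →+* F), (hreal _).2 (by
        have h1 : ((L p.1.1).comp (t : F →+* F)).comp (algebraMap F₀ F) = p.1.1 := by
          ext y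
          exact hLt _ y
        rw [h1]
        exact p.1.2)⟩
  have hft : ∀ ψ, (f (ψ, true)).1 = L ψ.1 := fun ψ => rfl
  have hff : ∀ ψ, (f (ψ, false)).1 = (L ψ.1).comp (t : F →+* F) := fun ψ => rfl
  have hfr : ∀ p, ∀ y, (f p).1 (algebraMap F₀ F y) = p.1.1 y := by
    rintro ⟨ψ, b⟩ y
    cases b
    · exact hLt _ y
    · exact hL _ y
  have hbij : Function.Bijective f := by
    constructor
    · intro p q hpq
      have h1 : p.1 = q.1 := by
        apply Subtype.ext
        ext y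
        rw [← hfr p y, ← hfr q y, hpq]
      obtain ⟨ψ, b⟩ := p
      obtain ⟨ψ', b'⟩ := q
      simp only at h1
      subst h1
      have hne : (L ψ.1) ≠ (L ψ.1).comp (t : F →+* F) := by
        intro h
        apply ht
        ext x
        apply (L ψ.1).injective
        exact (RingHom.congr_fun h x).symm
      have h2 : (f (ψ, b)).1 = (f (ψ, b')).1 := by rw [hpq]
      cases b <;> cases b'
      · rfl
      · exact absurd h2.symm hne
      · exact absurd h2 hne
      · rfl
    · intro φ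
      have hψ := (hreal φ.1).1 φ.2
      obtain ⟨c, hc⟩ := d3b_trans (L (φ.1.comp (algebraMap F₀ F))) φ.1
      have h1 : ∀ y : F₀, c (algebraMap F₀ F y) = algebraMap F₀ F y := by
        intro y
        apply (L (φ.1.comp (algebraMap F₀ F))).injective
        rw [← hc, hL]
        rfl
      rcases d3b_gfix t ht2 (fun x => (fix x).1) c h1 with h2 | h2
      · refine ⟨(⟨_, hψ⟩, true), ?_⟩
        apply Subtype.ext
        rw [hft]
        ext x
        rw [hc, h2]
        rfl
      · refine ⟨(⟨_, hψ⟩, false), ?_⟩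
        apply Subtype.ext
        rw [hff]
        ext x
        rw [hc, h2]
        rfl
  rw [← Nat.card_congr (Equiv.ofBijective f hbij), Nat.card_prod, mul_comm,
    Nat.card_eq_fintype_card (α := Bool), Fintype.card_bool, Nat.card_eq_fintype_card,
    NumberField.InfinitePlace.card_real_embeddings]

theorem Tow.real {n : ℕ} {F₀ F : Type} [Field F₀] [NumberField F₀] [Field F] [NumberField F]
    [Algebra F₀ F] {om : F} {t : F ≃ₐ[ℚ] F} (T : Tow n F₀ F om t) :
    InfinitePlace.nrRealPlaces F₀ * Nat.card (Inv2 F) = 3 ^ n := by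
  have := T.gal
  have hG : Nat.card (F ≃ₐ[ℚ] F) = 2 * 3 ^ n := by
    rw [IsGalois.card_aut_eq_finrank, T.deg]
  have h1 := d3b_sum om T.omeq (2 * InfinitePlace.nrRealPlaces F₀) (by
    intro s hs
    obtain ⟨g, hg⟩ := inv_conj n hG s t hs.1 hs.2 T.ne T.sq
    rw [d3b_fiber s t g hg]
    exact d3b_two om T.omeq t T.ne T.sq T.fix)
  rw [T.deg] at h1
  have h2 : 2 * (InfinitePlace.nrRealPlaces F₀ * Nat.card (Inv2 F)) = 2 * 3 ^ n := by
    rw [h1]
    ring
  exact Nat.eq_of_mul_eq_mul_left (by norm_num) h2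

end R3S
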