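import Pool.Agent.MP_9ab903_nt.RS.D3a

set_option autoImplicit false

open NumberField IsDedekindDomain
open CM27 CMT CF BS3 RF
open scoped Classical

namespace R3S

/-! ## [RS-D3c] the places above `3` and the involutions (file D3c.lean) -/

/-- a subgroup of order two -/
theorem d3c_sub {G : Type} [Group G] [Finite G] (H : Subgroup G) (hH : Nat.card H = 2) :
    ∃ s : G, (s ≠ 1 ∧ s * s = 1) ∧ s ∈ H ∧ ∀ g ∈ H, g ≠ 1 → g = s := by
  have h1 : Nontrivial H := by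
    rw [← Finite.one_lt_card_iff_nontrivial, hH]
    norm_num
  obtain ⟨s, hs⟩ := exists_ne (1 : H)
  obtain ⟨h2, -, h3⟩ := d3a_two hH.le s hs
  refine ⟨s.1, ⟨fun h => hs (Subtype.ext h), congrArg Subtype.val h2⟩, s.2, fun g hg hg1 => ?_⟩
  rcases h3 ⟨g, hg⟩ with h4 | h4
  · exact absurd (congrArg Subtype.val h4) hg1
  · exact congrArg Subtype.val h4

theorem d3c_ne : (Ideal.span {(3 : ℤ)}) ≠ ⊥ := by
  simp

theorem d3c_prime : (Ideal.span {(3 : ℤ)}).IsPrime := by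
  rw [Ideal.span_singleton_prime (by norm_num)]
  exact Int.prime_three

theorem d3c_max : (Ideal.span {(3 : ℤ)}).IsMaximal := d3c_prime.isMaximal d3c_ne

theorem d3c_lies {F : Type} [Field F] [NumberField F] (P : HeightOneSpectrum (𝓞 F))
    (hP : (3 : 𝓞 F) ∈ P.asIdeal) : P.asIdeal.LiesOver (Ideal.span {(3 : ℤ)}) := by
  constructor
  have := P.isPrime
  refine d3c_max.eq_of_le ?_ ?_
  · exact Ideal.IsPrime.ne_top inferInstance
  · rw [Ideal.span_singleton_le_iff_mem, Ideal.mem_comap]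
    simpa using hP

theorem d3c_mem {F : Type} [Field F] [NumberField F] (Q : Ideal (𝓞 F))
    (hQ : Q.LiesOver (Ideal.span {(3 : ℤ)})) : (3 : 𝓞 F) ∈ Q := by
  have h1 : (3 : ℤ) ∈ Q.under ℤ := by
    rw [← hQ.over]
    exact Ideal.mem_span_singleton_self _
  rw [Ideal.mem_comap] at h1
  simpa using h1

/-- the places above `3` -/
noncomputable def d3cE (F : Type) [Field F] [NumberField F] :
    {P : HeightOneSpectrum (𝓞 F) // (3 : 𝓞 F) ∈ P.asIdeal} ≃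
      (Ideal.span {(3 : ℤ)}).primesOver (𝓞 F) where
  toFun P := ⟨P.1.asIdeal, P.1.isPrime, d3c_lies P.1 P.2⟩
  invFun Q := ⟨⟨Q.1, Q.2.1, fun h => by
    have h1 := d3c_mem Q.1 Q.2.2
    rw [h] at h1
    have h2 : (3 : 𝓞 F) = 0 := h1
    norm_num at h2⟩, d3c_mem Q.1 Q.2.2⟩
  left_inv _ := rfl
  right_inv _ := rfl

instance d3c_prime' : (Ideal.span {(3 : ℤ)}).IsPrime := d3c_prime

theorem d3c_perf : PerfectField (Ideal.span {(3 : ℤ)} : Ideal ℤ).ResidueField := by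
  have hm := d3c_max
  have h1 : Finite (ℤ ⧸ (Ideal.span {(3 : ℤ)} : Ideal ℤ)) :=
    Finite.of_equiv (ZMod 3) (Int.quotientSpanEquivZMod 3).symm.toEquiv
  have h2 : Finite (Ideal.span {(3 : ℤ)} : Ideal ℤ).ResidueField :=
    Finite.of_surjective _
      (Ideal.bijective_algebraMap_quotient_residueField (Ideal.span {(3 : ℤ)})).2
  exact PerfectField.ofFinite

theorem d3c_ram {F : Type} [Field F] [NumberField F] (P : HeightOneSpectrum (𝓞 F))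
    (hP : (3 : 𝓞 F) ∈ P.asIdeal) (h : P.valuation F (3 : F) = WithZero.exp (-2 : ℤ)) :
    P.asIdeal.ramificationIdx ℤ = 2 := by
  have h1 := d3c_lies P hP
  have h2 := P.isPrime
  rw [← Ideal.ramificationIdx'_eq_ramificationIdx (Ideal.span {(3 : ℤ)}) P.asIdeal d3c_ne]
  have h3 : P.intValuation (3 : 𝓞 F) = WithZero.exp (-2 : ℤ) := by
    rw [← h, ← P.valuation_of_algebraMap (K := F)]
    rfl
  apply Ideal.ramificationIdx'_spec
  · rw [Ideal.map_span, Set.image_singleton, Ideal.span_singleton_le_iff_mem,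
      ← HeightOneSpectrum.intValuation_le_pow_iff_mem]
    simp [h3]
  · rw [Ideal.map_span, Set.image_singleton, Ideal.span_singleton_le_iff_mem,
      ← HeightOneSpectrum.intValuation_le_pow_iff_mem]
    have h4 : (algebraMap ℤ (𝓞 F)) 3 = 3 := by simp
    rw [h4, h3, not_le, WithZero.exp_lt_exp]
    norm_num

/-- conjugation of the inertia groups -/
theorem d3c_conj {F : Type} [Field F] [NumberField F] (s g : F ≃ₐ[ℚ] F) (Q : Ideal (𝓞 F))
    (h : s ∈ Q.inertia (F ≃ₐ[ℚ] F)) :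
    g * s * g⁻¹ ∈ (Ideal.map (MulSemiringAction.toRingHom (F ≃ₐ[ℚ] F) (𝓞 F) g) Q).inertia
      (F ≃ₐ[ℚ] F) := by
  intro x
  have h1 : (g * s * g⁻¹) • x - x = g • (s • (g⁻¹ • x) - g⁻¹ • x) := by
    rw [smul_sub, smul_inv_smul, mul_smul, mul_smul]
  rw [h1]
  exact Ideal.mem_map_of_mem _ (h (g⁻¹ • x))

open scoped Pointwise in
theorem d3c_le {F : Type} [Field F] [NumberField F] (s t g : F ≃ₐ[ℚ] F)
    (hg : g * s * g⁻¹ = t) :
    Nat.card {Q : (Ideal.span {(3 : ℤ)}).primesOver (𝓞 F) // s ∈ Q.1.inertia (F ≃ₐ[ℚ] F)} ≤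
      Nat.card {Q : (Ideal.span {(3 : ℤ)}).primesOver (𝓞 F) // t ∈ Q.1.inertia (F ≃ₐ[ℚ] F)} := by
  have hfin : Finite ((Ideal.span {(3 : ℤ)}).primesOver (𝓞 F)) :=
    Algebra.QuasiFinite.finite_primesOver (Ideal.span {(3 : ℤ)})
  let f : {Q : (Ideal.span {(3 : ℤ)}).primesOver (𝓞 F) // s ∈ Q.1.inertia (F ≃ₐ[ℚ] F)} →
      {Q : (Ideal.span {(3 : ℤ)}).primesOver (𝓞 F) // t ∈ Q.1.inertia (F ≃ₐ[ℚ] F)} :=
    fun Q => ⟨Ideal.primesOver.mk (Ideal.span {(3 : ℤ)}) (g • Q.1.1), by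
      rw [← hg]
      exact d3c_conj s g Q.1.1 Q.2⟩
  apply Nat.card_le_card_of_injective f
  intro Q Q' h
  have h1 : g • Q.1.1 = g • Q'.1.1 := congrArg (fun q => q.1.1) h
  exact Subtype.ext (Subtype.ext (smul_left_cancel g h1))

theorem d3c_eq {F : Type} [Field F] [NumberField F] (s t g : F ≃ₐ[ℚ] F)
    (hg : g * s * g⁻¹ = t) :
    Nat.card {Q : (Ideal.span {(3 : ℤ)}).primesOver (𝓞 F) // s ∈ Q.1.inertia (F ≃ₐ[ℚ] F)} =
      Nat.card {Q : (Ideal.span {(3 : ℤ)}).primesOver (𝓞 F) // t ∈ Q.1.inertia (F ≃ₐ[ℚ] F)} :=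
  le_antisymm (d3c_le s t g hg) (d3c_le t s g⁻¹ (by rw [← hg]; group))

theorem d3c_sum {F : Type} [Field F] [NumberField F] (k : ℕ)
    (hin : ∀ Q : (Ideal.span {(3 : ℤ)}).primesOver (𝓞 F),
      Nat.card (Q.1.inertia (F ≃ₐ[ℚ] F)) = 2)
    (hk : ∀ s ∈ Inv2 F, Nat.card {Q : (Ideal.span {(3 : ℤ)}).primesOver (𝓞 F) //
      s ∈ Q.1.inertia (F ≃ₐ[ℚ] F)} = k) :
    ((Ideal.span {(3 : ℤ)}).primesOver (𝓞 F)).ncard = Nat.card (Inv2 F) * k := by
  have hfin : Finite ((Ideal.span {(3 : ℤ)}).primesOver (𝓞 F)) :=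
    Algebra.QuasiFinite.finite_primesOver (Ideal.span {(3 : ℤ)})
  choose c hc1 hc2 hc3 using fun Q => d3c_sub _ (hin Q)
  let e : ((Ideal.span {(3 : ℤ)}).primesOver (𝓞 F)) ≃
      (Σ s : Inv2 F, {Q : (Ideal.span {(3 : ℤ)}).primesOver (𝓞 F) //
        s.1 ∈ Q.1.inertia (F ≃ₐ[ℚ] F)}) :=
    { toFun := fun Q => ⟨⟨c Q, hc1 Q⟩, ⟨Q, hc2 Q⟩⟩
      invFun := fun p => p.2.1
      left_inv := fun φ => rfl
      right_inv := by
        rintro ⟨⟨s, hs⟩, ⟨Q, hQ⟩⟩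
        have h2 := hc3 Q s hQ hs.1
        subst h2
        rfl }
  rw [← Nat.card_coe_set_eq, Nat.card_congr e]
  have : Fintype (Inv2 F) := Fintype.ofFinite _
  rw [Nat.card_sigma, Finset.sum_congr rfl (fun s _ => hk s.1 s.2), Finset.sum_const,
    Finset.card_univ, Nat.card_eq_fintype_card, smul_eq_mul]

theorem d3c_inertBy {F : Type} [Field F] [NumberField F] (t : F ≃ₐ[ℚ] F)
    (P : HeightOneSpectrum (𝓞 F)) :
    InertBy (t : F ≃+* F) P ↔ t ∈ P.asIdeal.inertia (F ≃ₐ[ℚ] F) := by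
  constructor
  · intro h x
    exact h x (t • x) rfl
  · intro h x y hy
    have h1 : y = t • x := RingOfIntegers.ext hy
    rw [h1]
    exact h x

theorem d3c_trans {F : Type} [Field F] [NumberField F] (t : F ≃ₐ[ℚ] F) :
    Nat.card {P : HeightOneSpectrum (𝓞 F) // (3 : 𝓞 F) ∈ P.asIdeal ∧
        InertBy (t : F ≃+* F) P} =
      Nat.card {Q : (Ideal.span {(3 : ℤ)}).primesOver (𝓞 F) // t ∈ Q.1.inertia (F ≃ₐ[ℚ] F)} :=
  Nat.card_congr
    { toFun := fun P => ⟨d3cE F ⟨P.1, P.2.1⟩, (d3c_inertBy t P.1).1 P.2.2⟩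
      invFun := fun Q => ⟨((d3cE F).symm Q.1).1, ((d3cE F).symm Q.1).2,
        (d3c_inertBy t _).2 Q.2⟩
      left_inv := fun P => rfl
      right_inv := fun Q => rfl }

theorem Tow.primes {n : ℕ} {F₀ F : Type} [Field F₀] [NumberField F₀] [Field F] [NumberField F]
    [Algebra F₀ F] {om : F} {t : F ≃ₐ[ℚ] F} (T : Tow n F₀ F om t) :
    ∃ f : ℕ, (∀ P : HeightOneSpectrum (𝓞 F), (3 : 𝓞 F) ∈ P.asIdeal →
      Ideal.absNorm P.asIdeal = 3 ^ f) ∧
      f * Nat.card {P : HeightOneSpectrum (𝓞 F) // (3 : 𝓞 F) ∈ P.asIdeal ∧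
        InertBy (t : F ≃+* F) P} * Nat.card (Inv2 F) = 3 ^ n := by
  have := T.gal
  have hG : Nat.card (F ≃ₐ[ℚ] F) = 2 * 3 ^ n := by
    rw [IsGalois.card_aut_eq_finrank, T.deg]
  have h3 : Fact (Nat.Prime 3) := ⟨Nat.prime_three⟩
  have hperf := d3c_perf
  have hram : ∀ Q : (Ideal.span {(3 : ℤ)}).primesOver (𝓞 F), Q.1.ramificationIdx ℤ = 2 := by
    intro Q
    exact d3c_ram ((d3cE F).symm Q).1 ((d3cE F).symm Q).2 (T.ram _ ((d3cE F).symm Q).2)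
  have hne : Nonempty ((Ideal.span {(3 : ℤ)}).primesOver (𝓞 F)) := inferInstance
  obtain ⟨Q₀⟩ := hne
  have hin2 : (Ideal.span {(3 : ℤ)}).ramificationIdxIn (𝓞 F) = 2 := by
    have h4 := Q₀.2.1
    have h5 := Q₀.2.2
    rw [Ideal.ramificationIdxIn_eq_ramificationIdx (Ideal.span {(3 : ℤ)}) Q₀.1 Gal(F/ℚ), hram]
  have hin : ∀ Q : (Ideal.span {(3 : ℤ)}).primesOver (𝓞 F),
      Nat.card (Q.1.inertia (F ≃ₐ[ℚ] F)) = 2 := by
    intro Q
    have h4 := Q.2.1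
    have h5 := Q.2.2
    rw [Ideal.card_inertia_eq_ramificationIdxIn (G := Gal(F/ℚ)) (Ideal.span {(3 : ℤ)}) Q.1, hin2]
  have hcount := d3c_sum (Nat.card {Q : (Ideal.span {(3 : ℤ)}).primesOver (𝓞 F) //
      t ∈ Q.1.inertia (F ≃ₐ[ℚ] F)}) hin (by
    intro s hs
    obtain ⟨g, hg⟩ := inv_conj n hG s t hs.1 hs.2 T.ne T.sq
    exact d3c_eq s t g hg)
  have hg1 := Ideal.ncard_primesOver_mul_ramificationIdxIn_mul_inertiaDegIn
    (Ideal.span {(3 : ℤ)}) (𝓞 F) Gal(F/ℚ)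
  rw [hG, hin2, hcount] at hg1
  refine ⟨(Ideal.span {(3 : ℤ)}).inertiaDegIn (𝓞 F), ?_, ?_⟩
  · intro P hP
    have h4 := d3c_lies P hP
    have h5 := P.isPrime
    rw [Ideal.inertiaDegIn_eq_inertiaDeg (Ideal.span {(3 : ℤ)}) P.asIdeal Gal(F/ℚ)]
    exact (Ideal.pow_inertiaDeg 3 P.asIdeal).symm
  · rw [d3c_trans]
    apply Nat.eq_of_mul_eq_mul_left (show 0 < 2 by norm_num)
    rw [← hg1]
    ring

end R3S
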