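import Pool.Agent.MP_9ab903_nt.RS.TDefs

set_option autoImplicit false

open NumberField IsDedekindDomain
open CM27 CMT CF BS3 RF
open scoped Classical

namespace R3S

/-! ## [RS-D3d] the 3-part of the different of `F / F₀` (file D3d.lean) -/

theorem d3d_not_dvd {F : Type} [Field F] [NumberField F] (P : Ideal (𝓞 F)) [P.IsMaximal]
    (h3 : (3 : 𝓞 F) ∉ P) : ¬ 3 ∣ Ideal.absNorm P := by
  intro h
  obtain ⟨p, n, hn, hpP, hp, hN⟩ := Ideal.exists_prime_and_absNorm_eq_pow P
  rw [hN] at h
  have h4 := Nat.prime_three.dvd_of_dvd_pow h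
  have h5 : 3 = p := (Nat.prime_dvd_prime_iff_eq Nat.prime_three hp).1 h4
  apply h3
  rw [← h5] at hpP
  exact_mod_cast hpP

/-- Let `I` be a nonzero ideal such that no square of a place `P` above `3` divides `I`. Then `I = ∏_{P ∈ S} P · J`
with `S` the set of the places above `3` dividing `I` and `J` not divisible by any place above `3`; `N` is
multiplicative, `N P = 3^f` for `P ∈ S`, and `3 ∤ N J` (a prime ideal `Q` dividing `J` is not above `3`, its norm is a
power of the prime number below). E.g. by `UniqueFactorizationMonoid.induction_on_prime` or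
`Ideal.finprod_heightOneSpectrum_factorization`. -/
theorem val_absNorm {F : Type} [Field F] [NumberField F] (I : Ideal (𝓞 F)) (hI : I ≠ ⊥) (f : ℕ)
    (hf : ∀ P : HeightOneSpectrum (𝓞 F), (3 : 𝓞 F) ∈ P.asIdeal → Ideal.absNorm P.asIdeal = 3 ^ f)
    (h2 : ∀ P : HeightOneSpectrum (𝓞 F), (3 : 𝓞 F) ∈ P.asIdeal → ¬ P.asIdeal ^ 2 ∣ I) :
    padicValNat 3 (Ideal.absNorm I) =
      f * Nat.card {P : HeightOneSpectrum (𝓞 F) // (3 : 𝓞 F) ∈ P.asIdeal ∧ P.asIdeal ∣ I} := by
  have : Fact (Nat.Prime 3) := ⟨Nat.prime_three⟩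
  revert hI h2
  induction I using UniqueFactorizationMonoid.induction_on_prime with
  | h₁ => intro hI; exact absurd rfl hI
  | h₂ I hI' =>
    intro hI h2
    obtain rfl : I = ⊤ := by simpa using hI'
    have hemp : IsEmpty {P : HeightOneSpectrum (𝓞 F) // (3 : 𝓞 F) ∈ P.asIdeal ∧
        P.asIdeal ∣ (⊤ : Ideal (𝓞 F))} := by
      refine ⟨fun P => ?_⟩
      exact P.1.isPrime.ne_top (top_le_iff.1 (Ideal.dvd_iff_le.1 P.2.2))
    rw [Nat.card_of_isEmpty, Ideal.absNorm_top, padicValNat_one_right, mul_zero]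
  | h₃ J Q hJ hQ IH =>
    intro hI h2
    have hJ' : J ≠ ⊥ := hJ
    have hQp : Q.IsPrime := Ideal.isPrime_of_prime hQ
    have hQ0 : Q ≠ ⊥ := hQ.ne_zero
    have hQm : Q.IsMaximal := hQp.isMaximal hQ0
    have IH' := IH hJ' (fun P hP hd => h2 P hP (hd.mul_left _))
    have hN : Ideal.absNorm (Q * J) = Ideal.absNorm Q * Ideal.absNorm J := map_mul _ _ _
    have hNQ : Ideal.absNorm Q ≠ 0 := by
      rw [Ne, Ideal.absNorm_eq_zero_iff]; exact hQ0
    have hNJ : Ideal.absNorm J ≠ 0 := by
      rw [Ne, Ideal.absNorm_eq_zero_iff]; exact hJ'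
    have hdiv : ∀ P : HeightOneSpectrum (𝓞 F), P.asIdeal ∣ Q * J ↔ P.asIdeal = Q ∨
        P.asIdeal ∣ J := by
      intro P
      have hPp : Prime P.asIdeal := P.prime
      rw [hPp.dvd_mul]
      constructor
      · rintro (h | h)
        · left
          exact (hQm.eq_of_le P.isPrime.ne_top (Ideal.dvd_iff_le.1 h)).symm
        · exact Or.inr h
      · rintro (h | h)
        · exact Or.inl h.dvd
        · exact Or.inr h
    rw [hN, padicValNat.mul hNQ hNJ, IH']
    by_cases h3 : (3 : 𝓞 F) ∈ Q
    · let PQ : HeightOneSpectrum (𝓞 F) := ⟨Q, hQp, hQ0⟩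
      have hNQ3 : Ideal.absNorm Q = 3 ^ f := hf PQ h3
      rw [hNQ3, padicValNat.prime_pow]
      have hnd : ¬ Q ∣ J := by
        intro h
        apply h2 PQ h3
        rw [pow_two]
        exact mul_dvd_mul_left _ h
      have hfin : Finite {P : HeightOneSpectrum (𝓞 F) // (3 : 𝓞 F) ∈ P.asIdeal ∧
          P.asIdeal ∣ J} := by
        have := Ideal.finite_factors hJ'
        exact (this.subset (fun P hP => hP.2)).to_subtype
      have e : {P : HeightOneSpectrum (𝓞 F) // (3 : 𝓞 F) ∈ P.asIdeal ∧ P.asIdeal ∣ Q * J} ≃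
          Option {P : HeightOneSpectrum (𝓞 F) // (3 : 𝓞 F) ∈ P.asIdeal ∧ P.asIdeal ∣ J} :=
        { toFun := fun P => if h : P.1.asIdeal ∣ J then some ⟨P.1, P.2.1, h⟩ else none
          invFun := fun o => o.elim ⟨PQ, h3, (hdiv PQ).2 (Or.inl rfl)⟩
            (fun P => ⟨P.1, P.2.1, (hdiv P.1).2 (Or.inr P.2.2)⟩)
          left_inv := by
            intro P
            by_cases h : P.1.asIdeal ∣ J
            · simp [h]
            · have h4 : P.1.asIdeal = Q := ((hdiv P.1).1 P.2.2).resolve_right h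
              simp only [h, dif_neg, not_false_eq_true, Option.elim]
              apply Subtype.ext
              apply HeightOneSpectrum.ext
              exact h4.symm
          right_inv := by
            intro o
            cases o with
            | none => simp [PQ, hnd]
            | some P => simp [P.2.2] }
      rw [Nat.card_congr e, Finite.card_option]
      ring
    · have h4 : padicValNat 3 (Ideal.absNorm Q) = 0 :=
        padicValNat.eq_zero_of_not_dvd (d3d_not_dvd Q h3)
      rw [h4, zero_add]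
      congr 1
      apply Nat.card_congr
      refine Equiv.subtypeEquivRight fun P => ?_
      rw [hdiv]
      constructor
      · rintro ⟨a, b⟩
        exact ⟨a, Or.inr b⟩
      · rintro ⟨a, b | b⟩
        · exact absurd (b ▸ a) h3
        · exact ⟨a, b⟩

end R3S
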