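import Pool.Agent.MP_9ab903_nt.RS.TDefs

set_option autoImplicit false

open NumberField IsDedekindDomain
open CM27 CMT CF BS3 RF
open scoped Classical

namespace R3S

/-! ## [RS-D3e] the places above `3` and the different of `F / F₀` (file D3e.lean) -/

section aux

variable {n : ℕ} {F₀ F : Type} [Field F₀] [NumberField F₀] [Field F] [NumberField F]
    [Algebra F₀ F] {om : F} {t : F ≃ₐ[ℚ] F}

private theorem d3e_th (T : Tow n F₀ F om t) : (2 * om + 1) ^ 2 = (-3 : F) ∧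
    t (2 * om + 1) = -(2 * om + 1) ∧ (2 * om + 1 : F) ≠ 0 := by
  have h1 : (2 * om + 1) ^ 2 = (-3 : F) := by linear_combination 4 * T.omeq
  refine ⟨h1, ?_, ?_⟩
  · rw [map_add, map_mul, T.om_t, map_one, map_ofNat]
    ring
  · intro h
    rw [h] at h1
    norm_num at h1

private theorem d3e_nfix (T : Tow n F₀ F om t) (y : F₀) : algebraMap F₀ F y ≠ 2 * om + 1 := by
  intro h
  obtain ⟨_, h2, h3⟩ := d3e_th T
  have h4 := (T.fix (2 * om + 1)).2 ⟨y, h⟩
  rw [h2] at h4
  apply h3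
  have h5 : (2 : F) * (2 * om + 1) = 0 := by linear_combination -h4
  exact (mul_eq_zero.1 h5).resolve_left two_ne_zero

private theorem d3e_sq (T : Tow n F₀ F om t) (x : F) : t (t x) = x := by
  have := congrArg (fun s : F ≃ₐ[ℚ] F => s x) T.sq
  exact this

/-- every element is `a + b θ` -/
private theorem d3e_span (T : Tow n F₀ F om t) (x : F) : ∃ a b : F₀,
    x = algebraMap F₀ F a + algebraMap F₀ F b * (2 * om + 1) := by
  obtain ⟨h1, h2, h3⟩ := d3e_th T
  obtain ⟨a, ha⟩ := (T.fix ((x + t x) / 2)).1 (by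
    rw [map_div₀, map_add, d3e_sq T, map_ofNat, add_comm])
  obtain ⟨b, hb⟩ := (T.fix ((x - t x) / (2 * (2 * om + 1)))).1 (by
    rw [map_div₀, map_sub, d3e_sq T, map_mul, h2, map_ofNat]
    field_simp
    ring)
  refine ⟨a, b, ?_⟩
  rw [ha, hb]
  field_simp
  ring

private theorem d3e_integral (T : Tow n F₀ F om t) : IsIntegral ℤ (2 * om + 1 : F) := by
  obtain ⟨h1, _, _⟩ := d3e_th T
  refine IsIntegral.of_pow (n := 2) (by norm_num) ?_
  rw [h1]
  have : (-3 : F) = ((-3 : ℤ) : F) := by push_cast; rfl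
  rw [this]
  exact isIntegral_algebraMap (R := ℤ) (A := F) (x := (-3 : ℤ))

/-- `θ` as an integer of `F` -/
private def d3e_I (T : Tow n F₀ F om t) : 𝓞 F := ⟨2 * om + 1, d3e_integral T⟩

private theorem d3e_I_coe (T : Tow n F₀ F om t) : ((d3e_I T : 𝓞 F) : F) = 2 * om + 1 := rfl

private theorem d3e_I_sq (T : Tow n F₀ F om t) : (d3e_I T) ^ 2 = -3 := by
  apply RingOfIntegers.coe_injective
  rw [map_pow, map_neg, map_ofNat]
  exact (d3e_th T).1

private theorem d3e_finite : FiniteDimensional F₀ F :=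
  Module.Finite.of_restrictScalars_finite ℚ F₀ F

private theorem d3e_adjoin (T : Tow n F₀ F om t) :
    Algebra.adjoin F₀ {algebraMap (𝓞 F) F (d3e_I T)} = ⊤ := by
  rw [eq_top_iff]
  rintro x -
  obtain ⟨a, b, h⟩ := d3e_span T x
  rw [h]
  have h1 : (2 * om + 1 : F) ∈ Algebra.adjoin F₀ {algebraMap (𝓞 F) F (d3e_I T)} :=
    Algebra.subset_adjoin rfl
  exact add_mem (Subalgebra.algebraMap_mem _ _) (mul_mem (Subalgebra.algebraMap_mem _ _) h1)

open Polynomial in
private theorem d3e_minpoly (T : Tow n F₀ F om t) :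
    minpoly (𝓞 F₀) (d3e_I T) = X ^ 2 + C 3 := by
  have hint : IsIntegral (𝓞 F₀) (d3e_I T) := Algebra.IsIntegral.isIntegral _
  symm
  refine IsIntegrallyClosed.minpoly.unique ?_ ?_ ?_
  · exact monic_X_pow_add_C _ (by norm_num)
  · rw [map_add, map_pow, aeval_X, aeval_C, d3e_I_sq T, map_ofNat]
    norm_num
  · intro Q hQ hQ0
    rw [degree_X_pow_add_C (by norm_num)]
    by_contra hlt
    push Not at hlt
    have h1 : Q.natDegree ≤ 1 := by
      have : Q.natDegree < 2 := (natDegree_lt_iff_degree_lt hQ.ne_zero).2 (by exact_mod_cast hlt)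
      omega
    have h2 : Q.natDegree = 0 ∨ Q.natDegree = 1 := by omega
    rcases h2 with h2 | h2
    · have h3 := hQ.natDegree_eq_zero.1 h2
      rw [h3] at hQ0
      simp at hQ0
    · have h3 : Q.coeff 1 = 1 := by
        have := hQ.coeff_natDegree
        rwa [h2] at this
      rw [eq_X_add_C_of_natDegree_le_one h1, h3] at hQ0
      simp only [map_add, aeval_C, map_one, one_mul, aeval_X] at hQ0
      apply d3e_nfix T (-(Q.coeff 0 : 𝓞 F₀) : F₀)
      have h4 := congrArg (algebraMap (𝓞 F) F) hQ0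
      rw [map_add, map_zero, ← IsScalarTower.algebraMap_apply,
        IsScalarTower.algebraMap_apply (𝓞 F₀) F₀ F] at h4
      have h5 : (2 * om + 1 : F) + algebraMap F₀ F (Q.coeff 0 : F₀) = 0 := h4
      rw [map_neg]
      linear_combination -h5

end aux

open Polynomial in
/-- `F = F₀(θ)`, `θ = 2 om + 1`, `θ² = -3`, `θ` integral with minimal polynomial `X² + 3` over `F₀` (`t θ = -θ`, so
`θ ∉ F₀`), so `2 θ ∈ 𝔇` (`aeval_derivative_mem_differentIdeal`). `v_P(2 θ) = 1` for `P` above `3` (`T.ram`: `v_P(3) = 2`), so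
`2 θ ∉ P²` and `P² ∤ 𝔇`. -/
theorem Tow.diff_sq {n : ℕ} {F₀ F : Type} [Field F₀] [NumberField F₀] [Field F] [NumberField F]
    [Algebra F₀ F] {om : F} {t : F ≃ₐ[ℚ] F} (T : Tow n F₀ F om t) (P : HeightOneSpectrum (𝓞 F))
    (hP : (3 : 𝓞 F) ∈ P.asIdeal) : ¬ P.asIdeal ^ 2 ∣ differentIdeal (𝓞 F₀) (𝓞 F) := by
  intro hdvd
  have := d3e_finite (F₀ := F₀) (F := F)
  have h1 := aeval_derivative_mem_differentIdeal (𝓞 F₀) F₀ F (d3e_I T) (d3e_adjoin T)
  rw [d3e_minpoly T] at h1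
  have h2 : aeval (d3e_I T) (derivative (X ^ 2 + C 3 : (𝓞 F₀)[X])) = 2 * d3e_I T := by
    rw [derivative_add, derivative_C, add_zero, derivative_X_pow, map_mul, aeval_C, map_natCast,
      map_pow, aeval_X]
    norm_num
  rw [h2] at h1
  have h3 : (2 * d3e_I T : 𝓞 F) ∈ P.asIdeal ^ 2 := Ideal.le_of_dvd hdvd h1
  have h4 : P.intValuation (2 * d3e_I T) ≤ WithZero.exp (-2 : ℤ) :=
    (P.intValuation_le_pow_iff_mem (2 * d3e_I T) 2).2 h3
  have h5 : P.intValuation (3 : 𝓞 F) = WithZero.exp (-2 : ℤ) := by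
    rw [← P.valuation_of_algebraMap (K := F)]
    exact T.ram P hP
  have h6 : P.intValuation (d3e_I T) ^ 2 = WithZero.exp (-2 : ℤ) := by
    rw [← map_pow, d3e_I_sq T, Valuation.map_neg, h5]
  have h7 : P.intValuation (2 : 𝓞 F) = 1 := by
    rw [P.intValuation_eq_one_iff_mem_primeCompl]
    intro h
    have h8 : (1 : 𝓞 F) ∈ P.asIdeal := by
      have := P.asIdeal.sub_mem hP h
      norm_num at this
      exact this
    exact P.isPrime.ne_top ((Ideal.eq_top_iff_one _).2 h8)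
  rw [map_mul, h7, one_mul] at h4
  have h8 : P.intValuation (d3e_I T) ^ 2 ≤ WithZero.exp (-2 : ℤ) ^ 2 := pow_le_pow_left' h4 2
  rw [h6, ← WithZero.exp_nsmul, WithZero.exp_le_exp] at h8
  norm_num at h8

section aux2

variable {n : ℕ} {F₀ F : Type} [Field F₀] [NumberField F₀] [Field F] [NumberField F]
    [Algebra F₀ F] {om : F} {t : F ≃ₐ[ℚ] F}

/-- `t` as an automorphism over `F₀` -/
private def d3e_s (T : Tow n F₀ F om t) : F ≃ₐ[F₀] F :=
  AlgEquiv.ofRingEquiv (f := (t : F ≃+* F)) fun y => (T.fix _).2 ⟨y, rfl⟩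

private theorem d3e_s_apply (T : Tow n F₀ F om t) (x : F) : d3e_s T x = t x := rfl

private theorem d3e_s_ne (T : Tow n F₀ F om t) : d3e_s T ≠ 1 := by
  intro h
  apply T.ne
  ext x
  exact congrArg (fun s : F ≃ₐ[F₀] F => s x) h

private theorem d3e_all (T : Tow n F₀ F om t) (s : F ≃ₐ[F₀] F) : s = 1 ∨ s = d3e_s T := by
  obtain ⟨h1, h2, h3⟩ := d3e_th T
  have h4 : (s (2 * om + 1)) ^ 2 = (2 * om + 1) ^ 2 := by
    rw [← map_pow, h1, map_neg, map_ofNat]
  have hext : ∀ s' : F ≃ₐ[F₀] F, s (2 * om + 1) = s' (2 * om + 1) → s = s' := by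
    intro s' h
    ext x
    obtain ⟨a, b, hx⟩ := d3e_span T x
    rw [hx, map_add, map_add, map_mul, map_mul, AlgEquiv.commutes, AlgEquiv.commutes,
      AlgEquiv.commutes, AlgEquiv.commutes, h]
  rcases sq_eq_sq_iff_eq_or_eq_neg.1 h4 with h | h
  · exact Or.inl (hext 1 h)
  · refine Or.inr (hext _ ?_)
    rw [h, d3e_s_apply, h2]

private theorem d3e_galois (T : Tow n F₀ F om t) : IsGalois F₀ F := by
  have := T.gal
  exact IsGalois.tower_top_of_isGalois ℚ F₀ F

end aux2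

/-- `dvd_differentIdeal_iff`: `P ∣ 𝔇` iff `P` is ramified over `F₀`. `Gal(F/F₀) = {1, t}` (`T.fix`). The order of the
inertia group of `P` in `Gal(F/F₀)` is the ramification index `e(P/F₀)` (`Ideal.card_inertia_eq_ramificationIdxIn`), so
`InertBy t P` iff `e(P/F₀) = 2` iff `e(P/F₀) ≠ 1` iff `P` is not unramified (the residue field extension is
separable: finite fields). Alternatively directly: if `InertBy t P` then `x ↦ t x - x` ... trace ... -/
theorem Tow.diff_iff {n : ℕ} {F₀ F : Type} [Field F₀] [NumberField F₀] [Field F] [NumberField F]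
    [Algebra F₀ F] {om : F} {t : F ≃ₐ[ℚ] F} (T : Tow n F₀ F om t) (P : HeightOneSpectrum (𝓞 F))
    (hP : (3 : 𝓞 F) ∈ P.asIdeal) :
    P.asIdeal ∣ differentIdeal (𝓞 F₀) (𝓞 F) ↔ InertBy (t : F ≃+* F) P := by
  have hfin := d3e_finite (F₀ := F₀) (F := F)
  have hgal := d3e_galois T
  have hgg : IsGaloisGroup (F ≃ₐ[F₀] F) (𝓞 F₀) (𝓞 F) :=
    IsGaloisGroup.of_isFractionRing (F ≃ₐ[F₀] F) (𝓞 F₀) (𝓞 F) F₀ F
  have hPp : P.asIdeal.IsPrime := P.isPrime
  have h1 : P.asIdeal ∣ differentIdeal (𝓞 F₀) (𝓞 F) ↔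
      ¬ Nat.card (P.asIdeal.inertia (F ≃ₐ[F₀] F)) = 1 := by
    rw [Ideal.card_inertia_eq_ramificationIdxIn (P.asIdeal.under (𝓞 F₀)) P.asIdeal,
      Ideal.ramificationIdxIn_eq_ramificationIdx _ P.asIdeal (F ≃ₐ[F₀] F),
      Ideal.ramificationIdx_eq_one_iff, dvd_differentIdeal_iff]
  rw [h1]
  have hcoe : ∀ x : 𝓞 F, ((d3e_s T • x : 𝓞 F) : F) = t (x : F) := fun x => rfl
  constructor
  · intro hc x y hxy
    by_contra hxP
    apply hc
    rw [Subgroup.card_eq_one, Subgroup.eq_bot_iff_forall]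
    intro s hs
    rcases d3e_all T s with h | h
    · exact h
    · exfalso
      apply hxP
      have h2 : y = s • x := by
        apply RingOfIntegers.coe_injective
        rw [h]
        exact hxy.trans (hcoe x).symm
      rw [h2]
      exact hs x
  · intro hI hc
    rw [Subgroup.card_eq_one] at hc
    apply d3e_s_ne T
    have h2 : d3e_s T ∈ P.asIdeal.inertia (F ≃ₐ[F₀] F) := fun x => hI x _ (hcoe x)
    rw [hc] at h2
    exact Subgroup.mem_bot.1 h2

end R3S
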