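import Pool.Agent.MP_9ab903_nt.RS.D0
import Pool.Agent.MP_9ab903_nt.RS.D1
import Pool.Agent.MP_9ab903_nt.RS.D2
import Pool.Agent.MP_9ab903_nt.RS.D3b
import Pool.Agent.MP_9ab903_nt.RS.D3c
import Pool.Agent.MP_9ab903_nt.RS.D3d
import Pool.Agent.MP_9ab903_nt.RS.D3e

set_option autoImplicit false

open NumberField IsDedekindDomain
open CM27 CMT CF BS3 RF
open scoped Classical

namespace R3S

/-! ## [RS-D4] the discriminant: assembly (file D4.lean; uses the stubs of D0 - D3e) -/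

/-- `|D_F| = N(𝔇_{F/F₀}) |D_{F₀}|²` (`natAbs_discr_eq_absNorm_differentIdeal_mul_natAbs_discr_pow`,
`[F : F₀] = 2`: by `T.fix`, or `[F : ℚ] = 2 · 3^n` and `hF₀`). `v₃(|D_F|) = 3^n` (`hF`, from `Base.discr_three`).
`v₃(N 𝔇) = f N_t` (`val_absNorm`, `diff_sq`, `diff_iff`), `f N_t |Inv2| = 3^n = r₁ |Inv2|` (`Tow.primes`,
`Tow.real`), so `v₃(N 𝔇) = r₁` (`r₁ = nrRealPlaces F₀`) and `2 v₃(|D_{F₀}|) = 3^n - r₁ = 2 r₂`. -/
theorem Tow.discr_three {n : ℕ} {F₀ F : Type} [Field F₀] [NumberField F₀] [Field F] [NumberField F]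
    [Algebra F₀ F] {om : F} {t : F ≃ₐ[ℚ] F} (T : Tow n F₀ F om t)
    (hF₀ : Module.finrank ℚ F₀ = 3 ^ n) (hF : padicValNat 3 (discr F).natAbs = 3 ^ n) :
    padicValNat 3 (discr F₀).natAbs = InfinitePlace.nrComplexPlaces F₀ := by
  have hfin : Module.finrank F₀ F = 2 := by
    have h1 := Module.finrank_mul_finrank ℚ F₀ F
    rw [hF₀, T.deg] at h1
    have h2 : 0 < 3 ^ n := by positivity
    rw [mul_comm 2] at h1
    exact Nat.eq_of_mul_eq_mul_left h2 h1
  obtain ⟨f, hf, hfc⟩ := T.primes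
  have hr := T.real
  have hI : differentIdeal (𝓞 F₀) (𝓞 F) ≠ ⊥ := differentIdeal_ne_bot
  have hv := val_absNorm (differentIdeal (𝓞 F₀) (𝓞 F)) hI f hf (fun P hP => T.diff_sq P hP)
  have hcard : Nat.card {P : HeightOneSpectrum (𝓞 F) // (3 : 𝓞 F) ∈ P.asIdeal ∧
      P.asIdeal ∣ differentIdeal (𝓞 F₀) (𝓞 F)} =
      Nat.card {P : HeightOneSpectrum (𝓞 F) // (3 : 𝓞 F) ∈ P.asIdeal ∧
        InertBy (t : F ≃+* F) P} :=
    Nat.card_congr (Equiv.subtypeEquivRight fun P => and_congr_right fun hP => T.diff_iff P hP)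
  rw [hcard] at hv
  have hpos : 0 < Nat.card (Inv2 F) := by
    rcases Nat.eq_zero_or_pos (Nat.card (Inv2 F)) with h0 | h0
    · rw [h0, mul_zero] at hr
      exact absurd hr.symm (by positivity)
    · exact h0
  have hN : padicValNat 3 (Ideal.absNorm (differentIdeal (𝓞 F₀) (𝓞 F))) =
      InfinitePlace.nrRealPlaces F₀ := by
    rw [hv]
    exact Nat.eq_of_mul_eq_mul_right hpos (hfc.trans hr.symm)
  have hd := natAbs_discr_eq_absNorm_differentIdeal_mul_natAbs_discr_pow F₀ (𝓞 F₀) F (𝓞 F)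
  rw [hfin] at hd
  have hd0 : (discr F₀).natAbs ≠ 0 := Int.natAbs_ne_zero.2 (discr_ne_zero F₀)
  have hD0 : Ideal.absNorm (differentIdeal (𝓞 F₀) (𝓞 F)) ≠ 0 := by
    intro h0
    exact hI (Ideal.absNorm_eq_zero_iff.1 h0)
  haveI : Fact (Nat.Prime 3) := ⟨Nat.prime_three⟩
  have hval : padicValNat 3 (discr F).natAbs =
      InfinitePlace.nrRealPlaces F₀ + 2 * padicValNat 3 (discr F₀).natAbs := by
    rw [hd, padicValNat.mul hD0 (pow_ne_zero 2 hd0), padicValNat.pow, hN]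
  have hc := InfinitePlace.card_add_two_mul_card_eq_rank F₀
  rw [hF, ← hF₀] at hval
  omega

/-- `discr_of_odd`: `discr L = a²` or `-3 a²`. `3^{r₂} ∥ |discr L|`, so `r₂` is even in the first case and
`a = 3^{r₂ / 2} a'`, odd in the second case and `a = 3^{(r₂ - 1) / 2} a'`. -/
theorem discr_form (L : Type) [Field L] [NumberField L] (k : ℕ) (hk : Odd k)
    (h : ∀ τ : ℂ ≃+* ℂ, τ w = w → ∀ (σ : L →+* ℂ) (x : L), (⇑τ)^[k] (σ x) = σ x)
    (h3 : padicValNat 3 (discr L).natAbs = InfinitePlace.nrComplexPlaces L) :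
    ∃ a : ℕ, ¬ 3 ∣ a ∧ (discr L).natAbs = 3 ^ InfinitePlace.nrComplexPlaces L * a ^ 2 := by
  haveI : Fact (Nat.Prime 3) := ⟨Nat.prime_three⟩
  obtain ⟨a, ha⟩ := discr_of_odd L k hk h
  have hd0 : (discr L).natAbs ≠ 0 := Int.natAbs_ne_zero.2 (discr_ne_zero L)
  have ha0 : a.natAbs ≠ 0 := by
    intro h0
    have h1 : a = 0 := Int.natAbs_eq_zero.1 h0
    subst h1
    rcases ha with h2 | h2 <;> exact discr_ne_zero L (by rw [h2]; ring)
  obtain ⟨j, c, hc, hb⟩ := Nat.exists_eq_pow_mul_and_not_dvd ha0 3 (by norm_num)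
  have hc0 : c ≠ 0 := by
    rintro rfl
    exact hc (dvd_zero 3)
  have hcv : padicValNat 3 c = 0 := padicValNat.eq_zero_of_not_dvd hc
  have h30 : (3 : ℕ) ^ j ≠ 0 := by positivity
  have hbv : padicValNat 3 a.natAbs = j := by
    rw [hb, padicValNat.mul h30 hc0, hcv, padicValNat.prime_pow]
    rfl
  refine ⟨c, hc, ?_⟩
  rcases ha with h2 | h2
  · have h4 : (discr L).natAbs = a.natAbs ^ 2 := by rw [h2, Int.natAbs_pow]
    rw [h4, padicValNat.pow, hbv] at h3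
    rw [h4, ← h3, hb, mul_pow, ← pow_mul, mul_comm j 2]
  · have h4 : (discr L).natAbs = 3 * a.natAbs ^ 2 := by
      rw [h2, Int.natAbs_mul, Int.natAbs_pow]
      rfl
    have h5 : a.natAbs ^ 2 ≠ 0 := pow_ne_zero 2 ha0
    rw [h4, padicValNat.mul (by norm_num) h5, padicValNat.pow, hbv,
      padicValNat_self] at h3
    rw [h4, ← h3, hb, mul_pow, ← pow_mul, mul_comm j 2, pow_add, pow_one, mul_assoc]

/-- The field `F ∋ ω` is totally complex of degree `2 · 3^n`, so it has `3^n` complex places. -/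
theorem Base.discr_F {K F : Type} [Field K] [NumberField K] [IsCyclotomicExtension {3} ℚ K]
    [Field F] [NumberField F] [Algebra K F] {m n : ℕ} (B : Base m n K F) :
    ∃ a : ℕ, ¬ 3 ∣ a ∧ (discr F).natAbs = 3 ^ InfinitePlace.nrComplexPlaces F * a ^ 2 := by
  haveI : IsTotallyComplex K :=
    IsCyclotomicExtension.Rat.isTotallyComplex K (n := 3) (by norm_num)
  haveI : IsTotallyComplex F := isTotallyComplex_of_algebra K F
  have hdeg : Module.finrank ℚ F = 2 * 3 ^ n := by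
    rw [← Module.finrank_mul_finrank ℚ K F, B.deg,
      IsCyclotomicExtension.finrank (n := 3) K (Polynomial.cyclotomic.irreducible_rat (by norm_num))]
    rfl
  have hfin := IsTotallyComplex.finrank (K := F)
  have hn : InfinitePlace.nrComplexPlaces F = 3 ^ n := by omega
  refine discr_form F (3 ^ n) (Odd.pow (by decide)) (fun τ hτ σ x => B.orbit τ hτ σ x) ?_
  rw [B.discr_three, hn]

/-- from `Base.tow`, `Tow.discr_three`, `discr_form`, `Base.orbit`, `orbit_sub` -/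
theorem Base.discr_F₀ {K F₀ F : Type} [Field K] [NumberField K] [IsCyclotomicExtension {3} ℚ K]
    [Field F₀] [NumberField F₀] [Field F] [NumberField F] [Algebra K F] [Algebra F₀ F] {m n : ℕ}
    (B : Base m n K F) (om : F) (hom : om ^ 2 + om + 1 = 0) (τ : F ≃+* F) (hτ : τ om = -1 - om)
    (hfix : ∀ y : F₀, τ (algebraMap F₀ F y) = algebraMap F₀ F y)
    (h2 : Module.finrank F₀ F = 2) (hF₀ : Module.finrank ℚ F₀ = 3 ^ n) :
    ∃ a : ℕ, ¬ 3 ∣ a ∧ (discr F₀).natAbs = 3 ^ InfinitePlace.nrComplexPlaces F₀ * a ^ 2 := by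
  obtain ⟨t, -, T⟩ := B.tow om hom τ hτ hfix h2
  exact discr_form F₀ (3 ^ n) (Odd.pow (by decide))
    (fun τ hτ σ x => orbit_sub (3 ^ n) τ (fun σ x => B.orbit τ hτ σ x) σ x)
    (T.discr_three hF₀ B.discr_three)

end R3S
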