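import Pool.Agent.MP_9ab903_nt.RS.SHDefs
import Pool.Agent.MP_9ab903_nt.S3.S15
import Pool.Agent.MP_ae0bd0_nt.RF.B6

set_option autoImplicit false

open NumberField IsDedekindDomain
open CM27 CMT CF BS3 SB3 RF
open scoped Classical

namespace R3S

/-! ## [RS-SH6] properties of `InI` and `GoodI` (file SH6.lean; port of S3/S14.lean, S3/S15.lean) -/

/-- as `InU3.mul` (S3/S14.lean) -/
theorem InI.mul {F : Type} [Field F] {w : Valuation F (WithZero (Multiplicative ℤ))}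
    {z z' : Q2 (-1) F} (h : InI w z) (h' : InI w z') : InI w (z * z') := by
  obtain ⟨u, a, b, hu, hz, ha, hb⟩ := h
  obtain ⟨u', a', b', hu', hz', ha', hb'⟩ := h'
  have h2 : WithZero.exp (-2 : ℤ) < 1 := by
    rw [← WithZero.exp_zero, WithZero.exp_lt_exp]
    norm_num
  refine ⟨u * u', a * a' - b * b', a * b' + b * a', hu.mul hu', ?_, ?_, ?_⟩
  · have e : z * z' * (u * u') ^ 3 = z * u ^ 3 * (z' * u' ^ 3) := by ring
    rw [e, hz, hz']
    ext
    · simp only [QuadraticAlgebra.re_mul]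
      push_cast
      ring
    · simp only [QuadraticAlgebra.im_mul]
      ring
  · have h1 : w (a * a') = 1 := by rw [map_mul, ha, ha', one_mul]
    rw [sub_eq_add_neg, Valuation.map_add_eq_of_lt_left, h1]
    rw [h1, Valuation.map_neg, map_mul]
    exact mul_lt_one_of_nonneg_of_lt_one_left zero_le (hb.trans_lt h2) (hb'.trans h2.le)
  · refine (w.map_add _ _).trans (max_le ?_ ?_)
    · rw [map_mul, ha, one_mul]; exact hb'
    · rw [map_mul, ha', mul_one]; exact hb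

theorem InI.cube {F : Type} [Field F] (w : Valuation F (WithZero (Multiplicative ℤ)))
    (t : Q2 (-1) F) (ht : IsUnit t) : InI w (t ^ 3) := by
  obtain ⟨t, rfl⟩ := ht
  refine ⟨↑t⁻¹, 1, 0, Units.isUnit _, ?_, map_one w, ?_⟩
  · rw [← mul_pow, Units.mul_inv, one_pow]
    ext
    · rw [QuadraticAlgebra.re_one]
    · rw [QuadraticAlgebra.im_one]
  · rw [map_zero]; exact zero_le

theorem InI.map {F : Type} [Field F] {w w' : Valuation F (WithZero (Multiplicative ℤ))}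
    (σ : F →+* F) (hw : ∀ x, w' x = w (σ x)) {z : Q2 (-1) F} (h : InI w' z) :
    InI w (mapQ σ z) := by
  obtain ⟨u, a, b, hu, hz, ha, hb⟩ := h
  refine ⟨mapQ σ u, σ a, σ b, hu.map (mapQ σ), ?_, ?_, ?_⟩
  · rw [← map_pow, ← map_mul, hz, mapQ_apply]
  · rw [← hw, ha]
  · rw [← hw]; exact hb

section
variable {F : Type} [Field F] [NumberField F] [Fact (NonSq (-1) F)] {c : ℤ}

/-- as `Good3.mul` (S3/S15.lean) -/
theorem GoodI.mul {z z' : Q2 (-1) F} (h : GoodI c z) (h' : GoodI c z') : GoodI c (z * z') := by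
  refine ⟨mul_ne_zero h.ne h'.ne, ?_, ?_, ?_⟩
  · obtain ⟨n, hn⟩ := h.norm
    obtain ⟨n', hn'⟩ := h'.norm
    exact ⟨n * n', by rw [map_mul, hn, hn']; ring⟩
  · intro P hP
    obtain ⟨g, hg⟩ := h.val P hP
    obtain ⟨g', hg'⟩ := h'.val P hP
    exact ⟨g * g', by rw [map_mul, hg, hg', mul_pow]⟩
  · intro v hv
    exact InI.mul (h.three v hv) (h'.three v hv)

theorem GoodI.cube (t : Q2 (-1) F) (ht : t ≠ 0) : GoodI c (t ^ 3) := by
  refine ⟨pow_ne_zero 3 ht, ⟨t.norm, map_pow _ _ _⟩, ?_, ?_⟩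
  · intro P hP
    exact ⟨P.valuation (Q2 (-1) F) t, map_pow _ _ _⟩
  · intro v hv
    exact InI.cube _ t (isUnit_iff_ne_zero.2 ht)

theorem GoodI.inv {z : Q2 (-1) F} (h : GoodI c z) : GoodI c z⁻¹ := by
  have h1 : z⁻¹ = z * z * (z⁻¹) ^ 3 := by
    have := h.ne
    field_simp
  rw [h1]
  exact (h.mul h).mul (GoodI.cube _ (inv_ne_zero h.ne))

/-- as `Good3.map` -/
theorem GoodI.map {z : Q2 (-1) F} (h : GoodI c z) (σ : F ≃+* F) :
    GoodI c (mapQ (σ : F →+* F) z) := by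
  have hval : ∀ x : Q2 (-1) F, s15_equiv σ x = mapQ (σ : F →+* F) x := fun x => rfl
  refine ⟨?_, ?_, ?_, ?_⟩
  · rw [← hval]
    exact (map_ne_zero_iff _ (s15_equiv σ).injective).2 h.ne
  · obtain ⟨n, hn⟩ := h.norm
    exact ⟨σ n, by rw [s15_norm_mapQ, hn]; simp⟩
  · intro P hP
    obtain ⟨P', hP1, hP2, -⟩ := exists_conj (Q2 (-1) F) (s15_equiv σ) P
    have h6 : ((c : ℤ) : 𝓞 (Q2 (-1) F)) ∉ P'.asIdeal := by
      intro h6
      rw [s15_int_mem] at h6 hP
      exact hP ((hP2 _).1 h6)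
    obtain ⟨g, hg⟩ := h.val P' h6
    exact ⟨g, by rw [← hval, ← hP1, hg]⟩
  · intro v hv
    obtain ⟨v', h1, h2, h3⟩ := exists_conj F σ v
    have h4 : (3 : 𝓞 F) ∈ v'.asIdeal := by
      have := (h2 3).2 (by exact_mod_cast hv)
      exact_mod_cast this
    exact InI.map (σ : F →+* F) h1 (h.three v' h4)

end

theorem sh6_mul_cube {K : Type} [Field K] (z1 z2 x1 x2 : K) :
    (⟨z1, z2⟩ : Q2 (-1) K) * (⟨x1, x2⟩ : Q2 (-1) K) ^ 3 =
      ⟨z1 * (x1 ^ 3 - 3 * x1 * x2 ^ 2) - z2 * (3 * x1 ^ 2 * x2 - x2 ^ 3),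
        z1 * (3 * x1 ^ 2 * x2 - x2 ^ 3) + z2 * (x1 ^ 3 - 3 * x1 * x2 ^ 2)⟩ := by
  ext
  · simp only [pow_succ, pow_zero, one_mul, QuadraticAlgebra.re_mul, QuadraticAlgebra.im_mul]
    push_cast
    ring
  · simp only [pow_succ, pow_zero, one_mul, QuadraticAlgebra.re_mul, QuadraticAlgebra.im_mul]
    push_cast
    ring

/-- `x² + y²` has order `0` and `-1` is not a square modulo the valuation: `x`, `y` are integral. -/
theorem sh6_int {F : Type} [Field F] {w : Valuation F (WithZero (Multiplicative ℤ))}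
    (hns : ∀ x : F, ¬ w (x ^ 2 + 1) < 1) {x y : F} (h : q10_eq w (x ^ 2 + y ^ 2) 0)
    (hxy : w x ≤ w y) : w x ≤ 1 ∧ w y = 1 := by
  have hw : w (x ^ 2 + y ^ 2) = 1 := by
    unfold q10_eq at h
    rw [h, neg_zero, WithZero.exp_zero]
  have hy : y ≠ 0 := by
    rintro rfl
    rw [map_zero] at hxy
    have hx : x = 0 := (Valuation.zero_iff w).1 (le_antisymm hxy zero_le)
    rw [hx] at hw
    simp at hw
  have hwy : w y ≠ 0 := (Valuation.ne_zero_iff w).2 hy
  have e : x ^ 2 + y ^ 2 = y ^ 2 * ((x / y) ^ 2 + 1) := by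
    field_simp
  have h1 : w ((x / y) ^ 2 + 1) ≤ 1 := by
    refine (w.map_add _ _).trans (max_le ?_ (by rw [map_one]))
    rw [map_pow, map_div₀]
    exact pow_le_one₀ zero_le (div_le_one_of_le₀ hxy zero_le)
  have h2 : w ((x / y) ^ 2 + 1) = 1 := le_antisymm h1 (not_lt.1 (hns _))
  rw [e, map_mul, h2, mul_one, map_pow] at hw
  have h3 : w y = 1 := by
    have := pow_eq_one_iff_of_nonneg (zero_le (a := w y)) (two_ne_zero)
    exact this.1 hw
  exact ⟨hxy.trans h3.le, h3⟩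

theorem sh6_main {F : Type} [Field F] [CharZero F]
    (w : Valuation F (WithZero (Multiplicative ℤ))) (om : F) (hom : om ^ 2 + om + 1 = 0)
    (hw : w (2 * om + 1) = WithZero.exp (-1 : ℤ)) (hns : ∀ x : F, ¬ w (x ^ 2 + 1) < 1)
    (e : F) (he : e = 1 ∨ e = -1) : ¬ InI w (⟨2, e * (2 * om + 1)⟩ : Q2 (-1) F) := by
  rintro ⟨⟨x, y⟩, a, b, -, hz, ha, hb⟩
  have hpi : q10_eq w (2 * om + 1) 1 := hw
  have hpi2 : (2 * om + 1) * (2 * om + 1) = -3 := by linear_combination 4 * hom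
  have h3 : q10_eq w (3 : F) 2 := by
    have h1 := (hpi.mul hpi).neg
    rw [hpi2, neg_neg] at h1
    exact h1
  have hu2 : q10_eq w (2 : F) 0 := by
    have := b6_int_unit (w := w) (h3.ge.mono (by omega)) 2 (by omega)
    exact_mod_cast this
  have hee : q10_eq w e 0 := by
    rcases he with rfl | rfl
    · exact q10_one
    · exact q10_one.neg
  have he2 : e ^ 2 = 1 := by rcases he with rfl | rfl <;> norm_num
  rw [sh6_mul_cube] at hz
  have e1 := congrArg QuadraticAlgebra.re hz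
  have e2 := congrArg QuadraticAlgebra.im hz
  simp only at e1 e2
  set p := 2 * om + 1 with hp
  have hb2 : q10_ge w b 2 := hb
  have ha0 : q10_eq w a 0 := by
    unfold q10_eq
    rw [ha, neg_zero, WithZero.exp_zero]
  have hN : (x ^ 2 + y ^ 2) ^ 3 = a ^ 2 + b ^ 2 := by
    rw [← e1, ← e2]
    linear_combination (-(x ^ 2 + y ^ 2) ^ 3 * e ^ 2) * hpi2 + (3 * (x ^ 2 + y ^ 2) ^ 3) * he2
  have hN1 : q10_eq w ((x ^ 2 + y ^ 2) ^ 3) 0 := by
    rw [hN]
    have h1 := ha0.mul ha0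
    rw [← sq] at h1
    refine h1.add ?_
    have h2 := hb2.mul hb2
    rw [← sq] at h2
    exact h2.mono (by omega)
  have hNne : x ^ 2 + y ^ 2 ≠ 0 := by
    intro h0
    rw [h0] at hN1
    unfold q10_eq at hN1
    rw [zero_pow (by norm_num), map_zero] at hN1
    exact WithZero.exp_ne_zero hN1.symm
  have hN0 : q10_eq w (x ^ 2 + y ^ 2) 0 := by
    obtain ⟨k, hk⟩ := q10_exists (w := w) hNne
    have h1 := (hk.mul hk).mul hk
    rw [← sq, ← pow_succ] at h1
    have h2 := hN1.unique h1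
    have : k = 0 := by omega
    rw [← this]; exact hk
  have hxy : w x ≤ 1 ∧ w y ≤ 1 ∧ (w x = 1 ∨ w y = 1) := by
    rcases le_total (w x) (w y) with h | h
    · obtain ⟨h1, h2⟩ := sh6_int hns hN0 h
      exact ⟨h1, h2.le, Or.inr h2⟩
    · obtain ⟨h1, h2⟩ := sh6_int hns (by rw [add_comm]; exact hN0) h
      exact ⟨h2.le, h1, Or.inl h2⟩
  obtain ⟨hx, hy, hor⟩ := hxy
  have hx0 : q10_ge w x 0 := by
    unfold q10_ge
    rw [neg_zero, WithZero.exp_zero]; exact hx
  have hy0 : q10_ge w y 0 := by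
    unfold q10_ge
    rw [neg_zero, WithZero.exp_zero]; exact hy
  have t1 : q10_ge w (2 * (3 * x ^ 2 * y)) 2 := by
    have := hu2.ge.mul ((h3.ge.mul (hx0.mul hx0)).mul hy0)
    rw [← sq] at this
    exact this.mono (by omega)
  have t2 : q10_ge w (x ^ 3) 0 := by
    have := (hx0.mul hx0).mul hx0
    rw [← sq, ← pow_succ] at this
    exact this.mono (by omega)
  have t3 : q10_ge w (3 * x * y ^ 2) 2 := by
    have := (h3.ge.mul hx0).mul (hy0.mul hy0)
    rw [← sq] at this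
    exact this.mono (by omega)
  have t4 : q10_ge w (e * p * (x ^ 3 - 3 * x * y ^ 2)) 1 := by
    have := (hee.ge.mul hpi.ge).mul (t2.sub (t3.mono (m := 0) (by omega)))
    exact this.mono (by omega)
  -- `v(y) ≥ 1`
  have ty3 : q10_ge w (2 * y ^ 3) 1 := by
    have h1 := ((t1.mono (m := 1) (by omega)).add t4).sub (hb2.mono (m := 1) (by omega))
    have e3 : 2 * (3 * x ^ 2 * y) + e * p * (x ^ 3 - 3 * x * y ^ 2) - b = 2 * y ^ 3 := by
      rw [← e2]; ring
    rw [e3] at h1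
    exact h1
  have hy1 : q10_ge w y 1 := by
    have h1 : q10_ge w (y ^ 3) (3 * 0 + 1) := by
      unfold q10_ge at ty3 ⊢
      unfold q10_eq at hu2
      rw [map_mul, hu2, neg_zero, WithZero.exp_zero, one_mul] at ty3
      exact ty3
    exact b6_ge_of_cube h1
  have hwx : q10_eq w x 0 := by
    rcases hor with h | h
    · unfold q10_eq
      rw [h, neg_zero, WithZero.exp_zero]
    · exfalso
      have h2 : q10_eq w y 0 := by
        unfold q10_eq
        rw [h, neg_zero, WithZero.exp_zero]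
      have := h2.le hy1
      omega
  have s1 : q10_eq w (e * p * x ^ 3) 1 := by
    have := (hee.mul hpi).mul ((hwx.mul hwx).mul hwx)
    rw [← sq, ← pow_succ] at this
    exact this
  have s2 : q10_ge w (2 * y ^ 3) 2 := by
    have := hu2.ge.mul ((hy1.mul hy1).mul hy1)
    rw [← sq, ← pow_succ] at this
    exact this.mono (by omega)
  have s3 : q10_ge w (e * p * (3 * x * y ^ 2)) 2 := by
    have := (hee.ge.mul hpi.ge).mul t3
    exact this.mono (by omega)
  have s4 : q10_ge w (e * p * x ^ 3) 2 := by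
    have h1 := ((hb2.sub t1).add s2).add s3
    have e3 : b - 2 * (3 * x ^ 2 * y) + 2 * y ^ 3 + e * p * (3 * x * y ^ 2) = e * p * x ^ 3 := by
      rw [← e2]; ring
    rw [e3] at h1
    exact h1
  have := s1.le s4
  omega

/-- `eps om = ⟨2, θ⟩`, `θ = 2 om + 1`, `θ² = -3` (compare `RF.no_sol`, B6.lean). Suppose `⟨2, ±θ⟩ u³ = ⟨a, b⟩`, `u = x + y i`, `v(a) = 0`, `v(b) ≥ 2`. The norm:
`(4 + θ²) N(u)³ = N(u)³ = a² + b²` has valuation `0`, so `v(x² + y²) = 0`; with `hns` this gives `v(x), v(y) ≥ 0`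
(if `v(x) < 0` is minimal, divide by `x`). `u³ = (x³ - 3 x y²) + (3 x² y - y³) i`, so modulo `3 = -θ²`:
`b ≡ 2 (- y³) ± θ x³`. So `v(y³) ≥ 1`, `v(y) ≥ 1`, `v(y³) ≥ 3`, so `v(θ x³) ≥ 2`, `v(x) ≥ 1`, a contradiction to
`v(x² + y²) = 0`. -/
theorem not_inI_eps {F : Type} [Field F] [CharZero F]
    (w : Valuation F (WithZero (Multiplicative ℤ))) (om : F) (hom : om ^ 2 + om + 1 = 0)
    (hw : w (2 * om + 1) = WithZero.exp (-1 : ℤ)) (hns : ∀ x : F, ¬ w (x ^ 2 + 1) < 1) :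
    ¬ InI w (eps om) ∧ ¬ InI w (star (eps om)) := by
  constructor
  · have h := sh6_main w om hom hw hns 1 (Or.inl rfl)
    rw [one_mul] at h
    exact h
  · have h := sh6_main w om hom hw hns (-1) (Or.inr rfl)
    have e : star (eps om) = (⟨2, -1 * (2 * om + 1)⟩ : Q2 (-1) F) := by
      ext
      · simp [eps]
      · simp [eps]
    rw [e]
    exact h

end R3S
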