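import Pool.Agent.MP_9ab903_nt.RS.TDefs
import Pool.Agent.MP_9ab903_nt.S3.S7
import Pool.Agent.MP_9ab903_nt.SB.CO

set_option autoImplicit false

open NumberField IsDedekindDomain
open CM27 CMT CF BS3 SB3 RF
open scoped Classical

namespace R3S

/-! ## [RS-TA3] `-1` is not a square modulo the places above `3` and the primes `≡ 7 mod 12`
(file TA3.lean) -/

/-- The residue degree of a place of `ℚ(ω)` above `p`, `p = 3` or `p ≡ 1 mod 3`, is `1`. -/
theorem ta3_card (K : Type) [Field K] [NumberField K] [IsCyclotomicExtension {3} ℚ K] (p : ℕ)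
    (hp : p.Prime) (h : p = 3 ∨ p % 12 = 7) (w : HeightOneSpectrum (𝓞 K))
    (hw : (p : 𝓞 K) ∈ w.asIdeal) : Nat.card (𝓞 K ⧸ w.asIdeal) = p := by
  have hpf : Fact p.Prime := ⟨hp⟩
  have hp0 : (Ideal.span {(p : ℤ)}) ≠ ⊥ := by
    simp [hp.ne_zero]
  have hprime : (Ideal.span {(p : ℤ)}).IsPrime := by
    rw [Ideal.span_singleton_prime (by exact_mod_cast hp.ne_zero)]
    exact Nat.prime_iff_prime_int.mp hp
  have hmax : (Ideal.span {(p : ℤ)}).IsMaximal := hprime.isMaximal hp0
  have hvpr : w.asIdeal.IsPrime := w.isPrime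
  have hlies : w.asIdeal.LiesOver (Ideal.span {(p : ℤ)}) := by
    constructor
    refine hmax.eq_of_le ?_ ?_
    · exact Ideal.IsPrime.ne_top inferInstance
    · rw [Ideal.span_singleton_le_iff_mem, Ideal.mem_comap]
      simpa using hw
  have hf0 : w.asIdeal.inertiaDeg ℤ = 1 := by
    rcases h with rfl | h
    · exact IsCyclotomicExtension.Rat.inertiaDeg_eq_of_prime 3 K w.asIdeal
    · have hnd : ¬ p ∣ 3 := fun hd => by
        have h3 := (Nat.prime_dvd_prime_iff_eq hp Nat.prime_three).1 hd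
        rw [h3] at h
        norm_num at h
      rw [IsCyclotomicExtension.Rat.inertiaDeg_eq_of_not_dvd (m := 3) p K w.asIdeal hnd]
      have h1 : ((p : ℕ) : ZMod 3) = 1 := by
        have h2 : p % 3 = 1 := by omega
        have h3 : ((p : ℕ) : ZMod 3) = ((1 : ℕ) : ZMod 3) := by
          rw [ZMod.natCast_eq_natCast_iff']
          omega
        rw [h3, Nat.cast_one]
      rw [h1, orderOf_one]
  have h1 := Ideal.pow_inertiaDeg p w.asIdeal
  rw [hf0, pow_one, Ideal.absNorm_apply, Submodule.cardQuot_apply] at h1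
  exact h1.symm

/-- See the end of the proof of `RF.exists_three` (RF/B8.lean): for the place `v₀` of `K = ℚ(ω)` below `v` the
residue field has `p` elements (`p = 3`: `b8_three` and uniqueness of the place above `3`; `p ≡ 1 mod 3` splits
in `K`), and the residue degree of `F/K` divides `3^n`, so the residue field of `v` has `p^f ≡ 3 mod 4` elements,
`f` odd (`s7_mod4`, `FiniteField.isSquare_neg_one_iff`). -/
theorem Base.neg {K F : Type} [Field K] [NumberField K] [IsCyclotomicExtension {3} ℚ K]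
    [Field F] [NumberField F] [Algebra K F] {m n : ℕ} (B : Base m n K F) (p : ℕ) (hp : p.Prime)
    (h : p = 3 ∨ p % 12 = 7) (v : HeightOneSpectrum (𝓞 F)) (hv : (p : 𝓞 F) ∈ v.asIdeal)
    (t : 𝓞 F) : t ^ 2 + 1 ∉ v.asIdeal := by
  intro ht
  have hgal := B.gal
  obtain ⟨w, hw, -⟩ := CM27.exists_below K F v
  haveI hP : v.asIdeal.LiesOver w.asIdeal := ⟨hw⟩
  have hwm := w.isMaximal
  have hwp : (p : 𝓞 K) ∈ w.asIdeal := by
    rw [hw, Ideal.under_def, Ideal.mem_comap, map_natCast]
    exact hv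
  have hvcard := ta3_card K p hp h w hwp
  have hPmax : v.asIdeal.IsMaximal := v.isMaximal
  have : Finite (𝓞 K ⧸ w.asIdeal) := Ring.HasFiniteQuotients.finiteQuotient w.ne_bot
  have : Finite (𝓞 F ⧸ v.asIdeal) := Ring.HasFiniteQuotients.finiteQuotient v.ne_bot
  have hmain := Ideal.ncard_primesOver_mul_ramificationIdxIn_mul_inertiaDegIn
      w.asIdeal (𝓞 F) Gal(F/K)
  rw [IsGalois.card_aut_eq_finrank,
    Ideal.ramificationIdxIn_eq_ramificationIdx w.asIdeal v.asIdeal Gal(F/K),
    Ideal.inertiaDegIn_eq_inertiaDeg w.asIdeal v.asIdeal Gal(F/K), B.deg] at hmain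
  have hfd : v.asIdeal.inertiaDeg (𝓞 K) ∣ 3 ^ n := by
    rw [← hmain]
    exact (dvd_mul_left _ _).mul_left _
  have hfodd : Odd (v.asIdeal.inertiaDeg (𝓞 K)) :=
    Odd.of_dvd_nat (Odd.pow (by decide)) hfd
  have hcard : Nat.card (𝓞 F ⧸ v.asIdeal) = p ^ (v.asIdeal.inertiaDeg (𝓞 K)) := by
    rw [Ideal.inertiaDeg_eq_of_isMaximal w.asIdeal v.asIdeal, ← hvcard]
    let : Field (𝓞 K ⧸ w.asIdeal) := Ideal.Quotient.field w.asIdeal
    exact Module.natCard_eq_pow_finrank
  let _ : Field (𝓞 F ⧸ v.asIdeal) := Ideal.Quotient.field v.asIdeal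
  let _ : Fintype (𝓞 F ⧸ v.asIdeal) := Fintype.ofFinite _
  have hsq : IsSquare (-1 : 𝓞 F ⧸ v.asIdeal) := by
    refine ⟨Ideal.Quotient.mk v.asIdeal t, ?_⟩
    have h1 : Ideal.Quotient.mk v.asIdeal (t ^ 2 + 1) = 0 := Ideal.Quotient.eq_zero_iff_mem.2 ht
    rw [map_add, map_pow, map_one] at h1
    rw [← pow_two]
    exact (eq_neg_of_add_eq_zero_left h1).symm
  rw [FiniteField.isSquare_neg_one_iff, ← Nat.card_eq_fintype_card, hcard] at hsq
  refine hsq (s7_mod4 p _ ?_ hfodd)
  rcases h with rfl | h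
  · rfl
  · omega

/-- The second half of `SB3.neg_one_nonsq_completion` (S3/S7.lean). -/
theorem neg_completion {F : Type} [Field F] [NumberField F] (v : HeightOneSpectrum (𝓞 F))
    (h : ∀ t : 𝓞 F, t ^ 2 + 1 ∉ v.asIdeal) (x : v.adicCompletion F) :
    ¬ Valued.v (x ^ 2 + 1) < 1 := by
  intro hx
  have hx1 : Valued.v x ≤ 1 := by
    by_contra hcon
    rw [not_le] at hcon
    have h2 : Valued.v (1 : v.adicCompletion F) < Valued.v (x ^ 2) := by
      rw [map_one, map_pow]
      exact one_lt_pow₀ hcon two_ne_zero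
    have h3 := Valuation.map_add_eq_of_lt_left Valued.v h2
    rw [h3, map_pow] at hx
    exact absurd hx (not_lt.2 (one_lt_pow₀ hcon two_ne_zero).le)
  obtain ⟨r, hr⟩ := c3_approx F v (⟨x, hx1⟩ : v.adicCompletionIntegers F)
  apply h r
  have hr' : Valued.v (x - ((algebraMap (𝓞 F) (v.adicCompletionIntegers F) r :
      v.adicCompletionIntegers F) : v.adicCompletion F)) < 1 := hr
  set R : v.adicCompletion F := ((algebraMap (𝓞 F) (v.adicCompletionIntegers F) r :
      v.adicCompletionIntegers F) : v.adicCompletion F) with hR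
  have hR1 : Valued.v R ≤ 1 := (algebraMap (𝓞 F) (v.adicCompletionIntegers F) r).2
  have h4 : Valued.v (R ^ 2 + 1) < 1 := by
    have h5 : R ^ 2 + 1 = (x ^ 2 + 1) - (x - R) * (x + R) := by ring
    rw [h5]
    refine lt_of_le_of_lt (Valuation.map_sub _ _ _) (max_lt hx ?_)
    rw [map_mul]
    have h6 : Valued.v (x + R) ≤ 1 := (Valuation.map_add _ _ _).trans (max_le hx1 hR1)
    exact mul_lt_one_of_lt_of_le hr' h6
  have h7 : R ^ 2 + 1 = ((algebraMap (𝓞 F) (v.adicCompletionIntegers F) (r ^ 2 + 1) :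
      v.adicCompletionIntegers F) : v.adicCompletion F) := by
    rw [hR, map_add, map_pow, map_one]
    rfl
  rw [h7, c3_val, HeightOneSpectrum.intValuation_lt_one_iff_mem] at h4
  exact h4

end R3S
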