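import Pool.Agent.MP_9ab903_nt.RS.SH2
import Pool.Agent.MP_9ab903_nt.RS.SH6
import Pool.Agent.MP_9ab903_nt.RS.TA3
import Pool.Agent.MP_9ab903_nt.S3.SEL

set_option autoImplicit false

open NumberField IsDedekindDomain
open CM27 CMT CF BS3 SB3 RF
open scoped Classical

namespace R3S

/-! ## [RS-SH7] the Selmer group over `F` is trivial (file SH7.lean; uses the stubs of SH2, SH6, TA3) -/

/-- The action of the automorphisms of `F / K` on the units of `F(i)`. -/
@[reducible] noncomputable def sh7_act (K F : Type) [Field K] [Field F] [Algebra K F] :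
    MulDistribMulAction (F ≃ₐ[K] F) (Q2 (-1) F)ˣ where
  smul σ z := Units.map ((mapQ (D := -1) (σ : F →+* F) : Q2 (-1) F →+* Q2 (-1) F) :
    Q2 (-1) F →* Q2 (-1) F) z
  one_smul z := by
    ext1
    rfl
  mul_smul σ τ z := by
    ext1
    change mapQ (D := -1) ((σ * τ : F ≃ₐ[K] F) : F →+* F) (z : Q2 (-1) F) =
      mapQ (D := -1) (σ : F →+* F) (mapQ (D := -1) (τ : F →+* F) (z : Q2 (-1) F))
    rfl
  smul_mul σ z z' := map_mul _ _ _
  smul_one σ := map_one _

/-- the element `3` at the place given by `RF.exists_three` -/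
theorem sh7_mem_three {F : Type} [Field F] [NumberField F] (om : F) (hom : om ^ 2 + om + 1 = 0)
    (v : HeightOneSpectrum (𝓞 F)) (hv : v.valuation F (2 * om + 1) = WithZero.exp (-1 : ℤ)) :
    (3 : 𝓞 F) ∈ v.asIdeal := by
  have h1 : (2 * om + 1) ^ 2 = -(3 : F) := by linear_combination 4 * hom
  have h2 : v.valuation F (3 : F) < 1 := by
    have h3 : v.valuation F (3 : F) = WithZero.exp (-1 : ℤ) ^ 2 := by
      rw [← hv, ← map_pow, h1, Valuation.map_neg]
    rw [h3, ← WithZero.exp_nsmul, ← WithZero.exp_zero, WithZero.exp_lt_exp]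
    norm_num
  have h3 : (3 : F) = algebraMap (𝓞 F) F (3 : 𝓞 F) := by rw [map_ofNat]
  rw [h3, HeightOneSpectrum.valuation_lt_one_iff_mem] at h2
  exact h2

/-- the residue condition at the place given by `RF.exists_three` -/
theorem sh7_hns {F : Type} [Field F] [NumberField F] (v : HeightOneSpectrum (𝓞 F))
    (h : ∀ t : 𝓞 F, t ^ 2 + 1 ∉ v.asIdeal) (x : F) : ¬ v.valuation F (x ^ 2 + 1) < 1 := by
  have hval : ∀ k : F, Valued.v (algebraMap F (v.adicCompletion F) k) = v.valuation F k :=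
    fun k => HeightOneSpectrum.valuedAdicCompletion_eq_valuation' v k
  have h1 := neg_completion v h (algebraMap F (v.adicCompletion F) x)
  rwa [← map_pow, ← map_one (algebraMap F (v.adicCompletion F)), ← map_add, hval] at h1

/-- Combine `SB3.selmer_trivial3` (S3/SEL.lean, first half) and `RF.b8_main` (RF/B8.lean). If `z` is not a cube let
`G = Gal(F/K)` act on `(Q2 (-1) F)ˣ` by `mapQ`; `exists_fixed_mod3` for the subgroup of the units with `GoodI (6 r)`
gives a good `z1`, not a cube, with `σ z1 = z1 u³`. `RF.descend` gives `t ≠ 0`, `z0`, `s` with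
`mapQ z0 = z1 t³`, `N(z0) = s³`. The valuations of `z0` are cubes: at the places dividing `6 r m` by `cube_nonsplit'`
(the prime `p` is `2`, `3` or `≡ 7 mod 12`), at the others by `cube_unram_sel` with `B.unr`. `class_k` (with
`pid_k K`, `b8_zeta K`) gives `z0 = c³, eps om c³, star (eps om) c³`. The first contradicts that `z1` is not a cube. In
the other cases `eps om = z1 (t / c)³` over `F` satisfies `InI` at a place `v` above `3` (`exists_three`, or any
place above `3` with `RF.val_three`), a contradiction to `not_inI_eps`; its `hns` follows from `Base.neg` for `p = 3`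
(for `x ∈ F` with `v(x² + 1) < 1`: `v(x) ≤ 1`, and `neg_completion` applied to the image of `x` in the completion). -/
theorem selmer_trivial {K F : Type} [Field K] [NumberField K] [IsCyclotomicExtension {3} ℚ K]
    [Field F] [NumberField F] [Algebra K F] [Fact (NonSq (-1) F)] {m n : ℕ} (B : Base m n K F)
    {r : ℕ} (hr : Adm r) (z : Q2 (-1) F) (hz : GoodI (6 * (r : ℤ)) z) :
    ∃ t : Q2 (-1) F, z = t ^ 3 := by
  have : IsGalois K F := B.gal
  have fK : Fact (NonSq (-1) K) := ⟨nonSq_K K⟩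
  have : NumberField (Q2 (-1) K) := numberField_Q2 K
  have : IsPrincipalIdealRing (𝓞 (Q2 (-1) K)) := pid_k K
  have hm := B.good
  have h9 := hr.1
  have hr0 : r ≠ 0 := by rintro rfl; norm_num at h9
  have hc0 : (r : ℤ) ≠ 0 := by exact_mod_cast hr0
  obtain ⟨om, hom⟩ := b8_zeta K
  have homF : algebraMap K F om ^ 2 + algebraMap K F om + 1 = 0 := by
    rw [← map_pow, ← map_add, ← map_one (algebraMap K F), ← map_add, hom, map_zero]
  have h3m : ¬ 3 ∣ m := fun h => by
    have := hm.2 3 Nat.prime_three h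
    norm_num at this
  obtain ⟨v, hv, hvsq⟩ := exists_three n B.deg m h3m B.unr om hom
  have hv3 := sh7_mem_three _ homF v hv
  by_contra hsq
  let _ := sh7_act K F
  let A : Subgroup (Q2 (-1) F)ˣ :=
    { carrier := {u | GoodI (6 * (r : ℤ)) (u : Q2 (-1) F)}
      mul_mem' := fun {a b} ha hb => by
        change GoodI (6 * (r : ℤ)) ((a * b : (Q2 (-1) F)ˣ) : Q2 (-1) F)
        rw [Units.val_mul]
        exact GoodI.mul ha hb
      one_mem' := by
        change GoodI (6 * (r : ℤ)) ((1 : (Q2 (-1) F)ˣ) : Q2 (-1) F)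
        have := GoodI.cube (c := 6 * (r : ℤ)) (1 : Q2 (-1) F) one_ne_zero
        rwa [one_pow] at this
      inv_mem' := fun {a} ha => by
        change GoodI (6 * (r : ℤ)) ((a⁻¹ : (Q2 (-1) F)ˣ) : Q2 (-1) F)
        rw [Units.val_inv_eq_inv_val]
        exact GoodI.inv ha }
  obtain ⟨z1, hz1, hz1', hfix⟩ := exists_fixed_mod3 (U := (Q2 (-1) F)ˣ) (G := F ≃ₐ[K] F) n
    (by rw [IsGalois.card_aut_eq_finrank, B.deg]) A
    (fun σ u hu => GoodI.map (hu : GoodI (6 * (r : ℤ)) (u : Q2 (-1) F)) (σ : F ≃+* F))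
    (Units.mk0 z hz.ne) hz
    (by
      rintro ⟨u, hu⟩
      exact hsq ⟨u, by
        have := congrArg (Units.val) hu
        rw [Units.val_pow_eq_pow_val] at this
        exact this⟩)
  have hg1 : GoodI (6 * (r : ℤ)) (z1 : Q2 (-1) F) := hz1
  obtain ⟨y, hy⟩ := hg1.norm
  obtain ⟨t, ht, z0, hz0, s, hs⟩ := descend om hom (z1 : Q2 (-1) F) hg1.ne y hy
    (fun σ => by
      obtain ⟨u, hu⟩ := hfix σ
      exact ⟨u, by
        have := congrArg (Units.val) hu
        rw [Units.val_mul, Units.val_pow_eq_pow_val] at this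
        exact this⟩)
  have hz0ne : z0 ≠ 0 := by
    rintro rfl
    rw [map_zero] at hz0
    exact mul_ne_zero hg1.ne (pow_ne_zero 3 ht) hz0.symm
  have hval : ∀ w : HeightOneSpectrum (𝓞 (Q2 (-1) K)), ∃ g, w.valuation (Q2 (-1) K) z0 = g ^ 3 := by
    intro w
    by_cases hw : ((6 * (r : ℤ) * m : ℤ) : 𝓞 (Q2 (-1) K)) ∈ w.asIdeal
    · have hne : (6 * (r : ℤ) * m : ℤ) ≠ 0 := by
        refine mul_ne_zero (mul_ne_zero (by norm_num) hc0) ?_
        exact_mod_cast hm.1.ne_zero
      obtain ⟨p, hp, hpd, hpv⟩ := exists_prime_of_mem w _ hne hw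
      refine cube_nonsplit' z0 hz0ne s hs p hp ?_ w hpv
      have hpd' : p ∣ 2 * 3 * r * m := by
        have : (p : ℤ) ∣ 2 * 3 * r * m := by
          have h6 : (6 * (r : ℤ) * m : ℤ) = 2 * 3 * r * m := by norm_num
          rwa [h6] at hpd
        exact_mod_cast this
      rcases hp.dvd_or_dvd hpd' with h4 | h4
      · rcases hp.dvd_or_dvd h4 with h5 | h5
        · rcases hp.dvd_or_dvd h5 with h6 | h6
          · exact Or.inl ((Nat.prime_dvd_prime_iff_eq hp Nat.prime_two).1 h6)
          · exact Or.inr (Or.inl ((Nat.prime_dvd_prime_iff_eq hp Nat.prime_three).1 h6))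
        · rcases hr.2.2 p hp h5 with h6 | h6
          · exact Or.inl h6
          · exact Or.inr (Or.inr h6)
      · exact Or.inr (Or.inr (hm.2 p hp h4))
    · have hw2 : ((6 * (r : ℤ) : ℤ) : 𝓞 (Q2 (-1) K)) ∉ w.asIdeal := by
        intro h
        apply hw
        rw [Int.cast_mul]
        exact w.asIdeal.mul_mem_right _ h
      refine cube_unram_sel (6 * (r : ℤ)) z0 (z1 : Q2 (-1) F) t hg1.val hz0 w hw2 ?_
      intro v' P' hv' hP'
      refine B.unr v' P' hP' fun p hp hpm hpv => ?_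
      apply hw
      have h1 : (p : 𝓞 (Q2 (-1) K)) ∈ w.asIdeal := by
        rw [hv'.over, Ideal.under_def, Ideal.mem_comap, map_natCast] at hpv
        exact hpv
      obtain ⟨q, hq⟩ := hpm
      have h2 : ((6 * (r : ℤ) * m : ℤ) : 𝓞 (Q2 (-1) K)) = (6 * r * q : ℕ) * (p : 𝓞 (Q2 (-1) K)) := by
        rw [hq]; push_cast; ring
      rw [h2]
      exact w.asIdeal.mul_mem_left _ h1
  obtain ⟨c, hc⟩ := class_k om hom z0 hz0ne s hs hval
  have hc0' : c ≠ 0 := by
    rintro rfl
    rw [zero_pow (by norm_num)] at hc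
    simp only [mul_zero, or_self] at hc
    exact hz0ne hc
  have hmapc : mapQ (algebraMap K F) c ≠ 0 := by
    intro h0
    exact hc0' ((mapQ (D := -1) (algebraMap K F)).injective (by rw [h0, map_zero]))
  have e2 : algebraMap K F 2 = 2 := map_ofNat _ 2
  have he1 : mapQ (algebraMap K F) (eps om) = eps (algebraMap K F om) := by
    rw [mapQ_apply]; simp [eps, e2]
  have he2 : mapQ (algebraMap K F) (star (eps om)) = star (eps (algebraMap K F om)) := by
    rw [mapQ_apply]; ext <;> simp [eps, e2]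
  have key : ∀ e : Q2 (-1) K, z0 = e * c ^ 3 →
      mapQ (algebraMap K F) e = (z1 : Q2 (-1) F) * (t * (mapQ (algebraMap K F) c)⁻¹) ^ 3 := by
    intro e he
    rw [mul_pow, ← mul_assoc, ← hz0, he, map_mul, map_pow, mul_assoc, ← mul_pow,
      mul_inv_cancel₀ hmapc, one_pow, mul_one]
  have hInI : InI (v.valuation F) ((z1 : Q2 (-1) F) * (t * (mapQ (algebraMap K F) c)⁻¹) ^ 3) := by
    refine InI.mul (hg1.three v hv3) (InI.cube _ _ ?_)
    rw [isUnit_iff_ne_zero]
    exact mul_ne_zero ht (inv_ne_zero hmapc)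
  have hno := not_inI_eps (v.valuation F) (algebraMap K F om) homF hv (sh7_hns v hvsq)
  rcases hc with hc | hc | hc
  · apply hz1'
    have h1 : (z1 : Q2 (-1) F) = (mapQ (algebraMap K F) c * t⁻¹) ^ 3 := by
      rw [mul_pow, ← map_pow, ← hc, hz0, mul_assoc, ← mul_pow, mul_inv_cancel₀ ht, one_pow, mul_one]
    have h2 : mapQ (algebraMap K F) c * t⁻¹ ≠ 0 := mul_ne_zero hmapc (inv_ne_zero ht)
    refine ⟨Units.mk0 _ h2, ?_⟩
    ext1
    rw [Units.val_pow_eq_pow_val, h1]
    rfl
  · apply hno.1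
    rw [← he1, key _ hc]
    exact hInI
  · apply hno.2
    rw [← he2, key _ hc]
    exact hInI

end R3S
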