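import Pool.Agent.MP_9ab903_nt.RS.SH5
import Pool.Agent.MP_9ab903_nt.RS.SH7
import Pool.Agent.MP_9ab903_nt.S3.S12

set_option autoImplicit false

open NumberField IsDedekindDomain
open CM27 CMT CF BS3 SB3 RF
open scoped Classical

namespace R3S

/-! ## [RS-SH8] the Selmer groups over `F` (file SH8.lean; uses the stubs of SH5, SH7, TA3) -/


/-- `3 ∤ m` -/
theorem sh8_not3 {m : ℕ} (h : Good m) : ¬ 3 ∣ m := by
  intro h3
  have := h.2 3 Nat.prime_three h3
  omega

/-- `r² ≡ 7 mod 9` -/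
theorem sh8_mod {r : ℕ} (hr : Adm r) : (r : ℤ) ^ 2 % 9 = 7 := by
  have h1 : (r : ℤ) % 9 = 4 ∨ (r : ℤ) % 9 = 5 := by
    have := hr.1
    omega
  rcases h1 with h | h
  · rw [sq, Int.mul_emod, h]
    norm_num
  · rw [sq, Int.mul_emod, h]
    norm_num

/-- `(2 ω + 1)² = -3` -/
theorem sh8_theta {F : Type} [Field F] (om : F) (hom : om ^ 2 + om + 1 = 0) :
    (2 * om + 1) ^ 2 = -3 := by
  linear_combination 4 * hom

/-- `3` is not a square in `F` -/
theorem sh8_nonSq3 {F : Type} [Field F] [CharZero F] (h : NonSq (-1) F) (θ : F)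
    (hθ : θ ^ 2 = -3) : NonSq 3 F := by
  rw [nonSq_iff] at h ⊢
  intro x hx
  have h0 : θ ≠ 0 := by
    rintro rfl
    norm_num at hθ
  apply h (x / θ)
  rw [div_pow, hx, hθ]
  push_cast
  norm_num

/-- If all valuations of `z ∈ F(√3)` outside of `c` are cubes then so are those of `tw z`: make `Q2 (-1) F` an algebra over
`Q2 3 F` by `tw` (as in `RF.cube_unram'`, B2.lean); for a place `P` of `Q2 (-1) F` let `Q` be the place of `Q2 3 F`
below (`b2_under`); `P(tw z) = Q(z)^e` (`HeightOneSpectrum.valuation_liesOver`), and `c ∉ Q` if `c ∉ P`. -/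
theorem val_tw {F : Type} [Field F] [NumberField F] [Fact (NonSq (-1) F)] [Fact (NonSq 3 F)]
    (θ : F) (hθ : θ ^ 2 = -3) (c : ℤ) (z : Q2 3 F)
    (hz : ∀ P : HeightOneSpectrum (𝓞 (Q2 3 F)), ((c : ℤ) : 𝓞 (Q2 3 F)) ∉ P.asIdeal →
      ∃ g, P.valuation (Q2 3 F) z = g ^ 3)
    (P : HeightOneSpectrum (𝓞 (Q2 (-1) F))) (hP : ((c : ℤ) : 𝓞 (Q2 (-1) F)) ∉ P.asIdeal) :
    ∃ g, P.valuation (Q2 (-1) F) (tw θ hθ z) = g ^ 3 := by
  let : Algebra (Q2 3 F) (Q2 (-1) F) := (tw θ hθ).toAlgebra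
  have hmap : ∀ z : Q2 3 F, algebraMap (Q2 3 F) (Q2 (-1) F) z = tw θ hθ z := fun z => rfl
  obtain ⟨Q, hQ⟩ := b2_under (K := Q2 3 F) P
  have hc : ((c : ℤ) : 𝓞 (Q2 3 F)) ∉ Q.asIdeal := by
    intro h1
    apply hP
    rw [hQ.over, Ideal.mem_comap, map_intCast] at h1
    exact h1
  obtain ⟨g, hg⟩ := hz Q hc
  have hval := HeightOneSpectrum.valuation_liesOver (K := Q2 3 F) (Q2 (-1) F) Q P z
  rw [← hmap, ← hval, hg]
  exact ⟨g ^ Q.asIdeal.ramificationIdx' P.asIdeal, by rw [← pow_mul, ← pow_mul, mul_comm]⟩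

/-- `tw z` satisfies `GoodI (6 r)`: `ne`: `tw` is injective; `norm`: `N(tw z) = N(z)`; `val`: `val_of_locCond3`
(S3/S12.lean, `dat_three`) for the places not containing `6 · 3 · r` (they contain it iff they contain `6 r`), `val_tw`;
`three`: `locI_three` with `θ = 2 ω + 1`, `RF.val_three`, `hns` from `Base.neg`, `neg_completion` for `p = 3`. So
`tw z` is a cube (`selmer_trivial`), and `z` is a cube (`tw_surj`, injectivity). `Fact (NonSq 3 F)`: `s² = 3` gives
`(s/θ)² = -1`; `Fact (NonSq (-1) F)`: `RF.nonSq_F` (A0.lean). -/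
theorem hsel_three {K F : Type} [Field K] [NumberField K] [IsCyclotomicExtension {3} ℚ K]
    [Field F] [NumberField F] [Algebra K F] {m n : ℕ} (B : Base m n K F) {r : ℕ} (hr : Adm r)
    (z : Q2 3 F) (hz : z ≠ 0) (hn : ∃ n : F, z.norm = n ^ 3)
    (hl : ∀ v : HeightOneSpectrum (𝓞 F), LocCond3 (-(r : ℤ) ^ 2) (r : ℤ) z (v.adicCompletion F)) :
    ∃ t : Q2 3 F, z = t ^ 3 := by
  have hN : NonSq (-1) F := nonSq_F K F n B.deg
  have : Fact (NonSq (-1) F) := ⟨hN⟩
  obtain ⟨om, hom⟩ := b8_zeta K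
  have homF : (algebraMap K F om) ^ 2 + algebraMap K F om + 1 = 0 := by
    have := congrArg (algebraMap K F) hom
    simpa using this
  set θ : F := 2 * algebraMap K F om + 1 with hθdef
  have hθ : θ ^ 2 = -3 := sh8_theta _ homF
  have : Fact (NonSq 3 F) := ⟨sh8_nonSq3 hN θ hθ⟩
  have hr9 : (r : ℤ) ^ 2 % 9 = 7 := sh8_mod hr
  have hr0 : (r : ℤ) ≠ 0 := by
    intro h
    rw [h] at hr9
    norm_num at hr9
  have hinj : Function.Injective (tw θ hθ) := (tw θ hθ).injective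
  have hG : GoodI (6 * (r : ℤ)) (tw θ hθ z) := by
    refine ⟨fun h => hz (hinj (by rw [h, map_zero])), ?_, ?_, ?_⟩
    · obtain ⟨a, ha⟩ := hn
      refine ⟨a, ?_⟩
      rw [← ha, tw_apply, QuadraticAlgebra.norm_def, QuadraticAlgebra.norm_def]
      push_cast
      linear_combination z.im * z.im * hθ
    · intro P hP
      refine val_tw θ hθ (6 * 3 * (r : ℤ)) z (fun Q hQ =>
        val_of_locCond3 (dat_three (r : ℤ) hr0) F z hn hl Q hQ) P ?_
      intro h
      have h1 : ((6 * 3 * (r : ℤ) : ℤ) : 𝓞 (Q2 (-1) F))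
          = ((3 : ℤ) : 𝓞 (Q2 (-1) F)) * ((6 * (r : ℤ) : ℤ) : 𝓞 (Q2 (-1) F)) := by
        push_cast
        ring
      rw [h1] at h
      rcases P.isPrime.mem_or_mem h with h2 | h2
      · apply hP
        rw [show (6 * (r : ℤ) : ℤ) = 2 * r * 3 by ring, Int.cast_mul]
        exact Ideal.mul_mem_left _ _ h2
      · exact hP h2
    · intro v hv
      exact locI_three θ hθ (r : ℤ) hr9 v
        (val_three m B.unr (sh8_not3 B.good) om hom v hv)
        (neg_completion v fun t => B.neg 3 Nat.prime_three (Or.inl rfl) v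
          (by exact_mod_cast hv) t) z (hl v)
  obtain ⟨t, ht⟩ := selmer_trivial B hr _ hG
  obtain ⟨t', rfl⟩ := tw_surj θ hθ t
  exact ⟨t', hinj (by rw [ht, map_pow])⟩

/-- `val`: `val_of_locCond3` (`dat_neg_one`) for the places not containing `6 · (-1) · 9 r`; `three`: `locI_neg`. -/
theorem hsel_neg {K F : Type} [Field K] [NumberField K] [IsCyclotomicExtension {3} ℚ K]
    [Field F] [NumberField F] [Algebra K F] {m n : ℕ} (B : Base m n K F) {r : ℕ} (hr : Adm r)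
    (z : Q2 (-1) F) (hz : z ≠ 0) (hn : ∃ n : F, z.norm = n ^ 3)
    (hl : ∀ v : HeightOneSpectrum (𝓞 F),
      LocCond3 (-27 * -(r : ℤ) ^ 2) (9 * (r : ℤ)) z (v.adicCompletion F)) :
    ∃ t : Q2 (-1) F, z = t ^ 3 := by
  have hN : NonSq (-1) F := nonSq_F K F n B.deg
  have : Fact (NonSq (-1) F) := ⟨hN⟩
  obtain ⟨om, hom⟩ := b8_zeta K
  have homF : (algebraMap K F om) ^ 2 + algebraMap K F om + 1 = 0 := by
    have := congrArg (algebraMap K F) hom
    simpa using this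
  set θ : F := 2 * algebraMap K F om + 1 with hθdef
  have hθ : θ ^ 2 = -3 := sh8_theta _ homF
  have hr9 : (r : ℤ) ^ 2 % 9 = 7 := sh8_mod hr
  have hr0 : (r : ℤ) ≠ 0 := by
    intro h
    rw [h] at hr9
    norm_num at hr9
  have hG : GoodI (6 * (r : ℤ)) z := by
    refine ⟨hz, hn, ?_, ?_⟩
    · intro P hP
      refine val_of_locCond3 (dat_neg_one (r : ℤ) hr0) F z hn hl P ?_
      intro h
      have h1 : ((6 * (-1) * (9 * (r : ℤ)) : ℤ) : 𝓞 (Q2 (-1) F))
          = ((3 : ℤ) : 𝓞 (Q2 (-1) F)) * (((-3 : ℤ) : 𝓞 (Q2 (-1) F)) *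
            ((6 * (r : ℤ) : ℤ) : 𝓞 (Q2 (-1) F))) := by
        push_cast
        ring
      rw [h1] at h
      have h3 : ((3 : ℤ) : 𝓞 (Q2 (-1) F)) ∉ P.asIdeal := by
        intro h2
        apply hP
        rw [show (6 * (r : ℤ) : ℤ) = 2 * r * 3 by ring, Int.cast_mul]
        exact Ideal.mul_mem_left _ _ h2
      rcases P.isPrime.mem_or_mem h with h2 | h2
      · exact h3 h2
      · rcases P.isPrime.mem_or_mem h2 with h4 | h4
        · apply h3
          rw [show ((3 : ℤ) : 𝓞 (Q2 (-1) F)) = -((-3 : ℤ) : 𝓞 (Q2 (-1) F)) by push_cast; ring]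
          exact neg_mem h4
        · exact hP h4
    · intro v hv
      exact locI_neg θ hθ (r : ℤ) hr9 v
        (val_three m B.unr (sh8_not3 B.good) om hom v hv)
        (neg_completion v fun t => B.neg 3 Nat.prime_three (Or.inl rfl) v
          (by exact_mod_cast hv) t) z (hl v)
  exact selmer_trivial B hr z hG

end R3S
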