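import Pool.Agent.MP_9ab903_nt.RS.SHDefs
import Pool.Agent.MP_9ab903_nt.SB.CO
import Pool.Agent.MP_9ab903_nt.S3.S9

set_option autoImplicit false

open NumberField IsDedekindDomain
open CM27 CMT CF BS3 SB3 RF
open scoped Classical

namespace R3S

/-! ## [RS-SH9] the Selmer groups over the subfield `F₀`, `[F : F₀] = 2` (file SH9.lean) -/

/-- The local conditions for `z` over `F₀` imply those for `mapQ z` over `F`: `CM27.exists_below` (SB/CO.lean) gives for a
place `w` of `F` a place `v` of `F₀` and `φ : F₀_v →+* F_w` compatible with the algebra maps; map the points by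
`ptW φ` (`zq_ptW`) resp. the elements `s, g` by `φ`. -/
theorem locCond_up {F₀ F : Type} [Field F₀] [NumberField F₀] [Field F] [NumberField F]
    [Algebra F₀ F] {k δ e : ℤ} (z : Q2 δ F₀)
    (h : ∀ v : HeightOneSpectrum (𝓞 F₀), LocCond3 k e z (v.adicCompletion F₀))
    (w : HeightOneSpectrum (𝓞 F)) :
    LocCond3 k e (mapQ (algebraMap F₀ F) z) (w.adicCompletion F) := by
  obtain ⟨v, -, φ, hφ⟩ := CM27.exists_below F₀ F w
  have hcomp : φ.comp (algebraMap F₀ (v.adicCompletion F₀)) =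
      (algebraMap F (w.adicCompletion F)).comp (algebraMap F₀ F) := RingHom.ext hφ
  rcases h v with ⟨P, u, hu, hP⟩ | ⟨s, g, hs, hg, hz⟩
  · left
    refine ⟨ptW φ P, mapQ φ u, hu.map (mapQ φ), ?_⟩
    rw [mapQ_mapQ, ← hcomp, ← mapQ_mapQ, hP, map_mul, map_pow, zq_ptW]
  · right
    refine ⟨φ s, φ g, by rw [← map_mul, hs, map_intCast], (map_ne_zero φ).2 hg, ?_⟩
    have h1 : q6_lift (algebraMap F (w.adicCompletion F)) (φ s)
        (by rw [← map_mul, hs, map_intCast] : φ s * φ s = ((δ : ℤ) : w.adicCompletion F))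
        (mapQ (algebraMap F₀ F) z) =
        φ (q6_lift (algebraMap F₀ (v.adicCompletion F₀)) s hs z) := by
      change algebraMap F (w.adicCompletion F) (algebraMap F₀ F z.re) +
        algebraMap F (w.adicCompletion F) (algebraMap F₀ F z.im) * φ s =
        φ (algebraMap F₀ (v.adicCompletion F₀) z.re +
          algebraMap F₀ (v.adicCompletion F₀) z.im * s)
      rw [map_add, map_mul, hφ, hφ]
    rw [h1, hz, map_mul, map_mul, map_mul, map_pow, map_intCast]
    congr 3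
    exact map_ofNat φ 6

/-- `τ` is the automorphism of `F` over `F₀`. By `locCond_up` and `hsel`: `mapQ z = t³`. The element `t · mapQ τ t` is
fixed by `mapQ τ`, so it is `mapQ u`, `u ∈ Q2 δ F₀` (`hfix` for the coordinates), and `u³ = z²`
(`mapQ` is injective, `mapQ τ (mapQ z) = mapQ z`); so `z = (u² / z)³`. (`Q2 δ F` and `Q2 δ F₀` are fields: `NonSq`.) -/
theorem hsel_sub {F₀ F : Type} [Field F₀] [NumberField F₀] [Field F] [NumberField F]
    [Algebra F₀ F] {k δ e : ℤ} [Fact (NonSq δ F)] (τ : F ≃+* F) (hτ : ∀ x, τ (τ x) = x)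
    (hfix : ∀ x : F, τ x = x ↔ ∃ y : F₀, algebraMap F₀ F y = x)
    (hsel : ∀ z : Q2 δ F, z ≠ 0 → (∃ n : F, z.norm = n ^ 3) →
      (∀ v : HeightOneSpectrum (𝓞 F), LocCond3 k e z (v.adicCompletion F)) →
      ∃ t : Q2 δ F, z = t ^ 3)
    (z : Q2 δ F₀) (hz : z ≠ 0) (hn : ∃ n : F₀, z.norm = n ^ 3)
    (hl : ∀ v : HeightOneSpectrum (𝓞 F₀), LocCond3 k e z (v.adicCompletion F₀)) :
    ∃ t : Q2 δ F₀, z = t ^ 3 := by
  have hinj : Function.Injective (mapQ (D := δ) (algebraMap F₀ F)) := by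
    intro a b hab
    rw [mapQ_apply, mapQ_apply] at hab
    exact QuadraticAlgebra.ext ((algebraMap F₀ F).injective (congrArg QuadraticAlgebra.re hab))
      ((algebraMap F₀ F).injective (congrArg QuadraticAlgebra.im hab))
  have hNS : NonSq δ F₀ := by
    have h1 := (nonSq_iff δ F).1 (Fact.out : NonSq δ F)
    rw [nonSq_iff]
    intro r hr
    refine h1 (algebraMap F₀ F r) ?_
    rw [← map_pow, hr, map_intCast]
  have : Fact (NonSq δ F₀) := ⟨hNS⟩
  obtain ⟨n, hn⟩ := hn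
  obtain ⟨t, ht⟩ := hsel (mapQ (algebraMap F₀ F) z)
    (fun h0 => hz (hinj (by rw [h0, map_zero])))
    ⟨algebraMap F₀ F n, by rw [norm_mapQ', hn, map_pow]⟩ (locCond_up z hl)
  have hττ : ∀ x : Q2 δ F, mapQ (τ : F →+* F) (mapQ (τ : F →+* F) x) = x := by
    intro x
    rw [mapQ_apply, mapQ_apply]
    exact QuadraticAlgebra.ext (hτ _) (hτ _)
  have hτz : mapQ (τ : F →+* F) (mapQ (algebraMap F₀ F) z) = mapQ (algebraMap F₀ F) z := by
    rw [mapQ_apply, mapQ_apply]
    exact QuadraticAlgebra.ext ((hfix _).2 ⟨_, rfl⟩) ((hfix _).2 ⟨_, rfl⟩)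
  have hfixed : mapQ (τ : F →+* F) (t * mapQ (τ : F →+* F) t) = t * mapQ (τ : F →+* F) t := by
    rw [map_mul, hττ, mul_comm]
  have hre : τ (t * mapQ (τ : F →+* F) t).re = (t * mapQ (τ : F →+* F) t).re := by
    have := congrArg QuadraticAlgebra.re hfixed
    rw [mapQ_apply] at this
    exact this
  have him : τ (t * mapQ (τ : F →+* F) t).im = (t * mapQ (τ : F →+* F) t).im := by
    have := congrArg QuadraticAlgebra.im hfixed
    rw [mapQ_apply] at this
    exact this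
  obtain ⟨a, ha⟩ := (hfix _).1 hre
  obtain ⟨b, hb⟩ := (hfix _).1 him
  set u : Q2 δ F₀ := ⟨a, b⟩ with hu
  have hmu : mapQ (algebraMap F₀ F) u = t * mapQ (τ : F →+* F) t := by
    rw [mapQ_apply]
    exact QuadraticAlgebra.ext ha hb
  have h3 : u ^ 3 = z ^ 2 := by
    apply hinj
    rw [map_pow, map_pow, hmu, mul_pow, ← map_pow, ← ht, hτz, sq]
  refine ⟨u ^ 2 / z, ?_⟩
  have h6 : u ^ 6 = z ^ 4 := by
    calc u ^ 6 = (u ^ 3) ^ 2 := by ring
      _ = z ^ 4 := by rw [h3]; ring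
  rw [div_pow, ← pow_mul, show 2 * 3 = 6 from rfl, h6, eq_div_iff (pow_ne_zero 3 hz)]
  ring

end R3S
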