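import Pool.Agent.MP_9ab903_nt.RS.SH1
import Pool.Agent.MP_9ab903_nt.RS.SH8
import Pool.Agent.MP_9ab903_nt.RS.SH9
import Pool.Agent.MP_9ab903_nt.RS.D3a
import Pool.Agent.MP_ae0bd0_nt.B3.Z8

set_option autoImplicit false

open NumberField IsDedekindDomain
open CM27 CMT CF BS3 SB3 RF
open scoped Classical

namespace R3S

/-! ## [RS-SH10] `Sha(E/F)[3^∞] = 0` (file SH10.lean, assembly) -/

theorem sha_gen (F : Type) [Field F] [NumberField F] (r : ℤ) (hr0 : r ≠ 0)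
    (hsel : ∀ z : Q2 3 F, z ≠ 0 → (∃ n : F, z.norm = n ^ 3) →
      (∀ v : HeightOneSpectrum (𝓞 F), LocCond3 (-r ^ 2) r z (v.adicCompletion F)) →
      ∃ t : Q2 3 F, z = t ^ 3)
    (hsel' : ∀ z : Q2 (-1) F, z ≠ 0 → (∃ n : F, z.norm = n ^ 3) →
      (∀ v : HeightOneSpectrum (𝓞 F), LocCond3 (-27 * -r ^ 2) (9 * r) z (v.adicCompletion F)) →
      ∃ t : Q2 (-1) F, z = t ^ 3)
    (x : SBSD.Sha (W (-r ^ 2) F)) (k : ℕ) (h : 3 ^ k • x = 0) : x = 0 := by
  refine fin_three_pow (A := SBSD.Sha (W (-r ^ 2) F)) (fun x hx => ?_) k x h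
  obtain ⟨c, rfl⟩ := QuotientAddGroup.mk_surjective x
  obtain ⟨hc1, hc2, -⟩ := c.2
  have h3 : 3 • c ∈ (SBSD.coboundaries (W (-r ^ 2) F)).addSubgroupOf
      (SBSD.locTrivial (W (-r ^ 2) F)) := by
    rw [← QuotientAddGroup.eq_zero_iff]
    exact hx
  obtain ⟨P, hP⟩ := AddSubgroup.mem_addSubgroupOf.1 h3
  exact (QuotientAddGroup.eq_zero_iff _).2 (AddSubgroup.mem_addSubgroupOf.2
    (sha_three_gen' (dat_three r hr0) (dat_neg_one r hr0) F hsel hsel' c.1 hc1 hc2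
      ⟨P, fun σ => hP σ⟩))

theorem Base.sha {K F : Type} [Field K] [NumberField K] [IsCyclotomicExtension {3} ℚ K]
    [Field F] [NumberField F] [Algebra K F] {m n : ℕ} (B : Base m n K F) {r : ℕ} (hr : Adm r)
    (x : SBSD.Sha (W (-(r : ℤ) ^ 2) F)) (k : ℕ) (h : 3 ^ k • x = 0) : x = 0 :=
  sha_gen F r (by exact_mod_cast hr.ne_zero) (hsel_three B hr) (hsel_neg B hr) x k h

theorem Base.sha₀ {K F₀ F : Type} [Field K] [NumberField K] [IsCyclotomicExtension {3} ℚ K]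
    [Field F₀] [NumberField F₀] [Field F] [NumberField F] [Algebra K F] [Algebra F₀ F] {m n : ℕ}
    (B : Base m n K F) {r : ℕ} (hr : Adm r) (om : F) (hom : om ^ 2 + om + 1 = 0) (τ : F ≃+* F)
    (hτ : τ om = -1 - om) (hfix : ∀ y : F₀, τ (algebraMap F₀ F y) = algebraMap F₀ F y)
    (h2 : Module.finrank F₀ F = 2)
    (x : SBSD.Sha (W (-(r : ℤ) ^ 2) F₀)) (k : ℕ) (h : 3 ^ k • x = 0) : x = 0 := by
  obtain ⟨t, ht, T⟩ := B.tow om hom τ hτ hfix h2
  have f1 : Fact (NonSq (-1) F) := ⟨nonSq_F K F n B.deg⟩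
  have f3 : Fact (NonSq 3 F) := ⟨by
    intro s hs
    have hθ : (2 * om + 1) ^ 2 = -3 := by linear_combination 4 * hom
    have hθ0 : (2 * om + 1) ≠ 0 := by
      intro h0
      rw [h0] at hθ
      norm_num at hθ
    apply f1.out (s / (2 * om + 1))
    rw [div_pow, hs, hθ]
    push_cast
    norm_num⟩
  have hττ : ∀ x, τ (τ x) = x := by
    intro x
    have h1 : (t * t) x = x := by rw [T.sq]; rfl
    rw [← ht x, ← ht (t x)]
    exact h1
  have hfix' : ∀ x : F, τ x = x ↔ ∃ y : F₀, algebraMap F₀ F y = x := by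
    intro x
    rw [← ht]
    exact T.fix x
  exact sha_gen F₀ r (by exact_mod_cast hr.ne_zero)
    (hsel_sub τ hττ hfix' (hsel_three B hr)) (hsel_sub τ hττ hfix' (hsel_neg B hr)) x k h

end R3S
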