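import Pool.Agent.MP_9ab903_nt.RS.TA3

set_option autoImplicit false

open NumberField IsDedekindDomain
open CM27 CMT CF BS3 SB3 RF
open scoped Classical

namespace R3S

/-! ## [RS-TA3b] `LocHyp` for `F` (file TA3b.lean; uses the stubs of TA3) -/

/-- `mild`: `RF.mild_F`, as the primes dividing `6 r` do not divide `m` (see `RF.e3_mild` in RF/E3.lean).
`neg`: `Base.neg`, `neg_completion`. `ram`: with `θ = 2 ω + 1`, `θ² = -3`, and `u = θ / ϖ`, `v(u) = 1`, we have
`u² = -ε`; if `v(x² - ε) < 1` then `v((x / u)² + 1) = v((x² + u²) / u²) < 1`, a contradiction to `neg` for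
`p = 3` (`v` is above `3` since `v(3) < 1`). -/
theorem Base.loc {K F : Type} [Field K] [NumberField K] [IsCyclotomicExtension {3} ℚ K]
    [Field F] [NumberField F] [Algebra K F] {m n : ℕ} (B : Base m n K F) {r : ℕ} (hr : Adm r)
    (hrm : ∀ p, p.Prime → p ∣ r → ¬ p ∣ m) : LocHyp r F := by
  have h3m : ¬ 3 ∣ m := by
    intro h
    have := B.good.2 3 Nat.prime_three h
    omega
  have hneg : ∀ p : ℕ, p.Prime → (p = 3 ∨ p % 12 = 7) → ∀ v : HeightOneSpectrum (𝓞 F),
      (p : 𝓞 F) ∈ v.asIdeal → ∀ x : v.adicCompletion F, ¬ Valued.v (x ^ 2 + 1) < 1 :=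
    fun p hp h v hv x => neg_completion v (B.neg p hp h v hv) x
  refine ⟨?_, hneg, ?_⟩
  · intro p hp h
    refine mild_F (K := K) m B.unr p hp ?_
    intro hpm
    have h7 := B.good.2 p hp hpm
    rcases (Nat.Prime.dvd_mul hp).1 h with h1 | h1
    · have h2 : p ∣ 2 * 3 := h1
      rcases (Nat.Prime.dvd_mul hp).1 h2 with h3 | h3
      · have := (Nat.prime_dvd_prime_iff_eq hp Nat.prime_two).1 h3
        omega
      · have := (Nat.prime_dvd_prime_iff_eq hp Nat.prime_three).1 h3
        omega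
    · exact hrm p hp h1 hpm
  · intro v hv ϖ ε x hϖ h3 hx
    have h3v : (3 : 𝓞 F) ∈ v.asIdeal := by
      have h4 : v.valuation F ((algebraMap (𝓞 F) F) 3) < 1 := by
        rw [map_ofNat, hv, ← WithZero.exp_zero]
        exact WithZero.exp_lt_exp.2 (by norm_num)
      exact (HeightOneSpectrum.valuation_lt_one_iff_mem _ _).1 h4
    obtain ⟨om, hom⟩ := r1_om K
    have hθ := val_three m B.unr h3m om hom v h3v
    have hθ2 : (2 * algebraMap K F om + 1) ^ 2 = -3 := by
      have h6 := congrArg (algebraMap K F) hom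
      simp only [map_add, map_pow, map_one, map_zero] at h6
      linear_combination 4 * h6
    set θ : F := 2 * algebraMap K F om + 1 with hθdef
    have hvθ : Valued.v (algebraMap F (v.adicCompletion F) θ) = WithZero.exp (-1 : ℤ) := by
      rw [← hθ]
      exact HeightOneSpectrum.valuedAdicCompletion_eq_valuation' v θ
    set Θ : v.adicCompletion F := algebraMap F (v.adicCompletion F) θ with hΘ
    have hΘ2 : Θ ^ 2 = -3 := by
      rw [hΘ, ← map_pow, hθ2, map_neg, map_ofNat]
    have hϖ0 : ϖ ≠ 0 := by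
      rintro rfl
      rw [map_zero] at hϖ
      exact absurd hϖ.symm WithZero.exp_ne_zero
    have hΘ0 : Θ ≠ 0 := by
      intro h0
      rw [h0, map_zero] at hvθ
      exact absurd hvθ.symm WithZero.exp_ne_zero
    have hu2 : (Θ / ϖ) ^ 2 = -ε := by
      rw [div_pow, hΘ2, div_eq_iff (pow_ne_zero 2 hϖ0), h3]
      ring
    have hvu : Valued.v (Θ / ϖ) = 1 := by
      rw [map_div₀, hvθ, hϖ, div_self WithZero.exp_ne_zero]
    have hu0 : Θ / ϖ ≠ 0 := div_ne_zero hΘ0 hϖ0
    refine hneg 3 Nat.prime_three (Or.inl rfl) v (by exact_mod_cast h3v) (x / (Θ / ϖ)) ?_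
    have h5 : (x / (Θ / ϖ)) ^ 2 + 1 = (x ^ 2 - ε) / (Θ / ϖ) ^ 2 := by
      rw [div_pow, eq_div_iff (pow_ne_zero 2 hu0), add_mul, div_mul_cancel₀ _ (pow_ne_zero 2 hu0),
        one_mul, hu2]
      ring
    rw [h5, map_div₀, map_pow, hvu, one_pow, div_one]
    exact hx

end R3S
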