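import Pool.Agent.MP_9ab903_nt.RS.TDefs
import Pool.Agent.MP_9ab903_nt.SB.CO

set_option autoImplicit false

open NumberField IsDedekindDomain
open CM27 CMT CF BS3 RF
open scoped Classical

namespace R3S

/-! ## [RS-TA3c] `LocHyp` for subfields (file TA3c.lean) -/

theorem ta3c_ball (K : Type) [Field K] [NumberField K] (v : HeightOneSpectrum (𝓞 K)) :
    IsOpen {z : v.adicCompletion K | Valued.v z < 1} := by
  have h0 := Valued.isOpen_ball (v.adicCompletion K) 1
  simpa only [Valuation.restrict_lt_one_iff] using h0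

/-- The homomorphism of the completions, with its effect on the valuation. -/
theorem ta3c_map (K F : Type) [Field K] [NumberField K] [Field F] [NumberField F] [Algebra K F]
    (v : HeightOneSpectrum (𝓞 K)) (w : HeightOneSpectrum (𝓞 F))
    [w.asIdeal.LiesOver v.asIdeal] :
    ∃ φ : v.adicCompletion K →+* w.adicCompletion F,
      (∀ x : K, φ (algebraMap K (v.adicCompletion K) x) =
        algebraMap F (w.adicCompletion F) (algebraMap K F x)) ∧
      ∀ x, Valued.v (φ x) = Valued.v x ^ (v.asIdeal.ramificationIdx' w.asIdeal) := by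
  have huc := HeightOneSpectrum.uniformContinuous_algebraMap_liesOver (A := 𝓞 K) (K := K)
    (B := 𝓞 F) F v w
  let ψ : (v.valuation K).Completion →+* (w.valuation F).Completion :=
    UniformSpace.Completion.mapRingHom
      (algebraMap (WithVal (v.valuation K)) (WithVal (w.valuation F))) huc.continuous
  let φ : v.adicCompletion K →+* w.adicCompletion F :=
    ((HeightOneSpectrum.adicCompletion.equiv F w).symm.toRingHom.comp ψ).comp
      (HeightOneSpectrum.adicCompletion.equiv K v).toRingHom
  have hφ : ∀ x : K, φ (algebraMap K (v.adicCompletion K) x) =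
      algebraMap F (w.adicCompletion F) (algebraMap K F x) := by
    intro x
    apply HeightOneSpectrum.adicCompletion.ext
    have h1 := UniformSpace.Completion.mapRingHom_coe (f := algebraMap (WithVal (v.valuation K))
      (WithVal (w.valuation F))) huc.continuous (WithVal.toVal (v.valuation K) x)
    exact h1
  have hcont : Continuous φ := by
    have h1 : Continuous ψ := UniformSpace.Completion.continuous_map
    exact ((HeightOneSpectrum.adicCompletion.continuous_ofCompletion F w).comp h1).comp
      (HeightOneSpectrum.adicCompletion.continuous_toCompletion K v)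
  refine ⟨φ, hφ, fun x => ?_⟩
  have he : v.asIdeal.ramificationIdx' w.asIdeal ≠ 0 :=
    Ideal.IsDedekindDomain.ramificationIdx'_ne_zero_of_liesOver w.asIdeal v.ne_bot
  rcases eq_or_ne x 0 with rfl | hx
  · rw [map_zero, map_zero, map_zero, zero_pow he]
  have hφx : φ x ≠ 0 := (map_ne_zero φ).2 hx
  have hU1 : IsOpen {y : v.adicCompletion K | Valued.v (1 - y * x⁻¹) < 1} :=
    (ta3c_ball K v).preimage (continuous_const.sub (continuous_id.mul continuous_const))
  have hU2 : IsOpen {y : v.adicCompletion K | Valued.v (1 - φ y * (φ x)⁻¹) < 1} :=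
    (ta3c_ball F w).preimage (continuous_const.sub (hcont.mul continuous_const))
  obtain ⟨y, hy1, hy2⟩ := (HeightOneSpectrum.denseRange_algebraMap K v).exists_mem_open
    (hU1.inter hU2) ⟨x, by
      refine ⟨?_, ?_⟩
      · change Valued.v (1 - x * x⁻¹) < 1
        rw [mul_inv_cancel₀ hx, sub_self, map_zero]
        exact zero_lt_one
      · change Valued.v (1 - φ x * (φ x)⁻¹) < 1
        rw [mul_inv_cancel₀ hφx, sub_self, map_zero]
        exact zero_lt_one⟩
  change Valued.v (1 - algebraMap K (v.adicCompletion K) y * x⁻¹) < 1 at hy1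
  change Valued.v (1 - φ (algebraMap K (v.adicCompletion K) y) * (φ x)⁻¹) < 1 at hy2
  have e1 : Valued.v (algebraMap K (v.adicCompletion K) y) = Valued.v x := by
    have h1 := Valuation.map_one_sub_of_lt _ hy1
    rw [sub_sub_cancel, map_mul, map_inv₀] at h1
    exact eq_of_div_eq_one (by rw [div_eq_mul_inv]; exact h1)
  have e2 : Valued.v (φ (algebraMap K (v.adicCompletion K) y)) = Valued.v (φ x) := by
    have h1 := Valuation.map_one_sub_of_lt _ hy2
    rw [sub_sub_cancel, map_mul, map_inv₀] at h1
    exact eq_of_div_eq_one (by rw [div_eq_mul_inv]; exact h1)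
  have h5 := HeightOneSpectrum.valuation_liesOver (K := K) F v w y
  have h6 : Valued.v (algebraMap F (w.adicCompletion F) (algebraMap K F y)) =
      w.valuation F (algebraMap K F y) := HeightOneSpectrum.valuedAdicCompletion_eq_valuation' w _
  have h7 : Valued.v (algebraMap K (v.adicCompletion K) y) = v.valuation K y :=
    HeightOneSpectrum.valuedAdicCompletion_eq_valuation' v _
  rw [← e2, ← e1, hφ, h6, h7, h5]

/-- For a subfield `F₀` of `F ∋ ω`. `mild`: `Mild.sub`. For a place `v` of `F₀` choose a place `P` of `F` above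
(`RF.r1_above`) and the homomorphism `φ` of the completions (`CM27.exists_below` in SB/CO.lean; the place there is
`v`). For `x` with `v(x) ≤ 1` we have `P(φ x) ≤ 1`, `v(x) < 1 → P(φ x) < 1`: prove
`Valued.v (φ x) = Valued.v x ^ e` by density (`HeightOneSpectrum.valuation_liesOver`, or approximate `x` by an
element `y` of `F₀` with `v(x - y) < v(x)`), where `e` is the ramification index. `neg`: immediate. `ram`: `v(3) = exp(-2)`,
`P(3) = exp(-2)` (the hypothesis `h3`; for `P` above `3`), so `e = 1` and `P(φ ϖ) = exp(-1)`, and `H.ram` applies to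
`φ ϖ`, `φ ε`, `φ x`. -/
theorem LocHyp.sub {F₀ F : Type} [Field F₀] [NumberField F₀] [Field F] [NumberField F]
    [Algebra F₀ F] {r : ℕ} (H : LocHyp r F)
    (h3 : ∀ P : HeightOneSpectrum (𝓞 F), (3 : 𝓞 F) ∈ P.asIdeal →
      P.valuation F (3 : F) = WithZero.exp (-2 : ℤ)) : LocHyp r F₀ := by
  refine ⟨fun p hp hd => Mild.sub p hp (H.mild p hp hd), ?_, ?_⟩
  · intro p hp hp7 v hv x hx
    obtain ⟨w, hw⟩ := r1_above F₀ F v
    obtain ⟨φ, -, hval⟩ := ta3c_map F₀ F v w
    refine H.neg p hp hp7 w ((r1_mem v w hw p).1 hv) (φ x) ?_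
    have h1 : φ x ^ 2 + 1 = φ (x ^ 2 + 1) := by rw [map_add, map_pow, map_one]
    rw [h1, hval]
    exact pow_lt_one' hx
      (Ideal.IsDedekindDomain.ramificationIdx'_ne_zero_of_liesOver w.asIdeal v.ne_bot)
  · intro v hv3 ϖ ε x hϖ h3ε hx
    obtain ⟨w, hw⟩ := r1_above F₀ F v
    have hmem : (3 : 𝓞 F₀) ∈ v.asIdeal := by
      rw [← v.intValuation_lt_one_iff_mem]
      have h1 : v.valuation F₀ (3 : F₀) = v.intValuation (3 : 𝓞 F₀) := by
        have h2 : (3 : F₀) = algebraMap (𝓞 F₀) F₀ (3 : 𝓞 F₀) := by rw [map_ofNat]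
        rw [h2, HeightOneSpectrum.valuation_of_algebraMap]
      rw [← h1, hv3, ← WithZero.exp_zero, WithZero.exp_lt_exp]
      norm_num
    have hmemw : (3 : 𝓞 F) ∈ w.asIdeal := by
      have h1 := (r1_mem v w hw 3).1 (by exact_mod_cast hmem)
      exact_mod_cast h1
    have hw3 := h3 w hmemw
    obtain ⟨φ, hφ, hval⟩ := ta3c_map F₀ F v w
    have he : v.asIdeal.ramificationIdx' w.asIdeal = 1 := by
      have h5 := HeightOneSpectrum.valuation_liesOver (K := F₀) F v w (3 : F₀)
      have e3 : algebraMap F₀ F 3 = 3 := map_ofNat _ 3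
      rw [e3, hv3, hw3, ← WithZero.exp_nsmul] at h5
      have h7 := WithZero.exp_injective h5
      rw [nsmul_eq_mul] at h7
      omega
    rw [he] at hval
    simp only [pow_one] at hval
    refine H.ram w hw3 (φ ϖ) (φ ε) (φ x) (by rw [hval, hϖ]) ?_ ?_
    · rw [← map_pow, ← map_mul, ← h3ε, map_ofNat]
    · rw [← map_pow, ← map_sub, hval]
      exact hx

end R3S
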