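import Pool.Agent.MP_9ab903_nt.T3.T5

set_option autoImplicit false

namespace R3S

open SB3

/-! ## [RS-TA1] no singular point at a ramified place above `3` (file TA1.lean) -/

/-- As `SB3.no_sing_three` (T3/T5.lean). `2` is a unit (`1 = 3 - 2`, `3 ∈ 𝔪`), so `y = ϖ y₁`. Let
`r² = 9 q + 7`. Then `x³ = ϖ² y₁² + 7 + 9 q` and `(x - 1)³ = x³ - 1 - 3 x (x - 1) ∈ 𝔪`, so `x = 1 + ϖ t`. Hence
`ϖ³ t³ + 3 ϖ² t² + 3 ϖ t = ϖ² y₁² + 6 + 9 q = ϖ² (y₁² + 2 ε + ε² ϖ² q)` with `3 = ε ϖ²`, i.e. (cancel `ϖ²`)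
`y₁² + 2 ε = ϖ (…)`, so `y₁² - ε = (y₁² + 2 ε) - 3 ε ∈ 𝔪`, which contradicts `hns`. -/
theorem no_sing_three_ram {A : Type} [CommRing A] [IsDomain A] [IsDiscreteValuationRing A]
    (ϖ : A) (hϖ : Irreducible ϖ) (ε : A) (h3 : (3 : A) = ε * ϖ ^ 2)
    (hns : ∀ x : A, x ^ 2 - ε ∉ IsLocalRing.maximalIdeal A)
    (r : ℤ) (hr : r ^ 2 % 9 = 7) (x y : A)
    (h : y ^ 2 = x ^ 3 + ((-r ^ 2 : ℤ) : A)) (hy : 2 * y ∈ IsLocalRing.maximalIdeal A) :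
    False := by
  have hP := hϖ.prime
  have h0 : ϖ ≠ 0 := hP.ne_zero
  have hd3 : ϖ ∣ (3 : A) := ⟨ε * ϖ, by rw [h3]; ring⟩
  have h32 : ¬ ϖ ∣ (2 : A) := by
    intro hd
    have h1 : ϖ ∣ (1 : A) := by
      have := dvd_sub hd3 hd
      have e : (3 : A) - 2 = 1 := by norm_num
      rwa [e] at this
    exact hϖ.not_isUnit (isUnit_of_dvd_one h1)
  rw [t5_mem_iff hϖ] at hy
  obtain ⟨y1, rfl⟩ := (hP.dvd_or_dvd hy).resolve_left h32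
  obtain ⟨q, hq⟩ : ∃ q : ℤ, r ^ 2 = 9 * q + 7 := ⟨r ^ 2 / 9, by omega⟩
  have hqA : ((-r ^ 2 : ℤ) : A) = -(9 * (q : A) + 7) := by
    rw [show (-r ^ 2 : ℤ) = -(9 * q + 7) by rw [← hq]]
    push_cast
    ring
  rw [hqA] at h
  have hx3 : x ^ 3 = ϖ ^ 2 * y1 ^ 2 + 9 * (q : A) + 7 := by linear_combination -h
  have hd : ϖ ∣ (x - 1) ^ 3 := by
    refine ⟨ϖ * y1 ^ 2 + ε * ϖ * (3 * (q : A) + 2 - x ^ 2 + x), ?_⟩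
    linear_combination hx3 + (3 * (q : A) + 2 - x ^ 2 + x) * h3
  obtain ⟨t, ht⟩ := hP.dvd_of_dvd_pow hd
  have hx : x = 1 + ϖ * t := by linear_combination ht
  subst hx
  have h6 : ϖ ^ 2 * (y1 ^ 2 - ε) = ϖ ^ 2 *
      (ϖ * (t ^ 3 + ε * ϖ * t ^ 2 + ε * t - ε ^ 2 * ϖ * q - ε ^ 2 * ϖ)) := by
    linear_combination -hx3 + (ϖ * t + ϖ ^ 2 * t ^ 2 - 3 * (q : A) - 2 - ε * ϖ ^ 2 * q - ε * ϖ ^ 2) * h3
  have h7 := mul_left_cancel₀ (pow_ne_zero 2 h0) h6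
  exact hns y1 ((t5_mem_iff hϖ _).2 ⟨_, h7⟩)

end R3S
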