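import Pool.Agent.MP_9ab903_nt.T3.TAM

set_option autoImplicit false

open CM27 BS3 SB3
open scoped Classical

namespace R3S

/-! ## [RS-TA2] the Tamagawa number at `2`, `r = 2 b`, `b` odd, is a power of `2` (file TA2.lean) -/

/-- As `SB3.sum_sing` (T3/T6.lean), where `hω` is only used in the chord case. Here `a₁ - a₂ = 4 d`; with
`aᵢ = 2 xᵢ` (`t6_int`) `x₁ - x₂ = 2 d`, so `U = x₁² + x₁ x₂ + x₂² ≡ 3 x₁² mod 2` is not divisible by `2`
(`x₁` is not), a contradiction to `2 ∣ U`. -/
theorem sum_sing' (A : Type) [CommRing A] [IsDomain A] [IsDiscreteValuationRing A]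
    (K : Type) [Field K] [Algebra A K] [IsFractionRing A K] [CharZero K]
    (h2 : Irreducible (2 : A)) (b : ℤ) (hb : Odd b) (a₁ b₁ a₂ b₂ : A)
    (h12 : (4 : A) ∣ a₁ - a₂)
    (h₁ : (W (-(2 * b) ^ 2) K).toAffine.Nonsingular (algebraMap A K a₁) (algebraMap A K b₁))
    (h₂ : (W (-(2 * b) ^ 2) K).toAffine.Nonsingular (algebraMap A K a₂) (algebraMap A K b₂))
    (hs₁ : 3 * a₁ ^ 2 ∈ IsLocalRing.maximalIdeal A) (hs₂ : 3 * a₂ ^ 2 ∈ IsLocalRing.maximalIdeal A) :
    WeierstrassCurve.Affine.Point.some _ _ h₁ + WeierstrassCurve.Affine.Point.some _ _ h₂ = 0 ∨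
    ∃ (x y : K) (h : (W (-(2 * b) ^ 2) K).toAffine.Nonsingular x y),
      WeierstrassCurve.Affine.Point.some _ _ h₁ + WeierstrassCurve.Affine.Point.some _ _ h₂ =
        .some x y h ∧
      ∀ a : A, algebraMap A K a = x → a ∉ IsLocalRing.maximalIdeal A := by
  have hinj : Function.Injective (algebraMap A K) := IsFractionRing.injective A K
  have hp : Prime (2 : A) := h2.prime
  have h20 : (2 : A) ≠ 0 := h2.ne_zero
  have hmem : ∀ z : A, z ∈ IsLocalRing.maximalIdeal A ↔ (2 : A) ∣ z := by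
    intro z
    rw [h2.maximalIdeal_eq, Ideal.mem_span_singleton]
  rw [hmem] at hs₁ hs₂
  have heq : ∀ a y : A, (W (-(2 * b) ^ 2) K).toAffine.Nonsingular (algebraMap A K a)
      (algebraMap A K y) → y ^ 2 = a ^ 3 - (2 * (b : A)) ^ 2 := by
    intro a y h
    have h' := ((WeierstrassCurve.Affine.equation_iff' _ _).1 h.1)
    apply hinj
    simp only [W] at h'
    push_cast at h'
    simp only [map_sub, map_pow, map_mul, map_intCast, map_ofNat]
    linear_combination h'
  have e₁ := heq a₁ b₁ h₁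
  have e₂ := heq a₂ b₂ h₂
  obtain ⟨x₁, s₁, hx₁, hy₁, hq₁, hu₁⟩ := t6_int A hp h20 b hb a₁ b₁ e₁ hs₁
  obtain ⟨x₂, s₂, hx₂, hy₂, hq₂, hu₂⟩ := t6_int A hp h20 b hb a₂ b₂ e₂ hs₂
  have hneg : ∀ x y : K, (W (-(2 * b) ^ 2) K).toAffine.negY x y = -y := by
    intro x y
    simp [WeierstrassCurve.Affine.negY, W]
  by_cases hxy : algebraMap A K a₁ = algebraMap A K a₂ ∧
      algebraMap A K b₁ = (W (-(2 * b) ^ 2) K).toAffine.negY (algebraMap A K a₂) (algebraMap A K b₂)
  · exact Or.inl (WeierstrassCurve.Affine.Point.add_of_Y_eq hxy.1 hxy.2)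
  right
  refine ⟨_, _, WeierstrassCurve.Affine.nonsingular_add h₁ h₂ hxy,
    WeierstrassCurve.Affine.Point.add_some hxy, ?_⟩
  intro a ha
  rw [hmem]
  intro hda
  set ℓ := (W (-(2 * b) ^ 2) K).toAffine.slope (algebraMap A K a₁) (algebraMap A K a₂)
    (algebraMap A K b₁) (algebraMap A K b₂) with hℓ
  have haX : algebraMap A K a = ℓ ^ 2 - algebraMap A K a₁ - algebraMap A K a₂ := by
    rw [ha]
    simp [WeierstrassCurve.Affine.addX, W]
  by_cases ha12 : a₁ = a₂
  · -- the tangent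
    subst ha12
    have hb12 : b₁ = b₂ := by
      have h3 : (b₁ - b₂) * (b₁ + b₂) = 0 := by linear_combination e₁ - e₂
      rcases mul_eq_zero.1 h3 with h | h
      · exact sub_eq_zero.1 h
      · exfalso
        apply hxy
        refine ⟨rfl, ?_⟩
        rw [hneg, ← map_neg]
        congr 1
        linear_combination h
    subst hb12
    have hne : algebraMap A K b₁ ≠ (W (-(2 * b) ^ 2) K).toAffine.negY (algebraMap A K a₁)
        (algebraMap A K b₁) := fun h => hxy ⟨rfl, h⟩
    have hsl := WeierstrassCurve.Affine.slope_of_Y_ne (W := (W (-(2 * b) ^ 2) K).toAffine)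
      (x₁ := algebraMap A K a₁) (x₂ := algebraMap A K a₁) (y₁ := algebraMap A K b₁)
      (y₂ := algebraMap A K b₁) rfl hne
    rw [← hℓ, hneg] at hsl
    rw [hneg] at hne
    have hb0 : algebraMap A K b₁ + algebraMap A K b₁ ≠ 0 := by
      intro h
      apply hne
      linear_combination h
    have h4 : ℓ * (2 * algebraMap A K b₁) = 3 * (algebraMap A K a₁) ^ 2 := by
      rw [hsl, sub_neg_eq_add, div_mul_eq_mul_div, div_eq_iff hb0]
      simp only [W]
      ring
    -- `λ y₁ = 3 x₁²`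
    have h5 : ℓ * algebraMap A K (b + 2 * s₁) = algebraMap A K (3 * x₁ ^ 2) := by
      have h6 : (4 : K) * (ℓ * algebraMap A K (b + 2 * s₁) - algebraMap A K (3 * x₁ ^ 2)) = 0 := by
        rw [hy₁, hx₁] at h4
        simp only [map_mul, map_pow, map_ofNat] at h4 ⊢
        linear_combination h4
      exact sub_eq_zero.1 ((mul_eq_zero.1 h6).resolve_left (by norm_num))
    have h7 : (3 * x₁ ^ 2) ^ 2 = (b + 2 * s₁) ^ 2 * (a + 4 * x₁) := by
      apply hinj
      rw [map_pow, ← h5]
      simp only [map_mul, map_pow, map_ofNat, map_add, haX, hx₁]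
      ring
    have h8 : (2 : A) ∣ (3 * x₁ ^ 2) ^ 2 := by
      rw [h7]
      exact Dvd.dvd.mul_left (dvd_add hda ⟨2 * x₁, by ring⟩) _
    have h9 := hp.dvd_of_dvd_pow h8
    rcases hp.dvd_or_dvd h9 with h | h
    · apply hp.not_isUnit
      apply isUnit_of_dvd_one
      have h' : (2 : A) ∣ 3 - 2 := dvd_sub h (dvd_refl 2)
      have h3 : (3 : A) - 2 = 1 := by norm_num
      rwa [h3] at h'
    · exact hu₁ (hp.dvd_of_dvd_pow h)
  · -- the chord
    have hne : algebraMap A K a₁ ≠ algebraMap A K a₂ := fun h => ha12 (hinj h)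
    have hsl := WeierstrassCurve.Affine.slope_of_X_ne (W := (W (-(2 * b) ^ 2) K).toAffine)
      (x₁ := algebraMap A K a₁) (x₂ := algebraMap A K a₂) (y₁ := algebraMap A K b₁)
      (y₂ := algebraMap A K b₂) hne
    rw [← hℓ] at hsl
    have h4 : ℓ * (algebraMap A K a₁ - algebraMap A K a₂) = algebraMap A K b₁ - algebraMap A K b₂ := by
      rw [hsl, div_mul_cancel₀ _ (sub_ne_zero.2 hne)]
    set w : A := b + s₁ + s₂ with hw
    set U : A := x₁ ^ 2 + x₁ * x₂ + x₂ ^ 2 with hU
    have h5 : ((b + 2 * s₁) - (b + 2 * s₂)) * w = (x₁ - x₂) * U := by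
      have h6 : (2 : A) * (((b + 2 * s₁) - (b + 2 * s₂)) * w - (x₁ - x₂) * U) = 0 := by
        rw [hw, hU]
        linear_combination hq₁ - hq₂
      exact sub_eq_zero.1 ((mul_eq_zero.1 h6).resolve_left h20)
    have hx12 : algebraMap A K x₁ - algebraMap A K x₂ ≠ 0 := by
      intro h
      apply hne
      rw [hx₁, hx₂, map_mul, map_mul]
      linear_combination (algebraMap A K 2) * h
    have h6 : ℓ * (algebraMap A K x₁ - algebraMap A K x₂) =
        algebraMap A K ((b + 2 * s₁) - (b + 2 * s₂)) := by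
      have h7 : (2 : K) * (ℓ * (algebraMap A K x₁ - algebraMap A K x₂) -
          algebraMap A K ((b + 2 * s₁) - (b + 2 * s₂))) = 0 := by
        rw [hy₁, hy₂, hx₁, hx₂] at h4
        simp only [map_mul, map_ofNat, map_sub, map_add] at h4 ⊢
        linear_combination h4
      exact sub_eq_zero.1 ((mul_eq_zero.1 h7).resolve_left (by norm_num))
    have h7 : ℓ * algebraMap A K w = algebraMap A K U := by
      have h8 : (algebraMap A K x₁ - algebraMap A K x₂) * (ℓ * algebraMap A K w) =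
          (algebraMap A K x₁ - algebraMap A K x₂) * algebraMap A K U := by
        rw [← map_sub, ← map_mul, ← h5, map_mul, ← h6, map_sub]
        ring
      exact mul_left_cancel₀ hx12 h8
    have h8 : U ^ 2 = w ^ 2 * (a + 2 * x₁ + 2 * x₂) := by
      apply hinj
      rw [map_pow, ← h7]
      simp only [map_mul, map_pow, map_ofNat, map_add, haX, hx₁, hx₂]
      ring
    have h9 : (2 : A) ∣ U := by
      apply hp.dvd_of_dvd_pow (n := 2)
      rw [h8]
      exact Dvd.dvd.mul_left (dvd_add (dvd_add hda (dvd_mul_right _ _)) (dvd_mul_right _ _)) _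
    obtain ⟨d, hd⟩ := h12
    have hxd : x₁ - x₂ = 2 * d := by
      have h10 : (2 : A) * (x₁ - x₂ - 2 * d) = 0 := by
        rw [hx₁, hx₂] at hd
        linear_combination hd
      exact sub_eq_zero.1 ((mul_eq_zero.1 h10).resolve_left h20)
    have h11 : (2 : A) ∣ 3 * x₁ ^ 2 := by
      obtain ⟨u, hu⟩ := h9
      refine ⟨u + (2 * x₁ * d + x₂ * d), ?_⟩
      rw [hU] at hu
      linear_combination hu + (2 * x₁ + x₂) * hxd
    rcases hp.dvd_or_dvd h11 with h | h
    · apply hp.not_isUnit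
      apply isUnit_of_dvd_one
      have h' : (2 : A) ∣ 3 - 2 := dvd_sub h (dvd_refl 2)
      have h3 : (3 : A) - 2 = 1 := by norm_num
      rwa [h3] at h'
    · exact hu₁ (hp.dvd_of_dvd_pow h)

/-- `T = closure S`. For `P ∉ S`, `P + P ∈ S` (`f P = f P`), so `2 P ∈ T` for all `P` and `G / T` has exponent
dividing `2`. If `P, Q ∉ S`, `f P = f Q`, then `P + Q ∈ T`, so `P ≡ - Q ≡ Q mod T`; hence `G / T` is finite (at
most `1 + |κ|` classes) and its order is a power of `2` (`IsPGroup.iff_card` / `IsAddPGroup`, or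
`Nat.primeFactors` with Cauchy's theorem `exists_prime_addOrderOf_dvd_card`). -/
theorem index_closure' {G κ : Type} [AddCommGroup G] [Finite κ] (S : Set G) (f : G → κ)
    (h : ∀ P Q : G, P ∉ S → Q ∉ S → f P = f Q → P + Q ∈ S) :
    ∃ j : ℕ, (AddSubgroup.closure S).index = 2 ^ j := by
  classical
  set T := AddSubgroup.closure S with hT
  have hST : ∀ P : G, P ∈ S → P ∈ T := fun P hP => AddSubgroup.subset_closure hP
  have h2 : ∀ P : G, P + P ∈ T := by
    intro P
    by_cases hP : P ∈ S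
    · exact T.add_mem (hST P hP) (hST P hP)
    · exact hST _ (h P P hP hP rfl)
  have hq2 : ∀ x : G ⧸ T, x + x = 0 := by
    intro x
    obtain ⟨P, rfl⟩ := QuotientAddGroup.mk_surjective x
    rw [← QuotientAddGroup.mk_add, QuotientAddGroup.eq_zero_iff]
    exact h2 P
  have hfin : Finite (G ⧸ T) := by
    have hinj : Function.Injective (fun x : {x : G ⧸ T // x ≠ 0} => f (Quotient.out x.1)) := by
      rintro ⟨x, hx⟩ ⟨y, hy⟩ hxy
      have hx' : ((Quotient.out x : G) : G ⧸ T) = x := Quotient.out_eq x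
      have hy' : ((Quotient.out y : G) : G ⧸ T) = y := Quotient.out_eq y
      have hxS : Quotient.out x ∉ S := by
        intro hS
        apply hx
        rw [← hx', QuotientAddGroup.eq_zero_iff]
        exact hST _ hS
      have hyS : Quotient.out y ∉ S := by
        intro hS
        apply hy
        rw [← hy', QuotientAddGroup.eq_zero_iff]
        exact hST _ hS
      have h3 := hST _ (h _ _ hxS hyS hxy)
      have h4 : x + y = 0 := by
        rw [← hx', ← hy', ← QuotientAddGroup.mk_add, QuotientAddGroup.eq_zero_iff]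
        exact h3
      have h5 : x = y := by
        rw [eq_neg_of_add_eq_zero_left h4]
        exact (eq_neg_of_add_eq_zero_left (hq2 y)).symm
      exact Subtype.ext h5
    have hf1 : Finite {x : G ⧸ T // x ≠ 0} := Finite.of_injective _ hinj
    have hf2 : (Set.univ : Set (G ⧸ T)).Finite := by
      have : (Set.univ : Set (G ⧸ T)) = {x | x ≠ 0} ∪ {0} := by
        ext x
        by_cases hx : x = 0 <;> simp [hx]
      rw [this]
      exact (Set.finite_coe_iff.1 hf1 : ({x | x ≠ 0} : Set (G ⧸ T)).Finite).union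
        (Set.finite_singleton 0)
    exact Set.finite_univ_iff.1 hf2
  have hp : IsPGroup 2 (Multiplicative (G ⧸ T)) := by
    intro x
    refine ⟨1, ?_⟩
    rw [pow_one, pow_two]
    exact hq2 (Multiplicative.toAdd x)
  obtain ⟨j, hj⟩ := IsPGroup.iff_card.1 hp
  exact ⟨j, hj⟩

private theorem ta2_aux (A : Type) [CommRing A] [IsDomain A] [IsDiscreteValuationRing A]
    [Finite (IsLocalRing.ResidueField A)]
    (K : Type) [Field K] [Algebra A K] [IsFractionRing A K] [CharZero K]
    (b : ℤ) (hb : Odd b) (h2 : Irreducible (2 : A))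
    (T : WeierstrassCurve.VariableChange K) (W' : WeierstrassCurve K) [W'.IsMinimal A]
    (hW : W' = T • W (-(2 * b) ^ 2) K)
    (hu : (IsDiscreteValuationRing.maximalIdeal A).valuation K (T.u : K) = 1) :
    ∃ j : ℕ, (AddSubgroup.closure
      {P : W'.toAffine.Point | SBSD.NonsingularReduction A W' P}).index = 2 ^ j := by
  have key := fun x y h hs => sing_point A K (-(2 * b) ^ 2) T W' hW hu x y h hs
  have h3u : IsUnit (3 : A) := by
    have hm := (IsLocalRing.mem_maximalIdeal (2 : A)).2 h2.not_isUnit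
    by_contra h3
    have h3m := (IsLocalRing.mem_maximalIdeal (3 : A)).2 h3
    have h1 : (1 : A) ∈ IsLocalRing.maximalIdeal A := by
      have := Ideal.sub_mem _ h3m hm
      norm_num at this
    exact (Ideal.ne_top_iff_one _).1 (IsLocalRing.maximalIdeal.isMaximal A).ne_top h1
  have hinj : Function.Injective (algebraMap A K) := IsFractionRing.injective A K
  have hmem : ∀ z : A, z ∈ IsLocalRing.maximalIdeal A ↔ (2 : A) ∣ z := by
    intro z
    rw [h2.maximalIdeal_eq, Ideal.mem_span_singleton]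
  subst hW
  -- the half of the `x`-coordinate
  have hex : ∀ P : (T • W (-(2 * b) ^ 2) K).toAffine.Point,
      ¬ SBSD.NonsingularReduction A (T • W (-(2 * b) ^ 2) K) P →
      ∃ c : A, ∀ (x y : K) (h : (T • W (-(2 * b) ^ 2) K).toAffine.Nonsingular x y),
        P = .some x y h → algebraMap A K (2 * c) = (T.u : K) ^ 2 * x + T.r := by
    intro P hP
    rcases P with _ | ⟨x, y, h⟩
    · exact absurd trivial hP
    · obtain ⟨a, b', ha, -, h1, h3, h4⟩ := key x y h hP
      rw [hmem] at h4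
      have e : b' ^ 2 = a ^ 3 - (2 * (b : A)) ^ 2 := by
        rw [h1]
        push_cast
        ring
      obtain ⟨c, s, hc, -⟩ := t6_int A h2.prime h2.ne_zero b hb a b' e h4
      refine ⟨c, fun x' y' h' he => ?_⟩
      rw [WeierstrassCurve.Affine.Point.some.injEq] at he
      rw [← hc, ha, he.1]
  choose! c hc using hex
  refine index_closure' (κ := IsLocalRing.ResidueField A) _
    (fun P => IsLocalRing.residue A (c P)) ?_
  rintro P Q hP hQ hfPQ
  have hcc : (4 : A) ∣ 2 * c P - 2 * c Q := by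
    have h1 : c P - c Q ∈ IsLocalRing.maximalIdeal A := by
      rw [← IsLocalRing.residue_eq_zero_iff, map_sub]
      exact sub_eq_zero.2 hfPQ
    rw [hmem] at h1
    obtain ⟨d, hd⟩ := h1
    exact ⟨d, by linear_combination 2 * hd⟩
  have hcP := hc P hP
  have hcQ := hc Q hQ
  rcases P with _ | ⟨x₁, y₁, h₁⟩
  · exact absurd trivial hP
  rcases Q with _ | ⟨x₂, y₂, h₂⟩
  · exact absurd trivial hQ
  by_contra hPQ
  obtain ⟨a₁, b₁, ha₁, hb₁, -, -, hs₁⟩ := key x₁ y₁ h₁ hP
  obtain ⟨a₂, b₂, ha₂, hb₂, -, -, hs₂⟩ := key x₂ y₂ h₂ hQ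
  have h12 : (4 : A) ∣ a₁ - a₂ := by
    have e1 : a₁ = 2 * c (.some x₁ y₁ h₁) := by
      apply hinj
      rw [ha₁]
      exact (hcP x₁ y₁ h₁ rfl).symm
    have e2 : a₂ = 2 * c (.some x₂ y₂ h₂) := by
      apply hinj
      rw [ha₂]
      exact (hcQ x₂ y₂ h₂ rfl).symm
    rw [e1, e2]
    exact hcc
  have hv := vc_add T (W (-(2 * b) ^ 2) K) (.some x₁ y₁ h₁) (.some x₂ y₂ h₂)
  have n₁ := vc_nonsing T (W (-(2 * b) ^ 2) K) h₁
  have n₂ := vc_nonsing T (W (-(2 * b) ^ 2) K) h₂
  have n₁' : (W (-(2 * b) ^ 2) K).toAffine.Nonsingular (algebraMap A K a₁) (algebraMap A K b₁) := by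
    rw [ha₁, hb₁]; exact n₁
  have n₂' : (W (-(2 * b) ^ 2) K).toAffine.Nonsingular (algebraMap A K a₂) (algebraMap A K b₂) := by
    rw [ha₂, hb₂]; exact n₂
  have e₁ : vc T (W (-(2 * b) ^ 2) K) (.some x₁ y₁ h₁) =
      .some (algebraMap A K a₁) (algebraMap A K b₁) n₁' := by
    simp only [vc, ha₁, hb₁]
  have e₂ : vc T (W (-(2 * b) ^ 2) K) (.some x₂ y₂ h₂) =
      .some (algebraMap A K a₂) (algebraMap A K b₂) n₂' := by
    simp only [vc, ha₂, hb₂]
  rw [e₁, e₂] at hv
  have hsum := sum_sing' A K h2 b hb a₁ b₁ a₂ b₂ h12 n₁' n₂' hs₁ hs₂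
  rw [← hv] at hsum
  generalize (WeierstrassCurve.Affine.Point.some x₁ y₁ h₁ +
    WeierstrassCurve.Affine.Point.some x₂ y₂ h₂) = R at hPQ hsum
  rcases R with _ | ⟨x₃, y₃, h₃⟩
  · exact hPQ trivial
  · obtain ⟨a₃, b₃, ha₃, hb₃, -, -, hs₃⟩ := key x₃ y₃ h₃ hPQ
    rcases hsum with h0 | ⟨x, y, h, hR, hx⟩
    · simp only [vc] at h0
      exact WeierstrassCurve.Affine.Point.some_ne_zero _ h0
    · simp only [vc, WeierstrassCurve.Affine.Point.some.injEq] at hR
      refine hx a₃ (ha₃.trans hR.1) ?_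
      have h4 := Ideal.IsPrime.mem_or_mem (IsLocalRing.maximalIdeal.isMaximal A).isPrime hs₃
      rcases h4 with h4 | h4
      · exact absurd h3u ((IsLocalRing.mem_maximalIdeal _).1 h4)
      · exact Ideal.IsPrime.mem_of_pow_mem (IsLocalRing.maximalIdeal.isMaximal A).isPrime 2 h4

/-- As `tam_two_aux`, `tam_two_of` (T3/TAM.lean) with `sum_sing'` and `index_closure'`: `κ` = residue field of `A`
and `f P` = residue class of `x'` if `P = (x, y)` has singular reduction and `vc T _ P = (2 x', b')` with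
`x' ∈ A` (`sing_point`, `t6_int`), `0` otherwise. If `f P = f Q` then `4` divides `a₁ - a₂ = 2 (x₁' - x₂')`. -/
theorem tam_two_of' (A : Type) [CommRing A] [IsDomain A] [IsDiscreteValuationRing A]
    [Finite (IsLocalRing.ResidueField A)]
    (K : Type) [Field K] [Algebra A K] [IsFractionRing A K] [CharZero K]
    (b : ℤ) (hb : Odd b) (h2 : Irreducible (2 : A))
    (hu : ∀ T : WeierstrassCurve.VariableChange K,
      WeierstrassCurve.IsMinimal A (T • W (-(2 * b) ^ 2) K) →
      (IsDiscreteValuationRing.maximalIdeal A).valuation K (T.u : K) = 1) :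
    ∃ j : ℕ, SBSD.tamagawa A (W (-(2 * b) ^ 2) K) = 2 ^ j := by
  obtain ⟨T, hT, hTm⟩ : ∃ T : WeierstrassCurve.VariableChange K,
      (W (-(2 * b) ^ 2) K).minimal A = T • W (-(2 * b) ^ 2) K ∧
      WeierstrassCurve.IsMinimal A (T • W (-(2 * b) ^ 2) K) :=
    ⟨_, rfl, ((W (-(2 * b) ^ 2) K).exists_isMinimal A).choose_spec⟩
  unfold SBSD.tamagawa
  exact ta2_aux A K b hb h2 T _ hT (hu T hTm)

end R3S
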