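import Pool.Agent.MP_9ab903_nt.RS.TDefs
import Pool.Agent.MP_9ab903_nt.RS.TA1
import Pool.Agent.MP_9ab903_nt.RS.TA2

set_option autoImplicit false

open NumberField IsDedekindDomain
open CM27 CMT CF BS3 SB3 RF
open scoped Classical

namespace R3S

/-! ## [RS-TA4] Tamagawa numbers and Néron factors (file TA4.lean; uses the stubs of TA1, TA2) -/

theorem ta4_log (F : Type) [Field F] [NumberField F] (v : HeightOneSpectrum (𝓞 F)) (p : ℕ) :
    v.intValuation (p : 𝓞 F) = v.valuation F (p : F) := by
  have h1 : (p : F) = algebraMap (𝓞 F) F (p : 𝓞 F) := by rw [map_natCast]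
  rw [h1, HeightOneSpectrum.valuation_of_algebraMap]

theorem ta4_irr (F : Type) [Field F] [NumberField F] (v : HeightOneSpectrum (𝓞 F)) (p : ℕ)
    (hv : (p : 𝓞 F) ∈ v.asIdeal) (h : v.valuation F (p : F) = WithZero.exp (-1 : ℤ)) :
    Irreducible (p : v.adicCompletionIntegers F) := by
  refine irreducible_completion F v p hv fun h2 => ?_
  have h3 := (v.intValuation_le_pow_iff_mem (p : 𝓞 F) 2).2 h2
  rw [ta4_log, h, WithZero.exp_le_exp] at h3
  norm_num at h3

theorem ta4_neg {r : ℕ} {F : Type} [Field F] [NumberField F] (H : LocHyp r F)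
    (v : HeightOneSpectrum (𝓞 F)) (p : ℕ) (hp : p.Prime) (hp7 : p = 3 ∨ p % 12 = 7)
    (hv : (p : 𝓞 F) ∈ v.asIdeal) (x : v.adicCompletionIntegers F) :
    x ^ 2 + 1 ∉ IsLocalRing.maximalIdeal (v.adicCompletionIntegers F) := by
  intro hx
  have h1 := (c3_mem_max F v _).1 hx
  have h2 : ((x ^ 2 + 1 : v.adicCompletionIntegers F) : v.adicCompletion F) =
      (x : v.adicCompletion F) ^ 2 + 1 := by
    rw [AddMemClass.coe_add, SubmonoidClass.coe_pow, OneMemClass.coe_one]
  rw [h2] at h1
  exact H.neg p hp hp7 v hv (x : v.adicCompletion F) h1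

/-- a uniformizer has valuation `exp (-1)` -/
theorem ta4_unif (F : Type) [Field F] [NumberField F] (v : HeightOneSpectrum (𝓞 F))
    (ϖ : v.adicCompletionIntegers F) (hϖ : Irreducible ϖ) :
    Valued.v (ϖ : v.adicCompletion F) = WithZero.exp (-1 : ℤ) := by
  obtain ⟨π, hπ⟩ := v.valuation_exists_uniformizer F
  have hπ' : Valued.v (algebraMap F (v.adicCompletion F) π) = WithZero.exp (-1 : ℤ) := by
    rw [← hπ]
    exact HeightOneSpectrum.valuedAdicCompletion_eq_valuation' v π
  have hlt : ∀ x : WithZero (Multiplicative ℤ), x < 1 → x ≤ WithZero.exp (-1 : ℤ) := by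
    intro x hx
    rcases eq_or_ne x 0 with h0 | h0
    · rw [h0]; exact zero_le
    · rw [← WithZero.exp_zero] at hx
      rw [← WithZero.log_le_iff_le_exp h0]
      have h1 := (WithZero.log_lt_iff_lt_exp h0).2 hx
      omega
  have h1 : Valued.v (ϖ : v.adicCompletion F) ≤ WithZero.exp (-1 : ℤ) := by
    apply hlt
    rw [← c3_mem_max]
    exact (IsLocalRing.mem_maximalIdeal _).2 hϖ.not_isUnit
  refine le_antisymm h1 ?_
  -- `π` is in the maximal ideal, so a multiple of `ϖ`
  have hπ1 : Valued.v (algebraMap F (v.adicCompletion F) π) ≤ 1 := by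
    rw [hπ', ← WithZero.exp_zero, WithZero.exp_le_exp]
    norm_num
  set P : v.adicCompletionIntegers F := ⟨algebraMap F (v.adicCompletion F) π, hπ1⟩ with hP
  have hPm : P ∈ IsLocalRing.maximalIdeal (v.adicCompletionIntegers F) := by
    rw [c3_mem_max]
    change Valued.v (algebraMap F (v.adicCompletion F) π) < 1
    rw [hπ', ← WithZero.exp_zero, WithZero.exp_lt_exp]
    norm_num
  rw [hϖ.maximalIdeal_eq, Ideal.mem_span_singleton] at hPm
  obtain ⟨c, hc⟩ := hPm
  have h2 : (P : v.adicCompletion F) = (ϖ : v.adicCompletion F) * (c : v.adicCompletion F) := by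
    rw [hc]; rfl
  have h3 : Valued.v (P : v.adicCompletion F) = WithZero.exp (-1 : ℤ) := hπ'
  rw [← h3, h2, map_mul]
  exact mul_le_of_le_one_right' c.2

/-- the ramified places above `3` -/
theorem ta4_three {r : ℕ} {F : Type} [Field F] [NumberField F] (H : LocHyp r F)
    (v : HeightOneSpectrum (𝓞 F))
    (h3 : v.valuation F (3 : F) = WithZero.exp (-2 : ℤ)) :
    ∃ ϖ ε : v.adicCompletionIntegers F, Irreducible ϖ ∧ IsUnit ε ∧
      (3 : v.adicCompletionIntegers F) = ε * ϖ ^ 2 ∧
      ∀ x : v.adicCompletionIntegers F,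
        x ^ 2 - ε ∉ IsLocalRing.maximalIdeal (v.adicCompletionIntegers F) := by
  obtain ⟨ϖ, hϖ⟩ := IsDiscreteValuationRing.exists_irreducible (v.adicCompletionIntegers F)
  have hval := ta4_unif F v ϖ hϖ
  have h3v : Valued.v (3 : v.adicCompletion F) = WithZero.exp (-2 : ℤ) := by
    rw [← h3]
    have h := HeightOneSpectrum.valuedAdicCompletion_eq_valuation' v (3 : F)
    rw [← h]
    congr 1
    have h5 : algebraMap F (v.adicCompletion F) (3 : F) = 3 := by rw [map_ofNat]
    exact h5.symm
  have hϖ0 : (ϖ : v.adicCompletion F) ≠ 0 := by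
    intro h0
    rw [h0, map_zero] at hval
    exact WithZero.exp_ne_zero hval.symm
  have hε : Valued.v ((3 : v.adicCompletion F) / (ϖ : v.adicCompletion F) ^ 2) = 1 := by
    rw [map_div₀, map_pow, h3v, hval, ← WithZero.exp_nsmul, ← WithZero.exp_sub,
      ← WithZero.exp_zero]
    congr 1
  set ε : v.adicCompletionIntegers F :=
    ⟨(3 : v.adicCompletion F) / (ϖ : v.adicCompletion F) ^ 2, hε.le⟩ with hεd
  have hεv : (ε : v.adicCompletion F) = (3 : v.adicCompletion F) / (ϖ : v.adicCompletion F) ^ 2 :=
    rfl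
  have hmul : (3 : v.adicCompletion F) = (ε : v.adicCompletion F) * (ϖ : v.adicCompletion F) ^ 2 := by
    rw [hεv]
    field_simp
  refine ⟨ϖ, ε, hϖ, ?_, ?_, ?_⟩
  · rw [HeightOneSpectrum.adicCompletionIntegers.isUnit_iff_valued_eq_one]
    exact hε
  · apply Subtype.ext
    have h6 : ((3 : v.adicCompletionIntegers F) : v.adicCompletion F) = 3 := rfl
    rw [h6, MulMemClass.coe_mul, SubmonoidClass.coe_pow]
    exact hmul
  · intro x hx
    have h1 := (c3_mem_max F v _).1 hx
    have h2 : ((x ^ 2 - ε : v.adicCompletionIntegers F) : v.adicCompletion F) =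
        (x : v.adicCompletion F) ^ 2 - (ε : v.adicCompletion F) := by
      rw [AddSubgroupClass.coe_sub, SubmonoidClass.coe_pow]
    rw [h2] at h1
    exact H.ram v h3 _ _ _ hval hmul h1

theorem ta4_finite (F : Type) [Field F] [NumberField F] (v : HeightOneSpectrum (𝓞 F)) :
    Finite (IsLocalRing.ResidueField (v.adicCompletionIntegers F)) :=
  (card_residue F v).2

/-- As `SB3.local_facts` (T3/TAM.lean), with the cases: `v` above `3` and `v(3) = exp(-1)`: `no_sing_three`;
`v(3) = exp(-2)`: choose an irreducible `ϖ`, `3 = ε ϖ²`, `no_sing_three_ram` with `H.ram`, and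
`u_unit_of_lt` for the discriminant `-432 r⁴ = -16 · 27 · r⁴` of valuation `6`; `v` above `2`: `tam_two_of'` in the
case `r = 2 b` (`Finite` residue field: it is `𝓞 F / v`, use `c3_approx`, or an instance of Mathlib); `p ≡ 7 mod 12`
dividing `r`: `H.neg` (`c3_mem_max`). `p` is irreducible in the completion by `H.mild` (see `irreducible_completion`;
`(p : 𝓞 F) ∉ v²` follows from the valuation `exp(-1)`). -/
theorem local_facts' {r : ℕ} (hr : Adm r) (F : Type) [Field F] [NumberField F] (H : LocHyp r F)
    (v : HeightOneSpectrum (𝓞 F)) :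
    (∀ T : WeierstrassCurve.VariableChange (v.adicCompletion F),
      WeierstrassCurve.IsMinimal (v.adicCompletionIntegers F)
        (T • W (-(r : ℤ) ^ 2) (v.adicCompletion F)) →
      (IsDiscreteValuationRing.maximalIdeal (v.adicCompletionIntegers F)).valuation
        (v.adicCompletion F) (T.u : v.adicCompletion F) = 1) ∧
    ∃ j : ℕ,
      SBSD.tamagawa (v.adicCompletionIntegers F) (W (-(r : ℤ) ^ 2) (v.adicCompletion F)) = 2 ^ j := by
  have hchar := p5_charZero F v
  have hr0 := hr.ne_zero
  by_cases h6 : ((6 * (-(r : ℤ) ^ 2) : ℤ) : 𝓞 F) ∈ v.asIdeal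
  · -- bad places
    obtain ⟨p, hp, hpd, hpv⟩ := exists_prime_of_mem v _ (by
      refine mul_ne_zero (by norm_num) (neg_ne_zero.2 (pow_ne_zero 2 ?_))
      exact_mod_cast hr0) h6
    obtain ⟨hr9, hcf, hpf⟩ := hr
    have hpZ : Prime (p : ℤ) := Nat.prime_iff_prime_int.1 hp
    have hcase : p = 3 ∨ p = 2 ∨ (p % 12 = 7 ∧ p ∣ r) := by
      rcases hpZ.dvd_or_dvd hpd with h | h
      · have h1 : p ∣ 6 := by exact_mod_cast h
        have h2 : p ≤ 6 := Nat.le_of_dvd (by norm_num) h1
        interval_cases p <;>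
          first | (left; rfl) | (right; left; rfl) | (exfalso; revert hp h1; decide)
      · rw [dvd_neg] at h
        have h1 : (p : ℤ) ∣ (r : ℤ) := hpZ.dvd_of_dvd_pow h
        have h2 : p ∣ r := by exact_mod_cast h1
        rcases hpf p hp h2 with h3 | h3
        · exact Or.inr (Or.inl h3)
        · exact Or.inr (Or.inr ⟨h3, h2⟩)
    have hp6 : p ∣ 6 * r := by
      rcases hcase with rfl | rfl | ⟨-, h⟩
      · exact Dvd.dvd.mul_right (by norm_num) _
      · exact Dvd.dvd.mul_right (by norm_num) _
      · exact h.mul_left _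
    by_cases hram : p = 3 ∧ v.valuation F (p : F) = WithZero.exp (-2 : ℤ)
    · -- a ramified place above `3`
      obtain ⟨rfl, hval⟩ := hram
      have hval' : v.valuation F (3 : F) = WithZero.exp (-2 : ℤ) := by exact_mod_cast hval
      obtain ⟨ϖ, ε, hϖ, hε, h3ε, hns⟩ := ta4_three H v hval'
      have h3 : ¬ ((3 : ℕ) : ℤ) ∣ (r : ℤ) := by
        intro h
        have h' : 3 ∣ r := by exact_mod_cast h
        omega
      have hru : IsUnit ((r : ℤ) : v.adicCompletionIntegers F) := z7_cop F v 3 hp hpv r h3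
      have h2 : IsUnit ((2 : ℤ) : v.adicCompletionIntegers F) :=
        z7_cop F v 3 hp hpv 2 (by norm_num)
      have hu : ∀ T : WeierstrassCurve.VariableChange (v.adicCompletion F),
          WeierstrassCurve.IsMinimal (v.adicCompletionIntegers F)
            (T • W (-(r : ℤ) ^ 2) (v.adicCompletion F)) → _ :=
        fun T hT => u_unit_of_lt (v.adicCompletionIntegers F) (v.adicCompletion F) (-(r : ℤ) ^ 2)
          ϖ hϖ 6 (by norm_num)
          (-(((2 : ℤ) : v.adicCompletionIntegers F) ^ 4 * ε ^ 3 *
            ((r : ℤ) : v.adicCompletionIntegers F) ^ 4))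
          (((h2.pow 4).mul (hε.pow 3)).mul (hru.pow 4)).neg (by
            have h27 : (-432 : v.adicCompletionIntegers F) =
                -(((2 : ℤ) : v.adicCompletionIntegers F) ^ 4 * 3 ^ 3) := by
              push_cast; norm_num
            rw [h27, h3ε]
            push_cast; ring) T hT
      refine ⟨hu, ⟨0, ?_⟩⟩
      rw [pow_zero]
      refine tam_one_of _ _ _ hu ?_
      intro a b h hb _
      refine no_sing_three_ram ϖ hϖ ε h3ε hns (r : ℤ) ?_ a b h hb
      have h9 : ((r : ℤ) % 9 = 4 ∨ (r : ℤ) % 9 = 5) := by omega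
      rcases h9 with h9 | h9 <;> rw [pow_two, Int.mul_emod, h9] <;> norm_num
    have hirr : Irreducible (p : v.adicCompletionIntegers F) := by
      refine ta4_irr F v p hpv ?_
      rcases H.mild p hp hp6 v hpv with h | h
      · exact h
      · exact absurd h hram
    -- `r = p ^ e * r'`
    obtain ⟨e, r', hr', hre⟩ := Nat.exists_eq_pow_mul_and_not_dvd hr0 p hp.ne_one
    have he : e ≤ 2 := by
      by_contra hcon
      push Not at hcon
      apply hcf p hp
      rw [hre]
      exact Dvd.dvd.mul_right (pow_dvd_pow p hcon) _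
    have hr'u : IsUnit ((r' : ℤ) : v.adicCompletionIntegers F) :=
      z7_cop F v p hp hpv r' (by intro h; exact hr' (by exact_mod_cast h))
    rcases hcase with rfl | rfl | ⟨h7, hdvd⟩
    · -- `p = 3`
      have h3 : ¬ 3 ∣ r := by omega
      have he0 : e = 0 := by
        by_contra hcon
        exact h3 (by rw [hre]; exact Dvd.dvd.mul_right (dvd_pow_self 3 hcon) _)
      rw [he0, pow_zero, one_mul] at hre
      rw [← hre] at hr'u
      have h2 : IsUnit ((2 : ℤ) : v.adicCompletionIntegers F) :=
        z7_cop F v 3 hp hpv 2 (by norm_num)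
      have hu : ∀ T : WeierstrassCurve.VariableChange (v.adicCompletion F),
          WeierstrassCurve.IsMinimal (v.adicCompletionIntegers F)
            (T • W (-(r : ℤ) ^ 2) (v.adicCompletion F)) → _ :=
        fun T hT => u_unit_of_lt (v.adicCompletionIntegers F) (v.adicCompletion F) (-(r : ℤ) ^ 2)
          ((3 : ℕ) : v.adicCompletionIntegers F) hirr 3 (by norm_num)
          (-(((2 : ℤ) : v.adicCompletionIntegers F) ^ 4 *
            ((r : ℤ) : v.adicCompletionIntegers F) ^ 4))
          ((h2.pow 4).mul (hr'u.pow 4)).neg (by push_cast; ring) T hT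
      refine ⟨hu, ⟨0, (tam_one_of _ _ _ hu ?_).trans (pow_zero 2).symm⟩⟩
      intro a b h hb _
      refine no_sing_three (by exact_mod_cast hirr) (r : ℤ) ?_ a b h hb
      have h9 : ((r : ℤ) % 9 = 4 ∨ (r : ℤ) % 9 = 5) := by omega
      rcases h9 with h9 | h9 <;> rw [pow_two, Int.mul_emod, h9] <;> norm_num
    · -- `p = 2`
      have h3 : IsUnit ((3 : ℤ) : v.adicCompletionIntegers F) :=
        z7_cop F v 2 hp hpv 3 (by norm_num)
      have hodd : Odd (r' : ℤ) := by
        rw [Int.odd_coe_nat, ← Nat.not_even_iff_odd, even_iff_two_dvd]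
        exact hr'
      interval_cases e
      · rw [pow_zero, one_mul] at hre
        rw [← hre] at hr'u hodd
        have hu : ∀ T : WeierstrassCurve.VariableChange (v.adicCompletion F),
            WeierstrassCurve.IsMinimal (v.adicCompletionIntegers F)
              (T • W (-(r : ℤ) ^ 2) (v.adicCompletion F)) → _ :=
          fun T hT => u_unit_of_lt (v.adicCompletionIntegers F) (v.adicCompletion F) (-(r : ℤ) ^ 2)
            ((2 : ℕ) : v.adicCompletionIntegers F) hirr 4 (by norm_num)
            (-(((3 : ℤ) : v.adicCompletionIntegers F) ^ 3 *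
              ((r : ℤ) : v.adicCompletionIntegers F) ^ 4))
            ((h3.pow 3).mul (hr'u.pow 4)).neg (by push_cast; ring) T hT
        refine ⟨hu, ⟨0, (tam_one_of _ _ _ hu ?_).trans (pow_zero 2).symm⟩⟩
        intro a b h _ ha
        exact no_sing_two_odd (by exact_mod_cast hirr) (r : ℤ) hodd a b h ha
      · have h4 : -(r : ℤ) ^ 2 = -(2 * (r' : ℤ)) ^ 2 := by
          rw [hre]
          push_cast
          ring
        rw [h4]
        have hu : ∀ T : WeierstrassCurve.VariableChange (v.adicCompletion F),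
            WeierstrassCurve.IsMinimal (v.adicCompletionIntegers F)
              (T • W (-(2 * (r' : ℤ)) ^ 2) (v.adicCompletion F)) → _ :=
          fun T hT => u_unit_of_lt (v.adicCompletionIntegers F) (v.adicCompletion F)
            (-(2 * (r' : ℤ)) ^ 2)
            ((2 : ℕ) : v.adicCompletionIntegers F) hirr 8 (by norm_num)
            (-(((3 : ℤ) : v.adicCompletionIntegers F) ^ 3 *
              ((r' : ℤ) : v.adicCompletionIntegers F) ^ 4))
            ((h3.pow 3).mul (hr'u.pow 4)).neg (by push_cast; ring) T hT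
        have hfin : Finite (IsLocalRing.ResidueField (v.adicCompletionIntegers F)) := ta4_finite F v
        exact ⟨hu, tam_two_of' _ _ (r' : ℤ) hodd (by exact_mod_cast hirr) hu⟩
      · have h4 : -(r : ℤ) ^ 2 = -16 * (r' : ℤ) ^ 2 := by
          rw [hre]
          push_cast
          ring
        rw [h4]
        have hu : ∀ T : WeierstrassCurve.VariableChange (v.adicCompletion F),
            WeierstrassCurve.IsMinimal (v.adicCompletionIntegers F)
              (T • W (-16 * (r' : ℤ) ^ 2) (v.adicCompletion F)) → _ :=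
          fun T hT => u_unit_two (v.adicCompletionIntegers F) (v.adicCompletion F) (r' : ℤ) hodd
            (by exact_mod_cast hirr) T hT
        refine ⟨hu, ⟨0, (tam_one_of _ _ _ hu ?_).trans (pow_zero 2).symm⟩⟩
        intro a b h _ ha
        exact no_sing_two_four (by exact_mod_cast hirr) (r' : ℤ) hodd a b h ha
    · -- `p ∣ r` odd
      have h2 : IsUnit ((2 : ℤ) : v.adicCompletionIntegers F) := by
        apply z7_cop F v p hp hpv
        intro h
        have := Int.le_of_dvd (by norm_num) h
        omega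
      have h3 : IsUnit ((3 : ℤ) : v.adicCompletionIntegers F) := by
        apply z7_cop F v p hp hpv
        intro h
        have := Int.le_of_dvd (by norm_num) h
        omega
      have h6' : IsUnit (6 : v.adicCompletionIntegers F) := by
        have := h2.mul h3
        have h23 : (6 : v.adicCompletionIntegers F) = ((2 : ℤ) : v.adicCompletionIntegers F) *
          ((3 : ℤ) : v.adicCompletionIntegers F) := by push_cast; norm_num
        rw [h23]
        exact this
      have hns := ta4_neg H v p hp (Or.inr h7) hpv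
      interval_cases e
      · rw [pow_zero, one_mul] at hre
        rw [hre] at hdvd
        exact absurd hdvd hr'
      · have h4 : -(r : ℤ) ^ 2 = -((p : ℤ) * (r' : ℤ)) ^ 2 := by
          rw [hre]
          push_cast
          ring
        rw [h4]
        have hu : ∀ T : WeierstrassCurve.VariableChange (v.adicCompletion F),
            WeierstrassCurve.IsMinimal (v.adicCompletionIntegers F)
              (T • W (-((p : ℤ) * (r' : ℤ)) ^ 2) (v.adicCompletion F)) → _ :=
          fun T hT => u_unit_of_lt (v.adicCompletionIntegers F) (v.adicCompletion F)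
            (-((p : ℤ) * (r' : ℤ)) ^ 2)
            ((p : ℕ) : v.adicCompletionIntegers F) hirr 4 (by norm_num)
            (-(((2 : ℤ) : v.adicCompletionIntegers F) ^ 4 *
              ((3 : ℤ) : v.adicCompletionIntegers F) ^ 3 *
              ((r' : ℤ) : v.adicCompletionIntegers F) ^ 4))
            (((h2.pow 4).mul (h3.pow 3)).mul (hr'u.pow 4)).neg (by push_cast; ring) T hT
        refine ⟨hu, ⟨0, (tam_one_of _ _ _ hu ?_).trans (pow_zero 2).symm⟩⟩
        intro a b h hb ha
        exact no_sing_one p hirr h6' hns (r' : ℤ) hr'u a b h hb ha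
      · have h4 : -(r : ℤ) ^ 2 = -((p : ℤ) ^ 2 * (r' : ℤ)) ^ 2 := by
          rw [hre]
          push_cast
          ring
        rw [h4]
        have hu : ∀ T : WeierstrassCurve.VariableChange (v.adicCompletion F),
            WeierstrassCurve.IsMinimal (v.adicCompletionIntegers F)
              (T • W (-((p : ℤ) ^ 2 * (r' : ℤ)) ^ 2) (v.adicCompletion F)) → _ :=
          fun T hT => u_unit_of_lt (v.adicCompletionIntegers F) (v.adicCompletion F)
            (-((p : ℤ) ^ 2 * (r' : ℤ)) ^ 2)
            ((p : ℕ) : v.adicCompletionIntegers F) hirr 8 (by norm_num)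
            (-(((2 : ℤ) : v.adicCompletionIntegers F) ^ 4 *
              ((3 : ℤ) : v.adicCompletionIntegers F) ^ 3 *
              ((r' : ℤ) : v.adicCompletionIntegers F) ^ 4))
            (((h2.pow 4).mul (h3.pow 3)).mul (hr'u.pow 4)).neg (by push_cast; ring) T hT
        refine ⟨hu, ⟨0, (tam_one_of _ _ _ hu ?_).trans (pow_zero 2).symm⟩⟩
        intro a b h hb ha
        exact no_sing_sq p hirr h6' hns (r' : ℤ) hr'u a b h hb ha
  · -- good places
    have h6u : IsUnit (((6 * (-(r : ℤ) ^ 2) : ℤ)) : v.adicCompletionIntegers F) :=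
      p5_isUnit_int F v _ h6
    have hfac : (-432 * (((-(r : ℤ) ^ 2 : ℤ)) : v.adicCompletionIntegers F) ^ 2) =
        -12 * (((6 * (-(r : ℤ) ^ 2) : ℤ)) : v.adicCompletionIntegers F) ^ 2 := by
      push_cast; ring
    have h6' : IsUnit (6 : v.adicCompletionIntegers F) := by
      push_cast at h6u
      exact isUnit_of_mul_isUnit_left h6u
    have h12 : IsUnit (-12 : v.adicCompletionIntegers F) := by
      have h36 : IsUnit (-12 * (-3) : v.adicCompletionIntegers F) := by
        have := h6'.mul h6'
        norm_num at this ⊢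
        exact this
      exact isUnit_of_mul_isUnit_left h36
    obtain ⟨ϖ, hϖ⟩ := IsDiscreteValuationRing.exists_irreducible (v.adicCompletionIntegers F)
    have hu : ∀ T : WeierstrassCurve.VariableChange (v.adicCompletion F),
        WeierstrassCurve.IsMinimal (v.adicCompletionIntegers F)
          (T • W (-(r : ℤ) ^ 2) (v.adicCompletion F)) → _ :=
      fun T hT => u_unit_of_lt (v.adicCompletionIntegers F) (v.adicCompletion F) (-(r : ℤ) ^ 2)
        ϖ hϖ 0 (by norm_num)
        (-12 * (((6 * (-(r : ℤ) ^ 2) : ℤ)) : v.adicCompletionIntegers F) ^ 2)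
        (h12.mul (h6u.pow 2)) (by rw [hfac, pow_zero, one_mul]) T hT
    refine ⟨hu, ⟨0, (tam_one_of _ _ _ hu ?_).trans (pow_zero 2).symm⟩⟩
    intro a b h hb ha
    exact no_sing_good (-(r : ℤ) ^ 2) h6u a b h hb ha

/-- as `SB3.tam_cases`, `SB3.finprod_tam3` (T3/TAM.lean) -/
theorem finprod_tam {r : ℕ} (hr : Adm r) (F : Type) [Field F] [NumberField F] (H : LocHyp r F) :
    ∃ j : ℕ, ∏ᶠ v : HeightOneSpectrum (𝓞 F), SBSD.tam (W (-(r : ℤ) ^ 2) F) v = 2 ^ j := by
  refine finprod_induction (p := fun t : ℕ => ∃ j : ℕ, t = 2 ^ j) ⟨0, rfl⟩ ?_ ?_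
  · rintro a b ⟨i, rfl⟩ ⟨j, rfl⟩
    exact ⟨i + j, (pow_add _ _ _).symm⟩
  · intro v
    unfold SBSD.tam
    rw [p5_baseChange]
    exact (local_facts' hr F H v).2

/-- as `SB3.neron_one` -/
theorem neron_one {r : ℕ} (hr : Adm r) (F : Type) [Field F] [NumberField F] (H : LocHyp r F)
    (v : HeightOneSpectrum (𝓞 F)) : SBSD.neron (W (-(r : ℤ) ^ 2) F) v = 1 := by

  have hu : (IsDiscreteValuationRing.maximalIdeal (v.adicCompletionIntegers F)).valuation
      (v.adicCompletion F) (((((W (-(r : ℤ) ^ 2) F).baseChange (v.adicCompletion F)).exists_isMinimal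
        (v.adicCompletionIntegers F)).choose.u : (v.adicCompletion F)ˣ) : v.adicCompletion F)
        = 1 := by
    have hmin := (((W (-(r : ℤ) ^ 2) F).baseChange (v.adicCompletion F)).exists_isMinimal
        (v.adicCompletionIntegers F)).choose_spec
    generalize (((W (-(r : ℤ) ^ 2) F).baseChange (v.adicCompletion F)).exists_isMinimal
        (v.adicCompletionIntegers F)).choose = T at hmin ⊢
    rw [p5_baseChange] at hmin
    exact (local_facts' hr F H v).1 T hmin
  unfold SBSD.neron
  generalize (((((W (-(r : ℤ) ^ 2) F).baseChange (v.adicCompletion F)).exists_isMinimal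
        (v.adicCompletionIntegers F)).choose.u : (v.adicCompletion F)ˣ) : v.adicCompletion F) = u
        at hu ⊢
  have hmem : u ∈ MonoidHom.mker ((IsDiscreteValuationRing.maximalIdeal
      (v.adicCompletionIntegers F)).valuation (v.adicCompletion F)) := hu
  rw [IsDiscreteValuationRing.mker_valuation_eq_isUnitSubmonoid] at hmem
  obtain ⟨u₀, hu₀, rfl⟩ := hmem
  have hu₀' : IsUnit u₀ := hu₀
  rw [HeightOneSpectrum.adicCompletionIntegers.isUnit_iff_valued_eq_one] at hu₀'
  rw [inv_eq_one]
  have h1 : algebraMap (v.adicCompletionIntegers F) (v.adicCompletion F) u₀ =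
      (u₀ : v.adicCompletion F) := rfl
  rw [h1, FinitePlace.norm_def, hu₀', map_one]
  rfl

end R3S
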