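import Pool.Agent.MP_9ab903_nt.T3.T8
import Pool.Agent.MP_dfae13_nt.T.J6

set_option autoImplicit false

open NumberField IsDedekindDomain
open CM27 CMT BS3 SB3
open scoped Classical

namespace R3S

/-! ## [RS-TA5] archimedean periods (file TA5.lean) -/

/-- The cubic of `W (-r²)` is `4 x³ - 4 r² = 4 x³ + δ³` with `δ³ = -4 r²`, which is also that of `Wt ε`,
`4 ε + 1 = δ³`; `complexArea` only depends on the cubic. So `2 · area = OmCC / ‖δ‖` (`CMT.complexArea_Wt`, T/J6.lean),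
`OmCC = √3 Om²` (`OmCC_eq`, AN/P2.lean), `‖δ‖³ = 4 r² = (2 r)²`, and `ρ = realPeriod` satisfies `ρ > 0`,
`ρ³ (2 r) = Om³` (`SB3.realPeriod_W`, T3/T8.lean), so `(Om² / ‖δ‖)³ = (ρ²)³`. -/
theorem area_W (r : ℕ) (hr : r ≠ 0) : 2 * SBSD.complexArea (W (-(r : ℤ) ^ 2) ℂ) =
    √3 * SBSD.realPeriod (W (-(r : ℤ) ^ 2) ℝ) ^ 2 := by
  have hO := Om_pos
  have hr0 : (0:ℝ) < r := by exact_mod_cast Nat.pos_of_ne_zero hr
  obtain ⟨c, hc0, hc3⟩ : ∃ c : ℝ, 0 < c ∧ c ^ 3 = 4 * (r:ℝ) ^ 2 := by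
    refine ⟨(4 * (r:ℝ) ^ 2) ^ ((1:ℝ) / 3), by positivity, ?_⟩
    rw [← Real.rpow_natCast, ← Real.rpow_mul (by positivity)]
    norm_num
  obtain ⟨hρ, hρ3⟩ := realPeriod_W r hr
  set ρ := SBSD.realPeriod (W (-(r : ℤ) ^ 2) ℝ) with hρdef
  have hδ : (-(c : ℂ)) ≠ 0 := by
    rw [neg_ne_zero]
    exact_mod_cast hc0.ne'
  have hε : 4 * ((-4 * (r : ℂ) ^ 2 - 1) / 4) + 1 = (-(c : ℂ)) ^ 3 := by
    have h1 : (c : ℂ) ^ 3 = 4 * (r : ℂ) ^ 2 := by exact_mod_cast hc3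
    rw [Odd.neg_pow (by decide : Odd 3), h1]
    ring
  have h1 := complexArea_Wt _ _ hδ hε
  have h2 : SBSD.complexArea (W (-(r : ℤ) ^ 2) ℂ) =
      SBSD.complexArea (Wt ((-4 * (r : ℂ) ^ 2 - 1) / 4)) := by
    unfold SBSD.complexArea
    have h3 : ∀ x : ℂ, SBSD.cubic (W (-(r : ℤ) ^ 2) ℂ) x =
        SBSD.cubic (Wt ((-4 * (r : ℂ) ^ 2 - 1) / 4)) x := by
      intro x
      simp only [SBSD.cubic, W, Wt, WeierstrassCurve.b₂, WeierstrassCurve.b₄,
        WeierstrassCurve.b₆]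
      push_cast
      ring
    simp only [h3]
  rw [h2, h1, norm_neg, Complex.norm_real, Real.norm_eq_abs, abs_of_pos hc0, OmCC_eq]
  have h4 : Om ^ 2 = c * ρ ^ 2 := by
    have h5 : (Om ^ 2) ^ 3 = (c * ρ ^ 2) ^ 3 := by
      rw [mul_pow, hc3]
      linear_combination (-(Om ^ 3 + ρ ^ 3 * (2 * r))) * hρ3
    exact (pow_left_inj₀ (by positivity) (by positivity) (by norm_num)).1 h5
  rw [h4]
  field_simp

/-- `archPeriod` is `ρ` at the real places, `√3 ρ²` at the complex places (`W_map`);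
`finrank = nrRealPlaces + 2 nrComplexPlaces` (`InfinitePlace.card_add_two_mul_card_eq_rank`). -/
theorem arch_W (r : ℕ) (hr : r ≠ 0) (F : Type) [Field F] [NumberField F] :
    ∏ v : InfinitePlace F, SBSD.archPeriod (W (-(r : ℤ) ^ 2) F) v =
      √3 ^ InfinitePlace.nrComplexPlaces F *
        SBSD.realPeriod (W (-(r : ℤ) ^ 2) ℝ) ^ Module.finrank ℚ F := by
  set ρ := SBSD.realPeriod (W (-(r : ℤ) ^ 2) ℝ) with hρ
  have h1 : ∀ v : InfinitePlace F, SBSD.archPeriod (W (-(r : ℤ) ^ 2) F) v =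
      if v.IsReal then ρ else √3 * ρ ^ 2 := by
    intro v
    unfold SBSD.archPeriod
    split_ifs with h
    · rw [W_map]
    · rw [W_map, area_W r hr]
  simp only [h1]
  rw [Finset.prod_ite, Finset.prod_const, Finset.prod_const]
  have h2 : (Finset.univ.filter fun v : InfinitePlace F => v.IsReal).card =
      InfinitePlace.nrRealPlaces F := by
    rw [InfinitePlace.nrRealPlaces, Fintype.card_subtype]
  have h3 : (Finset.univ.filter fun v : InfinitePlace F => ¬ v.IsReal).card =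
      InfinitePlace.nrComplexPlaces F := by
    rw [InfinitePlace.nrComplexPlaces, Fintype.card_subtype]
    congr 1
    ext v
    simp [InfinitePlace.not_isReal_iff_isComplex]
  rw [h2, h3, ← InfinitePlace.card_add_two_mul_card_eq_rank, pow_add, pow_mul, mul_pow]
  ring

end R3S
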