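import Pool.Agent.MP_9ab903_nt.RS.VDefs
import Pool.Agent.MP_ae0bd0_nt.RF.T1

set_option autoImplicit false

open scoped ComplexConjugate Classical
open Filter Topology NumberField CM27 CMT CF BS3 SB3 RF

namespace R3S

/-! ## [RS-V2b] the values at the primes dividing the level (file V2b.lean) -/

section
variable {r m : ℕ} {S : Finset Eis} {F : IntermediateField ℚ ℂ} {n : ℕ} [NumberField F]

theorem v2b_NEis (D : Dat r m S F n) (b : Eis) (h1 : Primary b) (h2 : Prime b)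
    (h3 : b ∣ ((lev r m : ℕ) : Eis)) (hc : IsCoprime b ((2 * r : ℕ) : Eis)) : NEis b := by
  have hnot : ∀ x : Eis, b ∣ x → x ∣ ((2 * r : ℕ) : Eis) → False := by
    intro x hx hx2
    exact h2.not_unit (hc.isUnit_of_dvd' dvd_rfl (hx.trans hx2))
  have hm : b ∣ (m : Eis) := by
    have e1 : ((lev r m : ℕ) : Eis) = 2 * 2 * ((oddrad r : Eis) * (m : Eis)) := by
      unfold lev
      push_cast
      ring
    rw [e1] at h3
    have h2r : (2 : Eis) ∣ ((2 * r : ℕ) : Eis) := ⟨(r : Eis), by push_cast; ring⟩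
    rcases h2.dvd_or_dvd h3 with h4 | h4
    · rcases h2.dvd_or_dvd h4 with h5 | h5
      · exact (hnot _ h5 h2r).elim
      · exact (hnot _ h5 h2r).elim
    · rcases h2.dvd_or_dvd h4 with h5 | h5
      · exfalso
        unfold oddrad at h5
        rw [Nat.cast_prod] at h5
        obtain ⟨p, hp, hbp⟩ := (Prime.dvd_finsetProd_iff h2 _).1 h5
        have hpr : p ∣ r := Nat.dvd_of_mem_primeFactors (Finset.mem_of_mem_erase hp)
        refine hnot _ hbp ?_
        exact_mod_cast Nat.cast_dvd_cast (α := Eis) (hpr.trans (Dvd.intro_left 2 rfl))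
      · exact h5
  obtain ⟨S', hS', hmem, -⟩ := exists_S_level m D.hm
  exact hS' b ((hmem b).2 ⟨h1, h2, hm⟩)

theorem v2b_ch4 {b : Eis} (hb : NEis b) : ch4 b = -1 := by
  obtain ⟨-, p, hp, hn⟩ := hb
  unfold ch4
  rw [ZMod.χ₄_int_three_mod_four (by rw [hn]; have := hp.2.2; omega)]
  norm_num

theorem v2b_key (D : Dat r m S F n) (b : Eis) (h1 : Primary b) (h2 : Prime b)
    (h3 : b ∣ ((lev r m : ℕ) : Eis)) (z : ℂ) (hz : z = 0 ∨ z ^ 3 ^ (n + 1) = 1) :
    phr r b * z = 0 ∨ (-(phr r b * z)) ^ 3 ^ (n + 2) = 1 := by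
  by_cases hc : IsCoprime b ((2 * r : ℕ) : Eis)
  · rcases hz with hz | hz
    · left
      rw [hz, mul_zero]
    · right
      have h4 : -(phr r b * z) = kapn (2 * r) b * z := by
        rw [phr, v2b_ch4 (v2b_NEis D b h1 h2 h3 hc)]
        ring
      rw [h4, mul_pow]
      have h8 : kapn (2 * r) b ^ 3 ^ (n + 2) = 1 := by
        rw [pow_succ', pow_mul, kapn_cube (2 * r) D.hr.not_three b hc, one_pow]
      have h9 : z ^ 3 ^ (n + 2) = 1 := by
        rw [pow_succ, pow_mul, hz, one_pow]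
      rw [h8, h9, one_mul]
  · left
    rw [phr, kapn_zero _ (mul_ne_zero two_ne_zero D.hr.ne_zero) b hc, mul_zero, zero_mul]

/-- If `b` is not prime to `2 r` then `kapn (2 r) b = 0` (`kapn_zero`) and `phr r b = 0`. Otherwise `b`
divides `4 · oddrad r · m` and is prime to `4` and to `oddrad r` (primes dividing `oddrad r` divide `r`,
`dvd_oddrad`), so `b ∣ m`; then `b.norm` divides `m²` and is odd and all of its prime factors `q` are `≡ 7 mod 12`,
so `b.norm = q` or `q²`; `b.norm = q²` would mean that `q` is inert, but `q ≡ 1 mod 3` splits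
(see `RF.exists_S_level`, T1.lean for the `b ∈ S`: `hSd` says `b ∈ S ↔ ...`); hence `b.norm ≡ 3 mod 4` and `ch4 b = -1`.
`(kapn (2 r) b)^3 = 1` (`kapn_cube`), `Xt S X b = 0` or `(Xt S X b)^(3^(n+1)) = 1` (`v3_val`). -/
theorem Dat.bad_x (D : Dat r m S F n) (X : XX S) (hX : X ∈ chF S F) (b : Eis) (h1 : Primary b)
    (h2 : Prime b) (h3 : b ∣ ((lev r m : ℕ) : Eis)) :
    px r S X b = 0 ∨ (-px r S X b) ^ 3 ^ (n + 2) = 1 :=
  v2b_key D b h1 h2 h3 _ (RF.v3_val S X (n + 1) (D.pow X hX) b)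

theorem Dat.bad_y (D : Dat r m S F n) (X : XX S) (hX : X ∈ chF S F) (b : Eis) (h1 : Primary b)
    (h2 : Prime b) (h3 : b ∣ ((lev r m : ℕ) : Eis)) :
    py r S X b = 0 ∨ (-py r S X b) ^ 3 ^ (n + 2) = 1 :=
  v2b_key D b h1 h2 h3 _ (RF.v3_val S X (n + 1) (D.pow X hX) (star b))

end

end R3S
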