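import Pool.Agent.MP_9ab903_nt.RS.V2
import Pool.Agent.MP_9ab903_nt.RS.V2b

set_option autoImplicit false

open scoped ComplexConjugate Classical
open Filter Topology NumberField CM27 CMT CF BS3 SB3 RF

namespace R3S

/-! ## [RS-V2c] the valuations of `PX`, `PY` (done) -/

section
variable {r m : ℕ} {S : Finset Eis} {F : IntermediateField ℚ ℂ} {n : ℕ} [NumberField F]

/-- from `SK_val_G`, `bad_x`, `Dat.isGx`, `Dat.card` -/
theorem Dat.val_PX (D : Dat r m S F n) (A : ValuationSubring ℂ) (hA : A.valuation 3 < 1) :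
    A.valuation (PX r (lev r m) S F) ^ 2 = A.valuation 3 ^ 3 ^ (n + 1) := by
  rw [PX, map_prod, ← Finset.prod_pow]
  have h1 : ∀ X ∈ chF S F, A.valuation (SK (lev r m) (px r S X)) ^ 2 = A.valuation 3 :=
    fun X hX => SK_val_G A hA _ D.good _ (D.isGx X hX).1 (n + 2) (D.isGx X hX).2 (D.bad_x X hX)
  rw [Finset.prod_congr rfl h1, Finset.prod_const, D.card]

theorem Dat.val_PY (D : Dat r m S F n) (A : ValuationSubring ℂ) (hA : A.valuation 3 < 1) :
    A.valuation (PY r (lev r m) S F) ^ 2 = A.valuation 3 ^ 3 ^ (n + 1) := by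
  rw [PY, map_prod, ← Finset.prod_pow]
  have h1 : ∀ X ∈ chF S F, A.valuation (SK (lev r m) (py r S X)) ^ 2 = A.valuation 3 :=
    fun X hX => SK_val_G A hA _ D.good _ (D.isGy X hX).1 (n + 2) (D.isGy X hX).2 (D.bad_y X hX)
  rw [Finset.prod_congr rfl h1, Finset.prod_const, D.card]

end

end R3S
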