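import Pool.Agent.MP_9ab903_nt.RS.V3b
import Pool.Agent.MP_9ab903_nt.A3.A7
import Pool.Agent.MP_9ab903_nt.A3.A8

set_option autoImplicit false

open scoped ComplexConjugate Classical
open Filter Topology NumberField CM27 CMT CF BS3 SB3 RF

namespace R3S

/-! ## [RS-V3c] rationality (file V3c.lean; uses the stubs of V3b) -/

theorem v3c_SK_alg (M : ℕ) (hM : M ≠ 0) (ψ : Eis → ℂ) (h : ∀ a, ψ a ∈ algebraicClosure ℚ ℂ) :
    SK M ψ ∈ algebraicClosure ℚ ℂ := by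
  unfold SK rsum
  refine sum_mem fun i _ => sum_mem fun j _ => mul_mem (h _) (inv_mem ?_)
  refine add_mem (one_mem _) (mem_algebraicClosure_iff.2 (XX_alg M hM _ ⟨⟨i, j⟩, ?_⟩))
  have : (M : ℂ) ≠ 0 := by exact_mod_cast hM
  field_simp

section
variable {r m : ℕ} {S : Finset Eis} {F : IntermediateField ℚ ℂ} {n : ℕ} [NumberField F]

theorem v3c_Xt (D : Dat r m S F n) (X : XX S) (hX : X ∈ chF S F) (a : Eis) :
    Xt S X a ∈ algebraicClosure ℚ ℂ := by
  unfold Xt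
  refine prod_mem fun b _ => ?_
  split_ifs with hb
  · exact one_mem _
  · rw [mem_algebraicClosure_iff]
    refine IsAlgebraic.of_pow (n := 3 ^ (n + 1)) (by positivity) ?_
    have h1 := D.pow X hX b
    have h2 : (X b) (Ideal.Quotient.mk _ a) ^ 3 ^ (n + 1) =
        ((X b) ^ 3 ^ (n + 1)) (Ideal.Quotient.mk _ a) :=
      (MulChar.pow_apply' (X b) (by positivity) _).symm
    rw [h2, h1]
    by_cases hu : IsUnit (Ideal.Quotient.mk (Ideal.span {(b : Eis)}) a)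
    · rw [MulChar.one_apply hu]
      exact isAlgebraic_one
    · rw [MulChar.map_nonunit _ hu]
      exact isAlgebraic_zero

/-- see `SK_alg`, `PF_alg` in A3/A7.lean (`q7_phr`, `XX_alg`); the values of `Xt` are `0` or roots of unity -/
theorem Dat.alg (D : Dat r m S F n) :
    IsAlgebraic ℚ (PX r (lev r m) S F) ∧ IsAlgebraic ℚ (PY r (lev r m) S F) := by
  rw [← mem_algebraicClosure_iff, ← mem_algebraicClosure_iff]
  constructor
  · unfold PX
    exact prod_mem fun X hX => v3c_SK_alg _ D.lev_ne _ fun a =>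
      mul_mem (q7_phr r _) (v3c_Xt D X hX _)
  · unfold PY
    exact prod_mem fun X hX => v3c_SK_alg _ D.lev_ne _ fun a =>
      mul_mem (q7_phr r _) (v3c_Xt D X hX _)

theorem v3c_sq (D : Dat r m S F n) (u : Eis) (hu : IsCoprime u ((lev r m : ℕ) : Eis)) :
    ch4 u * ch4 u = 1 :=
  n1_ch4_sq u (n1_odd (lev r m) ⟨_, rfl⟩ u hu)

/-- `fixed_rat`, `gal_XX`, `PXY_gal` (`σ w = w` or `conj w` by `gal_XX`/`ActX`), `(ch4 u)² = 1`. -/
theorem Dat.rat (D : Dat r m S F n) : ∃ q : ℚ, (q : ℂ) = PX r (lev r m) S F * PY r (lev r m) S F := by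
  refine fixed_rat _ (D.alg.1.mul D.alg.2) ?_
  intro σ
  obtain ⟨u, hu, hx⟩ := gal_XX (lev r m) D.lev_ne σ
  obtain ⟨h1, h2⟩ := D.PXY_gal σ u hu hx
  have h5 := v3c_sq D u hu
  rw [map_mul]
  rcases hx with ⟨hw, -⟩ | ⟨hw, -⟩
  · obtain ⟨h3, h4⟩ := h1 hw
    calc σ (PX r (lev r m) S F) * σ (PY r (lev r m) S F) =
        (σ (PX r (lev r m) S F) * ch4 u) * (σ (PY r (lev r m) S F) * ch4 u) := by
          linear_combination (-(σ (PX r (lev r m) S F) * σ (PY r (lev r m) S F))) * h5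
      _ = _ := by rw [h3, h4]
  · obtain ⟨h3, h4⟩ := h2 hw
    calc σ (PX r (lev r m) S F) * σ (PY r (lev r m) S F) =
        (σ (PX r (lev r m) S F) * ch4 u) * (σ (PY r (lev r m) S F) * ch4 u) := by
          linear_combination (-(σ (PX r (lev r m) S F) * σ (PY r (lev r m) S F))) * h5
      _ = _ := by rw [h3, h4, mul_comm]

/-- As `SB3.PF_rat`: `fixed_rat`, `gal_XX`, `PXY_gal`, `sqrt_three_gal`. -/
theorem Dat.rat_sqrt (D : Dat r m S F n) (h : PX r (lev r m) S F = PY r (lev r m) S F) :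
    ∃ q : ℚ, (q : ℂ) = ((√3 : ℝ) : ℂ) * PX r (lev r m) S F := by
  have h3alg : IsAlgebraic ℚ (((√3 : ℝ) : ℂ)) := by
    refine IsAlgebraic.of_pow (n := 2) (by norm_num) ?_
    have : (((√3 : ℝ) : ℂ)) ^ 2 = 3 := by
      rw [← Complex.ofReal_pow, Real.sq_sqrt (by norm_num)]
      norm_num
    rw [this]
    exact_mod_cast isAlgebraic_natCast (R := ℚ) (A := ℂ) 3
  refine fixed_rat _ (h3alg.mul D.alg.1) ?_
  intro σ
  obtain ⟨u, hu, hx⟩ := gal_XX (lev r m) D.lev_ne σ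
  obtain ⟨h1, h2⟩ := D.PXY_gal σ u hu hx
  have h5 := v3c_sq D u hu
  have h6 := sqrt_three_gal (lev r m) D.lev_ne ⟨_, rfl⟩ σ u hu
    (ActX_dvd _ 4 D.lev_ne ⟨_, rfl⟩ σ u hx)
  have h7 : σ (PX r (lev r m) S F) * ch4 u = PX r (lev r m) S F := by
    rcases hx with ⟨hw, -⟩ | ⟨hw, -⟩
    · exact (h1 hw).1
    · rw [(h2 hw).1, h]
  rw [map_mul]
  calc σ (((√3 : ℝ) : ℂ)) * σ (PX r (lev r m) S F) =
      (σ (((√3 : ℝ) : ℂ)) * ch4 u) * (σ (PX r (lev r m) S F) * ch4 u) := by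
        linear_combination (-(σ (((√3 : ℝ) : ℂ)) * σ (PX r (lev r m) S F))) * h5
    _ = _ := by rw [h6, h7]

end

end R3S
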