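import Pool.Agent.MP_9ab903_nt.RS.V4
import Pool.Agent.MP_9ab903_nt.RS.V2c
import Pool.Agent.MP_9ab903_nt.RS.V3c
import Pool.Agent.MP_ae0bd0_nt.RF.E3

set_option autoImplicit false

open scoped ComplexConjugate Classical
open Filter Topology NumberField CM27 CMT CF BS3 SB3 RF

namespace R3S

/-! ## [RS-V4b] the value for `ω ∈ F` (file V4b.lean; uses the stubs of V4, V2c, V3c) -/

section
variable {r m : ℕ} {S : Finset Eis} {F : IntermediateField ℚ ℂ} {n : ℕ} [NumberField F]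

theorem v4b_sqrt : (((√3 : ℝ) : ℂ)) ^ 2 = 3 := by
  rw [← Complex.ofReal_pow, Real.sq_sqrt (by norm_num)]
  norm_num

/-- the arithmetic of the value -/
theorem v4b_arith (e : ℤ) (he : e ^ 2 = 1) (M k : ℕ) (hM : M ≠ 0) (O P Q : ℂ) (q0 : ℚ)
    (hq : (q0 : ℂ) = P * Q) :
    (e * (((√3 : ℝ) : ℂ) * O / (6 * M))) ^ k * P * ((e * (((√3 : ℝ) : ℂ) * O / (6 * M))) ^ k * Q) =
      ((q0 / (12 * (M : ℚ) ^ 2) ^ k : ℚ) : ℂ) * O ^ (2 * k) := by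
  have hMC : (M : ℂ) ≠ 0 := by exact_mod_cast hM
  have heC : (e : ℂ) ^ 2 = 1 := by exact_mod_cast he
  have h1 : (e * (((√3 : ℝ) : ℂ) * O / (6 * M))) ^ 2 = O ^ 2 / (12 * (M : ℂ) ^ 2) := by
    rw [mul_pow, heC, div_pow, mul_pow, v4b_sqrt]
    field_simp
    ring
  have h2 : (e * (((√3 : ℝ) : ℂ) * O / (6 * M))) ^ k * P *
      ((e * (((√3 : ℝ) : ℂ) * O / (6 * M))) ^ k * Q) =
      ((e * (((√3 : ℝ) : ℂ) * O / (6 * M))) ^ 2) ^ k * (P * Q) := by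
    rw [← pow_mul, mul_comm 2 k, pow_mul]
    ring
  rw [h2, h1, ← hq, div_pow, ← pow_mul]
  push_cast
  have h12 : (12 * (M : ℂ) ^ 2) ^ k ≠ 0 :=
    pow_ne_zero _ (mul_ne_zero (by norm_num) (pow_ne_zero _ hMC))
  field_simp

theorem v4b_pad (A : ValuationSubring ℂ) (hA : A.valuation 3 < 1) (M k : ℕ) (hM : ¬ 3 ∣ M)
    (q0 : ℚ) (P Q : ℂ) (hq : (q0 : ℂ) = P * Q)
    (hP : A.valuation P ^ 2 = A.valuation 3 ^ k) (hQ : A.valuation Q ^ 2 = A.valuation 3 ^ k) :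
    q0 / (12 * (M : ℚ) ^ 2) ^ k ≠ 0 ∧ padicValRat 3 (q0 / (12 * (M : ℚ) ^ 2) ^ k) = 0 := by
  have hv3 : A.valuation (3 : ℂ) ≠ 0 := by
    rw [_root_.map_ne_zero]
    norm_num
  have hM0 : M ≠ 0 := by rintro rfl; exact hM (dvd_zero 3)
  have hMv : A.valuation (M : ℂ) = 1 := val_nat A hA M hM
  have h4v : A.valuation (4 : ℂ) = 1 := by
    have := val_nat A hA 4 (by norm_num)
    exact_mod_cast this
  have h12v : A.valuation (12 : ℂ) = A.valuation 3 := by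
    have : (12 : ℂ) = 4 * 3 := by norm_num
    rw [this, map_mul, h4v, one_mul]
  have hqv : A.valuation (q0 : ℂ) = A.valuation 3 ^ k := by
    have h1 : A.valuation (q0 : ℂ) ^ 2 = (A.valuation 3 ^ k) ^ 2 := by
      rw [hq, map_mul, mul_pow, hP, hQ, sq]
    exact (pow_left_inj₀ zero_le zero_le two_ne_zero).1 h1
  have hval : A.valuation ((q0 / (12 * (M : ℚ) ^ 2) ^ k : ℚ) : ℂ) = 1 := by
    push_cast
    rw [map_div₀, map_pow, map_mul, map_pow, hMv, h12v, one_pow, mul_one, hqv]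
    exact div_self (pow_ne_zero _ hv3)
  refine ⟨?_, rat_val3 _ A hA hval⟩
  intro h0
  rw [h0, Rat.cast_zero, map_zero] at hval
  exact zero_ne_one hval

/-- the data of a field -/
theorem v4b_dat (hr : Adm r) (hm : NLevel m) (hrm : ∀ p, p.Prime → p ∣ r → ¬ p ∣ m)
    (hw : w ∈ F) (hF : F ≤ rayField (E ℂ) m) (h : Module.finrank ℚ F = 2 * 3 ^ (n + 1)) :
    ∃ S : Finset Eis, Dat r m S F n := by
  obtain ⟨S, hS, hSd, hSm⟩ := exists_S_level m hm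
  refine ⟨S, hr, hm, hrm, hS, fun b hb => ((hSd b).1 hb).2.2, hw,
    hF.trans (rayField_le m hm S hS hSm), fun X hX => unit_triv m hm S hS hSm F hF X hX, h⟩

/-- As `RF.analytic_F` (E3.lean): `L = ∏ Φ₁ Φ₂`, so
`L 1 = e^(2·3^(n+1)) (3 Om² / (36 M²))^(3^(n+1)) PX PY`, `M = lev r m` prime to `3`; `Dat.rat`, `Dat.val_PX`,
`Dat.val_PY` (the valuation of `PX PY` is that of `3^(3^(n+1))`), `rat_val3`, `exists_val3` as in
`SB3.value_rat` (A3/VAL.lean). -/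
theorem value_F (hr : Adm r) (hm : NLevel m) (hrm : ∀ p, p.Prime → p ∣ r → ¬ p ∣ m)
    (hw : w ∈ F) (hF : F ≤ rayField (E ℂ) m) (h : Module.finrank ℚ F = 2 * 3 ^ (n + 1)) :
    ∃ L : ℂ → ℂ, Differentiable ℂ L ∧
      (∀ s : ℂ, 3 / 2 < s.re →
        LSeriesSummable (fun k => ((W (-(r : ℤ) ^ 2) F).LFunction k : ℂ)) s ∧
        L s = (W (-(r : ℤ) ^ 2) F).LSeries s) ∧ L 1 ≠ 0 ∧
      ∃ q : ℚ, q ≠ 0 ∧ padicValRat 3 q = 0 ∧ L 1 = q * (Om : ℂ) ^ Module.finrank ℚ F := by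
  obtain ⟨S, D⟩ := v4b_dat hr hm hrm hw hF h
  obtain ⟨e, he, hval⟩ := D.values
  choose! Φ₁ Φ₂ d1 d2 s1 s2 v1 v2 using hval
  obtain ⟨q0, hq0⟩ := D.rat
  obtain ⟨hx3, hy3⟩ := D.prod_three
  obtain ⟨A, hA⟩ := exists_val3
  obtain ⟨hqne, hqpad⟩ := v4b_pad A hA (lev r m) (3 ^ (n + 1)) D.lev_three q0 _ _ hq0
    (D.val_PX A hA) (D.val_PY A hA)
  have hLC : (fun k => ((W (-(r : ℤ) ^ 2) F).LFunction k : ℂ)) = fun k => (∏ X ∈ chF S F,
      (Dg (hx r S X) * Dg (hy r S X))) k := by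
    funext k
    rw [← LW_apply, LW_prod hr S D.hS F hw D.hF (bad_all hr F (e3_mild hr m hm hrm F hw hF))]
  have hL1 : (∏ X ∈ chF S F, Φ₁ X 1) * (∏ X ∈ chF S F, Φ₂ X 1) =
      ((q0 / (12 * ((lev r m : ℕ) : ℚ) ^ 2) ^ 3 ^ (n + 1) : ℚ) : ℂ) *
        (Om : ℂ) ^ (2 * 3 ^ (n + 1)) := by
    rw [← v4b_arith e he (lev r m) (3 ^ (n + 1)) D.lev_ne Om _ _ q0 hq0,
      Finset.prod_congr rfl v1, Finset.prod_congr rfl v2]
    simp only [Finset.prod_mul_distrib, Finset.prod_const]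
    rw [hx3, hy3, D.card, PX, PY]
    ring
  have hne : (∏ X ∈ chF S F, Φ₁ X 1) * (∏ X ∈ chF S F, Φ₂ X 1) ≠ 0 := by
    rw [hL1]
    refine mul_ne_zero ?_ (pow_ne_zero _ ?_)
    · exact_mod_cast hqne
    · exact_mod_cast Om_pos.ne'
  refine ⟨fun s => (∏ X ∈ chF S F, Φ₁ X s) * ∏ X ∈ chF S F, Φ₂ X s,
    (Differentiable.fun_finsetProd d1).mul (Differentiable.fun_finsetProd d2), ?_, hne,
    _, hqne, hqpad, ?_⟩
  · intro s hs
    have hsum : ∀ X ∈ chF S F, LSeriesSummable (fun k => (Dg (hx r S X) * Dg (hy r S X)) k) s :=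
      fun X hX => ArithmeticFunction.LSeriesSummable_mul (s1 X hX s hs).1 (s2 X hX s hs).1
    obtain ⟨h1, h2⟩ := LSeries_prod (chF S F) (fun X => Dg (hx r S X) * Dg (hy r S X)) s hsum
    rw [hLC]
    refine ⟨h1, ?_⟩
    have h3 : (W (-(r : ℤ) ^ 2) F).LSeries s =
      LSeries (fun k => ((W (-(r : ℤ) ^ 2) F).LFunction k : ℂ)) s := rfl
    change (∏ X ∈ chF S F, Φ₁ X s) * ∏ X ∈ chF S F, Φ₂ X s = _
    rw [h3, hLC, h2, ← Finset.prod_mul_distrib]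
    refine Finset.prod_congr rfl fun X hX => ?_
    rw [ArithmeticFunction.LSeries_mul' (s1 X hX s hs).1 (s2 X hX s hs).1, ← (s1 X hX s hs).2,
      ← (s2 X hX s hs).2]
  · rw [h]
    exact hL1

end

end R3S
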