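import Pool.Agent.MP_9ab903_nt.RS.V4
import Pool.Agent.MP_9ab903_nt.RS.V2c
import Pool.Agent.MP_9ab903_nt.RS.V3c
import Pool.Agent.MP_ae0bd0_nt.RF.E3

set_option autoImplicit false

open scoped ComplexConjugate Classical
open Filter Topology NumberField CM27 CMT CF BS3 SB3 RF

namespace R3S

/-! ## [RS-V4c] the value for `[F : ℚ] = 3^(n+1)` (file V4c.lean; uses the stubs of V4, V2c, V3c) -/

section
variable {r m : ℕ} {S : Finset Eis} {F : IntermediateField ℚ ℂ} {n : ℕ} [NumberField F]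

theorem v4c_sqrt : (((√3 : ℝ) : ℂ)) ^ 2 = 3 := by
  rw [← Complex.ofReal_pow, Real.sq_sqrt (by norm_num)]
  norm_num

theorem v4c_sqrt_ne : (((√3 : ℝ) : ℂ)) ≠ 0 := by
  intro h0
  have h := v4c_sqrt
  rw [h0] at h
  norm_num at h

/-- the identity theorem -/
theorem v4c_ident (f g : ℂ → ℂ) (hf : Differentiable ℂ f) (hg : Differentiable ℂ g)
    (h : ∀ s : ℂ, 3 / 2 < s.re → f s = g s) : f = g := by
  refine AnalyticOnNhd.eq_of_eventuallyEq (z₀ := 2) (fun z _ => hf.analyticAt z)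
    (fun z _ => hg.analyticAt z) ?_
  have ho : IsOpen {s : ℂ | (3 / 2 : ℝ) < s.re} := isOpen_lt continuous_const Complex.continuous_re
  have h2 : (2 : ℂ) ∈ {s : ℂ | (3 / 2 : ℝ) < s.re} := by
    change (3 / 2 : ℝ) < (2 : ℂ).re
    norm_num
  filter_upwards [ho.mem_nhds h2] with s hs
  exact h s hs

/-- the arithmetic of the value -/
theorem v4c_arith (e : ℤ) (M k s : ℕ) (hk : k = 2 * s + 1) (hM : M ≠ 0) (O P : ℂ) (q0 : ℚ)
    (hq : (q0 : ℂ) = ((√3 : ℝ) : ℂ) * P) :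
    (e * (((√3 : ℝ) : ℂ) * O / (6 * M))) ^ k * P =
      ((e ^ k * 3 ^ s * q0 / (6 * (M : ℚ)) ^ k : ℚ) : ℂ) * O ^ k := by
  have hMC : (M : ℂ) ≠ 0 := by exact_mod_cast hM
  have h7 : (((√3 : ℝ) : ℂ)) ^ k = 3 ^ s * ((√3 : ℝ) : ℂ) := by
    rw [hk, pow_succ, pow_mul, v4c_sqrt]
  rw [mul_pow, div_pow, mul_pow ((√3 : ℝ) : ℂ), h7]
  push_cast
  rw [hq]
  have h6 : (6 * (M : ℂ)) ^ k ≠ 0 := pow_ne_zero _ (mul_ne_zero (by norm_num) hMC)
  field_simp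

theorem v4c_pad (A : ValuationSubring ℂ) (hA : A.valuation 3 < 1) (e : ℤ) (he : e ^ 2 = 1)
    (M k s : ℕ) (hk : k = 2 * s + 1) (hM : ¬ 3 ∣ M)
    (q0 : ℚ) (P : ℂ) (hq : (q0 : ℂ) = ((√3 : ℝ) : ℂ) * P)
    (hP : A.valuation P ^ 2 = A.valuation 3 ^ k) :
    e ^ k * 3 ^ s * q0 / (6 * (M : ℚ)) ^ k ≠ 0 ∧
      padicValRat 3 (e ^ k * 3 ^ s * q0 / (6 * (M : ℚ)) ^ k) = 0 := by
  have hv3 : A.valuation (3 : ℂ) ≠ 0 := by
    rw [_root_.map_ne_zero]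
    norm_num
  have hMv : A.valuation (M : ℂ) = 1 := val_nat A hA M hM
  have h2v : A.valuation (2 : ℂ) = 1 := by
    have := val_nat A hA 2 (by norm_num)
    exact_mod_cast this
  have h6v : A.valuation (6 : ℂ) = A.valuation 3 := by
    have : (6 : ℂ) = 2 * 3 := by norm_num
    rw [this, map_mul, h2v, one_mul]
  have hev : A.valuation (e : ℂ) = 1 := by
    apply val_int3 A hA
    intro hd
    have h1 : (3 : ℤ) ∣ e ^ 2 := Dvd.dvd.pow hd two_ne_zero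
    rw [he] at h1
    norm_num at h1
  have hqv : A.valuation (q0 : ℂ) ^ 2 = A.valuation 3 ^ (2 * s + 2) := by
    rw [hq, map_mul, mul_pow, hP, ← map_pow, v4c_sqrt, hk, ← pow_succ']
  have h8 : A.valuation ((e ^ k * 3 ^ s * q0 / (6 * (M : ℚ)) ^ k : ℚ) : ℂ) ^ 2 = 1 := by
    push_cast
    rw [map_div₀, map_mul, map_mul, map_pow, map_pow, map_pow, map_mul, hev, h6v, hMv, mul_one,
      one_pow, one_mul, div_pow, mul_pow, hqv, hk, ← pow_mul, ← pow_mul, ← pow_add]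
    rw [show s * 2 + (2 * s + 2) = (2 * s + 1) * 2 by ring]
    exact div_self (pow_ne_zero _ hv3)
  have h9 : A.valuation ((e ^ k * 3 ^ s * q0 / (6 * (M : ℚ)) ^ k : ℚ) : ℂ) = 1 :=
    (pow_eq_one_iff_of_nonneg zero_le two_ne_zero).1 h8
  refine ⟨?_, rat_val3 _ A hA h9⟩
  intro h0
  rw [h0, Rat.cast_zero, map_zero] at h9
  exact zero_ne_one h9

/-- the data of a field -/
theorem v4c_dat (hr : Adm r) (hm : NLevel m) (hrm : ∀ p, p.Prime → p ∣ r → ¬ p ∣ m)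
    (hw : w ∈ F) (hF : F ≤ rayField (E ℂ) m) (h : Module.finrank ℚ F = 2 * 3 ^ (n + 1)) :
    ∃ S : Finset Eis, Dat r m S F n := by
  obtain ⟨S, hS, hSd, hSm⟩ := exists_S_level m hm
  refine ⟨S, hr, hm, hrm, hS, fun b hb => ((hSd b).1 hb).2.2, hw,
    hF.trans (rayField_le m hm S hS hSm), fun X hX => unit_triv m hm S hS hSm F hF X hX, h⟩

/-- the two products of values agree -/
theorem v4c_PX_PY (D : Dat r m S F n) (hpr : ∏ X ∈ chF S F, Dg (hx r S X) =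
    ∏ X ∈ chF S F, Dg (hy r S X)) : ∃ e : ℤ, e ^ 2 = 1 ∧
    PX r (lev r m) S F = PY r (lev r m) S F ∧ ∃ L : ℂ → ℂ, Differentiable ℂ L ∧
      (∀ s : ℂ, 3 / 2 < s.re →
        LSeriesSummable (fun k => (∏ X ∈ chF S F, Dg (hx r S X)) k) s ∧
        L s = LSeries (fun k => (∏ X ∈ chF S F, Dg (hx r S X)) k) s) ∧
      L 1 = (e * (((√3 : ℝ) : ℂ) * Om / (6 * lev r m))) ^ 3 ^ (n + 1) *
        PX r (lev r m) S F := by
  obtain ⟨e, he, hval⟩ := D.values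
  choose! Φ₁ Φ₂ d1 d2 s1 s2 v1 v2 using hval
  obtain ⟨hx3, hy3⟩ := D.prod_three
  have hs1 : ∀ s : ℂ, 3 / 2 < s.re →
        LSeriesSummable (fun k => (∏ X ∈ chF S F, Dg (hx r S X)) k) s ∧
        ∏ X ∈ chF S F, Φ₁ X s = LSeries (fun k => (∏ X ∈ chF S F, Dg (hx r S X)) k) s := by
    intro s hs
    obtain ⟨h1, h2⟩ := LSeries_prod (chF S F) (fun X => Dg (hx r S X)) s
      (fun X hX => (s1 X hX s hs).1)
    exact ⟨h1, by rw [h2]; exact Finset.prod_congr rfl fun X hX => (s1 X hX s hs).2⟩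
  have hs2 : ∀ s : ℂ, 3 / 2 < s.re →
        ∏ X ∈ chF S F, Φ₂ X s = LSeries (fun k => (∏ X ∈ chF S F, Dg (hy r S X)) k) s := by
    intro s hs
    obtain ⟨h1, h2⟩ := LSeries_prod (chF S F) (fun X => Dg (hy r S X)) s
      (fun X hX => (s2 X hX s hs).1)
    rw [h2]
    exact Finset.prod_congr rfl fun X hX => (s2 X hX s hs).2
  have hdx : Differentiable ℂ fun s => ∏ X ∈ chF S F, Φ₁ X s := Differentiable.fun_finsetProd d1
  have hdy : Differentiable ℂ fun s => ∏ X ∈ chF S F, Φ₂ X s := Differentiable.fun_finsetProd d2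
  have hfg := v4c_ident _ _ hdx hdy (fun s hs => by
    change ∏ X ∈ chF S F, Φ₁ X s = ∏ X ∈ chF S F, Φ₂ X s
    rw [(hs1 s hs).2, hs2 s hs, hpr])
  have hv1 : ∏ X ∈ chF S F, Φ₁ X 1 = (e * (((√3 : ℝ) : ℂ) * Om / (6 * lev r m))) ^ 3 ^ (n + 1) *
        PX r (lev r m) S F := by
    rw [Finset.prod_congr rfl v1]
    simp only [Finset.prod_mul_distrib, Finset.prod_const]
    rw [hx3, D.card, PX]
    ring
  have hv2 : ∏ X ∈ chF S F, Φ₂ X 1 = (e * (((√3 : ℝ) : ℂ) * Om / (6 * lev r m))) ^ 3 ^ (n + 1) *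
        PY r (lev r m) S F := by
    rw [Finset.prod_congr rfl v2]
    simp only [Finset.prod_mul_distrib, Finset.prod_const]
    rw [hy3, D.card, PY]
    ring
  have h1 : ∏ X ∈ chF S F, Φ₁ X 1 = ∏ X ∈ chF S F, Φ₂ X 1 := congrFun hfg 1
  rw [hv1, hv2] at h1
  have he0 : (e : ℂ) ≠ 0 := by
    intro h0
    have : (e : ℤ) = 0 := by exact_mod_cast h0
    rw [this] at he
    norm_num at he
  have hOmC : (Om : ℂ) ≠ 0 := by exact_mod_cast Om_pos.ne'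
  have hMC : ((lev r m : ℕ) : ℂ) ≠ 0 := by exact_mod_cast D.lev_ne
  have hc : (e * (((√3 : ℝ) : ℂ) * Om / (6 * lev r m))) ^ 3 ^ (n + 1) ≠ 0 :=
    pow_ne_zero _ (mul_ne_zero he0 (div_ne_zero (mul_ne_zero v4c_sqrt_ne hOmC)
      (mul_ne_zero (by norm_num) hMC)))
  exact ⟨e, he, mul_left_cancel₀ hc h1, _, hdx, hs1, hv1⟩

/-- As `RF.analytic_F0` (E3.lean): with `F = F₀(ω)` (`sup_K`), `L = ∏_{X ∈ chF S F} Φ₁`. By `prod_hx_hy` the
Dirichlet series `∏ Dg (hx r S X)` and `∏ Dg (hy r S X)` agree, so the entire functions `∏ Φ₁` and `∏ Φ₂` agree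
(identity theorem), hence `PX = PY` by `Dat.values` and `prod_three` (same `e` and same factors), and `√3 PX`
is rational (`Dat.rat_sqrt`). `L 1 = ± (√3 Om / (6 M))^(3^(n+1)) PX`; with `3^(n+1) = 2 s + 1` this is
`± 3^s / (6 M)^(3^(n+1)) · (√3 PX) · Om^(3^(n+1))`, and `2 v(√3 PX) = v(3) (1 + 3^(n+1))`; compare
`SB3.value_rat` (A3/VAL.lean). -/
theorem value_F0 (hr : Adm r) (hm : NLevel m) (hrm : ∀ p, p.Prime → p ∣ r → ¬ p ∣ m)
    (hF : F ≤ rayField (E ℂ) m) (h : Module.finrank ℚ F = 3 ^ (n + 1)) :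
    ∃ L : ℂ → ℂ, Differentiable ℂ L ∧
      (∀ s : ℂ, 3 / 2 < s.re →
        LSeriesSummable (fun k => ((W (-(r : ℤ) ^ 2) F).LFunction k : ℂ)) s ∧
        L s = (W (-(r : ℤ) ^ 2) F).LSeries s) ∧ L 1 ≠ 0 ∧
      ∃ q : ℚ, q ≠ 0 ∧ padicValRat 3 q = 0 ∧ L 1 = q * (Om : ℂ) ^ Module.finrank ℚ F := by
  obtain ⟨G, hnG, hle, hw, hmin, hF2, hd, h0, τ, hτ, -⟩ := sup_K F (n + 1) h
  have hwray : w ∈ rayField (E ℂ) m := by
    refine IntermediateField.subset_adjoin ℚ _ (Or.inl ?_)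
    have := w_sq
    linear_combination this
  have hG : G ≤ rayField (E ℂ) m := hmin _ hF hwray
  obtain ⟨S, D⟩ := v4c_dat hr hm hrm hw hG hF2
  letI : Algebra F G := (IntermediateField.inclusion hle).toRingHom.toAlgebra
  have hmild := e3_mild hr m hm hrm G hw hG
  have hbad := bad_all hr G hmild
  have hbad₀ := bad_all hr F (fun p hp hd => (hmild p hp hd).sub p hp)
  have hom : (⟨w, hw⟩ : G) ^ 2 + ⟨w, hw⟩ + 1 = 0 := by
    apply Subtype.ext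
    change w ^ 2 + w + 1 = 0
    have := w_sq
    linear_combination this
  have hpr := prod_hx_hy hr S D.hS G hw D.hF τ hτ
  have e1 := LW_sq hr hd (⟨w, hw⟩ : G) hom h0 hbad₀ hbad
  have e2 := LW_prod hr S D.hS G hw D.hF hbad
  rw [Finset.prod_mul_distrib, ← hpr, e1] at e2
  have hLW : LW (-(r : ℤ) ^ 2) F = ∏ X ∈ chF S G, Dg (hx r S X) := by
    refine sq_inj _ _ (isMultiplicative_LW _ _) ?_ e2
    exact ArithmeticFunction.isMultiplicative_finsetProd _ _ fun X _ => isMultiplicative_Dg _ (n4_hx_one hr S X)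
      (n4_hx_mul hr S X)
  have hLC : (fun k => ((W (-(r : ℤ) ^ 2) F).LFunction k : ℂ)) = fun k => (∏ X ∈ chF S G,
        Dg (hx r S X)) k := by
    funext k
    rw [← LW_apply, hLW]
  obtain ⟨e, he, hPP, L, hL1, hL2, hL3⟩ := v4c_PX_PY D hpr
  obtain ⟨q0, hq0⟩ := D.rat_sqrt hPP
  obtain ⟨A, hA⟩ := exists_val3
  obtain ⟨s, hs⟩ : ∃ s, 3 ^ (n + 1) = 2 * s + 1 := by
    have : Odd (3 ^ (n + 1)) := Odd.pow (by decide)
    exact this
  obtain ⟨hqne, hqpad⟩ := v4c_pad A hA e he (lev r m) (3 ^ (n + 1)) s hs D.lev_three q0 _ hq0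
    (D.val_PX A hA)
  have hval : L 1 = ((e ^ 3 ^ (n + 1) * 3 ^ s * q0 / (6 * ((lev r m : ℕ) : ℚ)) ^ 3 ^ (n + 1) : ℚ) : ℂ) *
      (Om : ℂ) ^ 3 ^ (n + 1) := by
    rw [hL3, v4c_arith e (lev r m) (3 ^ (n + 1)) s hs D.lev_ne Om _ q0 hq0]
  refine ⟨L, hL1, ?_, ?_, _, hqne, hqpad, ?_⟩
  · intro s hs
    have h3 : (W (-(r : ℤ) ^ 2) F).LSeries s =
      LSeries (fun k => ((W (-(r : ℤ) ^ 2) F).LFunction k : ℂ)) s := rfl
    rw [h3, hLC]
    exact hL2 s hs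
  · rw [hval]
    refine mul_ne_zero ?_ (pow_ne_zero _ ?_)
    · exact_mod_cast hqne
    · exact_mod_cast Om_pos.ne'
  · rw [h]
    exact hval

end

end R3S
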