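import Pool.Agent.MP_9ab903_nt.MAIN3
import Pool.Agent.MP_9ab903_nt.RS.V4b
import Pool.Agent.MP_9ab903_nt.RS.V4c
import Pool.Agent.MP_9ab903_nt.RS.TA3b
import Pool.Agent.MP_9ab903_nt.RS.TA3c
import Pool.Agent.MP_9ab903_nt.RS.TA4
import Pool.Agent.MP_9ab903_nt.RS.TA5
import Pool.Agent.MP_9ab903_nt.RS.D4
import Pool.Agent.MP_9ab903_nt.RS.SH10

set_option autoImplicit false

open NumberField IsDedekindDomain
open CM27 CMT CF BS3 SB3 RF
open scoped Classical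

namespace R3S

/-! ## [RS-MAIN] the 3-part of strong BSD over the fields inside of the ray class fields: assembly -/

theorem not_three_dvd_two_pow (j : ℕ) : ¬ 3 ∣ 2 ^ j := by
  intro h3
  have := Nat.Prime.dvd_of_dvd_pow Nat.prime_three h3
  norm_num at this

theorem val_nat_zero (N : ℕ) (h : ¬ 3 ∣ N) : padicValRat 3 (N : ℚ) = 0 := by
  rw [padicValRat.of_nat, padicValNat.eq_zero_of_not_dvd h]
  rfl

/-- The common assembly. -/
theorem main_gen {r : ℕ} (hr : Adm r) (F : Type) [Field F] [NumberField F] (d : ℕ)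
    (hd : Module.finrank ℚ F = 3 * d)
    (hpt : ∀ x y : F, y ^ 2 ≠ x ^ 3 - (r : F) ^ 2)
    (hL : ∃ L : ℂ → ℂ, Differentiable ℂ L ∧
      (∀ s : ℂ, 3 / 2 < s.re →
        LSeriesSummable (fun k => ((W (-(r : ℤ) ^ 2) F).LFunction k : ℂ)) s ∧
        L s = (W (-(r : ℤ) ^ 2) F).LSeries s) ∧ L 1 ≠ 0 ∧
      ∃ q : ℚ, q ≠ 0 ∧ padicValRat 3 q = 0 ∧ L 1 = q * (Om : ℂ) ^ Module.finrank ℚ F)
    (H : LocHyp r F)
    (hD : ∃ a : ℕ, ¬ 3 ∣ a ∧ (discr F).natAbs = 3 ^ InfinitePlace.nrComplexPlaces F * a ^ 2)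
    (hS : ∀ (x : SBSD.Sha (W (-(r : ℤ) ^ 2) F)) (k : ℕ), 3 ^ k • x = 0 → x = 0) :
    SBSD3.ThreePartRankZero (W (-(r : ℤ) ^ 2) F) := by
  have hsub : Subsingleton (W (-(r : ℤ) ^ 2) F).toAffine.Point := by
    have key : ∀ P : (W (-(r : ℤ) ^ 2) F).toAffine.Point, P = 0 := by
      intro P
      rcases P with _ | ⟨x, y, hxy⟩
      · rfl
      · exfalso
        have h1 := (W_equation x y).1 hxy.1
        apply hpt x y
        push_cast at h1
        linear_combination h1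
    exact ⟨fun P Q => by rw [key P, key Q]⟩
  obtain ⟨hρ0, hρ⟩ := realPeriod_W r hr.ne_zero
  obtain ⟨j, hj⟩ := finprod_tam hr F H
  obtain ⟨a, ha, hDa⟩ := hD
  obtain ⟨L, hL1, hL2, hL3, q, hq0, hq1, hq2⟩ := hL
  have hr0 : (r : ℚ) ≠ 0 := by
    have := hr.ne_zero
    exact_mod_cast this
  have ha0 : (a : ℚ) ≠ 0 := by
    have : a ≠ 0 := by
      rintro rfl
      exact ha (dvd_zero 3)
    exact_mod_cast this
  refine ⟨elliptic_W hr F, inferInstance, L, ⟨hL1, hL2⟩, ?_, hL3, hS,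
    q * (2 * r) ^ d * a / 2 ^ j, ?_, ?_, ?_⟩
  · exact order_eq3 _ ((hL1.analyticAt 1).analyticOrderAt_eq_zero.2 hL3)
  · positivity
  · have h1 : padicValRat 3 (((2 * r : ℕ) : ℚ)) = 0 := val_nat_zero _ hr.not_three
    have h2 : padicValRat 3 ((a : ℚ)) = 0 := val_nat_zero _ ha
    have h3 : padicValRat 3 (((2 ^ j : ℕ) : ℚ)) = 0 := val_nat_zero _ (not_three_dvd_two_pow j)
    push_cast at h1 h3
    haveI : Fact (Nat.Prime 3) := ⟨Nat.prime_three⟩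
    have h2r : (2 * (r : ℚ)) ≠ 0 := mul_ne_zero two_ne_zero hr0
    rw [padicValRat.div (mul_ne_zero (mul_ne_zero hq0 (pow_ne_zero _ h2r)) ha0)
      (pow_ne_zero _ two_ne_zero), padicValRat.mul (mul_ne_zero hq0 (pow_ne_zero _ h2r)) ha0,
      padicValRat.mul hq0 (pow_ne_zero _ h2r), padicValRat.pow, hq1, h1, h2, h3]
    simp
  · have hneron : ∏ᶠ v : HeightOneSpectrum (𝓞 F), SBSD.neron (W (-(r : ℤ) ^ 2) F) v = 1 := by
      simp only [neron_one hr F H, finprod_one]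
    have h3 : (0 : ℝ) < √3 := by positivity
    have hs : √|(discr F : ℝ)| = √3 ^ InfinitePlace.nrComplexPlaces F * a := by
      have h1 : |(discr F : ℝ)| = ((discr F).natAbs : ℝ) := by
        rw [Nat.cast_natAbs]
        push_cast
        rfl
      have h4 : ((discr F).natAbs : ℝ) = (√3 ^ InfinitePlace.nrComplexPlaces F * a) ^ 2 := by
        rw [hDa]
        push_cast
        rw [mul_pow, ← pow_mul, mul_comm _ 2, pow_mul, Real.sq_sqrt (by norm_num)]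
      rw [h1, h4, Real.sqrt_sq (by positivity)]
    set ρ : ℝ := SBSD.realPeriod (W (-(r : ℤ) ^ 2) ℝ) with hρdef
    have hρC : (ρ : ℂ) ≠ 0 := by exact_mod_cast hρ0.ne'
    have h3C : (((√3 : ℝ) : ℂ)) ≠ 0 := by exact_mod_cast h3.ne'
    have hOr : (Om : ℂ) ^ Module.finrank ℚ F = (ρ : ℂ) ^ Module.finrank ℚ F * (2 * r) ^ d := by
      have h1 : (Om : ℂ) ^ 3 = (ρ : ℂ) ^ 3 * (2 * r) := by exact_mod_cast hρ.symm
      rw [hd, pow_mul, h1, mul_pow, ← pow_mul]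
    rw [SBSD2.bsdQuotient, card_tors3, hj, hs, SBSD.period, hneron, arch_W r hr.ne_zero F,
      ← hρdef, hq2, hOr]
    push_cast
    have hρp : (ρ : ℂ) ^ Module.finrank ℚ F ≠ 0 := pow_ne_zero _ hρC
    have h3p : (((√3 : ℝ) : ℂ)) ^ InfinitePlace.nrComplexPlaces F ≠ 0 := pow_ne_zero _ h3C
    field_simp

/-- The hypotheses `Base` for the subfields of the ray class fields. -/
theorem base_ray (m : ℕ) (hm : NLevel m) (F : IntermediateField ℚ ℂ) [NumberField F] (hw : w ∈ F)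
    (hF : F ≤ rayField (E ℂ) m) (n : ℕ) (h : Module.finrank ℚ F = 2 * 3 ^ n) :
    letI := algK F hw; Base m n KK F := by
  letI := algK F hw
  obtain ⟨S, hS, hSd, hSm⟩ := exists_S_level m hm
  obtain ⟨hG, hd⟩ := galois_F S hS F hw (hF.trans (rayField_le m hm S hS hSm)) (3 ^ n) h
  exact ⟨hG, hd, (nlevel_iff m).1 hm, unr_ray m hm F hw hF⟩

theorem main_F {r : ℕ} (hr : Adm r) (m : ℕ) (hm : NLevel m)
    (hrm : ∀ p, p.Prime → p ∣ r → ¬ p ∣ m) (F : IntermediateField ℚ ℂ) [NumberField F]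
    (hw : w ∈ F) (hF : F ≤ rayField (E ℂ) m) (n : ℕ)
    (h : Module.finrank ℚ F = 2 * 3 ^ (n + 1)) :
    SBSD3.ThreePartRankZero (W (-(r : ℤ) ^ 2) F) := by
  letI := algK F hw
  have B : Base m (n + 1) KK F := base_ray m hm F hw hF (n + 1) h
  exact main_gen hr F (2 * 3 ^ n) (by rw [h]; ring) (points_F hr m hm hrm F hw hF (n + 1) h)
    (value_F hr hm hrm hw hF h) (B.loc hr hrm) B.discr_F (B.sha hr)

theorem main_F₀ {r : ℕ} (hr : Adm r) (m : ℕ) (hm : NLevel m)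
    (hrm : ∀ p, p.Prime → p ∣ r → ¬ p ∣ m) (F₀ : IntermediateField ℚ ℂ) [NumberField F₀]
    (hF₀ : F₀ ≤ rayField (E ℂ) m) (n : ℕ) (h : Module.finrank ℚ F₀ = 3 ^ (n + 1)) :
    SBSD3.ThreePartRankZero (W (-(r : ℤ) ^ 2) F₀) := by
  obtain ⟨F, _, hle, hw, hmin, hF2, hd, h0, τ, hτ, hτf⟩ := sup_K F₀ (n + 1) h
  have hwray : w ∈ rayField (E ℂ) m := by
    refine IntermediateField.subset_adjoin ℚ _ (Or.inl ?_)
    have := w_sq
    linear_combination this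
  have hF : F ≤ rayField (E ℂ) m := hmin _ hF₀ hwray
  letI := algK F hw
  have B : Base m (n + 1) KK F := base_ray m hm F hw hF (n + 1) hF2
  letI : Algebra F₀ F := (IntermediateField.inclusion hle).toRingHom.toAlgebra
  have hom : (⟨w, hw⟩ : F) ^ 2 + ⟨w, hw⟩ + 1 = 0 := by
    apply Subtype.ext
    change w ^ 2 + w + 1 = 0
    have := w_sq
    linear_combination this
  have hτ' : τ (⟨w, hw⟩ : F) = -1 - ⟨w, hw⟩ := Subtype.ext hτ
  have hfix : ∀ y : F₀, τ (algebraMap F₀ F y) = algebraMap F₀ F y := fun y =>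
    Subtype.ext (hτf y)
  obtain ⟨t, -, T⟩ := B.tow (F₀ := F₀) (⟨w, hw⟩ : F) hom τ hτ' hfix hd
  exact main_gen hr F₀ (3 ^ n) (by rw [h]; ring)
    (analytic_F0 hr m hm hrm F₀ hF₀ (n + 1) h).2
    (value_F0 hr hm hrm hF₀ h) ((B.loc hr hrm).sub T.ram)
    (B.discr_F₀ (⟨w, hw⟩ : F) hom τ hτ' hfix hd h)
    (B.sha₀ hr (⟨w, hw⟩ : F) hom τ hτ' hfix hd)

/-- **Main theorem.** -/
theorem main_ray3 {r : ℕ} (hr : Adm r) (m : ℕ) (hm : NLevel m)
    (hrm : ∀ p, p.Prime → p ∣ r → ¬ p ∣ m) (F : IntermediateField ℚ ℂ) [NumberField F]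
    (hF : F ≤ rayField (E ℂ) m) (n : ℕ)
    (h : Module.finrank ℚ F = 3 ^ (n + 1) ∨
      (w ∈ F ∧ Module.finrank ℚ F = 2 * 3 ^ (n + 1))) :
    SBSD3.ThreePartRankZero (W (-(r : ℤ) ^ 2) F) := by
  rcases h with h | ⟨hw, h⟩
  · exact main_F₀ hr m hm hrm F hF n h
  · exact main_F hr m hm hrm F hw hF n h

end R3S
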