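import Pool.Agent.MP_9ab903_nt.RS.MAIN
import Pool.Agent.MP_9ab903_nt.RES3

/-!
# The 3-part of the Birch and Swinnerton-Dyer formula for the abelian varieties `Res_{F/ℚ} E_r`
-/

set_option autoImplicit false

open NumberField IsDedekindDomain
open CM27 CMT CF BS3 SB3 RF
open scoped Classical

namespace R3S

/-- A place of valuation `exp (-1)` at `p` is unramified. -/
theorem not_mem_sq {F : Type} [Field F] [NumberField F] (v : HeightOneSpectrum (𝓞 F)) (p : ℕ)
    (h : v.valuation F (p : F) = WithZero.exp (-1 : ℤ)) : (p : 𝓞 F) ∉ v.asIdeal ^ 2 := by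
  intro hmem
  have h1 : v.intValuation (p : 𝓞 F) ≤ WithZero.exp (-((2 : ℕ) : ℤ)) :=
    (HeightOneSpectrum.intValuation_le_pow_iff_mem v (p : 𝓞 F) 2).2 hmem
  have h2 : v.valuation F (algebraMap (𝓞 F) F (p : 𝓞 F)) = v.intValuation (p : 𝓞 F) :=
    HeightOneSpectrum.valuation_of_algebraMap v _
  rw [map_natCast, h] at h2
  rw [← h2] at h1
  have h3 := WithZero.exp_le_exp.1 h1
  norm_num at h3

theorem isBadSet_of {r : ℕ} (hr : Adm r) (m : ℕ) (hm0 : m ≠ 0) (F : Type) [Field F]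
    [NumberField F] (h : ∀ p : ℕ, p.Prime → ¬ p ∣ 6 * r * m → Mild p F) :
    WR.IsBadSet (W (-(r : ℤ) ^ 2) F) (6 * r * m).primeFactors := by
  have hne : 6 * r * m ≠ 0 := mul_ne_zero (mul_ne_zero (by norm_num) hr.ne_zero) hm0
  refine ⟨fun p hp => Nat.prime_of_mem_primeFactors hp, ?_⟩
  intro p hp hpS v hv
  have hpd : ¬ p ∣ 6 * r * m := fun h => hpS (Nat.mem_primeFactors.2 ⟨hp, h, hne⟩)
  have hv' : (p : 𝓞 F) ∈ v.asIdeal := hv
  refine ⟨?_, ?_⟩
  · rcases h p hp hpd v hv' with h1 | ⟨rfl, -⟩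
    · exact not_mem_sq v p h1
    · exact absurd (Dvd.dvd.mul_right (Dvd.dvd.mul_right (by norm_num) _) _) hpd
  · rw [p5_baseChange]
    apply good_of_unit
    apply z7_cop F v p hp hv'
    intro h
    have hpi : Prime (p : ℤ) := Nat.prime_iff_prime_int.1 hp
    have h1 : (p : ℤ) ∣ 6 * r := by
      have h2 : (6 * (-(r : ℤ) ^ 2)) = -(6 * r * r) := by ring
      rw [h2, dvd_neg] at h
      rcases hpi.dvd_or_dvd h with h3 | h3
      · exact h3
      · exact h3.mul_left _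
    have h2 : p ∣ 6 * r := by exact_mod_cast h1
    exact hpd (h2.mul_right _)

/-- The primes which divide `6 r m` are a bad set. -/
theorem isBadSet_ray {r : ℕ} (hr : Adm r) (m : ℕ) (hm : NLevel m) (F : IntermediateField ℚ ℂ)
    [NumberField F] (hF : F ≤ rayField (E ℂ) m) (n : ℕ)
    (h : Module.finrank ℚ F = 3 ^ n ∨ (w ∈ F ∧ Module.finrank ℚ F = 2 * 3 ^ n)) :
    WR.IsBadSet (W (-(r : ℤ) ^ 2) F) (6 * r * m).primeFactors := by
  refine isBadSet_of hr m hm.1.ne_zero F ?_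
  intro p hp hpd
  have hpm : ¬ p ∣ m := fun h1 => hpd (h1.mul_left _)
  rcases h with h | ⟨hw, h⟩
  · obtain ⟨F', _, hle, hw, hmin, -, -, -, -⟩ := sup_K F n h
    have hwray : w ∈ rayField (E ℂ) m := by
      refine IntermediateField.subset_adjoin ℚ _ (Or.inl ?_)
      have := w_sq
      linear_combination this
    have hF' : F' ≤ rayField (E ℂ) m := hmin _ hF hwray
    have h1 : Mild p F' := by
      letI := algK F' hw
      exact mild_F (K := KK) m (unr_ray m hm F' hw hF') p hp hpm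
    letI : Algebra F F' := (IntermediateField.inclusion hle).toRingHom.toAlgebra
    exact h1.sub p hp
  · letI := algK F hw
    exact mild_F (K := KK) m (unr_ray m hm F hw hF) p hp hpm

theorem main_res_ray {r : ℕ} (hr : Adm r) (m : ℕ) (hm : NLevel m)
    (hrm : ∀ p, p.Prime → p ∣ r → ¬ p ∣ m) (F : IntermediateField ℚ ℂ) [NumberField F]
    (hF : F ≤ rayField (E ℂ) m) (n : ℕ)
    (h : Module.finrank ℚ F = 3 ^ (n + 1) ∨
      (w ∈ F ∧ Module.finrank ℚ F = 2 * 3 ^ (n + 1))) (S : Finset ℕ)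
    (hS : WR.IsBadSet (W (-(r : ℤ) ^ 2) F) S) :
    WeilRes.PartFormula (W (-(r : ℤ) ^ 2) F) 3 S := by
  obtain ⟨-, hfin, L, hL, -, hL3, hsha, q, hq, hql, hq1⟩ := main_ray3 hr m hm hrm F hF n h
  exact WeilRes.partFormula_of _ 3 S hS hfin L hL hL3 hsha q hq hql hq1

end R3S
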