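import Pool.Agent.MP_9ab903_nt.S3.FIN

set_option autoImplicit false

open NumberField IsDedekindDomain CM27 BS3 SB3
open scoped Classical

namespace R3S

/-! ## [RS-SH1] the descent without the assumption that `F` contains no primitive cube root of unity (file SH1.lean;
copies of S3/S11.lean and of parts of S3/FIN.lean) -/

theorem trivial_of_cube' {k δ e : ℤ} (hd : Dat k δ e) (F L : Type) [Field F] [CharZero F] [Field L]
    [Algebra F L] [IsAlgClosure F L]
    (c : (L ≃ₐ[F] L) → (W k L).toAffine.Point) (hK : ∀ σ, Ker (c σ)) (S : Q2 δ L) (hS : IsUnit S)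
    (h : ∀ σ : L ≃ₐ[F] L, mapQ (σ : L →+* L) S = rho δ e (c σ) * S) (t : Q2 δ F)
    (ht : mapQ (algebraMap F L) t ^ 3 = S ^ 3) :
    ∃ T : (W k L).toAffine.Point, ∀ σ : L ≃ₐ[F] L, c σ = ptW (σ : L →+* L) T - T := by
  have : CharZero L := charZero_of_injective_algebraMap (algebraMap F L).injective
  have : IsAlgClosed L := IsAlgClosure.isAlgClosed F
  have : Algebra.IsAlgebraic F L := IsAlgClosure.isAlgebraic
  have : Normal F L := IsAlgClosure.normal F L
  have : IsGalois F L := ⟨⟩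
  have hu : IsUnit (mapQ (algebraMap F L) t) := by
    have h1 : IsUnit (mapQ (algebraMap F L) t ^ 3) := by
      rw [ht]
      exact hS.pow 3
    exact (isUnit_pow_iff three_ne_zero).1 h1
  obtain ⟨w, hw⟩ := hu
  have he : (S * ↑w⁻¹ : Q2 δ L) * mapQ (algebraMap F L) t = S := by
    rw [← hw, mul_assoc, Units.inv_mul, mul_one]
  set a : Q2 δ L := S * ↑w⁻¹ with hadef
  have ha3 : a ^ 3 = 1 := by
    have h3 : a ^ 3 * mapQ (algebraMap F L) t ^ 3 = 1 * mapQ (algebraMap F L) t ^ 3 := by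
      rw [← mul_pow, he, one_mul, ht]
    have hu2 : IsUnit (mapQ (algebraMap F L) t ^ 3) := by
      rw [← hw]
      exact w.isUnit.pow 3
    exact hu2.mul_right_cancel h3
  have hσa : ∀ σ : L ≃ₐ[F] L, mapQ (σ : L →+* L) a = rho δ e (c σ) * a := by
    intro σ
    have h1 : mapQ (σ : L →+* L) (mapQ (algebraMap F L) t) = mapQ (algebraMap F L) t := by
      rw [mapQ_mapQ]
      have h5 : (σ : L →+* L).comp (algebraMap F L) = algebraMap F L := by
        ext x
        simp
      rw [h5]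
    have h4 : mapQ (σ : L →+* L) a * mapQ (algebraMap F L) t =
        rho δ e (c σ) * a * mapQ (algebraMap F L) t := by
      rw [mul_assoc, he, ← h σ]
      conv_lhs => rw [← h1]
      rw [← map_mul, he]
    exact (hw ▸ w.isUnit : IsUnit (mapQ (algebraMap F L) t)).mul_right_cancel h4
  -- the norm
  have hn3 : a.norm ^ 3 = 1 := by
    rw [← map_pow, ha3, map_one]
  have hfix : a.norm ∈ Set.range (algebraMap F L) := by
    rw [InfiniteGalois.mem_range_algebraMap_iff_fixed]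
    intro σ
    have h1 := norm_mapQ' (σ : L →+* L) a
    rw [hσa σ, map_mul QuadraticAlgebra.norm (rho δ e (c σ)) a, rho_ker_norm hd _ (hK σ),
      one_mul] at h1
    exact h1.symm
  obtain ⟨v, hv⟩ := hfix
  -- replace `a` by `v a`
  have hv3 : v ^ 3 = 1 := by
    apply (algebraMap F L).injective
    rw [map_pow, hv, hn3, map_one]
  set a' : Q2 δ L := mapQ (algebraMap F L) ⟨v, 0⟩ * a with ha'
  have hv' : mapQ (algebraMap F L) (⟨v, 0⟩ : Q2 δ F) ^ 3 = 1 := by
    rw [← map_pow, ← map_one (mapQ (D := δ) (algebraMap F L))]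
    congr 1
    have h1 : (⟨v, 0⟩ : Q2 δ F) = algebraMap F (Q2 δ F) v := rfl
    rw [h1, ← map_pow, hv3, map_one]
  have hvn : (mapQ (algebraMap F L) (⟨v, 0⟩ : Q2 δ F)).norm = algebraMap F L v ^ 2 := by
    rw [norm_mapQ', QuadraticAlgebra.norm_def, ← map_pow]
    congr 1
    simp
    ring
  have ha3' : a' ^ 3 = 1 := by rw [ha', mul_pow, hv', ha3, one_mul]
  have hn : a'.norm = 1 := by
    rw [ha', map_mul QuadraticAlgebra.norm, hvn, ← hv, ← pow_succ, ← map_pow, hv3, map_one]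
  have hσa' : ∀ σ : L ≃ₐ[F] L, mapQ (σ : L →+* L) a' = rho δ e (c σ) * a' := by
    intro σ
    have h1 : mapQ (σ : L →+* L) (mapQ (algebraMap F L) (⟨v, 0⟩ : Q2 δ F)) =
        mapQ (algebraMap F L) ⟨v, 0⟩ := by
      rw [mapQ_mapQ]
      have h5 : (σ : L →+* L).comp (algebraMap F L) = algebraMap F L := by
        ext x
        simp
      rw [h5]
    rw [ha', map_mul, h1, hσa σ]
    ring
  obtain ⟨T, hT, hTa⟩ := exists_ker hd a' ha3' hn
  refine ⟨T, fun σ => ?_⟩
  rw [eq_sub_iff_add_eq]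
  have h1 := hσa' σ
  rw [← hTa, ← rho_ptW, ← rho_add hd _ _ hT] at h1
  exact (rho_ker_inj hd _ _ ((ker_ptW _ _).2 hT) (ker_add hd.ne _ _ (hK σ) hT) h1).symm

/-- A cocycle with values in the kernel of the isogeny, which is trivial at all finite places, is
principal, if the Selmer group is trivial. -/
theorem sha_step' {k δ e : ℤ} (hd : Dat k δ e) (F : Type) [Field F] [NumberField F]
   
    (hsel : ∀ z : Q2 δ F, z ≠ 0 → (∃ n : F, z.norm = n ^ 3) →
      (∀ v : HeightOneSpectrum (𝓞 F), LocCond3 k e z (v.adicCompletion F)) →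
      ∃ t : Q2 δ F, z = t ^ 3)
    (c : (AlgebraicClosure F ≃ₐ[F] AlgebraicClosure F) → (W k (AlgebraicClosure F)).toAffine.Point)
    (hc : Coc3 k F (AlgebraicClosure F) c) (hK : ∀ σ, Ker (c σ))
    (hloc : ∀ v : HeightOneSpectrum (𝓞 F),
      LocTriv c (v.adicCompletion F) (AlgebraicClosure (v.adicCompletion F))) :
    ∃ T : (W k (AlgebraicClosure F)).toAffine.Point,
      ∀ σ, c σ = ptHomW (σ : AlgebraicClosure F →+* AlgebraicClosure F) T - T := by
  obtain ⟨S, hS, hSσ⟩ := hilbert90_3 hd F (AlgebraicClosure F) c hc hK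
  obtain ⟨z, hz0, hzN, hzS⟩ := exists_class3 hd F (AlgebraicClosure F) c hK S hS hSσ
  have hloc' : ∀ v : HeightOneSpectrum (𝓞 F), LocCond3 k e z (v.adicCompletion F) := by
    intro v
    let ι : AlgebraicClosure F →ₐ[F] AlgebraicClosure (v.adicCompletion F) := IsAlgClosed.lift
    obtain ⟨Q, hQ⟩ := hloc v ι
    exact locCond3 hd F (AlgebraicClosure F) c hK S hS hSσ z hzS (v.adicCompletion F)
      (AlgebraicClosure (v.adicCompletion F)) ι Q hQ
  obtain ⟨t, ht⟩ := hsel z hz0 hzN hloc'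
  obtain ⟨T, hT⟩ := trivial_of_cube' hd F (AlgebraicClosure F) c hK S hS hSσ t
    (by rw [← map_pow, ← ht, hzS])
  exact ⟨T, hT⟩

/-- If both Selmer groups are trivial: a cocycle which is trivial at all finite places and whose
triple is principal is principal. -/
theorem sha_three_core' {k δ e δ' e' : ℤ} (hd : Dat k δ e) (hd' : Dat (-27 * k) δ' e') (F : Type)
    [Field F] [NumberField F]
    (hsel : ∀ z : Q2 δ F, z ≠ 0 → (∃ n : F, z.norm = n ^ 3) →
      (∀ v : HeightOneSpectrum (𝓞 F), LocCond3 k e z (v.adicCompletion F)) →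
      ∃ t : Q2 δ F, z = t ^ 3)
    (hsel' : ∀ z : Q2 δ' F, z ≠ 0 → (∃ n : F, z.norm = n ^ 3) →
      (∀ v : HeightOneSpectrum (𝓞 F), LocCond3 (-27 * k) e' z (v.adicCompletion F)) →
      ∃ t : Q2 δ' F, z = t ^ 3)
    (c : (AlgebraicClosure F ≃ₐ[F] AlgebraicClosure F) → (W k (AlgebraicClosure F)).toAffine.Point)
    (hc : Coc3 k F (AlgebraicClosure F) c)
    (hloc : ∀ v : HeightOneSpectrum (𝓞 F),
      LocTriv c (v.adicCompletion F) (AlgebraicClosure (v.adicCompletion F)))
    (h3 : ∃ P : (W k (AlgebraicClosure F)).toAffine.Point, ∀ σ,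
      3 • c σ = ptHomW (σ : AlgebraicClosure F →+* AlgebraicClosure F) P - P) :
    ∃ P : (W k (AlgebraicClosure F)).toAffine.Point, ∀ σ,
      c σ = ptHomW (σ : AlgebraicClosure F →+* AlgebraicClosure F) P - P := by
  have h30 : (3 : AlgebraicClosure F) ≠ 0 := three_ne_zero
  have hs : ((-27 * (-27 * k) : ℤ) : AlgebraicClosure F) = (3 : AlgebraicClosure F) ^ 6 * k := by
    push_cast; ring
  -- division by three
  obtain ⟨Q, hQ⟩ := h3
  obtain ⟨P', hP'⟩ := iso_surj hd'.ne (scal (3 : AlgebraicClosure F) h30 hs Q)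
  obtain ⟨P, hP⟩ := iso_surj hd.ne P'
  have hP3 : Q = 3 • P := by
    apply scal_injective (3 : AlgebraicClosure F) h30 hs
    rw [← iso_iso hd.ne hd'.ne, hP, hP']
  -- first step
  have hc1 := hc.sub P
  have hl1 := fun v => (hloc v).sub P
  set c1 : (AlgebraicClosure F ≃ₐ[F] AlgebraicClosure F) →
    (W k (AlgebraicClosure F)).toAffine.Point :=
    fun σ => c σ - (ptHomW (σ : AlgebraicClosure F →+* AlgebraicClosure F) P - P) with hc1def
  have h3c : ∀ σ, 3 • c1 σ = 0 := by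
    intro σ
    rw [hc1def]
    simp only
    rw [nsmul_sub, hQ σ, hP3, map_nsmul, nsmul_sub, sub_self]
  have hK' : ∀ σ, Ker (iso hd.ne (c1 σ)) := by
    intro σ
    rw [← iso_eq_zero hd'.ne, iso_iso hd.ne hd'.ne h30 hs, h3c]
    rfl
  have hchar : ∀ v : HeightOneSpectrum (𝓞 F),
      CharZero (AlgebraicClosure (v.adicCompletion F)) := fun v =>
    charZero_of_injective_algebraMap
      (algebraMap F (AlgebraicClosure (v.adicCompletion F))).injective
  obtain ⟨T, hT⟩ := sha_step' hd' F hsel' (fun σ => iso hd.ne (c1 σ)) (hc1.iso hd.ne) hK'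
    (fun v => by
      have := hchar v
      exact (hl1 v).iso hd.ne)
  obtain ⟨T', hT'⟩ := iso_surj hd.ne T
  -- second step
  have hc2 := hc1.sub T'
  have hl2 := fun v => (hl1 v).sub T'
  set c2 : (AlgebraicClosure F ≃ₐ[F] AlgebraicClosure F) →
    (W k (AlgebraicClosure F)).toAffine.Point :=
    fun σ => c1 σ - (ptHomW (σ : AlgebraicClosure F →+* AlgebraicClosure F) T' - T') with hc2def
  have hK : ∀ σ, Ker (c2 σ) := by
    intro σ
    have h5 : iso hd.ne (c1 σ) =
      ptHomW (σ : AlgebraicClosure F →+* AlgebraicClosure F) T - T := hT σ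
    have h8 : c2 σ = c1 σ -
      (ptHomW (σ : AlgebraicClosure F →+* AlgebraicClosure F) T' - T') := rfl
    rw [← iso_eq_zero hd.ne, h8, iso_sub hd.ne (c1 σ), h5, iso_sub, ptHomW_apply, ptHomW_apply,
      iso_ptW, hT', sub_self]
  obtain ⟨T2, hT2⟩ := sha_step' hd F hsel c2 hc2 hK hl2
  refine ⟨P + T' + T2, fun σ => ?_⟩
  have h6 : c σ - (ptHomW (σ : AlgebraicClosure F →+* AlgebraicClosure F) P - P) -
      (ptHomW (σ : AlgebraicClosure F →+* AlgebraicClosure F) T' - T') =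
      ptHomW (σ : AlgebraicClosure F →+* AlgebraicClosure F) T2 - T2 := hT2 σ
  have h7 : c σ = (ptHomW (σ : AlgebraicClosure F →+* AlgebraicClosure F) T2 - T2) +
      (ptHomW (σ : AlgebraicClosure F →+* AlgebraicClosure F) T' - T') +
      (ptHomW (σ : AlgebraicClosure F →+* AlgebraicClosure F) P - P) := by
    rw [← h6]
    abel
  rw [h7, map_add, map_add]
  abel

theorem sha_three_gen' {k δ e δ' e' : ℤ} (hd : Dat k δ e) (hd' : Dat (-27 * k) δ' e') (F : Type)
    [Field F] [NumberField F]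
    (hsel : ∀ z : Q2 δ F, z ≠ 0 → (∃ n : F, z.norm = n ^ 3) →
      (∀ v : HeightOneSpectrum (𝓞 F), LocCond3 k e z (v.adicCompletion F)) →
      ∃ t : Q2 δ F, z = t ^ 3)
    (hsel' : ∀ z : Q2 δ' F, z ≠ 0 → (∃ n : F, z.norm = n ^ 3) →
      (∀ v : HeightOneSpectrum (𝓞 F), LocCond3 (-27 * k) e' z (v.adicCompletion F)) →
      ∃ t : Q2 δ' F, z = t ^ 3)
    (c : SBSD.AbsGal F → SBSD.Pts (W k F) (AlgebraicClosure F)) (hc : c ∈ SBSD.cocycles (W k F))
    (hloc : ∀ v : HeightOneSpectrum (𝓞 F), SBSD.TrivialOver (W k F) (v.adicCompletion F) c)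
    (h3 : ∃ P : SBSD.Pts (W k F) (AlgebraicClosure F), ∀ σ : SBSD.AbsGal F,
      3 • c σ = WeierstrassCurve.Affine.Point.map (W' := W k F) σ.toAlgHom P - P) :
    c ∈ SBSD.coboundaries (W k F) := by
  obtain ⟨hc1, hc2⟩ := hc
  let L := AlgebraicClosure F
  let e := trW k F L
  have hgact : ∀ (σ : L ≃ₐ[F] L) (P : SBSD.Pts (W k F) (AlgebraicClosure F)),
      e (WeierstrassCurve.Affine.Point.map (W' := W k F) σ.toAlgHom P) =
        ptHomW (σ : L →+* L) (e P) := fun σ P => trW_map k F L L σ.toAlgHom P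
  obtain ⟨Q, hQ⟩ := h3
  obtain ⟨P, hP⟩ := sha_three_core' hd hd' F hsel hsel' (fun σ => e (c σ))
    ⟨hc1.comp e, fun σ τ => by
      rw [hc2 σ τ, map_add, hgact]
      rfl⟩
    (fun v ι => by
      obtain ⟨Q', hQ'⟩ := hloc v ι
      refine ⟨trW k F (AlgebraicClosure (v.adicCompletion F)) Q', fun τ σ hστ => ?_⟩
      have h6 := congrArg (trW k F (AlgebraicClosure (v.adicCompletion F))) (hQ' τ σ hστ)
      rw [trW_map, map_sub, trW_map] at h6
      exact h6)
    ⟨e Q, fun σ => by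
      change 3 • e (c σ) = ptHomW (σ : L →+* L) (e Q) - e Q
      rw [← map_nsmul, hQ σ, map_sub, hgact]⟩
  refine ⟨e.symm P, fun σ => e.injective ?_⟩
  rw [map_sub, hgact, e.apply_symm_apply]
  exact hP σ

end R3S
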