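import Pool.Agent.MP_9ab903_nt.RS.SHDefs
import Pool.Agent.MP_ae0bd0_nt.RF.B2

set_option autoImplicit false

open CM27 NumberField IsDedekindDomain BS3 RF
open scoped Classical

namespace R3S

/-! ## [RS-SH2] the descended class has valuations divisible by `3` outside of the bad primes
(file SH2.lean) -/

/-- Exactly as `RF.cube_unram'` (RF/B2.lean) with `z` in place of `y - c i`: at the end `w'(z)` is a cube by
`hz` (in place of `q6_cube_val`). -/
theorem cube_unram_sel {K F : Type} [Field K] [NumberField K] [Field F] [NumberField F]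
    [Algebra K F] [Fact (NonSq (-1) K)] [Fact (NonSq (-1) F)] [NumberField (Q2 (-1) K)] (c : ℤ)
    (z0 : Q2 (-1) K) (z t : Q2 (-1) F)
    (hz : ∀ P : HeightOneSpectrum (𝓞 (Q2 (-1) F)), ((c : ℤ) : 𝓞 (Q2 (-1) F)) ∉ P.asIdeal →
      ∃ g, P.valuation (Q2 (-1) F) z = g ^ 3)
    (h : mapQ (algebraMap K F) z0 = z * t ^ 3)
    (w : HeightOneSpectrum (𝓞 (Q2 (-1) K))) (hw : ((c : ℤ) : 𝓞 (Q2 (-1) K)) ∉ w.asIdeal)
    (hu : ∀ (v : HeightOneSpectrum (𝓞 K)) (P : HeightOneSpectrum (𝓞 F)),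
      w.asIdeal.LiesOver v.asIdeal → P.asIdeal.LiesOver v.asIdeal →
      P.asIdeal.ramificationIdx (𝓞 K) = 1) :
    ∃ g, w.valuation (Q2 (-1) K) z0 = g ^ 3 := by
  have := numberField_Q2 F
  let : Algebra (Q2 (-1) K) (Q2 (-1) F) := (mapQ (algebraMap K F)).toAlgebra
  have hmap : ∀ z : Q2 (-1) K, algebraMap (Q2 (-1) K) (Q2 (-1) F) z = mapQ (algebraMap K F) z :=
    fun z => rfl
  have : IsScalarTower K (Q2 (-1) K) (Q2 (-1) F) := by
    refine IsScalarTower.of_algebraMap_eq fun k => ?_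
    rw [hmap]
    ext
    · rfl
    · change _ = algebraMap K F 0
      rw [map_zero]
      rfl
  have : IsScalarTower K F (Q2 (-1) F) := by
    refine IsScalarTower.of_algebraMap_eq fun k => ?_
    rfl
  obtain ⟨v, hwv⟩ := b2_under (K := K) w
  have := w.isMaximal
  obtain ⟨Q, hQm, hQ⟩ := Ideal.exists_maximal_ideal_liesOver_of_isIntegral
    (S := 𝓞 (Q2 (-1) F)) w.asIdeal
  have hQ0 : Q ≠ ⊥ := Ideal.ne_bot_of_liesOver_of_ne_bot w.ne_bot Q
  let w' : HeightOneSpectrum (𝓞 (Q2 (-1) F)) := ⟨Q, hQm.isPrime, hQ0⟩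
  have hw' : w'.asIdeal.LiesOver w.asIdeal := hQ
  obtain ⟨P, hP⟩ := b2_under (K := F) w'
  have hw'v : w'.asIdeal.LiesOver v.asIdeal := Ideal.LiesOver.trans w'.asIdeal w.asIdeal v.asIdeal
  have hPv : P.asIdeal.LiesOver v.asIdeal := Ideal.LiesOver.tower_bot w'.asIdeal P.asIdeal v.asIdeal
  have h1 := hu v P hwv hPv
  have h2 : v.asIdeal.ramificationIdx' P.asIdeal = 1 := by
    rw [Ideal.ramificationIdx'_eq_ramificationIdx v.asIdeal P.asIdeal v.ne_bot, h1]
  have h3 := Ideal.ramificationIdx'_algebra_tower' v.asIdeal P.asIdeal w'.asIdeal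
  have h4 := Ideal.ramificationIdx'_algebra_tower' v.asIdeal w.asIdeal w'.asIdeal
  rw [h2, one_mul] at h3
  have h5 : P.asIdeal.ramificationIdx' w'.asIdeal ≤ 2 := by
    have hPm := P.isMaximal
    have hnz : NoZeroSMulDivisors (𝓞 F) (𝓞 (Q2 (-1) F)) := ⟨fun {a b} hab => by
      rw [Algebra.smul_def, mul_eq_zero] at hab
      rcases hab with h | h
      · left
        exact (FaithfulSMul.algebraMap_eq_zero_iff (𝓞 F) (𝓞 (Q2 (-1) F))).1 h
      · right; exact h⟩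
    refine (Ideal.ramificationIdx_le_finrank (𝓞 (Q2 (-1) F)) F (Q2 (-1) F)
      (p := P.asIdeal) w'.asIdeal).trans ?_
    exact (QuadraticAlgebra.finrank_eq_two (R := F) _ _).le
  have hvm := v.isMaximal
  have h6 : v.asIdeal.ramificationIdx' w.asIdeal ≠ 0 :=
    Ideal.IsDedekindDomain.ramificationIdx'_ne_zero_of_liesOver _ v.ne_bot
  have h7 : w.asIdeal.ramificationIdx' w'.asIdeal ≠ 0 :=
    Ideal.IsDedekindDomain.ramificationIdx'_ne_zero_of_liesOver _ w.ne_bot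
  have he : w.asIdeal.ramificationIdx' w'.asIdeal = 1 ∨
      w.asIdeal.ramificationIdx' w'.asIdeal = 2 := by
    rw [← h3, h4] at h5
    have h8 : w.asIdeal.ramificationIdx' w'.asIdeal ≤ 2 :=
      (Nat.le_mul_of_pos_left _ (Nat.pos_of_ne_zero h6)).trans h5
    omega
  refine b2_cube _ _ he ?_
  have hval := HeightOneSpectrum.valuation_liesOver (K := Q2 (-1) K) (Q2 (-1) F) w w' z0
  rw [hval, hmap, h, map_mul, map_pow]
  have hnot : ∀ n : ℤ, (n : 𝓞 (Q2 (-1) K)) ∉ w.asIdeal → (n : 𝓞 (Q2 (-1) F)) ∉ w'.asIdeal := by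
    intro n hn h1
    apply hn
    rw [hw'.over, Ideal.mem_comap, map_intCast]
    exact h1
  obtain ⟨g, hg⟩ := hz w' (hnot c hw)
  exact ⟨g * w'.valuation (Q2 (-1) F) t, by rw [hg, mul_pow]⟩

end R3S
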