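import Pool.Agent.MP_9ab903_nt.RS.SHDefs
import Pool.Agent.MP_9ab903_nt.S3.S13

set_option autoImplicit false

open CM27 NumberField IsDedekindDomain BS3 RF
open scoped Classical

namespace R3S

/-! ## [RS-SH3] the local image at the places above `3` (file SH3.lean; elementary valuation theory) -/

section sh3

variable {F : Type} [Field F] {w : Valuation F (WithZero (Multiplicative ℤ))}

theorem sh3_mul_cube {K : Type} [Field K] (z1 z2 x1 x2 : K) :
    (⟨z1, z2⟩ : Q2 (-1) K) * (⟨x1, x2⟩ : Q2 (-1) K) ^ 3 =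
      ⟨z1 * (x1 ^ 3 - 3 * x1 * x2 ^ 2) - z2 * (3 * x1 ^ 2 * x2 - x2 ^ 3),
        z1 * (3 * x1 ^ 2 * x2 - x2 ^ 3) + z2 * (x1 ^ 3 - 3 * x1 * x2 ^ 2)⟩ := by
  ext
  · simp only [pow_succ, pow_zero, one_mul, QuadraticAlgebra.re_mul, QuadraticAlgebra.im_mul]
    push_cast
    ring
  · simp only [pow_succ, pow_zero, one_mul, QuadraticAlgebra.re_mul, QuadraticAlgebra.im_mul]
    push_cast
    ring

theorem sh3_cases {x : F} (h : q10_ge w x 0) : q10_eq w x 0 ∨ q10_ge w x 1 := by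
  by_cases hx : x = 0
  · right; rw [hx]; exact q10_ge_zero
  · obtain ⟨n, hn⟩ := q10_exists (w := w) hx
    have h1 := hn.le h
    rcases eq_or_lt_of_le h1 with h2 | h2
    · left; rw [h2]; exact hn
    · right; exact hn.ge.mono (by omega)

theorem sh3_lt {x : F} (h : q10_ge w x 1) : w x < 1 := by
  refine lt_of_le_of_lt h ?_
  rw [← WithZero.exp_zero, WithZero.exp_lt_exp]
  omega

theorem sh3_unit {k : ℤ} (h3 : q10_ge w (3 : F) 1) (hk : k ^ 2 % 9 = 7) :
    q10_eq w (k : F) 0 := by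
  rcases sh3_cases (q10_int w k) with h | h
  · exact h
  · exfalso
    obtain ⟨a, ha⟩ : (3 : ℤ) ∣ k ^ 2 - 1 := by omega
    have h1 : q10_ge w ((k : F) * (k : F)) 1 := (h.mul h).mono (by omega)
    have h2 : q10_ge w ((3 : F) * (a : F)) 1 := (h3.mul (q10_int w a)).mono (by omega)
    have h4 := h1.sub h2
    have e : (k : F) * (k : F) - (3 : F) * (a : F) = 1 := by
      have h5 : ((k ^ 2 - 1 : ℤ) : F) = ((3 * a : ℤ) : F) := by rw [ha]
      push_cast at h5
      linear_combination h5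
    rw [e] at h4
    have := q10_one.le h4
    omega

theorem sh3_inv {x : F} {n : ℤ} (h : q10_eq w x n) : q10_eq w x⁻¹ (-n) := by
  unfold q10_eq at *
  rw [map_inv₀, h, ← WithZero.exp_neg]

theorem sh3_pow3 {x : F} {n m : ℤ} (h : q10_ge w (x ^ 3) m) (hm : 3 * n - 2 ≤ m) :
    q10_ge w x n := by
  by_cases hx : x = 0
  · rw [hx]; exact q10_ge_zero
  · obtain ⟨k, hk⟩ := q10_exists (w := w) hx
    have h1 := (SB3.s13_cube_eq hk).le h
    exact hk.ge.mono (by omega)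

theorem sh3_pow2 {x : F} {n m : ℤ} (h : q10_ge w (x ^ 2) m) (hm : 2 * n - 1 ≤ m) :
    q10_ge w x n := by
  by_cases hx : x = 0
  · rw [hx]; exact q10_ge_zero
  · obtain ⟨k, hk⟩ := q10_exists (w := w) hx
    have h1 : q10_eq w (x ^ 2) (k + k) := by
      have := hk.mul hk
      rwa [← sq] at this
    have h1 := h1.le h
    exact hk.ge.mono (by omega)

theorem sh3_sum_sq (hns : ∀ x : F, ¬ w (x ^ 2 + 1) < 1) {x y : F} (hy : q10_eq w y 0)
    (h : q10_ge w (x ^ 2 + y ^ 2) 1) : False := by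
  have hy0 : y ≠ 0 := by
    rintro rfl
    unfold q10_eq at hy
    rw [map_zero] at hy
    exact WithZero.exp_ne_zero hy.symm
  apply hns (x / y)
  apply sh3_lt
  have h1 := h.mul ((sh3_inv hy).mul (sh3_inv hy)).ge
  have e : (x ^ 2 + y ^ 2) * (y⁻¹ * y⁻¹) = (x / y) ^ 2 + 1 := by field_simp
  rw [e] at h1
  exact h1.mono (by omega)

end sh3

/-- Let `v` be the (additive) valuation, `v(θ) = 1`, `v(3) = 2`, `v(2) = 0`, `v(c) = 0` (`c² ≡ 7 mod 9`), `c³ - c`, `c² - 7`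
are divisible by `3` resp. `9` in `ℤ`. The valuation of `x + y i` (`x, y` integral) : `x² + y²` is a unit unless
both `x` and `y` are in the maximal ideal (`hns`).
Case `w X > 1`: `Y² = X³ - c²` gives `2 v(Y) = 3 v(X)`, so `v(X) = -2 j`, `v(Y) = -3 j`, `j > 0`; with
`u = θ^j` (an element of `F`): `⟨Y, c⟩ u³ = ⟨Y θ^{3j}, c θ^{3j}⟩`, `v(Y θ^{3j}) = 0`, `v(c θ^{3j}) = 3 j ≥ 2`.
Case `w X ≤ 1` (then `w Y ≤ 1`). (i) `X` is a unit: otherwise `Y² + c² ∈ 𝔪`, so `(Y/c)² + 1 ∈ 𝔪`. (ii) `Y` is a unit: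
otherwise `X³ ≡ c² ≡ 1`, so `X ≡ 1 mod 𝔪` (`(X - 1)³ = X³ - 1 - 3 X (X - 1)`), `X = 1 + θ s`,
`X³ = 1 + 3 θ s + 3 θ² s² + θ³ s³ ≡ 1 mod θ³`, so `Y² = X³ - c² ≡ 1 - 7 = -6 = 2 θ² mod θ³`, so `v(Y) = 1` and
`(Y/θ)² ≡ 2 ≡ -1 mod 𝔪`, a contradiction. (iii) `X - 1` is a unit: otherwise `X³ ≡ 1 mod 𝔪` and
`Y² ≡ 1 - c² ≡ 0`. (iv) Let `α = Y / (X - 1)` (a unit). `Y² = X³ - c² ≡ X³ - 1 ≡ (X - 1)³ mod 3`, so
`α³ = Y³ / (X - 1)³ ≡ Y mod 3`. With `t = α - c i`: `t³ = (α³ - 3 α c²) + (c³ - 3 α² c) i ≡ Y + c i mod 3`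
(`c³ ≡ c mod 3`). The norm `α² + c²` of `t` is a unit (`hns`), so for `u = t⁻¹ = (α + c i) / (α² + c²)`:
`⟨Y, c⟩ u³ = 1 + (⟨Y, c⟩ - t³) u³ = ⟨a, b⟩` with `a ≡ 1`, `b ≡ 0 mod 3`. -/
theorem inI_point {F : Type} [Field F] [CharZero F]
    (w : Valuation F (WithZero (Multiplicative ℤ))) (θ : F) (hθ : θ ^ 2 = -3)
    (hw : w θ = WithZero.exp (-1 : ℤ)) (hns : ∀ x : F, ¬ w (x ^ 2 + 1) < 1) (c : ℤ)
    (hc : c ^ 2 % 9 = 7) (X Y : F) (h : Y ^ 2 = X ^ 3 - (c : F) ^ 2) :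
    InI w (⟨Y, (c : F)⟩ : Q2 (-1) F) := by
  have hθ1 : q10_eq w θ 1 := hw
  have hθ0 : θ ≠ 0 := by
    rintro rfl
    norm_num at hθ
  have h32 : q10_eq w (3 : F) 2 := by
    have h1 := (hθ1.mul hθ1).neg
    have e : -(θ * θ) = 3 := by linear_combination -hθ
    rw [e] at h1
    exact h1
  have h31 : q10_ge w (3 : F) 1 := h32.ge.mono (by omega)
  have hcu : q10_eq w (c : F) 0 := sh3_unit h31 hc
  have hc0 : (c : F) ≠ 0 := by
    intro h0
    rw [h0] at hcu
    unfold q10_eq at hcu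
    rw [map_zero] at hcu
    exact WithZero.exp_ne_zero hcu.symm
  have hone : ∀ {a : F}, q10_eq w a 0 → w a = 1 := by
    intro a ha
    unfold q10_eq at ha
    rw [ha, neg_zero, WithZero.exp_zero]
  have hc2 : q10_eq w ((c : F) ^ 2) 0 := by
    have := hcu.mul hcu
    rwa [← sq] at this
  obtain ⟨k, hk⟩ : ∃ k : ℤ, c ^ 2 = 7 + 9 * k := ⟨c ^ 2 / 9, by omega⟩
  have hk' : (c : F) ^ 2 = 7 + 9 * (k : F) := by
    have : ((c ^ 2 : ℤ) : F) = ((7 + 9 * k : ℤ) : F) := by rw [hk]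
    push_cast at this
    exact this
  have h9 : q10_ge w (9 * (k : F)) 4 := by
    have := (h32.ge.mul h32.ge).mul (q10_int w k)
    have e : (3 : F) * 3 * (k : F) = 9 * (k : F) := by ring
    rw [e] at this
    exact this.mono (by omega)
  have h2i : q10_ge w (2 : F) 0 := by
    have := q10_int w 2
    simpa using this
  have h6 : q10_ge w (6 : F) 2 := by
    have := h32.ge.mul h2i
    have e : (3 : F) * 2 = 6 := by norm_num
    rw [e] at this
    exact this.mono (by omega)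
  have hc1 : q10_ge w ((c : F) ^ 2 - 1) 2 := by
    have e : (c : F) ^ 2 - 1 = 6 + 9 * (k : F) := by rw [hk']; ring
    rw [e]
    exact h6.add (h9.mono (by omega))
  by_cases hXc : q10_ge w X 0
  · have hX3 : q10_ge w (X ^ 3) 0 := by
      have := (hXc.mul hXc).mul hXc
      rw [← sq, ← pow_succ] at this
      exact this
    have hY0 : q10_ge w Y 0 := by
      apply sh3_pow2 (m := 0) _ (by omega)
      rw [h]
      exact hX3.sub hc2.ge
    -- (i)
    have hX : q10_eq w X 0 := by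
      rcases sh3_cases hXc with h1 | h1
      · exact h1
      · exfalso
        apply sh3_sum_sq hns (x := Y) hcu
        have e : Y ^ 2 + (c : F) ^ 2 = X * X * X := by rw [h]; ring
        rw [e]
        exact ((h1.mul h1).mul h1).mono (by omega)
    -- (ii)
    have hY : q10_eq w Y 0 := by
      rcases sh3_cases hY0 with h1 | h1
      · exact h1
      · exfalso
        have hYY : q10_ge w (Y ^ 2) 2 := by
          have := h1.mul h1
          rwa [← sq] at this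
        have hX1 : q10_ge w (X - 1) 1 := by
          apply sh3_pow3 (m := 2) _ (by omega)
          have e : (X - 1) ^ 3 = Y ^ 2 + ((c : F) ^ 2 - 1) - 3 * (X * (X - 1)) := by
            rw [h]; ring
          rw [e]
          refine (hYY.add hc1).sub ?_
          exact (h32.ge.mul (hXc.mul (hXc.sub q10_one.ge))).mono (by omega)
        have hX33 : q10_ge w ((X - 1) * (X - 1) * (X - 1) + 3 * ((X - 1) * (X - 1)) +
            3 * (X - 1)) 3 := by
          refine ((((hX1.mul hX1).mul hX1).mono (by omega)).add ?_).add ?_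
          · exact (h32.ge.mul (hX1.mul hX1)).mono (by omega)
          · exact (h32.ge.mul hX1).mono (by omega)
        have hY6 : q10_ge w (Y ^ 2 + 6) 3 := by
          have e : Y ^ 2 + 6 = ((X - 1) * (X - 1) * (X - 1) + 3 * ((X - 1) * (X - 1)) +
            3 * (X - 1)) - 9 * (k : F) := by rw [h, hk']; ring
          rw [e]
          exact hX33.sub (h9.mono (by omega))
        apply hns (Y / θ)
        apply sh3_lt
        have h5 := (hY6.mul ((sh3_inv hθ1).mul (sh3_inv hθ1)).ge).mono (m := 1) (by omega)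
        have h6 : q10_ge w (3 : F) 1 := h31
        have h7 := h5.add h6
        have e : (Y ^ 2 + 6) * (θ⁻¹ * θ⁻¹) + 3 = (Y / θ) ^ 2 + 1 := by
          have h8 : (6 : F) = -2 * θ ^ 2 := by rw [hθ]; ring
          rw [h8]
          field_simp
          ring
        rw [e] at h7
        exact h7
    -- (iii)
    have hX1 : q10_eq w (X - 1) 0 := by
      rcases sh3_cases (hXc.sub q10_one.ge) with h1 | h1
      · exact h1
      · exfalso
        have h2 : q10_ge w (Y ^ 2) 1 := by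
          have e : Y ^ 2 = (X - 1) * (X ^ 2 + X + 1) - ((c : F) ^ 2 - 1) := by rw [h]; ring
          rw [e]
          refine q10_ge.sub ?_ (hc1.mono (by omega))
          have h3 : q10_ge w (X ^ 2 + X + 1) 0 := by
            refine (q10_ge.add ?_ hXc).add q10_one.ge
            have := hXc.mul hXc
            rwa [← sq] at this
          exact (h1.mul h3).mono (by omega)
        have h3 := hY.mul hY
        rw [← sq] at h3
        have := h3.le h2
        omega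
    -- (iv)
    have hX10 : X - 1 ≠ 0 := by
      intro h0
      rw [h0] at hX1
      unfold q10_eq at hX1
      rw [map_zero] at hX1
      exact WithZero.exp_ne_zero hX1.symm
    obtain ⟨α, hα⟩ : ∃ α : F, α = Y * (X - 1)⁻¹ := ⟨_, rfl⟩
    have hα0 : q10_eq w α 0 := by
      rw [hα]
      exact hY.mul (sh3_inv hX1)
    have hYα : q10_ge w (Y - α ^ 3) 2 := by
      have h1 : q10_ge w ((X - 1) ^ 3 - Y ^ 2) 2 := by
        have e : (X - 1) ^ 3 - Y ^ 2 = ((c : F) ^ 2 - 1) - 3 * (X * (X - 1)) := by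
          rw [h]; ring
        rw [e]
        exact hc1.sub ((h32.ge.mul (hXc.mul (hXc.sub q10_one.ge))).mono (by omega))
      have hi := sh3_inv hX1
      have h2 := (hY.ge.mul h1).mul ((hi.mul hi).mul hi).ge
      have e : Y * ((X - 1) ^ 3 - Y ^ 2) * ((X - 1)⁻¹ * (X - 1)⁻¹ * (X - 1)⁻¹) =
          Y - α ^ 3 := by
        rw [hα]
        field_simp
      rw [e] at h2
      exact h2.mono (by omega)
    have hN : q10_eq w (α ^ 2 + (c : F) ^ 2) 0 := by
      have h1 : q10_ge w (α ^ 2 + (c : F) ^ 2) 0 := by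
        refine q10_ge.add ?_ hc2.ge
        have := (hα0.mul hα0).ge
        rwa [← sq] at this
      rcases sh3_cases h1 with h2 | h2
      · exact h2
      · exact (sh3_sum_sq hns hcu h2).elim
    obtain ⟨N, hNd⟩ : ∃ N : F, N = α ^ 2 + (c : F) ^ 2 := ⟨_, rfl⟩
    rw [← hNd] at hN
    have hN0 : N ≠ 0 := by
      rintro rfl
      unfold q10_eq at hN
      rw [map_zero] at hN
      exact WithZero.exp_ne_zero hN.symm
    have hx1 : q10_ge w (α * N⁻¹) 0 := (hα0.mul (sh3_inv hN)).ge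
    have hx2 : q10_ge w ((c : F) * N⁻¹) 0 := (hcu.mul (sh3_inv hN)).ge
    obtain ⟨x1, hx1d⟩ : ∃ x : F, x = α * N⁻¹ := ⟨_, rfl⟩
    obtain ⟨x2, hx2d⟩ : ∃ x : F, x = (c : F) * N⁻¹ := ⟨_, rfl⟩
    rw [← hx1d] at hx1
    rw [← hx2d] at hx2
    have h3i : q10_ge w (3 : F) 0 := h31.mono (by omega)
    have hR : q10_ge w (x1 ^ 3 - 3 * x1 * x2 ^ 2) 0 := by
      have := ((hx1.mul hx1).mul hx1).sub ((h3i.mul hx1).mul (hx2.mul hx2))
      have e : x1 * x1 * x1 - 3 * x1 * (x2 * x2) = x1 ^ 3 - 3 * x1 * x2 ^ 2 := by ring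
      rw [e] at this
      exact this
    have hS : q10_ge w (3 * x1 ^ 2 * x2 - x2 ^ 3) 0 := by
      have := ((h3i.mul (hx1.mul hx1)).mul hx2).sub ((hx2.mul hx2).mul hx2)
      have e : 3 * (x1 * x1) * x2 - x2 * x2 * x2 = 3 * x1 ^ 2 * x2 - x2 ^ 3 := by ring
      rw [e] at this
      exact this
    have hd1 : q10_ge w (Y - (α ^ 3 - 3 * α * (c : F) ^ 2)) 2 := by
      have h1 := hYα.add (((h32.ge.mul hα0.ge).mul hc2.ge).mono (m := 2) (by omega))
      have e : Y - α ^ 3 + 3 * α * (c : F) ^ 2 = Y - (α ^ 3 - 3 * α * (c : F) ^ 2) := by ring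
      rw [e] at h1
      exact h1
    have hd2 : q10_ge w ((c : F) - ((c : F) ^ 3 - 3 * α ^ 2 * (c : F))) 2 := by
      have h1 := ((hc1.mul hcu.ge).neg).add (((h32.ge.mul (hα0.mul hα0).ge).mul hcu.ge))
      have e : -(((c : F) ^ 2 - 1) * (c : F)) + 3 * (α * α) * (c : F) =
        (c : F) - ((c : F) ^ 3 - 3 * α ^ 2 * (c : F)) := by ring
      rw [e] at h1
      exact h1.mono (by omega)
    have hI1 : (α ^ 3 - 3 * α * (c : F) ^ 2) * (x1 ^ 3 - 3 * x1 * x2 ^ 2) -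
        ((c : F) ^ 3 - 3 * α ^ 2 * (c : F)) * (3 * x1 ^ 2 * x2 - x2 ^ 3) = 1 := by
      rw [hx1d, hx2d]
      field_simp
      rw [hNd]
      ring
    have hI2 : (α ^ 3 - 3 * α * (c : F) ^ 2) * (3 * x1 ^ 2 * x2 - x2 ^ 3) +
        ((c : F) ^ 3 - 3 * α ^ 2 * (c : F)) * (x1 ^ 3 - 3 * x1 * x2 ^ 2) = 0 := by
      rw [hx1d, hx2d]
      field_simp
      ring
    refine ⟨⟨x1, x2⟩, _, _, ?_, sh3_mul_cube Y (c : F) x1 x2, ?_, ?_⟩
    · rw [QuadraticAlgebra.isUnit_iff_norm_isUnit, isUnit_iff_ne_zero,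
          QuadraticAlgebra.norm_def]
      have e : x1 * x1 + 0 * x1 * x2 - ((-1 : ℤ) : F) * x2 * x2 = N⁻¹ := by
        rw [hx1d, hx2d]
        push_cast
        field_simp
        rw [hNd]
        ring
      simp only
      rw [e]
      exact inv_ne_zero hN0
    · apply hone
      have h1 := q10_one.add (y := (Y - (α ^ 3 - 3 * α * (c : F) ^ 2)) *
        (x1 ^ 3 - 3 * x1 * x2 ^ 2) - ((c : F) - ((c : F) ^ 3 - 3 * α ^ 2 * (c : F))) *
        (3 * x1 ^ 2 * x2 - x2 ^ 3))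
        (((hd1.mul hR).sub (hd2.mul hS)).mono (m := 0 + 1) (by omega))
      have e : 1 + ((Y - (α ^ 3 - 3 * α * (c : F) ^ 2)) *
        (x1 ^ 3 - 3 * x1 * x2 ^ 2) - ((c : F) - ((c : F) ^ 3 - 3 * α ^ 2 * (c : F))) *
        (3 * x1 ^ 2 * x2 - x2 ^ 3)) = Y * (x1 ^ 3 - 3 * x1 * x2 ^ 2) -
          (c : F) * (3 * x1 ^ 2 * x2 - x2 ^ 3) := by
        linear_combination -hI1
      rw [e] at h1
      exact h1
    · have h1 := ((hd1.mul hS).add (hd2.mul hR)).mono (m := 2) (by omega)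
      have e : (Y - (α ^ 3 - 3 * α * (c : F) ^ 2)) * (3 * x1 ^ 2 * x2 - x2 ^ 3) +
        ((c : F) - ((c : F) ^ 3 - 3 * α ^ 2 * (c : F))) * (x1 ^ 3 - 3 * x1 * x2 ^ 2) =
        Y * (3 * x1 ^ 2 * x2 - x2 ^ 3) + (c : F) * (x1 ^ 3 - 3 * x1 * x2 ^ 2) := by
        linear_combination -hI2
      rw [e] at h1
      exact h1
  · have hX0 : X ≠ 0 := by
      rintro rfl
      exact hXc q10_ge_zero
    obtain ⟨n, hn⟩ := q10_exists (w := w) hX0
    have hneg : n < 0 := by
      by_contra hcon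
      exact hXc (hn.ge.mono (by omega))
    have hn3 := SB3.s13_cube_eq hn
    have h2 := hn3.add (hc2.neg.ge.mono (m := 3 * n + 1) (by omega))
    rw [← sub_eq_add_neg, ← h] at h2
    obtain ⟨m, hm, hY⟩ := SB3.s13_sq h2
    obtain ⟨j, rfl⟩ : ∃ j, n = -2 * j := ⟨m - 2 * n + 0, by omega⟩
    have hmj : m = -3 * j := by omega
    subst hmj
    have hj := SB3.s13_zpow hθ1 j
    refine ⟨⟨θ ^ j, 0⟩, Y * (θ ^ j) ^ 3, (c : F) * (θ ^ j) ^ 3, ?_, ?_, ?_, ?_⟩
    · rw [QuadraticAlgebra.isUnit_iff_norm_isUnit, isUnit_iff_ne_zero,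
          QuadraticAlgebra.norm_def]
      simp only [mul_zero, add_zero, sub_zero]
      exact mul_ne_zero (zpow_ne_zero _ hθ0) (zpow_ne_zero _ hθ0)
    · rw [sh3_mul_cube]
      ext
      · simp
      · simp
    · apply hone
      have := hY.mul (SB3.s13_cube_eq hj)
      have e : -3 * j + 3 * j = 0 := by ring
      rwa [e] at this
    · exact (hcu.mul (SB3.s13_cube_eq hj)).ge.mono (by omega)

end R3S
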