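import Pool.Agent.MP_9ab903_nt.RS.SHDefs
import Pool.Agent.MP_9ab903_nt.S3.S13

set_option autoImplicit false

open NumberField IsDedekindDomain
open CM27 CMT CF BS3 SB3 RF
open scoped Classical

namespace R3S

/-! ## [RS-SH4] from the completion to `F` (file SH4.lean) -/

theorem sh4_mul_cube {K : Type} [Field K] (z1 z2 x1 x2 : K) :
    (⟨z1, z2⟩ : Q2 (-1) K) * (⟨x1, x2⟩ : Q2 (-1) K) ^ 3 =
      ⟨z1 * (x1 ^ 3 - 3 * x1 * x2 ^ 2) - z2 * (3 * x1 ^ 2 * x2 - x2 ^ 3),
        z1 * (3 * x1 ^ 2 * x2 - x2 ^ 3) + z2 * (x1 ^ 3 - 3 * x1 * x2 ^ 2)⟩ := by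
  ext
  · simp only [pow_succ, pow_zero, one_mul, QuadraticAlgebra.re_mul, QuadraticAlgebra.im_mul]
    push_cast
    ring
  · simp only [pow_succ, pow_zero, one_mul, QuadraticAlgebra.re_mul, QuadraticAlgebra.im_mul]
    push_cast
    ring

/-- See `SB3.inU3_of_locCond3` (S3/S13.lean) for the analogous step. If `z ≠ 0` and
`z u³ = ⟨a, b⟩` over the completion, approximate the coordinates of `u` by elements of `F` (density of `F` in the
completion) so well that for the resulting `u' ∈ Q2 (-1) F` the coordinates of `z u'³ - z u³` have valuation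
`≤ exp (-2)`; then `z u'³ = ⟨a', b'⟩` with `v(a') = 1`, `v(b') ≤ exp(-2)`, and `u'` is a unit since its
norm is not `0` (the norm of `z u'³` is `a'² + b'²`, of valuation `1`). -/
theorem inI_approx {F : Type} [Field F] [NumberField F] (v : HeightOneSpectrum (𝓞 F))
    (z : Q2 (-1) F)
    (h : InI (Valued.v : Valuation (v.adicCompletion F) (WithZero (Multiplicative ℤ)))
      (mapQ (algebraMap F (v.adicCompletion F)) z)) : InI (v.valuation F) z := by
  have hval : ∀ k : F, Valued.v (algebraMap F (v.adicCompletion F) k) = v.valuation F k :=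
    fun k => HeightOneSpectrum.valuedAdicCompletion_eq_valuation' v k
  obtain ⟨π, hπ⟩ := v.valuation_exists_uniformizer F
  have hπ0 : π ≠ 0 := by
    rintro rfl
    rw [map_zero] at hπ
    exact WithZero.exp_ne_zero hπ.symm
  have hπi : v.valuation F π⁻¹ = WithZero.exp (1 : ℤ) := by
    rw [map_inv₀, hπ, ← WithZero.exp_neg, neg_neg]
  obtain ⟨⟨t1, t2⟩, a, b, -, h4, ha, hb⟩ := h
  obtain ⟨z1, z2⟩ := z
  rw [mapQ_apply, sh4_mul_cube] at h4
  have e1 := congrArg QuadraticAlgebra.re h4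
  have e2 := congrArg QuadraticAlgebra.im h4
  simp only at e1 e2
  have hlt : IsOpen {x : v.adicCompletion F | Valued.v x < 1} := by
    have := Valued.isOpen_ball (v.adicCompletion F) 1
    simpa only [Valuation.restrict_lt_one_iff] using this
  set i := algebraMap F (v.adicCompletion F) with hi
  have hopen : IsOpen {x : v.adicCompletion F × v.adicCompletion F |
      Valued.v (i z1 * (x.1 ^ 3 - 3 * x.1 * x.2 ^ 2) -
        i z2 * (3 * x.1 ^ 2 * x.2 - x.2 ^ 3) - a) < 1 ∧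
      Valued.v ((i z1 * (3 * x.1 ^ 2 * x.2 - x.2 ^ 3) +
        i z2 * (x.1 ^ 3 - 3 * x.1 * x.2 ^ 2)) * i π⁻¹) < 1} := by
    refine IsOpen.inter ?_ ?_
    · exact hlt.preimage (f := fun x : v.adicCompletion F × v.adicCompletion F
        => i z1 * (x.1 ^ 3 - 3 * x.1 * x.2 ^ 2) -
        i z2 * (3 * x.1 ^ 2 * x.2 - x.2 ^ 3) - a) (by fun_prop)
    · exact hlt.preimage (f := fun x : v.adicCompletion F × v.adicCompletion F
        => (i z1 * (3 * x.1 ^ 2 * x.2 - x.2 ^ 3) +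
        i z2 * (x.1 ^ 3 - 3 * x.1 * x.2 ^ 2)) * i π⁻¹) (by fun_prop)
  have hd : DenseRange (i : F → v.adicCompletion F) :=
    HeightOneSpectrum.denseRange_algebraMap F v
  have hd2 := hd.prodMap hd
  obtain ⟨⟨x1, x2⟩, hx1, hx2⟩ := hd2.exists_mem_open hopen ⟨(t1, t2), by
    constructor
    · rw [e1, sub_self, map_zero]
      exact zero_lt_one
    · rw [e2, map_mul, hval, hπi]
      calc Valued.v b * WithZero.exp (1 : ℤ) ≤ WithZero.exp (-2 : ℤ) * WithZero.exp (1 : ℤ) := by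
            gcongr
        _ = WithZero.exp (-1 : ℤ) := by rw [← WithZero.exp_add]; rfl
        _ < 1 := by
            rw [← WithZero.exp_zero, WithZero.exp_lt_exp]
            omega⟩
  have hA : v.valuation F (z1 * (x1 ^ 3 - 3 * x1 * x2 ^ 2) -
      z2 * (3 * x1 ^ 2 * x2 - x2 ^ 3)) = 1 := by
    rw [← hval]
    have h6 : Valued.v (i (z1 * (x1 ^ 3 - 3 * x1 * x2 ^ 2) -
      z2 * (3 * x1 ^ 2 * x2 - x2 ^ 3)) - a) < 1 := by
      simpa only [map_add, map_mul, map_pow, map_sub, map_one, map_ofNat, Prod.map_apply]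
        using hx1
    have h7 : i (z1 * (x1 ^ 3 - 3 * x1 * x2 ^ 2) -
      z2 * (3 * x1 ^ 2 * x2 - x2 ^ 3)) = a + (i (z1 * (x1 ^ 3 - 3 * x1 * x2 ^ 2) -
      z2 * (3 * x1 ^ 2 * x2 - x2 ^ 3)) - a) := by ring
    rw [h7, Valuation.map_add_eq_of_lt_left _ (by rw [ha]; exact h6)]
    exact ha
  have hB : v.valuation F (z1 * (3 * x1 ^ 2 * x2 - x2 ^ 3) +
      z2 * (x1 ^ 3 - 3 * x1 * x2 ^ 2)) ≤ WithZero.exp (-2 : ℤ) := by
    have h6 : v.valuation F ((z1 * (3 * x1 ^ 2 * x2 - x2 ^ 3) +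
        z2 * (x1 ^ 3 - 3 * x1 * x2 ^ 2)) * π⁻¹) < 1 := by
      rw [← hval]
      simpa only [map_add, map_mul, map_pow, map_sub, map_one, map_ofNat, Prod.map_apply]
        using hx2
    rw [map_mul, hπi] at h6
    by_cases h0 : z1 * (3 * x1 ^ 2 * x2 - x2 ^ 3) + z2 * (x1 ^ 3 - 3 * x1 * x2 ^ 2) = 0
    · rw [h0, map_zero]; exact zero_le
    · obtain ⟨n, hn⟩ := q10_exists (w := v.valuation F) h0
      unfold q10_eq at hn
      rw [hn, ← WithZero.exp_add, ← WithZero.exp_zero, WithZero.exp_lt_exp] at h6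
      rw [hn, WithZero.exp_le_exp]
      omega
  refine ⟨⟨x1, x2⟩, _, _, ?_, sh4_mul_cube z1 z2 x1 x2, hA, hB⟩
  have hu : IsUnit ((⟨z1, z2⟩ : Q2 (-1) F) * (⟨x1, x2⟩ : Q2 (-1) F) ^ 3) := by
    rw [QuadraticAlgebra.isUnit_iff_norm_isUnit, isUnit_iff_ne_zero, sh4_mul_cube,
      QuadraticAlgebra.norm_def]
    simp only [zero_mul, add_zero]
    set A := z1 * (x1 ^ 3 - 3 * x1 * x2 ^ 2) - z2 * (3 * x1 ^ 2 * x2 - x2 ^ 3) with hAd
    set B := z1 * (3 * x1 ^ 2 * x2 - x2 ^ 3) + z2 * (x1 ^ 3 - 3 * x1 * x2 ^ 2) with hBd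
    intro h0
    have h8 : A * A = -(B * B) := by
      push_cast at h0
      linear_combination h0
    have h9 := congrArg (v.valuation F) h8
    rw [Valuation.map_neg, map_mul, map_mul, hA, one_mul] at h9
    have hB1 : v.valuation F B < 1 := by
      refine lt_of_le_of_lt hB ?_
      rw [← WithZero.exp_zero, WithZero.exp_lt_exp]
      omega
    have h10 : v.valuation F B * v.valuation F B < 1 :=
      mul_lt_one_of_nonneg_of_lt_one_left zero_le hB1 hB1.le
    rw [← h9] at h10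
    exact lt_irrefl _ h10
  exact isUnit_of_mul_isUnit_right hu |> fun h => (isUnit_pow_iff (by norm_num)).1 h

end R3S
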