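import Pool.Agent.MP_9ab903_nt.RS.SH3
import Pool.Agent.MP_9ab903_nt.RS.SH4

set_option autoImplicit false

open NumberField IsDedekindDomain
open CM27 CMT CF BS3 SB3 RF
open scoped Classical

namespace R3S

/-! ## [RS-SH5] the local conditions at the places above `3` (file SH5.lean; uses the stubs of SH3, SH4) -/

theorem sh5_cube {F : Type} [Field F] (w : Valuation F (WithZero (Multiplicative ℤ)))
    (z t : Q2 (-1) F) (ht : IsUnit t) (h : InI w z) : InI w (z * t ^ 3) := by
  obtain ⟨u, a, b, hu, h1, ha, hb⟩ := h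
  obtain ⟨t, rfl⟩ := ht
  refine ⟨u * ↑t⁻¹, a, b, hu.mul (Units.isUnit _), ?_, ha, hb⟩
  have h2 : (t : Q2 (-1) F) * ↑t⁻¹ = 1 := t.mul_inv
  rw [← h1]
  linear_combination (z * u ^ 3 * (((t : Q2 (-1) F) * ↑t⁻¹) ^ 2 + (t : Q2 (-1) F) * ↑t⁻¹ + 1)) * h2

theorem sh5_one {F : Type} [Field F] (w : Valuation F (WithZero (Multiplicative ℤ))) :
    InI w (1 : Q2 (-1) F) := by
  refine ⟨1, 1, 0, isUnit_one, ?_, map_one w, ?_⟩
  · rw [one_pow, mul_one]
    ext
    · rw [QuadraticAlgebra.re_one]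
    · rw [QuadraticAlgebra.im_one]
  · rw [map_zero]
    exact zero_le

theorem sh5_const {F : Type} [Field F] (c : F) (hc : c ≠ 0) :
    IsUnit (⟨c, 0⟩ : Q2 (-1) F) := by
  rw [QuadraticAlgebra.isUnit_iff_norm_isUnit, isUnit_iff_ne_zero, QuadraticAlgebra.norm_def]
  simp only [mul_zero, add_zero, sub_zero]
  exact mul_ne_zero hc hc

theorem sh5_id1 {C : Type} [Field C] (θ y r : C) (h0 : θ ≠ 0) (hθ : θ ^ 2 = -3) :
    (⟨y, θ * -(3 * r)⟩ : Q2 (-1) C) = (⟨y / θ ^ 3, r⟩ : Q2 (-1) C) * (⟨θ, 0⟩ : Q2 (-1) C) ^ 3 := by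
  ext
  · simp only [pow_succ, pow_zero, one_mul, QuadraticAlgebra.re_mul, QuadraticAlgebra.im_mul]
    field_simp
    ring
  · simp only [pow_succ, pow_zero, one_mul, QuadraticAlgebra.re_mul, QuadraticAlgebra.im_mul]
    linear_combination (-r * θ) * hθ

theorem sh5_id2 {C : Type} [Field C] [CharZero C] (y r : C) :
    (⟨y, -(3 * (9 * r))⟩ : Q2 (-1) C) = (⟨y / 27, -r⟩ : Q2 (-1) C) * (⟨3, 0⟩ : Q2 (-1) C) ^ 3 := by
  ext
  · simp only [pow_succ, pow_zero, one_mul, QuadraticAlgebra.re_mul, QuadraticAlgebra.im_mul]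
    ring
  · simp only [pow_succ, pow_zero, one_mul, QuadraticAlgebra.re_mul, QuadraticAlgebra.im_mul]
    ring

theorem sh5_map_tw {F C : Type} [Field F] [Field C] (i : F →+* C) (θ : F) (hθ : θ ^ 2 = -3)
    (hθ' : (i θ) ^ 2 = -3) (z : Q2 3 F) : mapQ i (tw θ hθ z) = tw (i θ) hθ' (mapQ i z) := by
  rw [tw_apply, tw_apply, mapQ_apply, mapQ_apply]
  ext
  · rfl
  · exact map_mul i _ _

/-- `k = -r²`, `δ = 3`, `e = r`. First alternative: `z = ⟨y, -3 r⟩ u³` for a point `(x, y)` of `y² = x³ + 27 r²` (or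
`z = u³` for the point at infinity; then `InI` is clear). `tw` maps this to `⟨y, -3 r θ⟩ u'³`; with
`x = θ² X`, `y = θ³ Y` (`θ³ = -3 θ`, `θ⁶ = -27`) we have `Y² = X³ - r²` and `⟨y, -3 r θ⟩ = θ³ ⟨Y, r⟩`; `inI_point`. The second
alternative: `s² = 3` gives `(s/θ)² = -1`, a contradiction to `hns`. Then `inI_approx`; `mapQ (algebraMap)` and `tw`
commute. -/
theorem locI_three {F : Type} [Field F] [NumberField F] (θ : F) (hθ : θ ^ 2 = -3) (r : ℤ)
    (hr : r ^ 2 % 9 = 7) (v : HeightOneSpectrum (𝓞 F)) (hv : v.valuation F θ = WithZero.exp (-1 : ℤ))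
    (hns : ∀ x : v.adicCompletion F, ¬ Valued.v (x ^ 2 + 1) < 1) (z : Q2 3 F)
    (h : LocCond3 (-r ^ 2) r z (v.adicCompletion F)) : InI (v.valuation F) (tw θ hθ z) := by
  have hch : CharZero (v.adicCompletion F) :=
    charZero_of_injective_algebraMap (algebraMap F (v.adicCompletion F)).injective
  have hθ' : (algebraMap F (v.adicCompletion F) θ) ^ 2 = -3 := by
    rw [← map_pow, hθ, map_neg, map_ofNat]
  have hv' : Valued.v (algebraMap F (v.adicCompletion F) θ) = WithZero.exp (-1 : ℤ) := by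
    rw [← hv]
    exact HeightOneSpectrum.valuedAdicCompletion_eq_valuation' v θ
  apply inI_approx
  rw [sh5_map_tw _ θ hθ hθ']
  have h0 : algebraMap F (v.adicCompletion F) θ ≠ 0 := by
    intro h1
    rw [h1] at hθ'
    norm_num at hθ'
  rcases h with ⟨P, u, hu, hz⟩ | ⟨s, g, hs, -, -⟩
  · rw [hz, map_mul, map_pow]
    refine sh5_cube _ _ _ (hu.map _) ?_
    rcases P with _ | ⟨x, y, hxy⟩
    · have h1 : zq 3 (3 * r) (WeierstrassCurve.Affine.Point.zero :
          (W (-27 * -r ^ 2) (v.adicCompletion F)).toAffine.Point) = 1 := rfl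
      rw [h1, map_one]
      exact sh5_one _
    · have hE : y ^ 2 = x ^ 3 + 27 * (r : v.adicCompletion F) ^ 2 := by
        have h1 := (W_equation x y).1 hxy.1
        push_cast at h1
        linear_combination h1
      set θ' := algebraMap F (v.adicCompletion F) θ with hθd
      have hX : (y / θ' ^ 3) ^ 2 = (x / θ' ^ 2) ^ 3 - (r : v.adicCompletion F) ^ 2 := by
        have h6 : θ' ^ 6 = -27 := by
          linear_combination (θ' ^ 4 - 3 * θ' ^ 2 + 9) * hθ'
        rw [div_pow, div_pow, ← pow_mul, ← pow_mul, h6, hE]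
        ring
      have h1 := inI_point _ θ' hθ' hv' hns r hr _ _ hX
      have h2 := sh5_cube _ _ _ (sh5_const θ' h0) h1
      have h3 : tw θ' hθ' (zq 3 (3 * r) (WeierstrassCurve.Affine.Point.some x y hxy :
          (W (-27 * -r ^ 2) (v.adicCompletion F)).toAffine.Point)) =
          (⟨y / θ' ^ 3, (r : v.adicCompletion F)⟩ : Q2 (-1) (v.adicCompletion F)) *
            (⟨θ', 0⟩ : Q2 (-1) (v.adicCompletion F)) ^ 3 := by
        have h4 : zq 3 (3 * r) (WeierstrassCurve.Affine.Point.some x y hxy :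
          (W (-27 * -r ^ 2) (v.adicCompletion F)).toAffine.Point) =
          (⟨y, -((3 * r : ℤ) : v.adicCompletion F)⟩ : Q2 3 (v.adicCompletion F)) := rfl
        rw [h4, tw_apply, ← sh5_id1 θ' y (r : v.adicCompletion F) h0 hθ']
        push_cast
        rfl
      rw [h3]
      exact h2
  · exfalso
    refine hns (s / algebraMap F (v.adicCompletion F) θ) ?_
    have h1 : (s / algebraMap F (v.adicCompletion F) θ) ^ 2 + 1 = 0 := by
      rw [div_pow, hθ', sq, hs]
      norm_num
    rw [h1, map_zero]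
    exact zero_lt_one

/-- `k = 27 r²`, `δ = -1`, `e = 9 r`: `z = ⟨y, -27 r⟩ u³` for a point `(x, y)` of `y² = x³ - 729 r²`, `x = 9 X`,
`y = 27 Y`, `⟨y, -27 r⟩ = 3³ ⟨Y, -r⟩`; `inI_point` for `c = -r`. The second alternative: `s² = -1`. -/
theorem locI_neg {F : Type} [Field F] [NumberField F] (θ : F) (hθ : θ ^ 2 = -3) (r : ℤ)
    (hr : r ^ 2 % 9 = 7) (v : HeightOneSpectrum (𝓞 F)) (hv : v.valuation F θ = WithZero.exp (-1 : ℤ))
    (hns : ∀ x : v.adicCompletion F, ¬ Valued.v (x ^ 2 + 1) < 1) (z : Q2 (-1) F)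
    (h : LocCond3 (-27 * -r ^ 2) (9 * r) z (v.adicCompletion F)) : InI (v.valuation F) z := by
  have hch : CharZero (v.adicCompletion F) :=
    charZero_of_injective_algebraMap (algebraMap F (v.adicCompletion F)).injective
  have hθ' : (algebraMap F (v.adicCompletion F) θ) ^ 2 = -3 := by
    rw [← map_pow, hθ, map_neg, map_ofNat]
  have hv' : Valued.v (algebraMap F (v.adicCompletion F) θ) = WithZero.exp (-1 : ℤ) := by
    rw [← hv]
    exact HeightOneSpectrum.valuedAdicCompletion_eq_valuation' v θ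
  apply inI_approx
  rcases h with ⟨P, u, hu, hz⟩ | ⟨s, g, hs, -, -⟩
  · rw [hz]
    refine sh5_cube _ _ _ hu ?_
    rcases P with _ | ⟨x, y, hxy⟩
    · exact sh5_one _
    · have hE : y ^ 2 = x ^ 3 - 729 * (r : v.adicCompletion F) ^ 2 := by
        have h1 := (W_equation x y).1 hxy.1
        push_cast at h1
        linear_combination h1
      have hX : (y / 27) ^ 2 = (x / 9) ^ 3 - ((-r : ℤ) : v.adicCompletion F) ^ 2 := by
        push_cast
        linear_combination (1 / 729 : v.adicCompletion F) * hE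
      have h1 := inI_point _ _ hθ' hv' hns (-r) (by rw [neg_sq]; exact hr) _ _ hX
      have h2 := sh5_cube _ _ _ (sh5_const (3 : v.adicCompletion F) (by norm_num)) h1
      have h3 : zq (-1) (3 * (9 * r)) (WeierstrassCurve.Affine.Point.some x y hxy :
          (W (-27 * (-27 * -r ^ 2)) (v.adicCompletion F)).toAffine.Point) =
          (⟨y / 27, ((-r : ℤ) : v.adicCompletion F)⟩ : Q2 (-1) (v.adicCompletion F)) *
            (⟨3, 0⟩ : Q2 (-1) (v.adicCompletion F)) ^ 3 := by
        have h4 : zq (-1) (3 * (9 * r)) (WeierstrassCurve.Affine.Point.some x y hxy :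
          (W (-27 * (-27 * -r ^ 2)) (v.adicCompletion F)).toAffine.Point) =
          (⟨y, -((3 * (9 * r) : ℤ) : v.adicCompletion F)⟩ : Q2 (-1) (v.adicCompletion F)) := rfl
        have e1 : ((3 * (9 * r) : ℤ) : v.adicCompletion F) = 3 * (9 * (r : v.adicCompletion F)) := by
          push_cast
          rfl
        have e2 : ((-r : ℤ) : v.adicCompletion F) = -(r : v.adicCompletion F) := by
          push_cast
          rfl
        rw [h4, e1, e2]
        exact sh5_id2 y (r : v.adicCompletion F)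
      rw [h3]
      exact h2
  · exfalso
    refine hns s ?_
    have h1 : s ^ 2 + 1 = 0 := by
      rw [sq, hs]
      norm_num
    rw [h1, map_zero]
    exact zero_lt_one

end R3S
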