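import Pool.Agent.MP_9ab903_nt.RS.TDefs
import Pool.Agent.MP_9ab903_nt.S3.SDefs
import Pool.Agent.MP_ae0bd0_nt.RF.A0

/-!
# [RS] definitions for the descent over `F ∋ ω`
-/

set_option autoImplicit false

open NumberField IsDedekindDomain
open CM27 CMT CF BS3 SB3 RF
open scoped Classical

namespace R3S

/-- `z` is, modulo cubes, of the form `a + b i` with `w a = 1`, `w b ≤ exp (-2)`. -/
def InI {F : Type} [Field F] (w : Valuation F (WithZero (Multiplicative ℤ))) (z : Q2 (-1) F) :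
    Prop :=
  ∃ (u : Q2 (-1) F) (a b : F), IsUnit u ∧ z * u ^ 3 = ⟨a, b⟩ ∧ w a = 1 ∧
    w b ≤ WithZero.exp (-2 : ℤ)

/-- The elements of `F(i)` which satisfy the conditions of a Selmer element. -/
structure GoodI {F : Type} [Field F] [NumberField F] [Fact (NonSq (-1) F)] (c : ℤ)
    (z : Q2 (-1) F) : Prop where
  ne : z ≠ 0
  norm : ∃ n : F, z.norm = n ^ 3
  val : ∀ P : HeightOneSpectrum (𝓞 (Q2 (-1) F)), ((c : ℤ) : 𝓞 (Q2 (-1) F)) ∉ P.asIdeal →
    ∃ g, P.valuation (Q2 (-1) F) z = g ^ 3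
  three : ∀ v : HeightOneSpectrum (𝓞 F), (3 : 𝓞 F) ∈ v.asIdeal → InI (v.valuation F) z

/-- The isomorphism `F(√3) → F(i)`, `√3 ↦ θ i`, `θ² = -3`. -/
noncomputable def tw {F : Type} [Field F] (θ : F) (hθ : θ ^ 2 = -3) : Q2 3 F →+* Q2 (-1) F where
  toFun z := ⟨z.re, θ * z.im⟩
  map_one' := by
    ext
    · simp [QuadraticAlgebra.re_one]
    · simp [QuadraticAlgebra.im_one]
  map_zero' := by
    ext
    · simp
    · simp
  map_add' x y := by
    ext
    · simp
    · simp [mul_add]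
  map_mul' x y := by
    ext
    · simp only [QuadraticAlgebra.re_mul]
      push_cast
      linear_combination (x.im * y.im) * hθ
    · simp only [QuadraticAlgebra.im_mul]
      push_cast
      ring

theorem tw_apply {F : Type} [Field F] (θ : F) (hθ : θ ^ 2 = -3) (z : Q2 3 F) :
    tw θ hθ z = ⟨z.re, θ * z.im⟩ := rfl

/-- `tw` is surjective -/
theorem tw_surj {F : Type} [Field F] [CharZero F] (θ : F) (hθ : θ ^ 2 = -3) :
    Function.Surjective (tw θ hθ) := by
  intro z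
  have h0 : θ ≠ 0 := by
    rintro rfl
    norm_num at hθ
  refine ⟨⟨z.re, θ⁻¹ * z.im⟩, ?_⟩
  rw [tw_apply]
  ext
  · rfl
  · exact mul_inv_cancel_left₀ h0 _

end R3S
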