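import Pool.Agent.MP_ae0bd0_nt.RF.Defs
import Pool.Agent.MP_ae0bd0_nt.RF.R1
import Pool.Agent.MP_ae0bd0_nt.RF.B8

/-!
# [RS] definitions for the arithmetic part
-/

set_option autoImplicit false

open NumberField IsDedekindDomain
open CM27 CMT CF BS3 RF
open scoped Classical

namespace R3S

/-- `F / ℚ(ω)` is Galois of degree `3^n` and unramified outside of `m` (a product of primes `≡ 7 mod 12`). -/
structure Base (m n : ℕ) (K F : Type) [Field K] [NumberField K] [Field F] [NumberField F]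
    [Algebra K F] : Prop where
  gal : IsGalois K F
  deg : Module.finrank K F = 3 ^ n
  good : Good m
  unr : Unr m K F

/-- The hypotheses on the places of `F` above the primes dividing `6 r`. -/
structure LocHyp (r : ℕ) (F : Type) [Field F] [NumberField F] : Prop where
  mild : ∀ p, p.Prime → p ∣ 6 * r → Mild p F
  neg : ∀ p : ℕ, p.Prime → (p = 3 ∨ p % 12 = 7) → ∀ v : HeightOneSpectrum (𝓞 F),
    (p : 𝓞 F) ∈ v.asIdeal → ∀ x : v.adicCompletion F, ¬ Valued.v (x ^ 2 + 1) < 1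
  ram : ∀ v : HeightOneSpectrum (𝓞 F), v.valuation F (3 : F) = WithZero.exp (-2 : ℤ) →
    ∀ ϖ ε x : v.adicCompletion F, Valued.v ϖ = WithZero.exp (-1 : ℤ) → 3 = ε * ϖ ^ 2 →
      ¬ Valued.v (x ^ 2 - ε) < 1

/-- `s` is in the inertia group of the place `P`. -/
def InertBy {F : Type} [Field F] [NumberField F] (s : F ≃+* F) (P : HeightOneSpectrum (𝓞 F)) :
    Prop :=
  ∀ x y : 𝓞 F, (y : F) = s (x : F) → y - x ∈ P.asIdeal

/-- The automorphisms of order `2`. -/
def Inv2 (F : Type) [Field F] [NumberField F] : Set (F ≃ₐ[ℚ] F) := {t | t ≠ 1 ∧ t * t = 1}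

/-- `F / ℚ` is Galois of degree `2 · 3^n`, contains `ω`, all places above `3` have ramification index `2`, `t` is
the nontrivial automorphism of `F` over the subfield `F₀`. -/
structure Tow (n : ℕ) (F₀ F : Type) [Field F₀] [NumberField F₀] [Field F] [NumberField F]
    [Algebra F₀ F] (om : F) (t : F ≃ₐ[ℚ] F) : Prop where
  gal : IsGalois ℚ F
  deg : Module.finrank ℚ F = 2 * 3 ^ n
  omeq : om ^ 2 + om + 1 = 0
  ram : ∀ P : HeightOneSpectrum (𝓞 F), (3 : 𝓞 F) ∈ P.asIdeal →
    P.valuation F (3 : F) = WithZero.exp (-2 : ℤ)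
  ne : t ≠ 1
  sq : t * t = 1
  om_t : t om = -1 - om
  fix : ∀ x : F, t x = x ↔ ∃ y : F₀, algebraMap F₀ F y = x

end R3S
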