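import Pool.Agent.MP_9ab903_nt.RS.VDefs

set_option autoImplicit false

open scoped ComplexConjugate Classical
open Filter Topology NumberField CM27 CMT CF BS3 SB3 RF

namespace R3S

/-! ## [RS-V1] the value at `1` for characters `IsG` (file V1.lean; port of A3/A2.lean `L_value`
from `IsCh` to `IsG`; the Dirichlet series is `RF.v0_series`) -/

/-- averaging over the six units -/
theorem v1_average {M : ℕ} (hM : M ≠ 0) {φ : Eis → ℂ} (hφ : IsG M φ) (u : ℤ)
    (hu : u = 1 ∨ u = -1) :
    6 * rsum M (fun v => φ v * Kr (emb v / M + u / 3)) =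
      u * rsum M (fun v => φ v * Fst (emb v / M)) := by
  have hM' : (M : ℂ) ≠ 0 := by exact_mod_cast hM
  set G : Eis → ℂ := fun v => φ v * Kr (emb v / M + u / 3) with hG
  have hper : ∀ a b, G (a + (M : Eis) * b) = G a := by
    intro a b
    have h1 : emb (a + (M : Eis) * b) / M + u / 3 = (emb a / M + u / 3) + emb b := by
      rw [map_add, map_mul, map_natCast]
      field_simp
      ring
    simp only [hG]
    rw [hφ.per, h1, Kr_add _ (s2_tors M hM u a)]
  have h1 : ∀ e ∈ U6, rsum M G = rsum M (fun v => φ v * ((emb e)⁻¹ *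
      Kr (emb v / M + (emb e)⁻¹ * (u / 3)))) := by
    intro e he
    have hue : IsUnit e := (mem_U6 e).1 he
    have hcop : IsCoprime e (M : Eis) := by
      obtain ⟨f, hf⟩ := hue.exists_left_inv
      exact ⟨f, 0, by rw [hf, zero_mul, add_zero]⟩
    rw [← rsum_mul M hM G hper e hcop]
    refine s2_rsum_congr M _ _ fun v => ?_
    have he0 : emb e ≠ 0 := by
      intro h0
      have := emb_injective (h0.trans (map_zero emb).symm)
      rw [this] at hue
      exact not_isUnit_zero hue
    have h2 : emb (e * v) / M + u / 3 = emb e * (emb v / M + (emb e)⁻¹ * (u / 3)) := by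
      rw [map_mul]
      field_simp
    have h3 : Tors (emb v / M + (emb e)⁻¹ * (u / 3)) := by
      have h4 : emb v / M + (emb e)⁻¹ * (u / 3) = emb (star e) * (emb (e * v) / M + u / 3) := by
        rw [s2_star e he, map_mul]
        field_simp
      rw [h4]
      exact tors_mul (s2_tors M hM u (e * v)) _
    simp only [hG]
    rw [hφ.mul, hφ.unit e hue, one_mul, h2, Kr_unit _ h3 e hue]
  have h2 : 6 * rsum M G = ∑ e ∈ U6, rsum M (fun v => φ v * ((emb e)⁻¹ *
      Kr (emb v / M + (emb e)⁻¹ * (u / 3)))) := by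
    rw [← Finset.sum_congr rfl h1, Finset.sum_const, s2_card]
    norm_num
  rw [h2, ← s2_rsum_sum, ← s2_rsum_smul]
  refine s2_rsum_congr M _ _ fun v => ?_
  rw [← Finset.mul_sum, Fst]
  have h3 : ∑ e ∈ U6, (emb e)⁻¹ * Kr (emb v / M + (emb e)⁻¹ * (u / 3)) =
      u * ∑ e ∈ U6, emb e * Kr (emb v / M + emb e / 3) := by
    rw [Finset.mul_sum]
    rcases hu with rfl | rfl
    · refine Finset.sum_bij' (fun e _ => star e) (fun e _ => star e) s2_star_mem s2_star_mem
        (fun e _ => star_star e) (fun e _ => star_star e) ?_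
      intro e he
      rw [s2_star e he]
      push_cast
      rw [one_mul]
      congr 3
      ring
    · refine Finset.sum_bij' (fun e _ => -star e) (fun e _ => -star e)
        (fun e he => s2_neg_mem _ (s2_star_mem e he)) (fun e he => s2_neg_mem _ (s2_star_mem e he))
        (fun e _ => by rw [star_neg, star_star, neg_neg])
        (fun e _ => by rw [star_neg, star_star, neg_neg]) ?_
      intro e he
      rw [map_neg, s2_star e he]
      push_cast
      rw [neg_one_mul, neg_mul, neg_neg]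
      congr 3
      ring
  rw [h3]
  ring

/-- As `SB3.L_value` (A3/A2.lean) and `RF.L_entire'` (RF/V0.lean): `u` from `s2_u M h3` is `e`; entire function
and series as in `L_entire'` (`v0_series`); the value as in `L_value`, where `s2_average` (B3/S2.lean) has to be
ported from `IsCh` to `IsG` (its proof uses `mul`, `per`, `unit` only). -/
theorem L_value_G {M : ℕ} (hM : M ≠ 0) (h3 : ¬ 3 ∣ M) : ∃ e : ℤ, e ^ 2 = 1 ∧
    ∀ φ : Eis → ℂ, IsG M φ → ∃ Φ : ℂ → ℂ, Differentiable ℂ Φ ∧
      (∀ s : ℂ, 3 / 2 < s.re → LSeriesSummable (cf φ) s ∧ Φ s = LSeries (cf φ) s) ∧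
      Φ 1 = e * φ 3 / (18 * M) * rsum M (fun v => φ v * Fst (emb v / M)) := by
  obtain ⟨u, hu, hu3⟩ := s2_u M h3
  refine ⟨u, by rcases hu with rfl | rfl <;> norm_num, fun φ hφ => ?_⟩
  have hM' : (M : ℂ) ≠ 0 := by exact_mod_cast hM
  have h3M : (3 * M : ℂ) ≠ 0 := mul_ne_zero three_ne_zero hM'
  have key := fun v : Eis => Kr_spec (emb v / M + u / 3) (s2_tors M hM u v)
  choose Φ hΦ1 hΦ2 hΦ3 using key
  refine ⟨fun s => φ 3 * (3 * M : ℂ) ^ (1 - 2 * s) * rsum M (fun v => φ v * Φ v s), ?_, ?_, ?_⟩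
  · have h1 : Differentiable ℂ fun s : ℂ => (3 * M : ℂ) ^ (1 - 2 * s) := by
      intro s
      exact ((differentiableAt_const _).sub ((differentiableAt_const _).mul
        differentiableAt_id)).const_cpow (Or.inl h3M)
    have h2 : Differentiable ℂ fun s : ℂ => rsum M (fun v => φ v * Φ v s) := by
      unfold rsum
      refine Differentiable.fun_sum fun i _ => Differentiable.fun_sum fun j _ => ?_
      exact (hΦ1 _).const_mul _
    exact ((differentiable_const _).mul h1).mul h2
  · intro s hs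
    obtain ⟨h1, h2⟩ := v0_series hM hφ u hu hu3 s hs
    refine ⟨h1, ?_⟩
    rw [h2]
    have h3 : rsum M (fun v => φ v * Φ v s) =
        rsum M (fun v => φ v * Hs s (emb v / M + u / 3)) :=
      s2_rsum_congr M _ _ fun v => by rw [hΦ2 v s hs]
    change φ 3 * (3 * M : ℂ) ^ (1 - 2 * s) * rsum M (fun v => φ v * Φ v s) = _
    rw [h3]
  · have h1 := v1_average hM hφ u hu
    have h2 : rsum M (fun v => φ v * Φ v 1) = rsum M (fun v => φ v * Kr (emb v / M + u / 3)) :=
      s2_rsum_congr M _ _ fun v => by rw [hΦ3]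
    have h4 : (3 * M : ℂ) ^ (1 - 2 * (1 : ℂ)) = (3 * M : ℂ)⁻¹ := by
      rw [show (1 - 2 * (1 : ℂ)) = -1 by norm_num, Complex.cpow_neg_one]
    change φ 3 * (3 * M : ℂ) ^ (1 - 2 * (1 : ℂ)) * rsum M (fun v => φ v * Φ v 1) = _
    rw [h2, h4]
    have h5 : (u : ℂ) * φ 3 / (18 * M) = φ 3 * (3 * M : ℂ)⁻¹ * (u / 6) := by
      field_simp
      ring
    rw [h5]
    linear_combination (φ 3 * (3 * M : ℂ)⁻¹ / 6) * h1

end R3S
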