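import Pool.Agent.MP_9ab903_nt.RS.VDefs

set_option autoImplicit false

open scoped ComplexConjugate Classical
open Filter Topology NumberField CM27 CMT CF BS3 SB3 RF

namespace R3S

/-! ## [RS-V1b] character sums for `IsG` (file V1b.lean; port of A3/A2.lean `rsum_zero`, `sum_SK`) -/

/-- orthogonality for `IsG` -/
theorem v1b_rsum_ch {M : ℕ} (hM : M ≠ 0) {φ : Eis → ℂ} (hφ : IsG M φ) (a : Eis)
    (ha : IsCoprime a (M : Eis)) (h1 : φ a ≠ 1) : rsum M φ = 0 := by
  have h := rsum_mul M hM φ hφ.per a ha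
  have h2 : rsum M (fun v => φ (a * v)) = φ a * rsum M φ := by
    unfold rsum
    rw [Finset.mul_sum]
    refine Finset.sum_congr rfl fun i _ => ?_
    rw [Finset.mul_sum]
    exact Finset.sum_congr rfl fun j _ => hφ.mul _ _
  rw [h2] at h
  have h3 : (φ a - 1) * rsum M φ = 0 := by linear_combination h
  rcases mul_eq_zero.1 h3 with h4 | h4
  · exact absurd (sub_eq_zero.1 h4) h1
  · exact h4

/-- As `SB3.rsum_zero`: `n1_exists` gives `a0` prime to the level with `ch4 a0 = -1`, hence `φ a0 ≠ 1`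
(otherwise `(-1)^(odd) = 1`), and `φ 0 = φ (a0 * 0) = φ a0 * φ 0`. `rsum_ch` has to be ported from `IsCh` to
`IsG`. -/
theorem rsum_zero_G (m : ℕ) (hm : Good m) (φ : Eis → ℂ) (hφ : IsG (4 * m) φ) (n : ℕ)
    (hχ : ∀ a, IsCoprime a ((4 * m : ℕ) : Eis) → (φ a * ch4 a) ^ 3 ^ n = 1) :
    rsum (4 * m) φ = 0 ∧ φ 0 = 0 := by
  have hm0 : m ≠ 0 := hm.1.ne_zero
  have hM0 : 4 * m ≠ 0 := by omega
  obtain ⟨a0, ha0, ha1⟩ := n1_exists m (n1_odd_m m hm)
  have hne : φ a0 ≠ 1 := by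
    intro h1
    have h2 := hχ a0 ha0
    rw [h1, ha1, one_mul, Odd.neg_one_pow (Odd.pow (by decide))] at h2
    norm_num at h2
  refine ⟨v1b_rsum_ch hM0 hφ a0 ha0 hne, ?_⟩
  have h := hφ.mul a0 0
  rw [mul_zero] at h
  have h3 : (φ a0 - 1) * φ 0 = 0 := by linear_combination -h
  rcases mul_eq_zero.1 h3 with h4 | h4
  · exact absurd (sub_eq_zero.1 h4) hne
  · exact h4

/-- As `SB3.sum_SK`. Here `φ v` can be nonzero for `v` not prime to `M`, but `emb v / M` is in the range of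
`emb` only if `M ∣ v`, and then `φ v = φ 0 = 0` (`per`); for the other `v` use `hK` and `inv_one_add`
(`n1_mul M hM0 v` is `M * (emb v / M) ∈ range emb`, `NP_of`). -/
theorem sum_SK_G (M : ℕ) (hM : 1 < M) (h3 : ¬ 3 ∣ M) (K : ℂ)
    (hK : ∀ z, z ∉ Set.range emb → NP z → (Fz z - Fz 0) * (1 + XX z) = K)
    (φ : Eis → ℂ) (hφ : IsG M φ) (h0 : rsum M φ = 0) (h00 : φ 0 = 0) :
    rsum M (fun v => φ v * Fst (emb v / M)) = K * SK M φ := by
  have hM0 : M ≠ 0 := by omega
  have hM' : (M : ℂ) ≠ 0 := by exact_mod_cast hM0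
  set C : ℂ := Fst (emb 1 / M) - Fz (emb 1 / M) + Fz 0 with hC
  have key : ∀ v : Eis, φ v * Fst (emb v / M) =
      C * φ v + K * (φ v * (1 + XX (emb v / M))⁻¹) := by
    intro v
    by_cases hv : emb v / M ∈ Set.range emb
    · obtain ⟨b, hb⟩ := hv
      have h1 : emb v = emb ((M : Eis) * b) := by
        rw [map_mul, map_natCast, hb]
        field_simp
      have h2 : v = 0 + (M : Eis) * b := by rw [zero_add]; exact emb_injective h1
      have h4 : φ v = 0 := by rw [h2, hφ.per, h00]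
      rw [h4]
      ring
    · have h1 := Fst_sub (emb v / M) (emb 1 / M) (n1_tors M hM0 v) (n1_tors M hM0 1)
        (NP_of M h3 _ (n1_mul M hM0 v)) (NP_of M h3 _ (n1_mul M hM0 1))
      have h2 := hK (emb v / M) hv (NP_of M h3 _ (n1_mul M hM0 v))
      obtain ⟨h4, -⟩ := inv_one_add M h3 (emb v / M) (n1_mul M hM0 v) hv
      have h6 : Fz (emb v / M) - Fz 0 = K * (1 + XX (emb v / M))⁻¹ := by
        rw [← h2, mul_assoc, mul_inv_cancel₀ h4, mul_one]
      rw [hC]
      linear_combination (φ v) * h1 + (φ v) * h6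
  rw [n1_rsum_congr M _ _ key, n1_rsum_add, n1_rsum_smul, n1_rsum_smul, h0, mul_zero, zero_add]
  rfl

end R3S
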