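import Pool.Agent.MP_9ab903_nt.RS.V1
import Pool.Agent.MP_9ab903_nt.RS.V1b

set_option autoImplicit false

open scoped ComplexConjugate Classical
open Filter Topology NumberField CM27 CMT CF BS3 SB3 RF

namespace R3S

/-! ## [RS-V2] the valuation of the algebraic part (file V2.lean; uses the stubs of V1, V1b) -/

theorem v2_two (A : ValuationSubring ℂ) (hA : A.valuation 3 < 1) : A.valuation (2 : ℂ) = 1 := by
  have := val_int3 A hA 2 (by norm_num)
  exact_mod_cast this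

/-- an Euler factor at a bad prime is a unit -/
theorem v2_factor (A : ValuationSubring ℂ) (hA : A.valuation 3 < 1) (b : Eis) (hb : Primary b)
    (x : ℂ) (n : ℕ) (hx : x = 0 ∨ (-x) ^ 3 ^ n = 1) : A.valuation (1 - x * (emb b)⁻¹) = 1 := by
  obtain ⟨e, he⟩ := hb
  have hbe : emb b = 1 + 3 * emb e := by
    have h1 := congrArg emb he
    rw [map_sub, map_one, map_mul] at h1
    have h2 : emb (3 : Eis) = 3 := map_ofNat emb 3
    rw [h2] at h1
    linear_combination h1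
  have h3e : A.valuation (3 * emb e) < 1 := by
    rw [map_mul]
    calc A.valuation 3 * A.valuation (emb e) ≤ A.valuation 3 * 1 :=
          mul_le_mul_right (val_emb A e) _
      _ < 1 := by rw [mul_one]; exact hA
  have hvb : A.valuation (emb b) = 1 := by
    rw [hbe]
    exact Valuation.map_one_add_of_lt _ h3e
  have hb0 : emb b ≠ 0 := by
    intro h
    rw [h, map_zero] at hvb
    exact zero_ne_one hvb
  rcases hx with rfl | hx
  · rw [zero_mul, sub_zero, map_one]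
  · obtain ⟨-, h2⟩ := val_root3 A hA (-x) n hx
    have h3 : 1 - x * (emb b)⁻¹ = (2 + (3 * emb e + (-x - 1))) * (emb b)⁻¹ := by
      have h4 : (emb b) * (emb b)⁻¹ = 1 := mul_inv_cancel₀ hb0
      linear_combination (-1 : ℂ) * h4 + (emb b)⁻¹ * hbe
    rw [h3, map_mul, map_inv₀, hvb, inv_one, mul_one]
    have h5 : A.valuation (3 * emb e + (-x - 1)) < A.valuation (2 : ℂ) := by
      rw [v2_two A hA]
      exact Valuation.map_add_lt _ h3e h2
    rw [Valuation.map_add_eq_of_lt_left _ h5, v2_two A hA]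

theorem v2_conj (b : Eis) (hb : b ≠ 0) :
    conj (emb b) * (((b.norm.natAbs : ℕ) : ℂ))⁻¹ = (emb b)⁻¹ := by
  have h1 : emb b ≠ 0 := by
    intro h
    apply hb
    apply emb_injective
    rw [h, map_zero]
  have h2 : emb b * conj (emb b) = ((b.norm.natAbs : ℕ) : ℂ) := by
    have h3 : emb b * conj (emb b) = ((b.norm : ℤ) : ℂ) := by
      rw [Complex.mul_conj, normSq_emb]
      push_cast
      rfl
    have h4 : ((b.norm.natAbs : ℕ) : ℤ) = b.norm := by
      have := a1_norm_pos hb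
      omega
    rw [h3, ← h4]
    simp
  have h5 : conj (emb b) ≠ 0 := by
    rw [Ne, map_eq_zero]
    exact h1
  rw [← h2, mul_inv, mul_comm (emb b)⁻¹, ← mul_assoc, mul_inv_cancel₀ h5, one_mul]

/-- Let `T` be from `RF.exists_primes (4 m)` and `φ' = strip T φ`, an `IsCh (4 m)` (`RF.v2_isCh`) with
`φ' a = φ a` for `a` prime to `4 m`. By `L_value_G` (the sign `e` is the same for `φ` and `φ'`: an `IsCh` is an
`IsG`) and `sum_SK_G`, with `K` from `XX_F`, `K ≠ 0`: `Φ 1 = e φ(3) / (18 · 4m) · K · SK φ`, same for `φ'`, and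
`φ' 3 = φ 3` (`3` is prime to `4 m`), `φ 3 ≠ 0` (`hχ`). By `RF.LSeries_strip` and the identity theorem (exactly as in
`RF.value_ne_zero`) `Φ' 1 = ∏_{b ∈ T} (1 - φ b conj(b) N(b)^{-1}) Φ 1`, so
`SK φ' = ∏_{b ∈ T} (1 - φ(b) / emb b) · SK φ`. Each factor is a unit at `A`: with `ζ = - φ b`, `ζ = 0` or
`ζ^(3^n) = 1` (`hb`; `b ∣ 4 m` for `b ∈ T`, as `b` is prime and not coprime to `4 m`), `emb b = 1 + 3 emb e`
(`Primary b`) is a unit, `ζ - 1` is in the maximal ideal (`val_root3`), so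
`(1 + ζ / emb b) = (emb b + ζ) / emb b` and `emb b + ζ ≡ 2`. Finally `SB3.SK_val` for `φ'`. -/
theorem SK_val_G (A : ValuationSubring ℂ) (hA : A.valuation 3 < 1) (m : ℕ) (hm : Good m)
    (φ : Eis → ℂ) (hφ : IsG (4 * m) φ) (n : ℕ)
    (hχ : ∀ a, IsCoprime a ((4 * m : ℕ) : Eis) → (φ a * ch4 a) ^ 3 ^ n = 1)
    (hb : ∀ b : Eis, Primary b → Prime b → b ∣ ((4 * m : ℕ) : Eis) →
      φ b = 0 ∨ (-φ b) ^ 3 ^ n = 1) :
    A.valuation (SK (4 * m) φ) ^ 2 = A.valuation 3 := by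
  have hm0 : m ≠ 0 := hm.1.ne_zero
  have hM : 4 * m ≠ 0 := mul_ne_zero (by norm_num) hm0
  have hM1 : 1 < 4 * m := by omega
  have h3 : ¬ 3 ∣ 4 * m := n1_not_three m hm
  obtain ⟨T, hT1, hT2⟩ := exists_primes (4 * m) hM h3
  have hch : IsCh (4 * m) (strip T φ) := v2_isCh hφ T hT2
  have hval : ∀ a, IsCoprime a ((4 * m : ℕ) : Eis) → strip T φ a = φ a := by
    intro a ha
    unfold strip
    rw [if_neg]
    rw [hT2 a]
    exact not_not.2 ha
  have hchi' : ∀ a, IsCoprime a ((4 * m : ℕ) : Eis) → (strip T φ a * ch4 a) ^ 3 ^ n = 1 := by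
    intro a ha
    rw [hval a ha]
    exact hχ a ha
  have hG' : IsG (4 * m) (strip T φ) := by
    refine ⟨hch.one, hch.mul, hch.per, hch.unit, fun a => ?_⟩
    unfold strip
    split_ifs
    · rw [norm_zero]
      exact zero_le_one
    · exact hφ.norm a
  obtain ⟨e, he, hL⟩ := L_value_G hM h3
  obtain ⟨Φ', hΦ', hs', h5⟩ := hL _ hG'
  obtain ⟨Φ, hΦ, hs, h6⟩ := hL _ hφ
  -- the Euler factors
  set g : ℂ → ℂ := fun s =>
    (∏ b ∈ T, (1 - φ b * conj (emb b) * ((b.norm.natAbs : ℕ) : ℂ) ^ (-s))) * Φ s with hg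
  have hgd : Differentiable ℂ g := by
    refine Differentiable.mul ?_ hΦ
    refine Differentiable.fun_finsetProd fun b hb => ?_
    have hb0 : b ≠ 0 := (hT1 b hb).2.ne_zero
    have hq0 : ((b.norm.natAbs : ℕ) : ℂ) ≠ 0 := by
      have := a1_norm_pos hb0
      have h2 : b.norm.natAbs ≠ 0 := by omega
      exact_mod_cast h2
    have h1 : Differentiable ℂ fun s : ℂ => ((b.norm.natAbs : ℕ) : ℂ) ^ (-s) := by
      intro s
      exact (differentiableAt_id.neg).const_cpow (Or.inl hq0)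
    exact (differentiable_const _).sub ((differentiable_const _).mul h1)
  have heq : ∀ s : ℂ, 3 / 2 < s.re → Φ' s = g s := by
    intro s hs1
    rw [(hs' s hs1).2, (LSeries_strip hM h3 hφ T hT1 s hs1).2, hg]
    simp only []
    rw [(hs s hs1).2]
  have hall : Φ' = g := by
    refine AnalyticOnNhd.eq_of_eventuallyEq (𝕜 := ℂ) (z₀ := 2)
      (fun z _ => (hΦ'.analyticAt z)) (fun z _ => (hgd.analyticAt z)) ?_
    have hopen : IsOpen {s : ℂ | 3 / 2 < s.re} := isOpen_lt continuous_const Complex.continuous_re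
    filter_upwards [hopen.mem_nhds (show (2 : ℂ) ∈ {s : ℂ | 3 / 2 < s.re} by
      simp only [Set.mem_setOf_eq]; norm_num)] with s hs1
    exact heq s hs1
  have hone : Φ' 1 = (∏ b ∈ T, (1 - φ b * (emb b)⁻¹)) * Φ 1 := by
    rw [hall, hg]
    simp only []
    congr 1
    refine Finset.prod_congr rfl fun b hb => ?_
    rw [Complex.cpow_neg_one, mul_assoc, v2_conj b (hT1 b hb).2.ne_zero]
  obtain ⟨K, hK0, hK⟩ := XX_F
  obtain ⟨r1, z1⟩ := rsum_zero_G m hm φ hφ n hχ
  obtain ⟨r2, z2⟩ := rsum_zero_G m hm _ hG' n hchi'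
  rw [sum_SK_G (4 * m) hM1 h3 K hK φ hφ r1 z1] at h6
  rw [sum_SK_G (4 * m) hM1 h3 K hK _ hG' r2 z2] at h5
  have hcop3 : IsCoprime (3 : Eis) ((4 * m : ℕ) : Eis) := by
    have h7 : IsCoprime ((3 : ℕ) : ℤ) ((4 * m : ℕ) : ℤ) :=
      Nat.isCoprime_iff_coprime.2 ((Nat.Prime.coprime_iff_not_dvd Nat.prime_three).2 h3)
    have h8 := h7.map (Int.castRingHom Eis)
    simpa using h8
  have he3 : strip T φ 3 = φ 3 := hval 3 hcop3
  have hφ3 : φ 3 ≠ 0 := by
    intro h
    have h7 := hχ 3 hcop3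
    rw [h, zero_mul, zero_pow (by positivity)] at h7
    exact zero_ne_one h7
  have he0 : (e : ℂ) ≠ 0 := by
    intro h
    have h7 : e = 0 := by exact_mod_cast h
    rw [h7] at he
    norm_num at he
  have hM0 : ((4 * m : ℕ) : ℂ) ≠ 0 := by exact_mod_cast hM
  have hSK : SK (4 * m) (strip T φ) = (∏ b ∈ T, (1 - φ b * (emb b)⁻¹)) * SK (4 * m) φ := by
    rw [h5, h6, he3] at hone
    have hc : (e : ℂ) * φ 3 / (18 * ((4 * m : ℕ) : ℂ)) * K ≠ 0 :=
      mul_ne_zero (div_ne_zero (mul_ne_zero he0 hφ3) (mul_ne_zero (by norm_num) hM0)) hK0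
    apply mul_left_cancel₀ hc
    linear_combination hone
  have hprod : A.valuation (∏ b ∈ T, (1 - φ b * (emb b)⁻¹)) = 1 := by
    rw [map_prod]
    refine Finset.prod_eq_one fun b hbT => ?_
    have := eis_isDomain
    have := eis_pid
    obtain ⟨hp, hpr⟩ := hT1 b hbT
    have hdvd : b ∣ ((4 * m : ℕ) : Eis) := by
      by_contra hnd
      have h7 : ¬ IsCoprime b ((4 * m : ℕ) : Eis) := (hT2 b).1 ⟨b, hbT, dvd_rfl⟩
      exact h7 ((Irreducible.coprime_iff_not_dvd hpr.irreducible).2 hnd)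
    exact v2_factor A hA b hp (φ b) n (hb b hp hpr hdvd)
  have hfin := SB3.SK_val A hA m hm _ hch n hchi'
  rw [hSK, map_mul, hprod, one_mul] at hfin
  exact hfin

end R3S
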