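import Pool.Agent.MP_9ab903_nt.RS.VDefs
import Pool.Agent.MP_9ab903_nt.A3.A4
import Pool.Agent.MP_9ab903_nt.A3.A5

set_option autoImplicit false

open scoped ComplexConjugate Classical
open Filter Topology NumberField CM27 CMT CF BS3 SB3 RF

namespace R3S

/-! ## [RS-V3] the Galois action on `SK` and on the characters (file V3.lean) -/

theorem v3_per (M : ℕ) (hM : M ≠ 0) (ψ' : Eis → ℂ) (hψ : IsG M ψ') (u a b : Eis) :
    ψ' (a + (M : Eis) * b) * (1 + XX (emb ((a + (M : Eis) * b) * u) / M))⁻¹ =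
      ψ' a * (1 + XX (emb (a * u) / M))⁻¹ := by
  have hM' : (M : ℂ) ≠ 0 := Nat.cast_ne_zero.2 hM
  have h1 : emb ((a + (M : Eis) * b) * u) / M = emb (a * u) / M + emb (b * u) := by
    rw [map_mul, map_add, map_mul, map_natCast, map_mul, map_mul]
    field_simp
    try ring
  rw [hψ.per, h1, XX_add]

/-- `SB3.SK_gal` (A3/A4.lean) for `IsG` in place of `IsCh` (only `per` and `mul` are used). -/
theorem SK_gal_G (M : ℕ) (hM : M ≠ 0) (σ : ℂ ≃+* ℂ) (u : Eis) (hu : IsCoprime u (M : Eis))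
    (ψ ψ' : Eis → ℂ) (hψ : IsG M ψ') (hx : ActX M σ u)
    (h1 : σ w = w → ∀ c, σ (ψ c) = ψ' c) (h2 : σ w = conj w → ∀ c, σ (ψ c) = ψ' (star c)) :
    σ (SK M ψ) * ψ' u = SK M ψ' := by
  have hper := v3_per M hM ψ' hψ
  have hg : rsum M (fun v => ψ' v * (1 + XX (emb (v * u) / M))⁻¹) * ψ' u = SK M ψ' := by
    rw [q4_rsum_smul]
    have hf : ∀ a b : Eis, (fun v => ψ' v * (1 + XX (emb v / M))⁻¹) (a + (M : Eis) * b) =
        (fun v => ψ' v * (1 + XX (emb v / M))⁻¹) a := by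
      intro a b
      have h := hper 1 a b
      rw [mul_one, mul_one] at h
      exact h
    have h3 := rsum_mul M hM (fun v => ψ' v * (1 + XX (emb v / M))⁻¹) hf u hu
    unfold SK
    rw [← h3]
    unfold rsum
    refine Finset.sum_congr rfl fun i _ => Finset.sum_congr rfl fun j _ => ?_
    dsimp only
    rw [hψ.mul, mul_comm u]
    ring
  rw [← hg]
  congr 1
  unfold SK
  rw [q4_map_rsum]
  rcases hx with ⟨hw, hc⟩ | ⟨hw, hc⟩
  · unfold rsum
    refine Finset.sum_congr rfl fun i _ => Finset.sum_congr rfl fun j _ => ?_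
    dsimp only
    rw [map_mul, map_inv₀, map_add, map_one, hc, h1 hw]
  · rw [← rsum_star M hM (fun v => ψ' v * (1 + XX (emb (v * u) / M))⁻¹) (hper u)]
    unfold rsum
    refine Finset.sum_congr rfl fun i _ => Finset.sum_congr rfl fun j _ => ?_
    dsimp only
    rw [map_mul, map_inv₀, map_add, map_one, hc, h2 hw]

/-- The components of `gal σ S X` are trivial iff those of `X` are (`MulChar.ringHomComp` with an injective
homomorphism). -/
theorem Xt_gal (σ : ℂ ≃+* ℂ) (S : Finset Eis) (X : XX S) (a : Eis) :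
    Xt S (gal σ S X) a = σ (Xt S X a) := by
  have hinj : Function.Injective (σ : ℂ →+* ℂ) := (σ : ℂ →+* ℂ).injective
  unfold Xt
  rw [map_prod]
  refine Finset.prod_congr rfl fun b _ => ?_
  have h1 : gal σ S X b = 1 ↔ X b = 1 := MulChar.ringHomComp_eq_one_iff hinj
  by_cases h : X b = 1
  · rw [if_pos h, if_pos (h1.2 h), map_one]
  · rw [if_neg h, if_neg (fun h2 => h (h1.1 h2))]
    rfl

theorem v3_ev (σ : ℂ ≃+* ℂ) (S : Finset Eis) (X : XX S) (a : AS S) :
    ev S (gal σ S X) a = σ (ev S X a) := by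
  unfold ev
  rw [map_prod]
  rfl

theorem v3_symm (σ : ℂ ≃+* ℂ) (S : Finset Eis) (X : XX S) : gal σ.symm S (gal σ S X) = X := by
  funext b
  refine MulChar.ext' fun a => ?_
  exact σ.symm_apply_apply (X b a)

theorem v3_mem (σ : ℂ ≃+* ℂ) (S : Finset Eis) (hS : ∀ b ∈ S, NEis b)
    (F : IntermediateField ℚ ℂ) (X : XX S) (hX : X ∈ chF S F) : gal σ S X ∈ chF S F := by
  rw [RF.mem_chF S hS] at hX ⊢
  intro τ hτ
  rw [v3_ev, hX τ hτ, map_one]

/-- `mem_chF`: `ev S (gal σ S X) a = σ (ev S X a)`; the inverse of `gal σ S` is `gal σ.symm S`. -/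
theorem prod_gal (σ : ℂ ≃+* ℂ) (S : Finset Eis) (hS : ∀ b ∈ S, NEis b)
    (F : IntermediateField ℚ ℂ) (f : XX S → ℂ) :
    ∏ X ∈ chF S F, f (gal σ S X) = ∏ X ∈ chF S F, f X :=
  Finset.prod_nbij' (gal σ S) (gal σ.symm S) (fun X hX => v3_mem σ S hS F X hX)
    (fun X hX => v3_mem σ.symm S hS F X hX) (fun X _ => v3_symm σ S X)
    (fun X _ => v3_symm σ.symm S X) (fun _ _ => rfl)

end R3S
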