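import Pool.Agent.MP_9ab903_nt.RS.V3

set_option autoImplicit false

open scoped ComplexConjugate Classical
open Filter Topology NumberField CM27 CMT CF BS3 SB3 RF

namespace R3S

/-! ## [RS-V3b] the Galois action on `PX`, `PY` (file V3b.lean; uses the stubs of V3) -/

section
variable {r m : ℕ} {S : Finset Eis} {F : IntermediateField ℚ ℂ} {n : ℕ} [NumberField F]

theorem v3b_w_ne : w ≠ conj w := by
  intro h
  have h1 := Complex.conj_eq_iff_im.1 h.symm
  have h2 := w_sq
  have h3 := congrArg Complex.re h2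
  rw [Complex.mul_re, h1, Complex.sub_re, Complex.neg_re, Complex.one_re, w_re] at h3
  norm_num at h3

theorem v3b_inv_mem (hS : ∀ b ∈ S, NEis b) (X : XX S) (hX : X ∈ chF S F) : X⁻¹ ∈ chF S F := by
  rw [mem_chF S hS] at hX ⊢
  intro σ hσ
  have h1 := hX σ hσ
  have h2 : ev S X⁻¹ (th S σ) * ev S X (th S σ) = 1 := by
    unfold ev
    rw [← Finset.prod_mul_distrib]
    refine Finset.prod_eq_one fun b _ => ?_
    have h3 : (X⁻¹ b) * (X b) = 1 := by
      rw [Pi.inv_apply, inv_mul_cancel]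
    rw [← MulChar.mul_apply, h3, MulChar.one_apply_coe]
  rw [h1, mul_one] at h2
  exact h2

theorem v3b_inv_val (X : XX S) (a : Eis) (ha : Xt S X a ≠ 0) :
    Xt S X⁻¹ a * Xt S X a = 1 := by
  have h0 := ha
  unfold Xt at h0 ⊢
  rw [← Finset.prod_mul_distrib]
  refine Finset.prod_eq_one fun b hb => ?_
  have h1 := (Finset.prod_ne_zero_iff.1 h0) b hb
  have h2 : X⁻¹ b = 1 ↔ X b = 1 := by rw [Pi.inv_apply, inv_eq_one]
  by_cases h : X b = 1
  · rw [if_pos h, if_pos (h2.2 h), mul_one]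
  · rw [if_neg h, if_neg (fun h' => h (h2.1 h'))]
    rw [if_neg h] at h1
    have hu : IsUnit (Ideal.Quotient.mk (Ideal.span {(b : Eis)}) a) := by
      by_contra hn
      exact h1 ((X b).map_nonunit hn)
    obtain ⟨v, hv⟩ := hu
    rw [← hv]
    have h3 : (X⁻¹ b) * (X b) = 1 := by
      rw [Pi.inv_apply, inv_mul_cancel]
    rw [← MulChar.mul_apply, h3, MulChar.one_apply_coe]

/-- The product `p` of the values at `a` (prime to `m`): `p² = 1` by the involution `X ↦ X⁻¹` of `chF S F`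
(the components of `X⁻¹` are the inverse characters) and `p^(3^(n+1)) = 1` (`v3_val`, `v3_ne`). -/
theorem Dat.prod_one (D : Dat r m S F n) (a : Eis) (ha : IsCoprime a (m : Eis)) :
    ∏ X ∈ chF S F, Xt S X a = 1 := by
  have hne : ∀ X : XX S, Xt S X a ≠ 0 := fun X => v3_ne S X m D.hSd a ha
  have h1 : (∏ X ∈ chF S F, Xt S X a) ^ 3 ^ (n + 1) = 1 := by
    rw [← Finset.prod_pow]
    refine Finset.prod_eq_one fun X hX => ?_
    rcases v3_val S X (n + 1) (fun b => D.pow X hX b) a with h | h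
    · exact absurd h (hne X)
    · exact h
  have h2 : ∏ X ∈ chF S F, Xt S X⁻¹ a = ∏ X ∈ chF S F, Xt S X a := by
    refine Finset.prod_bij' (fun X _ => X⁻¹) (fun X _ => X⁻¹) (fun X hX => v3b_inv_mem D.hS X hX)
      (fun X hX => v3b_inv_mem D.hS X hX) (fun X _ => inv_inv X) (fun X _ => inv_inv X)
      (fun X _ => rfl)
  have h3 : (∏ X ∈ chF S F, Xt S X a) ^ 2 = 1 := by
    rw [sq]
    nth_rewrite 1 [← h2]
    rw [← Finset.prod_mul_distrib]
    exact Finset.prod_eq_one fun X _ => v3b_inv_val X a (hne X)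
  obtain ⟨s, hs⟩ : ∃ s, 3 ^ (n + 1) = 2 * s + 1 := by
    have : Odd (3 ^ (n + 1)) := Odd.pow (by decide)
    exact this
  rw [hs, pow_succ, pow_mul, h3, one_pow, one_mul] at h1
  exact h1

theorem v3b_gal_mem (σ : ℂ ≃+* ℂ) (hS : ∀ b ∈ S, NEis b) (X : XX S) (hX : X ∈ chF S F) :
    gal σ S X ∈ chF S F := by
  rw [mem_chF S hS] at hX ⊢
  intro τ hτ
  have h1 := hX τ hτ
  have h2 : ev S (gal σ S X) (th S τ) = σ (ev S X (th S τ)) := by
    unfold ev
    rw [map_prod]
    rfl
  rw [h2, h1, map_one]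

theorem v3b_key (D : Dat r m S F n) (σ : ℂ ≃+* ℂ) (u : Eis)
    (hu : IsCoprime u ((lev r m : ℕ) : Eis)) (hx : ActX (lev r m) σ u) (P Q : XX S → Eis → ℂ)
    (hQ : ∀ X ∈ chF S F, IsG (lev r m) (Q X))
    (h1 : σ w = w → ∀ X c, σ (P X c) = Q (gal σ S X) c)
    (h2 : σ w = conj w → ∀ X c, σ (P X c) = Q (gal σ S X) (star c))
    (hprod : ∏ X ∈ chF S F, Q X u = ch4 u) :
    σ (∏ X ∈ chF S F, SK (lev r m) (P X)) * ch4 u = ∏ X ∈ chF S F, SK (lev r m) (Q X) := by
  rw [← prod_gal σ S D.hS F (fun X => SK (lev r m) (Q X)), ← hprod,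
    ← prod_gal σ S D.hS F (fun X => Q X u), map_prod, ← Finset.prod_mul_distrib]
  exact Finset.prod_congr rfl fun X hX => SK_gal_G (lev r m) D.lev_ne σ u hu (P X)
    (Q (gal σ S X)) (hQ _ (v3b_gal_mem σ D.hS X hX)) hx (fun h => h1 h X) (fun h => h2 h X)

theorem v3b_coprime (D : Dat r m S F n) (u : Eis) (hu : IsCoprime u ((lev r m : ℕ) : Eis)) :
    IsCoprime u (m : Eis) ∧ IsCoprime u ((2 * r : ℕ) : Eis) := by
  constructor
  · refine hu.of_isCoprime_of_dvd_right ?_
    unfold lev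
    push_cast
    exact ⟨4 * (oddrad r : Eis), by ring⟩
  · rw [coprime_iff] at hu ⊢
    exact int_coprime_of (fun p hp h => prime_dvd_level D.hr m p hp h) hu

theorem v3b_star (u : Eis) (N : ℕ) (hu : IsCoprime u (N : Eis)) : IsCoprime (star u) (N : Eis) := by
  obtain ⟨x, y, hxy⟩ := hu
  refine ⟨star x, star y, ?_⟩
  have h1 := congrArg star hxy
  rw [star_add, star_mul, star_mul, star_natCast, star_one] at h1
  rw [← h1]
  ring

theorem v3b_prod_x (D : Dat r m S F n) (u : Eis) (hu : IsCoprime u ((lev r m : ℕ) : Eis)) :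
    ∏ X ∈ chF S F, px r S X u = ch4 u := by
  obtain ⟨h1, h2⟩ := v3b_coprime D u hu
  unfold px
  rw [Finset.prod_mul_distrib, Finset.prod_const, D.card, D.prod_one u h1, mul_one,
    (phr_pow3 D.hr u h2 n).1]

theorem v3b_prod_y (D : Dat r m S F n) (u : Eis) (hu : IsCoprime u ((lev r m : ℕ) : Eis)) :
    ∏ X ∈ chF S F, py r S X u = ch4 u := by
  obtain ⟨h1, h2⟩ := v3b_coprime D u hu
  unfold py
  rw [Finset.prod_mul_distrib, Finset.prod_const, D.card, D.prod_one _ (v3b_star u m h1), mul_one,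
    (phr_pow3 D.hr u h2 n).1]

/-- `σ w = w`: `σ (px X c) = px (gal σ S X) c` (`phr_gal`, `Xt_gal`), `SK_gal_G` with `ψ' = px (gal σ S X)`,
product over `X ∈ chF S F` (`prod_gal`, `prod_one`, `phr_pow3`, `Dat.card`); same for `py` (`star u` is prime to
`m` too). `σ w = conj w`: `σ (px X c) = phr r (star c) Xt (gal X) c = py (gal X) (star c)`, so
`ψ' = py (gal X)`, and conversely. -/
theorem Dat.PXY_gal (D : Dat r m S F n) (σ : ℂ ≃+* ℂ) (u : Eis)
    (hu : IsCoprime u ((lev r m : ℕ) : Eis)) (hx : ActX (lev r m) σ u) :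
    (σ w = w → σ (PX r (lev r m) S F) * ch4 u = PX r (lev r m) S F ∧
      σ (PY r (lev r m) S F) * ch4 u = PY r (lev r m) S F) ∧
    (σ w = conj w → σ (PX r (lev r m) S F) * ch4 u = PY r (lev r m) S F ∧
      σ (PY r (lev r m) S F) * ch4 u = PX r (lev r m) S F) := by
  have hGx : ∀ X ∈ chF S F, IsG (lev r m) (px r S X) := fun X hX => (D.isGx X hX).1
  have hGy : ∀ X ∈ chF S F, IsG (lev r m) (py r S X) := fun X hX => (D.isGy X hX).1
  have hpx := v3b_prod_x D u hu
  have hpy := v3b_prod_y D u hu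
  constructor
  · intro hw
    have hno : ¬ σ w = conj w := fun h => v3b_w_ne (hw.symm.trans h)
    constructor
    · refine v3b_key D σ u hu hx (fun X => px r S X) (fun X => px r S X) hGx ?_
        (fun h => absurd h hno) hpx
      intro _ X c
      change σ (phr r c * Xt S X c) = phr r c * Xt S (gal σ S X) c
      rw [map_mul, (phr_gal D.hr σ c).1 hw, Xt_gal]
    · refine v3b_key D σ u hu hx (fun X => py r S X) (fun X => py r S X) hGy ?_
        (fun h => absurd h hno) hpy
      intro _ X c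
      change σ (phr r c * Xt S X (star c)) = phr r c * Xt S (gal σ S X) (star c)
      rw [map_mul, (phr_gal D.hr σ c).1 hw, Xt_gal]
  · intro hw
    have hno : ¬ σ w = w := fun h => v3b_w_ne (h.symm.trans hw)
    constructor
    · refine v3b_key D σ u hu hx (fun X => px r S X) (fun X => py r S X) hGy
        (fun h => absurd h hno) ?_ hpy
      intro _ X c
      change σ (phr r c * Xt S X c) = phr r (star c) * Xt S (gal σ S X) (star (star c))
      rw [map_mul, (phr_gal D.hr σ c).2 hw, Xt_gal, star_star]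
    · refine v3b_key D σ u hu hx (fun X => py r S X) (fun X => px r S X) hGx
        (fun h => absurd h hno) ?_ hpx
      intro _ X c
      change σ (phr r c * Xt S X (star c)) = phr r (star c) * Xt S (gal σ S X) (star c)
      rw [map_mul, (phr_gal D.hr σ c).2 hw, Xt_gal]

end

end R3S
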