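import Pool.Agent.MP_9ab903_nt.RS.V1
import Pool.Agent.MP_9ab903_nt.RS.V1b
import Pool.Agent.MP_9ab903_nt.RS.V3b
import Pool.Agent.MP_9ab903_nt.A3.VAL

set_option autoImplicit false

open scoped ComplexConjugate Classical
open Filter Topology NumberField CM27 CMT CF BS3 SB3 RF

namespace R3S

/-! ## [RS-V4] the values at `s = 1` (file V4.lean; uses the stubs of V1, V1b, V3b) -/

theorem v4_dg1 (r : ℕ) (S : Finset Eis) (X : XX S) :
    (fun k => Dg (hx r S X) k) = cf (px r S X) := by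
  funext k
  rw [Dg_apply, cf]
  rfl

theorem v4_dg2 (r : ℕ) (S : Finset Eis) (X : XX S) :
    (fun k => Dg (hy r S X) k) = cf (py r S X) := by
  funext k
  rw [Dg_apply, cf, ← primSet_star]
  refine Finset.sum_congr rfl fun a _ => ?_
  rw [hy, CM27.emb_star, star_star, py]

theorem v4_phr_three {r : ℕ} (hr : Adm r) : phr r 3 = 1 := by
  have h3 : (3 : Eis) = ((3 : ℤ) : Eis) := by norm_cast
  have h2 : ch4 (3 : Eis) = 1 := by
    rw [h3]
    exact z8_ch4_int 3 (by decide)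
  have h5 : kapn (2 * r) (3 : Eis) = 1 := by
    rw [h3]
    refine kapn_int (2 * r) hr.not_three 3 ?_
    have : Nat.Coprime 3 (2 * r) := (Nat.Prime.coprime_iff_not_dvd Nat.prime_three).2 hr.not_three
    exact_mod_cast Nat.isCoprime_iff_coprime.2 this
  rw [phr, h2, h5, one_mul]

theorem v4_coprime {m : ℕ} (hm : Good m) : IsCoprime (3 : Eis) (m : Eis) := by
  have h1 : ((3 : Eis)).norm = 9 := by
    rw [norm_eq]
    have h4 : (3 : Eis).re = 3 := rfl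
    have h4' : (3 : Eis).im = 0 := rfl
    rw [h4, h4']
    norm_num
  rw [coprime_iff, h1]
  have h3 : ¬ 3 ∣ m := hm.not_dvd Nat.prime_three (by norm_num)
  have : Nat.Coprime 9 m := by
    have := (Nat.Prime.coprime_iff_not_dvd Nat.prime_three).2 h3
    exact Nat.Coprime.pow_left 2 this
  exact_mod_cast Nat.isCoprime_iff_coprime.2 this

section
variable {r m : ℕ} {S : Finset Eis} {F : IntermediateField ℚ ℂ} {n : ℕ} [NumberField F]

/-- The values for one character: with `K` from `XX_F_const` and the `e` from `L_value_G (lev r m)`;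
`Dg (hx r S X) = cf (px r S X)`, `Dg (hy r S X) = cf (py r S X)` (see the end of `RF.value_X`, V3.lean). -/
theorem Dat.values (D : Dat r m S F n) : ∃ e : ℤ, e ^ 2 = 1 ∧ ∀ X ∈ chF S F,
    ∃ Φ₁ Φ₂ : ℂ → ℂ, Differentiable ℂ Φ₁ ∧ Differentiable ℂ Φ₂ ∧
      (∀ s : ℂ, 3 / 2 < s.re → LSeriesSummable (fun k => Dg (hx r S X) k) s ∧
        Φ₁ s = LSeries (fun k => Dg (hx r S X) k) s) ∧
      (∀ s : ℂ, 3 / 2 < s.re → LSeriesSummable (fun k => Dg (hy r S X) k) s ∧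
        Φ₂ s = LSeries (fun k => Dg (hy r S X) k) s) ∧
      Φ₁ 1 = e * (((√3 : ℝ) : ℂ) * Om / (6 * lev r m)) * px r S X 3 * SK (lev r m) (px r S X) ∧
      Φ₂ 1 = e * (((√3 : ℝ) : ℂ) * Om / (6 * lev r m)) * py r S X 3 * SK (lev r m) (py r S X) := by
  obtain ⟨K, hK2, hK⟩ := XX_F_const
  obtain ⟨e, he, hval⟩ := L_value_G D.lev_ne D.lev_three
  obtain ⟨δ, hδ, hKe⟩ : ∃ δ : ℤ, δ ^ 2 = 1 ∧ K / 18 = δ * (((√3 : ℝ) : ℂ) * Om / 6) := by
    have h3 : (((√3 : ℝ) : ℂ)) ^ 2 = 3 := by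
      rw [← Complex.ofReal_pow, Real.sq_sqrt (by norm_num)]
      norm_num
    have h1 : (K - 3 * (((√3 : ℝ) : ℂ) * Om)) * (K + 3 * (((√3 : ℝ) : ℂ) * Om)) = 0 := by
      linear_combination hK2 - 9 * (Om : ℂ) ^ 2 * h3
    rcases mul_eq_zero.1 h1 with h2 | h2
    · exact ⟨1, by norm_num, by push_cast; linear_combination h2 / 18⟩
    · exact ⟨-1, by norm_num, by push_cast; linear_combination h2 / 18⟩
  have hM1 : 1 < lev r m := by
    have := Nat.pos_of_ne_zero D.good.ne_zero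
    unfold lev
    omega
  have hMC : ((lev r m : ℕ) : ℂ) ≠ 0 := by exact_mod_cast D.lev_ne
  have key : ∀ φ : Eis → ℂ, IsG (lev r m) φ ∧ (∀ a, IsCoprime a ((lev r m : ℕ) : Eis) →
      (φ a * ch4 a) ^ 3 ^ (n + 2) = 1) → ∃ Φ : ℂ → ℂ, Differentiable ℂ Φ ∧
      (∀ s : ℂ, 3 / 2 < s.re → LSeriesSummable (cf φ) s ∧ Φ s = LSeries (cf φ) s) ∧
      Φ 1 = (e * δ : ℤ) * (((√3 : ℝ) : ℂ) * Om / (6 * lev r m)) * φ 3 * SK (lev r m) φ := by
    intro φ hφ
    obtain ⟨Φ, h1, h2, h3⟩ := hval φ hφ.1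
    obtain ⟨h4, h5⟩ := rsum_zero_G (oddrad r * m) D.good φ hφ.1 (n + 2) hφ.2
    refine ⟨Φ, h1, h2, ?_⟩
    rw [h3, sum_SK_G (lev r m) hM1 D.lev_three K hK φ hφ.1 h4 h5]
    have h6 : (e : ℂ) * φ 3 / (18 * lev r m) * (K * SK (lev r m) φ) =
        (K / 18) * (e * φ 3 / lev r m * SK (lev r m) φ) := by
      field_simp
    rw [h6, hKe]
    push_cast
    field_simp
  refine ⟨e * δ, by rw [mul_pow, he, hδ, one_mul], fun X hX => ?_⟩
  obtain ⟨Φ₁, a1, a2, a3⟩ := key _ (D.isGx X hX)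
  obtain ⟨Φ₂, b1, b2, b3⟩ := key _ (D.isGy X hX)
  rw [v4_dg1, v4_dg2]
  exact ⟨Φ₁, Φ₂, a1, b1, a2, b2, a3, b3⟩

/-- `phr r 3 = 1` (see `SB3.phc_three` in A3/VAL.lean), `prod_one` for `a = 3`, `star 3 = 3`. -/
theorem Dat.prod_three (D : Dat r m S F n) :
    ∏ X ∈ chF S F, px r S X 3 = 1 ∧ ∏ X ∈ chF S F, py r S X 3 = 1 := by
  have h1 := D.prod_one 3 (v4_coprime ((nlevel_iff m).1 D.hm))
  have h3 : star (3 : Eis) = 3 := by
    have : (3 : Eis) = ((3 : ℕ) : Eis) := by norm_cast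
    rw [this, star_natCast]
  constructor
  · rw [← h1]
    refine Finset.prod_congr rfl fun X _ => ?_
    rw [px, v4_phr_three D.hr, one_mul]
  · rw [← h1]
    refine Finset.prod_congr rfl fun X _ => ?_
    rw [py, v4_phr_three D.hr, one_mul, h3]

end

end R3S
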