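import Pool.Agent.MP_9ab903_nt.A3.A2
import Pool.Agent.MP_ae0bd0_nt.RF.V3

/-!
# [RS] the 3-part of strong BSD for `y² = x³ - r²` over the fields of degree `3^(n+1)` and `2 · 3^(n+1)`
inside of the ray class fields of `ℚ(ω)`: definitions for the analytic part
-/

set_option autoImplicit false

open scoped ComplexConjugate Classical
open NumberField CM27 CMT CF BS3 SB3 RF

namespace R3S

/-- The level. -/
def lev (r m : ℕ) : ℕ := 4 * (oddrad r * m)

/-- the characters `φ_r X` -/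
noncomputable def px (r : ℕ) (S : Finset Eis) (X : XX S) (a : Eis) : ℂ := phr r a * Xt S X a

/-- the characters `φ_r(a) X(ā)` -/
noncomputable def py (r : ℕ) (S : Finset Eis) (X : XX S) (a : Eis) : ℂ :=
  phr r a * Xt S X (star a)

/-- the product of the algebraic parts of the `L`-values of the characters `φ_r X`, `X` a character of `F` -/
noncomputable def PX (r N : ℕ) (S : Finset Eis) (F : IntermediateField ℚ ℂ) : ℂ :=
  ∏ X ∈ chF S F, SK N (px r S X)

/-- the same for the characters `φ_r(a) X(ā)` -/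
noncomputable def PY (r N : ℕ) (S : Finset Eis) (F : IntermediateField ℚ ℂ) : ℂ :=
  ∏ X ∈ chF S F, SK N (py r S X)

/-- the conjugate of a character -/
noncomputable def gal (σ : ℂ ≃+* ℂ) (S : Finset Eis) (X : XX S) : XX S :=
  fun b => (X b).ringHomComp (σ : ℂ →+* ℂ)

/-- the common hypotheses -/
structure Dat (r m : ℕ) (S : Finset Eis) (F : IntermediateField ℚ ℂ) (n : ℕ) : Prop where
  hr : Adm r
  hm : NLevel m
  hrm : ∀ p, p.Prime → p ∣ r → ¬ p ∣ m
  hS : ∀ b ∈ S, NEis b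
  hSd : ∀ b ∈ S, b ∣ (m : Eis)
  hw : w ∈ F
  hF : F ≤ LS S
  hU : ∀ X ∈ chF S F, UTriv S X
  hd : Module.finrank ℚ F = 2 * 3 ^ (n + 1)

section
variable {r m : ℕ} {S : Finset Eis} {F : IntermediateField ℚ ℂ} {n : ℕ} [NumberField F]

theorem Dat.good (D : Dat r m S F n) : Good (oddrad r * m) :=
  good_mul (good_oddrad D.hr) ((nlevel_iff m).1 D.hm)
    (fun p hp h => D.hrm p hp ((dvd_oddrad D.hr.ne_zero hp).1 h).1)

theorem Dat.pow (D : Dat r m S F n) (X : XX S) (hX : X ∈ chF S F) (b : {x // x ∈ S}) :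
    X b ^ 3 ^ (n + 1) = 1 := pow_chF S D.hS F D.hw D.hF (3 ^ (n + 1)) D.hd X hX b

theorem Dat.card (D : Dat r m S F n) : (chF S F).card = 3 ^ (n + 1) := by
  have h1 := card_chF S D.hS F D.hw D.hF
  rw [D.hd] at h1
  exact Nat.eq_of_mul_eq_mul_left two_pos h1

/-- `px` is a character of level `lev r m` -/
theorem Dat.isGx (D : Dat r m S F n) (X : XX S) (hX : X ∈ chF S F) :
    IsG (lev r m) (px r S X) ∧ ∀ a, IsCoprime a ((lev r m : ℕ) : Eis) →
      (px r S X a * ch4 a) ^ 3 ^ (n + 2) = 1 :=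
  isG_X D.hr m D.hm S D.hS D.hSd X (D.hU X hX) (n + 1) (D.pow X hX)

theorem Dat.isGy (D : Dat r m S F n) (X : XX S) (hX : X ∈ chF S F) :
    IsG (lev r m) (py r S X) ∧ ∀ a, IsCoprime a ((lev r m : ℕ) : Eis) →
      (py r S X a * ch4 a) ^ 3 ^ (n + 2) = 1 :=
  isG_X_star D.hr m D.hm S D.hS D.hSd X (D.hU X hX) (n + 1) (D.pow X hX)

theorem Dat.lev_ne (D : Dat r m S F n) : lev r m ≠ 0 :=
  mul_ne_zero (by norm_num) D.good.ne_zero

theorem Dat.lev_three (D : Dat r m S F n) : ¬ 3 ∣ lev r m := n1_not_three _ D.good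

end

end R3S
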